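import Mathlib

set_option autoImplicit false
open MeasureTheory Filter Topology Metric
open scoped ENNReal

/-! Characters on the circle: Lipschitz bound, orthogonality on finite subgroups, covers. -/

namespace Helper58.FH

/-- the circle -/
abbrev Tor := AddCircle (1 : ℝ)

lemma norm_fourier (n : ℤ) (x : Tor) : ‖(fourier n x : ℂ)‖ = 1 := by
  rw [fourier_apply]; exact Circle.norm_coe _

lemma fourier_add_arg (n : ℤ) (x y : Tor) :
    (fourier n (x + y) : ℂ) = fourier n x * fourier n y := by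
  rw [fourier_apply, fourier_apply, fourier_apply, smul_add, AddCircle.toCircle_add]
  rfl

lemma exists_rep (y : Tor) : ∃ t : ℝ, (t : Tor) = y ∧ |t| = ‖y‖ := by
  induction y using QuotientAddGroup.induction_on with
  | H z =>
    refine ⟨z - round z, ?_, (UnitAddCircle.norm_eq).symm⟩
    have : ((round z : ℝ) : Tor) = 0 := by
      rw [AddCircle.coe_eq_zero_iff]
      exact ⟨round z, by simp⟩
    rw [AddCircle.coe_sub, this, sub_zero]

lemma norm_coe_le (x : ℝ) : ‖((x : ℝ) : Tor)‖ ≤ |x| := by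
  rw [UnitAddCircle.norm_eq]
  have := round_le x 0
  simpa using this

lemma fourier_sub_one (n : ℤ) (y : Tor) : ‖(fourier n y : ℂ) - 1‖ ≤ 2 * Real.pi * |n| * ‖y‖ := by
  obtain ⟨t, rfl, ht⟩ := exists_rep y
  rw [← ht, fourier_coe_apply]
  have e : (2 * Real.pi * Complex.I * n * t / (1 : ℝ) : ℂ) =
      Complex.I * ((2 * Real.pi * n * t : ℝ) : ℂ) := by
    push_cast; ring
  rw [e]
  have h := Real.norm_exp_I_mul_ofReal_sub_one_le (x := 2 * Real.pi * n * t)
  refine h.trans (le_of_eq ?_)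
  rw [Real.norm_eq_abs, abs_mul, abs_mul, abs_mul, abs_of_pos Real.pi_pos, abs_two]
  simp

lemma fourier_lip (n : ℤ) (x y : Tor) :
    ‖(fourier n x : ℂ) - fourier n y‖ ≤ 2 * Real.pi * |n| * ‖x - y‖ := by
  have e : (fourier n x : ℂ) - fourier n y = fourier n y * (fourier n (x - y) - 1) := by
    have : x = y + (x - y) := by abel
    conv_lhs => rw [this, fourier_add_arg]
    ring
  rw [e, norm_mul, norm_fourier, one_mul]
  exact fourier_sub_one n _

/-- the points of order dividing `m` -/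
noncomputable def dd (m j : ℕ) : Tor := ((j / m : ℝ) : Tor)

lemma sum_dd (m : ℕ) (hm : 0 < m) (n : ℤ) :
    ∑ j ∈ Finset.range m, (fourier n (dd m j) : ℂ) = if (m : ℤ) ∣ n then (m : ℂ) else 0 := by
  have hmc : (m : ℂ) ≠ 0 := by exact_mod_cast hm.ne'
  have hprim : IsPrimitiveRoot (Complex.exp (2 * Real.pi * Complex.I / m)) m :=
    Complex.isPrimitiveRoot_exp m hm.ne'
  set ζ := Complex.exp (2 * Real.pi * Complex.I / m) with hζ
  have e1 : ∀ j : ℕ, (fourier n (dd m j) : ℂ) = (ζ ^ n) ^ j := by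
    intro j
    unfold dd
    rw [fourier_coe_apply, ← zpow_natCast, ← zpow_mul, hζ, ← Complex.exp_int_mul]
    congr 1
    push_cast
    field_simp
  simp only [e1]
  split_ifs with h
  · have : ζ ^ n = 1 := (hprim.zpow_eq_one_iff_dvd n).mpr h
    simp [this]
  · have h1 : ζ ^ n ≠ 1 := fun hh => h ((hprim.zpow_eq_one_iff_dvd n).mp hh)
    rw [geom_sum_eq h1]
    have : (ζ ^ n) ^ m = 1 := by
      rw [← zpow_natCast, ← zpow_mul, mul_comm, zpow_mul, zpow_natCast, hprim.pow_eq_one, one_zpow]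
    rw [this]; simp

/-- **fibre orthogonality** -/
lemma fibre {ι : Type*} [DecidableEq ι] (Ω : Finset ι) (ν : ι → ℤ) (m : ℕ) (hm : 0 < m) (B : ℕ)
    (hB : ∀ a ∈ Ω, (Ω.filter (fun b => (m : ℤ) ∣ ν a - ν b)).card ≤ B) (x : Tor) :
    ∑ j ∈ Finset.range m, ‖∑ a ∈ Ω, (fourier (ν a) (x + dd m j) : ℂ)‖ ^ 2 ≤ m * (Ω.card * B) := by
  have e1 : ∀ j : ℕ, ((‖∑ a ∈ Ω, (fourier (ν a) (x + dd m j) : ℂ)‖ ^ 2 : ℝ) : ℂ) =
      ∑ a ∈ Ω, ∑ b ∈ Ω, (fourier (ν a - ν b) x : ℂ) * fourier (ν a - ν b) (dd m j) := by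
    intro j
    rw [Complex.ofReal_pow, ← Complex.mul_conj', map_sum, Finset.sum_mul_sum]
    refine Finset.sum_congr rfl fun a _ => Finset.sum_congr rfl fun b _ => ?_
    rw [← fourier_neg, ← fourier_add, ← fourier_add_arg, sub_eq_add_neg]
  have e2 : ((∑ j ∈ Finset.range m, ‖∑ a ∈ Ω, (fourier (ν a) (x + dd m j) : ℂ)‖ ^ 2 : ℝ) : ℂ) =
      ∑ a ∈ Ω, ∑ b ∈ Ω, (fourier (ν a - ν b) x : ℂ) *
        (if (m : ℤ) ∣ ν a - ν b then (m : ℂ) else 0) := by
    push_cast
    have : ∀ j : ℕ, (‖∑ a ∈ Ω, (fourier (ν a) (x + dd m j) : ℂ)‖ : ℂ) ^ 2 =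
        ∑ a ∈ Ω, ∑ b ∈ Ω, (fourier (ν a - ν b) x : ℂ) * fourier (ν a - ν b) (dd m j) := by
      intro j; rw [← e1]; push_cast; rfl
    simp only [this]
    rw [Finset.sum_comm]
    refine Finset.sum_congr rfl fun a _ => ?_
    rw [Finset.sum_comm]
    refine Finset.sum_congr rfl fun b _ => ?_
    rw [← Finset.mul_sum, sum_dd m hm]
  have e3 : ‖((∑ j ∈ Finset.range m, ‖∑ a ∈ Ω, (fourier (ν a) (x + dd m j) : ℂ)‖ ^ 2 : ℝ) : ℂ)‖
      ≤ m * (Ω.card * B) := by
    rw [e2]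
    refine (norm_sum_le _ _).trans ?_
    have e4 : ∀ a ∈ Ω, ‖∑ b ∈ Ω, (fourier (ν a - ν b) x : ℂ) *
        (if (m : ℤ) ∣ ν a - ν b then (m : ℂ) else 0)‖ ≤ m * B := by
      intro a ha
      refine (norm_sum_le _ _).trans ?_
      have e5 : ∀ b : ι, ‖(fourier (ν a - ν b) x : ℂ) *
          (if (m : ℤ) ∣ ν a - ν b then (m : ℂ) else 0)‖ =
          if (m : ℤ) ∣ ν a - ν b then (m : ℝ) else 0 := by
        intro b
        rw [norm_mul, norm_fourier, one_mul]
        split_ifs <;> simp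
      simp only [e5]
      rw [← Finset.sum_filter, Finset.sum_const, nsmul_eq_mul, mul_comm]
      gcongr
      exact hB a ha
    refine (Finset.sum_le_sum e4).trans ?_
    rw [Finset.sum_const, nsmul_eq_mul]
    apply le_of_eq; ring
  rw [Complex.norm_real, Real.norm_eq_abs] at e3
  exact (le_abs_self _).trans e3

/-! ### a cover of the circle by balls with bounded overlap -/

lemma exists_center (Q : ℕ) (hQ : 0 < Q) (x : Tor) :
    ∃ i ∈ Finset.range Q, ‖x - ((i / Q : ℝ) : Tor)‖ ≤ 1 / Q := by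
  have hQr : (0 : ℝ) < Q := by exact_mod_cast hQ
  induction x using QuotientAddGroup.induction_on with
  | H z =>
    have hf0 := Int.fract_nonneg z
    have hf1 := Int.fract_lt_one z
    refine ⟨⌊(Q : ℝ) * Int.fract z⌋₊, ?_, ?_⟩
    · rw [Finset.mem_range, Nat.floor_lt (by positivity)]
      nlinarith
    · have e : ((z : ℝ) : Tor) - (((⌊(Q : ℝ) * Int.fract z⌋₊ : ℝ) / Q : ℝ) : Tor) =
          ((Int.fract z - (⌊(Q : ℝ) * Int.fract z⌋₊ : ℝ) / Q : ℝ) : Tor) := by
        rw [AddCircle.coe_sub]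
        congr 1
        have : ((⌊z⌋ : ℝ) : Tor) = 0 := by
          rw [AddCircle.coe_eq_zero_iff]
          exact ⟨⌊z⌋, by simp⟩
        rw [Int.fract, AddCircle.coe_sub, this, sub_zero]
      show ‖((z : ℝ) : Tor) - _‖ ≤ _
      rw [e]
      refine (norm_coe_le _).trans ?_
      have h1 := Nat.floor_le (show 0 ≤ (Q : ℝ) * Int.fract z by positivity)
      have h2 := Nat.lt_floor_add_one ((Q : ℝ) * Int.fract z)
      rw [abs_le]
      constructor
      · rw [neg_le_sub_iff_le_add, div_le_iff₀ hQr]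
        have : (Int.fract z + 1 / Q) * Q = Q * Int.fract z + 1 := by field_simp
        rw [this]; linarith
      · rw [sub_le_iff_le_add, ← add_div, le_div_iff₀ hQr]
        nlinarith

lemma card_Icc_le (a b : ℝ) (h : a ≤ b) : ((Finset.Icc ⌈a⌉ ⌊b⌋).card : ℝ) ≤ b - a + 1 := by
  rw [Int.card_Icc]
  have h1 := Int.floor_le b
  have h2 := Int.le_ceil a
  rcases le_or_gt 0 (⌊b⌋ + 1 - ⌈a⌉) with h3 | h3
  · have h4 : (((⌊b⌋ + 1 - ⌈a⌉).toNat : ℤ) : ℝ) = ((⌊b⌋ + 1 - ⌈a⌉ : ℤ) : ℝ) := by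
      rw [Int.toNat_of_nonneg h3]
    rw [Int.cast_natCast] at h4
    rw [h4]; push_cast; linarith
  · rw [Int.toNat_of_nonpos h3.le]
    push_cast; linarith

open Classical in
lemma overlap (Q : ℕ) (hQ : 0 < Q) (y : Tor) (ρ : ℝ) (hρ : 0 < ρ) :
    (((Finset.range Q).filter (fun i : ℕ => ‖y - ((i / Q : ℝ) : Tor)‖ < ρ)).card : ℝ) ≤
      2 * ρ * Q + 1 := by
  have hQr : (0 : ℝ) < Q := by exact_mod_cast hQ
  induction y using QuotientAddGroup.induction_on with
  | H z =>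
    set f : ℕ → ℤ := fun i => i + Q * round (z - i / Q) with hf
    have hnorm : ∀ i : ℕ, ‖((z : ℝ) : Tor) - ((i / Q : ℝ) : Tor)‖ = |z - i / Q - round (z - (i:ℝ) / Q)| := by
      intro i
      rw [← AddCircle.coe_sub, UnitAddCircle.norm_eq]
    have h1 : ((Finset.range Q).filter (fun i : ℕ => ‖((z : ℝ) : Tor) - ((i / Q : ℝ) : Tor)‖ < ρ)).card
        ≤ (Finset.Icc ⌈Q * z - Q * ρ⌉ ⌊Q * z + Q * ρ⌋).card := by
      apply Finset.card_le_card_of_injOn f
      · intro i hi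
        simp only [Finset.coe_filter, Finset.mem_range, Set.mem_ofPred_eq] at hi
        obtain ⟨hi1, hi2⟩ := hi
        rw [hnorm, abs_lt] at hi2
        simp only [Finset.coe_Icc, Set.mem_Icc, hf]
        rw [Int.ceil_le, Int.le_floor]
        push_cast
        have e : (Q : ℝ) * (z - i / Q - round (z - (i:ℝ) / Q)) =
            Q * z - (i + Q * round (z - (i : ℝ) / Q)) := by field_simp; ring
        have h2 := mul_lt_mul_of_pos_left hi2.1 hQr
        have h3 := mul_lt_mul_of_pos_left hi2.2 hQr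
        rw [e] at h2 h3
        constructor <;> linarith
      · intro i hi j hj hij
        simp only [Finset.coe_filter, Finset.mem_range, Set.mem_ofPred_eq] at hi hj
        have h2 : (i : ℤ) % Q = (j : ℤ) % Q := by
          have h3 := congrArg (fun t : ℤ => t % Q) hij
          simpa [hf] using h3
        have h4 : i % Q = j % Q := by exact_mod_cast h2
        rwa [Nat.mod_eq_of_lt hi.1, Nat.mod_eq_of_lt hj.1] at h4
    have h2 := card_Icc_le (Q * z - Q * ρ) (Q * z + Q * ρ) (by nlinarith)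
    have h3 : (((Finset.range Q).filter (fun i : ℕ =>
      ‖((z : ℝ) : Tor) - ((i / Q : ℝ) : Tor)‖ < ρ)).card : ℝ) ≤
        ((Finset.Icc ⌈Q * z - Q * ρ⌉ ⌊Q * z + Q * ρ⌋).card : ℝ) := by exact_mod_cast h1
    refine h3.trans (h2.trans (le_of_eq ?_))
    ring

end Helper58.FH
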