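import Mathlib

set_option autoImplicit false
open Finset

/-! Powers of two and three modulo powers of a fixed integer. -/

namespace Helper58.FH

lemma n1 (b : ℕ) (hb : Odd b) (K : ℕ) (hK : 1 ≤ K) :
    ∃ c : ℕ, 1 ≤ c ∧ ∀ N j : ℕ, b ^ N ∣ K * (2 ^ j - 1) → b ^ N ∣ c * j := by
  have hb0 : 0 < b := hb.pos
  have hφ : 0 < Nat.totient b := Nat.totient_pos.2 hb0
  set y : ℕ := 2 ^ Nat.totient b with hy
  have hy2 : 2 ≤ y := by
    rw [hy]; calc 2 = 2 ^ 1 := rfl
      _ ≤ _ := Nat.pow_le_pow_right (by norm_num) hφ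
  have hby : b ∣ y - 1 := by
    have h := Nat.ModEq.pow_totient (n := b) (x := 2) (Nat.coprime_two_left.2 hb)
    exact (Nat.modEq_iff_dvd' (by omega)).1 h.symm
  refine ⟨K * (y - 1), Nat.mul_pos hK (by omega), ?_⟩
  intro N j h
  rcases Nat.eq_zero_or_pos j with rfl | hj
  · simp
  have h1 : 2 ^ j - 1 ∣ y ^ j - 1 := by
    have := Nat.sub_dvd_pow_sub_pow (2 ^ j) 1 (Nat.totient b)
    rw [one_pow, ← pow_mul, mul_comm, pow_mul] at this
    exact this
  have h2 : b ^ N ∣ K * (y ^ j - 1) := h.trans (Nat.mul_dvd_mul_left _ h1)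
  have hyj : 2 ≤ y ^ j := hy2.trans (Nat.le_self_pow hj.ne' _)
  rw [← Nat.factorization_prime_le_iff_dvd (by positivity) (by
    have : 0 < y - 1 := by omega
    positivity)]
  intro p hp
  by_cases hpb : p ∣ b
  · haveI : Fact p.Prime := ⟨hp⟩
    have hpo : Odd p := hb.of_dvd_nat hpb
    have hpy : p ∣ y - 1 := hpb.trans hby
    have hpy' : ¬ p ∣ y := by
      intro h3
      have h4 : p ∣ 1 := by
        have := Nat.dvd_sub h3 hpy
        have e : y - (y - 1) = 1 := by omega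
        rwa [e] at this
      exact hp.one_lt.ne' (Nat.dvd_one.1 h4)
    have h3 := (Nat.factorization_le_iff_dvd (by positivity) (by
      have : 0 < y ^ j - 1 := by omega
      positivity)).2 h2 p
    refine h3.trans ?_
    have hy1 : y - 1 ≠ 0 := by omega
    have hyj1 : y ^ j - 1 ≠ 0 := by omega
    rw [Nat.factorization_mul (by omega) hyj1, Nat.factorization_mul (by positivity) (by omega),
      Nat.factorization_mul (by omega) hy1]
    simp only [Finsupp.coe_add, Pi.add_apply]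
    rw [Nat.factorization_def _ hp, Nat.factorization_def _ hp, Nat.factorization_def _ hp,
      Nat.factorization_def _ hp]
    have h5 := padicValNat.pow_sub_pow (p := p) hpo (x := y) (y := 1) (by omega) hpy hpy' hj.ne'
    rw [one_pow] at h5
    rw [h5, add_assoc]
  · have : (b ^ N).factorization p = 0 := by
      rw [Nat.factorization_pow, Finsupp.smul_apply, Nat.factorization_eq_zero_of_not_dvd hpb]
      simp
    rw [this]
    exact Nat.zero_le _

lemma n2 (K : ℕ) (hK : 1 ≤ K) (N j : ℕ) (h : 2 ^ N ∣ K * (3 ^ j - 1)) : 2 ^ N ∣ (8 * K) * j := by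
  rcases Nat.eq_zero_or_pos j with rfl | hj
  · simp
  have h1 : 3 ^ j - 1 ∣ 3 ^ (2 * j) - 1 := by
    have := Nat.sub_dvd_pow_sub_pow (3 ^ j) 1 2
    rw [one_pow, ← pow_mul, mul_comm] at this
    exact this
  have h2 : 2 ^ N ∣ K * (3 ^ (2 * j) - 1) := h.trans (Nat.mul_dvd_mul_left _ h1)
  have h3 : 3 ≤ 3 ^ (2 * j) := Nat.le_self_pow (by omega) _
  have hne : K * (3 ^ (2 * j) - 1) ≠ 0 := by
    have : 0 < 3 ^ (2 * j) - 1 := by omega
    positivity
  haveI : Fact (Nat.Prime 2) := ⟨Nat.prime_two⟩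
  rw [padicValNat_dvd_iff_le hne] at h2
  rw [padicValNat_dvd_iff_le (by positivity)]
  have h4 := padicValNat.pow_two_sub_pow (x := 3) (y := 1) (by norm_num) (by norm_num)
    (by norm_num) (n := 2 * j) (by omega) (by simp)
  rw [one_pow, padicValNat.mul (by norm_num) hj.ne'] at h4
  have e1 : padicValNat 2 (3 + 1) = 2 := by
    rw [show 3 + 1 = 2 ^ 2 by norm_num, padicValNat.prime_pow]
  have e2 : padicValNat 2 (3 - 1) = 1 := by
    rw [show 3 - 1 = 2 by norm_num]; exact padicValNat.self (by norm_num)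
  have e3 : padicValNat 2 2 = 1 := padicValNat.self (by norm_num)
  have e4 : padicValNat 2 8 = 3 := by
    rw [show 8 = 2 ^ 3 by norm_num, padicValNat.prime_pow]
  rw [padicValNat.mul (by omega) (by omega)] at h2
  rw [padicValNat.mul (by positivity) (by omega), padicValNat.mul (by norm_num) (by omega), e4]
  omega

lemma spacing (S : Finset ℕ) (M c q : ℕ) (hc : 1 ≤ c) (hq : 0 < q) (hS : S ⊆ range M)
    (h : ∀ l ∈ S, ∀ l' ∈ S, l < l' → q ∣ c * (l' - l)) : S.card ≤ c * M / q + 1 := by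
  rw [← card_range (c * M / q + 1)]
  have hlt : ∀ l ∈ S, ∀ l' ∈ S, l < l' → c * l / q < c * l' / q := by
    intro l hl l' hl' hll
    have h1 : q ≤ c * (l' - l) := Nat.le_of_dvd (Nat.mul_pos hc (by omega)) (h l hl l' hl' hll)
    have h2 : c * l + q ≤ c * l' := by
      have : c * l' = c * l + c * (l' - l) := by rw [← Nat.mul_add]; congr 1; omega
      omega
    calc c * l / q < c * l / q + 1 := Nat.lt_succ_self _
      _ = (c * l + q) / q := by rw [Nat.add_div_right _ hq]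
      _ ≤ c * l' / q := Nat.div_le_div_right h2
  apply Finset.card_le_card_of_injOn (fun l => c * l / q)
  · intro l hl
    have := mem_range.1 (hS hl)
    simp only [coe_range, Set.mem_Iio]
    have : c * l / q ≤ c * M / q := Nat.div_le_div_right (Nat.mul_le_mul_left _ this.le)
    omega
  · intro l hl l' hl' hll
    rcases lt_trichotomy l l' with h1 | h1 | h1
    · exact absurd hll (hlt l hl l' hl' h1).ne
    · exact h1
    · exact absurd hll (hlt l' hl' l hl h1).ne'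

lemma pow_sub_pow_eq (g i j : ℕ) (hg : 1 ≤ g) (h : i < j) :
    ((g : ℤ) ^ j - (g : ℤ) ^ i) = ((g ^ i * (g ^ (j - i) - 1) : ℕ) : ℤ) := by
  have h1 : 1 ≤ g ^ (j - i) := Nat.one_le_pow _ _ hg
  push_cast [Nat.cast_sub h1]
  rw [mul_sub, mul_one, ← pow_add]
  congr 2
  omega

/-- the index set -/
def Om (L M : ℕ) : Finset ((ℕ × ℕ) × (ℕ × ℕ)) :=
  (range L ×ˢ range L) ×ˢ (range M ×ˢ range M)

/-- the frequencies -/
def nu (k a N : ℕ) (p : (ℕ × ℕ) × (ℕ × ℕ)) : ℤ :=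
  k * (2 ^ p.1.1 * 3 ^ p.2.1 + 2 ^ (p.2.2 + a * N) * 3 ^ p.1.2)

/-- **counting frequencies in residue classes** -/
theorem count (b : ℕ) (hb : 1 ≤ b) (k L : ℕ) (hk : 1 ≤ k) :
    ∃ a b' c : ℕ, 1 ≤ c ∧ b = 2 ^ a * b' ∧ ∀ (N M : ℕ) (t : ℤ),
      ((Om L M).filter (fun p => ((b ^ N : ℕ) : ℤ) ∣ nu k a N p - t)).card ≤
        ((c * M / 2 ^ (a * N) + 1) * (c * M / b' ^ N + 1)) * L ^ 2 := by
  obtain ⟨a, b', hb', hbe⟩ := Nat.exists_eq_two_pow_mul_odd (n := b) (by omega)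
  have hK : 1 ≤ k * 6 ^ L := Nat.mul_pos hk (by positivity)
  obtain ⟨c1, hc1, h1⟩ := n1 b' hb' (k * 6 ^ L) hK
  have hcop2 : ∀ N : ℕ, Nat.Coprime (b' ^ N) 2 := fun N =>
    (Nat.coprime_two_right.2 hb').pow_left N
  refine ⟨a, b', c1 * (8 * (k * 6 ^ L)), by
    have : 1 ≤ 8 * (k * 6 ^ L) := by omega
    exact Nat.mul_pos hc1 this, hbe, ?_⟩
  intro N M t
  set c := c1 * (8 * (k * 6 ^ L)) with hc
  have hcpos : 1 ≤ c := by
    have : 1 ≤ 8 * (k * 6 ^ L) := by omega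
    exact Nat.mul_pos hc1 this
  have hd1 : c1 ∣ c := Dvd.intro _ rfl
  have hd2 : 8 * (k * 6 ^ L) ∣ c := Dvd.intro_left _ rfl
  have hbN1 : ((2 ^ (a * N) : ℕ) : ℤ) ∣ ((b ^ N : ℕ) : ℤ) := by
    rw [Int.natCast_dvd_natCast, hbe, mul_pow, ← pow_mul]
    exact Dvd.intro _ rfl
  have hbN2 : ((b' ^ N : ℕ) : ℤ) ∣ ((b ^ N : ℕ) : ℤ) := by
    rw [Int.natCast_dvd_natCast, hbe, mul_pow]
    exact Dvd.intro_left _ rfl
  have hb'pos : 0 < b' ^ N := Nat.pow_pos hb'.pos
  set S := (Om L M).filter (fun p => ((b ^ N : ℕ) : ℤ) ∣ nu k a N p - t) with hS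
  have hSmem : ∀ p, p ∈ S ↔ ((p.1.1 < L ∧ p.1.2 < L) ∧ (p.2.1 < M ∧ p.2.2 < M)) ∧
      ((b ^ N : ℕ) : ℤ) ∣ nu k a N p - t := by
    intro p
    rw [hS, Om]
    simp only [mem_filter, mem_product, mem_range]
  -- for fixed `i0`, `l0`, `l`: number of `i`
  have hA : ∀ q : (ℕ × ℕ) × ℕ, (S.filter (fun p => (p.1, p.2.1) = q)).card ≤
      c * M / b' ^ N + 1 := by
    rintro ⟨⟨i0, l0⟩, l⟩
    have hcard : (S.filter (fun p => (p.1, p.2.1) = ((i0, l0), l))).card =
        ((S.filter (fun p => (p.1, p.2.1) = ((i0, l0), l))).image (fun p => p.2.2)).card := by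
      rw [card_image_of_injOn]
      rintro ⟨p1, p2, p3⟩ hp ⟨q1, q2, q3⟩ hq hpq
      simp only [coe_filter, Set.mem_ofPred_eq, Prod.mk.injEq] at hp hq
      obtain ⟨-, e1, e2⟩ := hp
      obtain ⟨-, e3, e4⟩ := hq
      have e5 : p3 = q3 := hpq
      rw [e1, e2, e3, e4, e5]
    rw [hcard]
    apply spacing _ M c (b' ^ N) hcpos hb'pos
    · intro i hi
      rw [mem_image] at hi
      obtain ⟨p, hp, rfl⟩ := hi
      rw [mem_filter, hSmem] at hp
      exact mem_range.2 hp.1.1.2.2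
    · intro i hi i' hi' hlt
      rw [mem_image] at hi hi'
      obtain ⟨⟨p1, p2, p3⟩, hp, rfl⟩ := hi
      obtain ⟨⟨q1, q2, q3⟩, hq, rfl⟩ := hi'
      rw [mem_filter, hSmem] at hp hq
      obtain ⟨⟨-, hp1⟩, hp2⟩ := hp
      obtain ⟨⟨⟨⟨-, hl0⟩, -⟩, hq1⟩, hq2⟩ := hq
      simp only [Prod.mk.injEq] at hp2 hq2
      obtain ⟨e1, e2⟩ := hp2
      obtain ⟨e3, e4⟩ := hq2
      subst e1 e2 e3 e4
      simp only at hlt hl0 hp1 hq1 ⊢
      have hd := hbN2.trans (dvd_sub hq1 hp1)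
      have e : nu k a N ((i0, l0), (q2, q3)) - t - (nu k a N ((i0, l0), (q2, p3)) - t) =
          ((k * 3 ^ l0 * (2 ^ (a * N) * 2 ^ p3) * (2 ^ (q3 - p3) - 1) : ℕ) : ℤ) := by
        have h5 := pow_sub_pow_eq 2 p3 q3 (by norm_num) hlt
        have e6 : ((k * 3 ^ l0 * (2 ^ (a * N) * 2 ^ p3) * (2 ^ (q3 - p3) - 1) : ℕ) : ℤ) =
            k * 3 ^ l0 * 2 ^ (a * N) * ((2 ^ p3 * (2 ^ (q3 - p3) - 1) : ℕ) : ℤ) := by
          push_cast; ring
        rw [e6, ← h5]
        simp only [nu]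
        push_cast
        ring
      rw [e, Int.natCast_dvd_natCast] at hd
      have hd3 : b' ^ N ∣ k * 3 ^ l0 * (2 ^ (q3 - p3) - 1) := by
        have : k * 3 ^ l0 * (2 ^ (a * N) * 2 ^ p3) * (2 ^ (q3 - p3) - 1) =
            2 ^ (a * N + p3) * (k * 3 ^ l0 * (2 ^ (q3 - p3) - 1)) := by
          rw [pow_add]; ring
        rw [this] at hd
        exact ((hcop2 N).pow_right _).dvd_of_dvd_mul_left hd
      have hd4 : b' ^ N ∣ k * 6 ^ L * (2 ^ (q3 - p3) - 1) := by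
        refine hd3.trans (Nat.mul_dvd_mul_right (Nat.mul_dvd_mul_left _ ?_) _)
        exact (Nat.pow_dvd_pow 3 hl0.le).trans (pow_dvd_pow_of_dvd (by norm_num) L)
      exact (h1 N _ hd4).trans (Nat.mul_dvd_mul_right hd1 _)
  -- for fixed `i0`, `l0`: number of `l`
  have hB : ∀ q : ℕ × ℕ, (((S.filter (fun p => p.1 = q)).image (fun p => (p.1, p.2.1)))).card ≤
      c * M / 2 ^ (a * N) + 1 := by
    rintro ⟨i0, l0⟩
    have hcard : (((S.filter (fun p => p.1 = (i0, l0))).image (fun p => (p.1, p.2.1)))).card =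
        (((S.filter (fun p => p.1 = (i0, l0))).image (fun p => (p.1, p.2.1))).image
          (fun p => p.2)).card := by
      refine (card_image_of_injOn ?_).symm
      rintro ⟨p1, p2⟩ hp ⟨q1, q2⟩ hq hpq
      simp only [coe_image, coe_filter, Set.mem_image, Set.mem_ofPred_eq, Prod.mk.injEq] at hp hq
      obtain ⟨p', ⟨-, e1⟩, e2, e3⟩ := hp
      obtain ⟨q', ⟨-, e4⟩, e5, e6⟩ := hq
      have e7 : p2 = q2 := hpq
      rw [← e2, ← e5, e1, e4, e7]
    rw [hcard, image_image]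
    apply spacing _ M c (2 ^ (a * N)) hcpos (by positivity)
    · intro i hi
      rw [mem_image] at hi
      obtain ⟨p, hp, rfl⟩ := hi
      rw [mem_filter, hSmem] at hp
      exact mem_range.2 hp.1.1.2.1
    · intro i hi i' hi' hlt
      rw [mem_image] at hi hi'
      obtain ⟨⟨p1, p2, p3⟩, hp, rfl⟩ := hi
      obtain ⟨⟨q1, q2, q3⟩, hq, rfl⟩ := hi'
      rw [mem_filter, hSmem] at hp hq
      obtain ⟨⟨-, hp1⟩, hp2⟩ := hp
      obtain ⟨⟨⟨⟨hi0, -⟩, -⟩, hq1⟩, hq2⟩ := hq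
      simp only [Function.comp_apply] at hlt hp2 hq2 hi0 hp1 hq1 ⊢
      subst hp2 hq2
      have hd := hbN1.trans (dvd_sub hq1 hp1)
      have e : nu k a N ((i0, l0), (q2, q3)) - t - (nu k a N ((i0, l0), (p2, p3)) - t) =
          ((k * 2 ^ i0 * 3 ^ p2 * (3 ^ (q2 - p2) - 1) : ℕ) : ℤ) +
          ((2 ^ (a * N) : ℕ) : ℤ) * (k * (2 ^ q3 - 2 ^ p3) * 3 ^ l0) := by
        have h5 := pow_sub_pow_eq 3 p2 q2 (by norm_num) hlt
        have e6 : ((k * 2 ^ i0 * 3 ^ p2 * (3 ^ (q2 - p2) - 1) : ℕ) : ℤ) =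
            k * 2 ^ i0 * ((3 ^ p2 * (3 ^ (q2 - p2) - 1) : ℕ) : ℤ) := by
          push_cast; ring
        rw [e6, ← h5]
        simp only [nu]
        push_cast
        rw [pow_add, pow_add]
        ring
      rw [e, dvd_add_left (Dvd.intro _ rfl), Int.natCast_dvd_natCast] at hd
      have hd3 : 2 ^ (a * N) ∣ k * 2 ^ i0 * (3 ^ (q2 - p2) - 1) := by
        have : k * 2 ^ i0 * 3 ^ p2 * (3 ^ (q2 - p2) - 1) =
            3 ^ p2 * (k * 2 ^ i0 * (3 ^ (q2 - p2) - 1)) := by ring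
        rw [this] at hd
        have hcop : Nat.Coprime (2 ^ (a * N)) (3 ^ p2) :=
          Nat.Coprime.pow _ _ (by norm_num)
        exact hcop.dvd_of_dvd_mul_left hd
      have hd4 : 2 ^ (a * N) ∣ k * 6 ^ L * (3 ^ (q2 - p2) - 1) := by
        refine hd3.trans (Nat.mul_dvd_mul_right (Nat.mul_dvd_mul_left _ ?_) _)
        exact (Nat.pow_dvd_pow 2 hi0.le).trans (pow_dvd_pow_of_dvd (by norm_num) L)
      exact (n2 _ hK _ _ hd4).trans (Nat.mul_dvd_mul_right hd2 _)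
  -- put together
  have hC : ∀ q ∈ S.image (fun p => p.1), (S.filter (fun p => p.1 = q)).card ≤
      (c * M / b' ^ N + 1) * (c * M / 2 ^ (a * N) + 1) := by
    intro q _
    refine (card_le_mul_card_image (f := fun p => (p.1, p.2.1)) (S.filter (fun p => p.1 = q))
      (c * M / b' ^ N + 1) ?_).trans (Nat.mul_le_mul_left _ (hB q))
    intro q' _
    refine (card_le_card ?_).trans (hA q')
    intro p hp
    rw [mem_filter, mem_filter] at hp
    rw [mem_filter]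
    exact ⟨hp.1.1, hp.2⟩
  refine (card_le_mul_card_image (f := fun p => p.1) S _ hC).trans ?_
  rw [mul_comm (c * M / b' ^ N + 1)]
  refine Nat.mul_le_mul_left _ ?_
  have : S.image (fun p => p.1) ⊆ range L ×ˢ range L := by
    intro q hq
    rw [mem_image] at hq
    obtain ⟨p, hp, rfl⟩ := hq
    rw [hSmem] at hp
    rw [mem_product, mem_range, mem_range]
    exact hp.1.1
  refine (card_le_card this).trans (le_of_eq ?_)
  rw [card_product, card_range, sq]

end Helper58.FH
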