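import Mathlib
import Pool.Agent.Helper58.FH.Num
import Pool.Agent.Helper58.FH.Basic

set_option autoImplicit false
open MeasureTheory Filter Topology Metric Finset
open scoped ENNReal

/-! Averages of characters along products of powers of two and three. -/

namespace Helper58.FH

lemma fourier_neg_arg (n : ℤ) (x : Tor) : (fourier (-n) (-x) : ℂ) = fourier n x := by
  rw [fourier_apply, fourier_apply]
  congr 2
  rw [neg_smul, smul_neg, neg_neg]

lemma fibre' {ι : Type*} [DecidableEq ι] (Ω : Finset ι) (ν : ι → ℤ) (m : ℕ) (hm : 0 < m) (B : ℕ)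
    (hB : ∀ a ∈ Ω, (Ω.filter (fun b => (m : ℤ) ∣ ν a - ν b)).card ≤ B) (x : Tor) :
    ∑ j ∈ Finset.range m, ‖∑ a ∈ Ω, (fourier (ν a) (x - dd m j) : ℂ)‖ ^ 2 ≤ m * (Ω.card * B) := by
  have h := fibre Ω (fun a => - ν a) m hm B (fun a ha => ?_) (-x)
  · refine le_trans (le_of_eq ?_) h
    refine Finset.sum_congr rfl fun j _ => ?_
    congr 2
    refine Finset.sum_congr rfl fun a _ => ?_
    rw [← fourier_neg_arg]
    congr 1
    abel
  · refine le_trans (le_of_eq ?_) (hB a ha)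
    congr 1
    refine Finset.filter_congr fun b _ => ?_
    rw [show -ν a - -ν b = -(ν a - ν b) by ring, dvd_neg]

/-- the four-fold average -/
noncomputable def AA (k a N L M : ℕ) (x : Tor) : ℂ :=
  ((L : ℂ) ^ 2 * (M : ℂ) ^ 2)⁻¹ * ∑ p ∈ Om L M, (fourier (nu k a N p) x : ℂ)

/-- the box average -/
noncomputable def Bx (k I J : ℕ) (x : Tor) : ℂ :=
  ((I : ℂ) * (J : ℂ))⁻¹ * ∑ s ∈ range I ×ˢ range J, (fourier ((k : ℤ) * (2 ^ s.1 * 3 ^ s.2)) x : ℂ)

lemma continuous_AA (k a N L M : ℕ) : Continuous (AA k a N L M) := by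
  unfold AA; fun_prop

lemma continuous_Bx (k I J : ℕ) : Continuous (Bx k I J) := by
  unfold Bx; fun_prop

lemma card_Om (L M : ℕ) : (Om L M).card = L ^ 2 * M ^ 2 := by
  unfold Om
  rw [card_product, card_product, card_product, card_range, card_range, sq, sq]

lemma fourier_nsmul (n : ℤ) (q : ℕ) (x : Tor) :
    (fourier n (q • x) : ℂ) = fourier (q * n) x := by
  rw [fourier_apply, fourier_apply]
  congr 2
  rw [← natCast_zsmul, smul_smul, mul_comm]

lemma AA_eq (k a N L M : ℕ) (x : Tor) :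
    AA k a N L M x = Bx k L M x * Bx k M L ((2 ^ (a * N)) • x) := by
  unfold AA Bx
  have e : ∑ p ∈ Om L M, (fourier (nu k a N p) x : ℂ) =
      (∑ s ∈ range L ×ˢ range M, (fourier ((k : ℤ) * (2 ^ s.1 * 3 ^ s.2)) x : ℂ)) *
      ∑ s ∈ range M ×ˢ range L, (fourier ((k : ℤ) * (2 ^ s.1 * 3 ^ s.2)) ((2 ^ (a * N)) • x) : ℂ) := by
    unfold Om
    simp only [sum_product]
    rw [Finset.sum_mul_sum]
    refine Finset.sum_congr rfl fun i0 _ => ?_
    have e2 : ∀ l0 : ℕ, ∑ l ∈ range M, ∑ i ∈ range M, (fourier (nu k a N ((i0, l0), (l, i))) x : ℂ)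
        = (∑ l ∈ range M, (fourier ((k : ℤ) * (2 ^ i0 * 3 ^ l)) x : ℂ)) *
          ∑ i ∈ range M, (fourier ((k : ℤ) * (2 ^ i * 3 ^ l0)) ((2 ^ (a * N)) • x) : ℂ) := by
      intro l0
      rw [Finset.sum_mul_sum]
      refine Finset.sum_congr rfl fun l _ => Finset.sum_congr rfl fun i _ => ?_
      rw [fourier_nsmul, ← fourier_add]
      congr 2
      unfold nu
      push_cast
      ring
    simp only [e2]
    rw [← Finset.mul_sum, Finset.sum_comm, ← Finset.mul_sum]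
  rw [e]
  by_cases hL : (L : ℂ) = 0
  · simp [hL]
  by_cases hM : (M : ℂ) = 0
  · simp [hM]
  field_simp

lemma fibreA (b : ℕ) (hb : 1 ≤ b) (k L : ℕ) (hk : 1 ≤ k) (hL : 1 ≤ L) :
    ∃ a c : ℕ, 2 ^ a ≤ b ∧ ∀ (A : ℝ) (N M : ℕ), 0 ≤ A → 1 ≤ M → (b : ℝ) ^ N ≤ A * M →
      ∀ x : Tor, ∑ j ∈ Finset.range (b ^ N), ‖AA k a N L M (x - dd (b ^ N) j)‖ ^ 2 ≤
        (c + A) ^ 2 := by
  obtain ⟨a, b', c, hc, hbe, hcount⟩ := count b hb k L hk
  have hb'0 : 1 ≤ b' := by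
    rcases Nat.eq_zero_or_pos b' with h | h
    · rw [h] at hbe; omega
    · exact h
  refine ⟨a, c, by rw [hbe]; exact Nat.le_mul_of_pos_right _ hb'0, ?_⟩
  intro A N M hA hM hbN x
  have hbN0 : 0 < b ^ N := Nat.pow_pos hb
  have hbNr : (0 : ℝ) < (b : ℝ) ^ N := by exact_mod_cast hbN0
  have hLr : (1 : ℝ) ≤ L := by exact_mod_cast hL
  have hMr : (1 : ℝ) ≤ M := by exact_mod_cast hM
  have h := fibre' (Om L M) (nu k a N) (b ^ N) hbN0
    (((c * M / 2 ^ (a * N) + 1) * (c * M / b' ^ N + 1)) * L ^ 2) (fun p _ => ?_) x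
  · have e1 : ∀ j : ℕ, ‖AA k a N L M (x - dd (b ^ N) j)‖ ^ 2 =
        (((L : ℝ) ^ 2 * (M : ℝ) ^ 2)⁻¹) ^ 2 *
          ‖∑ p ∈ Om L M, (fourier (nu k a N p) (x - dd (b ^ N) j) : ℂ)‖ ^ 2 := by
      intro j
      unfold AA
      rw [norm_mul, mul_pow]
      congr 2
      rw [norm_inv, norm_mul, norm_pow, norm_pow, Complex.norm_natCast, Complex.norm_natCast]
    simp only [e1]
    rw [← Finset.mul_sum]
    refine (mul_le_mul_of_nonneg_left h (by positivity)).trans ?_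
    rw [card_Om]
    have h1 : ((c * M / 2 ^ (a * N) + 1 : ℕ) : ℝ) ≤ (c + A) * M / 2 ^ (a * N) := by
      push_cast
      have h2 : (((c * M / 2 ^ (a * N) : ℕ)) : ℝ) ≤ (c * M : ℝ) / 2 ^ (a * N) := by
        have := Nat.cast_div_le (α := ℝ) (m := c * M) (n := 2 ^ (a * N))
        push_cast at this
        exact this
      have h3 : (1 : ℝ) ≤ A * M / 2 ^ (a * N) := by
        rw [one_le_div (by positivity)]
        refine le_trans ?_ hbN
        rw [pow_mul]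
        gcongr
        have : 2 ^ a ≤ b := by rw [hbe]; exact Nat.le_mul_of_pos_right _ hb'0
        exact_mod_cast this
      calc _ ≤ (c * M : ℝ) / 2 ^ (a * N) + A * M / 2 ^ (a * N) := add_le_add h2 h3
        _ = _ := by ring
    have h2 : ((c * M / b' ^ N + 1 : ℕ) : ℝ) ≤ (c + A) * M / b' ^ N := by
      push_cast
      have h2 : (((c * M / b' ^ N : ℕ)) : ℝ) ≤ (c * M : ℝ) / b' ^ N := by
        have := Nat.cast_div_le (α := ℝ) (m := c * M) (n := b' ^ N)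
        push_cast at this
        exact this
      have hb'r : (1 : ℝ) ≤ b' := by exact_mod_cast hb'0
      have h3 : (1 : ℝ) ≤ A * M / b' ^ N := by
        rw [one_le_div (by positivity)]
        refine le_trans ?_ hbN
        gcongr
        rw [hbe]; exact Nat.le_mul_of_pos_left _ (by positivity)
      calc _ ≤ (c * M : ℝ) / b' ^ N + A * M / b' ^ N := add_le_add h2 h3
        _ = _ := by ring
    have hbe2 : ((b ^ N : ℕ) : ℝ) = (2 : ℝ) ^ (a * N) * (b' : ℝ) ^ N := by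
      rw [hbe]; push_cast; rw [mul_pow, ← pow_mul]
    have h12 : ((((c * M / 2 ^ (a * N) + 1) * (c * M / b' ^ N + 1)) * L ^ 2 : ℕ) : ℝ) ≤
        ((c + A) * M / 2 ^ (a * N)) * ((c + A) * M / b' ^ N) * L ^ 2 := by
      rw [Nat.cast_mul, Nat.cast_mul, Nat.cast_pow]
      have : 0 ≤ (c + A) * M / 2 ^ (a * N) := by positivity
      gcongr
    have hb'r : (0 : ℝ) < b' := by exact_mod_cast hb'0
    calc (((L : ℝ) ^ 2 * (M : ℝ) ^ 2)⁻¹) ^ 2 * (((b ^ N : ℕ) : ℝ) *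
        (((L ^ 2 * M ^ 2 : ℕ) : ℝ) *
          ((((c * M / 2 ^ (a * N) + 1) * (c * M / b' ^ N + 1)) * L ^ 2 : ℕ) : ℝ)))
        ≤ (((L : ℝ) ^ 2 * (M : ℝ) ^ 2)⁻¹) ^ 2 * (((b ^ N : ℕ) : ℝ) *
        (((L ^ 2 * M ^ 2 : ℕ) : ℝ) *
          (((c + A) * M / 2 ^ (a * N)) * ((c + A) * M / b' ^ N) * L ^ 2))) := by gcongr
      _ = (c + A) ^ 2 := by
        rw [hbe2]
        push_cast
        field_simp
  · have h3 := hcount N M (nu k a N p)
    refine le_trans (le_of_eq ?_) h3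
    congr 1
    refine Finset.filter_congr fun q _ => ?_
    rw [← dvd_neg, neg_sub]

/-! ### Lipschitz bound -/

lemma norm_AA_sub (k a N L M : ℕ) (hL : 1 ≤ L) (hM : 1 ≤ M) (x y : Tor) :
    ‖AA k a N L M x - AA k a N L M y‖ ≤
      2 * Real.pi * (2 * k * 6 ^ L * 3 ^ M * 2 ^ (a * N)) * ‖x - y‖ := by
  have hLr : (1 : ℝ) ≤ L := by exact_mod_cast hL
  have hMr : (1 : ℝ) ≤ M := by exact_mod_cast hM
  unfold AA
  rw [← mul_sub, ← Finset.sum_sub_distrib, norm_mul]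
  have h1 : ∀ p ∈ Om L M, ‖(fourier (nu k a N p) x : ℂ) - fourier (nu k a N p) y‖ ≤
      2 * Real.pi * (2 * k * 6 ^ L * 3 ^ M * 2 ^ (a * N)) * ‖x - y‖ := by
    intro p hp
    refine (fourier_lip _ _ _).trans ?_
    have hmem : (p.1.1 < L ∧ p.1.2 < L) ∧ (p.2.1 < M ∧ p.2.2 < M) := by
      rw [Om] at hp
      simpa only [mem_product, mem_range] using hp
    gcongr
    unfold nu
    push_cast
    rw [abs_of_nonneg (by positivity)]
    have e1 : (2 : ℝ) ^ p.1.1 ≤ 6 ^ L := by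
      calc (2 : ℝ) ^ p.1.1 ≤ 6 ^ p.1.1 := by gcongr; norm_num
        _ ≤ 6 ^ L := by gcongr; · norm_num
                        · exact hmem.1.1.le
    have e2 : (3 : ℝ) ^ p.1.2 ≤ 6 ^ L := by
      calc (3 : ℝ) ^ p.1.2 ≤ 6 ^ p.1.2 := by gcongr; norm_num
        _ ≤ 6 ^ L := by gcongr; · norm_num
                        · exact hmem.1.2.le
    have e3 : (3 : ℝ) ^ p.2.1 ≤ 3 ^ M := by
      gcongr; · norm_num
      · exact hmem.2.1.le
    have e4 : (2 : ℝ) ^ p.2.2 ≤ 3 ^ M := by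
      calc (2 : ℝ) ^ p.2.2 ≤ 3 ^ p.2.2 := by gcongr; norm_num
        _ ≤ 3 ^ M := by gcongr; · norm_num
                        · exact hmem.2.2.le
    have e5 : (1 : ℝ) ≤ 2 ^ (a * N) := one_le_pow₀ (by norm_num)
    calc (k : ℝ) * (2 ^ p.1.1 * 3 ^ p.2.1 + 2 ^ (p.2.2 + a * N) * 3 ^ p.1.2)
        = k * (2 ^ p.1.1 * 3 ^ p.2.1 * 1 + 3 ^ p.1.2 * 2 ^ p.2.2 * 2 ^ (a * N)) := by
          rw [pow_add]; ring
      _ ≤ k * (6 ^ L * 3 ^ M * 2 ^ (a * N) + 6 ^ L * 3 ^ M * 2 ^ (a * N)) := by gcongr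
      _ = 2 * k * 6 ^ L * 3 ^ M * 2 ^ (a * N) := by ring
  have h2 := (norm_sum_le (Om L M)
    (fun p => (fourier (nu k a N p) x : ℂ) - fourier (nu k a N p) y)).trans
    (Finset.sum_le_sum h1)
  rw [Finset.sum_const, card_Om, nsmul_eq_mul] at h2
  refine (mul_le_mul_of_nonneg_left h2 (norm_nonneg _)).trans (le_of_eq ?_)
  rw [norm_inv, norm_mul, norm_pow, norm_pow, Complex.norm_natCast, Complex.norm_natCast]
  push_cast
  field_simp

end Helper58.FH
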