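import Mathlib
import Pool.Agent.Helper58.FH.Av
import Pool.Agent.Helper58.FX.P.ExLikeOfMeasure

set_option autoImplicit false
open MeasureTheory Filter Topology Metric Finset
open scoped ENNReal InnerProductSpace ComplexConjugate

/-! Long averages of characters are nearly constant. -/

namespace Helper58.FH

open Helper58.FX (act UU ev ft Erg T sc PE)

section Hilbert

variable {H : Type*} [NormedAddCommGroup H] [InnerProductSpace ℂ H]

/-- ergodic sums -/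
noncomputable def SS (V : H →ₗᵢ[ℂ] H) (M : ℕ) (w : H) : H := ∑ l ∈ range M, (V ^ l) w

lemma norm_pow_apply (V : H →ₗᵢ[ℂ] H) (l : ℕ) (w : H) : ‖(V ^ l) w‖ = ‖w‖ := (V ^ l).norm_map w

lemma pow_apply_add (V : H →ₗᵢ[ℂ] H) (i j : ℕ) (w : H) : (V ^ i) ((V ^ j) w) = (V ^ (i + j)) w := by
  rw [pow_add]; rfl

lemma norm_SS_le (V : H →ₗᵢ[ℂ] H) (M : ℕ) (w : H) : ‖SS V M w‖ ≤ M * ‖w‖ := by
  unfold SS
  refine (norm_sum_le _ _).trans ?_
  simp only [norm_pow_apply, sum_const, card_range, nsmul_eq_mul, le_refl]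

lemma SS_sub (V : H →ₗᵢ[ℂ] H) (M : ℕ) (w : H) : ‖SS V M w - V (SS V M w)‖ ≤ 2 * ‖w‖ := by
  have e : SS V M w - V (SS V M w) = w - (V ^ M) w := by
    unfold SS
    rw [map_sum]
    have : ∀ l : ℕ, V ((V ^ l) w) = (V ^ (l + 1)) w := by
      intro l; rw [pow_succ']; rfl
    simp only [this]
    rw [← Finset.sum_sub_distrib, Finset.sum_range_sub']
    simp
  rw [e]
  refine (norm_sub_le _ _).trans ?_
  rw [norm_pow_apply]; linarith

lemma SS_sub_pow (V : H →ₗᵢ[ℂ] H) (M j : ℕ) (w : H) :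
    ‖SS V M w - (V ^ j) (SS V M w)‖ ≤ 2 * j * ‖w‖ := by
  induction j with
  | zero => simp
  | succ j ih =>
    have e : SS V M w - (V ^ (j + 1)) (SS V M w) = (SS V M w - (V ^ j) (SS V M w)) +
        (V ^ j) (SS V M w - V (SS V M w)) := by
      rw [map_sub, pow_succ]
      show _ = _ + ((V ^ j) (SS V M w) - (V ^ j) (V (SS V M w)))
      show SS V M w - (V ^ j) (V (SS V M w)) = _
      abel
    rw [e]
    refine (norm_add_le _ _).trans ?_
    rw [norm_pow_apply]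
    have := SS_sub V M w
    push_cast
    linarith

lemma SS_SS (V : H →ₗᵢ[ℂ] H) (L M : ℕ) (w : H) :
    SS V M (SS V L w) = ∑ j ∈ range L, (V ^ j) (SS V M w) := by
  unfold SS
  simp only [map_sum, pow_apply_add]
  rw [Finset.sum_comm]
  refine Finset.sum_congr rfl fun i _ => Finset.sum_congr rfl fun j _ => ?_
  rw [add_comm]

lemma avg_long (V : H →ₗᵢ[ℂ] H) (w : H) (L M : ℕ) (hL : 1 ≤ L) (hM : 1 ≤ M) :
    ‖(M : ℂ)⁻¹ • SS V M w‖ ≤ ‖(L : ℂ)⁻¹ • SS V L w‖ + 2 * L / M * ‖w‖ := by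
  have hLr : (0 : ℝ) < L := by exact_mod_cast hL
  have hMr : (0 : ℝ) < M := by exact_mod_cast hM
  have hLc : (L : ℂ) ≠ 0 := by exact_mod_cast hLr.ne'
  have e : SS V M w = SS V M ((L : ℂ)⁻¹ • SS V L w) +
      (L : ℂ)⁻¹ • ∑ j ∈ range L, (SS V M w - (V ^ j) (SS V M w)) := by
    have e1 : SS V M ((L : ℂ)⁻¹ • SS V L w) = (L : ℂ)⁻¹ • ∑ j ∈ range L, (V ^ j) (SS V M w) := by
      rw [← SS_SS]
      unfold SS
      simp only [map_smul, ← Finset.smul_sum]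
    rw [e1, ← smul_add, ← Finset.sum_add_distrib]
    simp only [add_sub_cancel, sum_const, card_range]
    rw [← Nat.cast_smul_eq_nsmul ℂ, smul_smul, inv_mul_cancel₀ hLc, one_smul]
  have h1 : ‖SS V M w‖ ≤ M * ‖(L : ℂ)⁻¹ • SS V L w‖ + 2 * L * ‖w‖ := by
    conv_lhs => rw [e]
    refine (norm_add_le _ _).trans (add_le_add (norm_SS_le _ _ _) ?_)
    rw [norm_smul, norm_inv, Complex.norm_natCast, inv_mul_le_iff₀ hLr]
    have h2 : ∀ j ∈ range L, ‖SS V M w - (V ^ j) (SS V M w)‖ ≤ 2 * L * ‖w‖ := by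
      intro j hj
      refine (SS_sub_pow V M j w).trans ?_
      have : (j : ℝ) ≤ L := by exact_mod_cast (mem_range.1 hj).le
      gcongr
    refine (norm_sum_le_of_le _ h2).trans ?_
    rw [sum_const, card_range, nsmul_eq_mul]
  rw [norm_smul, norm_inv, Complex.norm_natCast, inv_mul_le_iff₀ hMr]
  refine h1.trans (le_of_eq ?_)
  field_simp

/-- box averages -/
noncomputable def BH (U V : H →ₗᵢ[ℂ] H) (I J : ℕ) (u : H) : H :=
  ((I : ℂ) * (J : ℂ))⁻¹ • ∑ s ∈ range I ×ˢ range J, act U V s u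

lemma norm_avg_le (V : H →ₗᵢ[ℂ] H) (w : H) (L : ℕ) (hL : 1 ≤ L) :
    ‖(L : ℂ)⁻¹ • SS V L w‖ ≤ ‖w‖ := by
  have hLr : (0 : ℝ) < L := by exact_mod_cast hL
  rw [norm_smul, norm_inv, Complex.norm_natCast, inv_mul_le_iff₀ hLr]
  exact norm_SS_le V L w

lemma BH_eq1 {U V : H →ₗᵢ[ℂ] H} (I J : ℕ) (u : H) :
    BH U V I J u = (I : ℂ)⁻¹ • SS U I ((J : ℂ)⁻¹ • SS V J u) := by
  unfold BH SS
  rw [Finset.sum_product, mul_inv]
  simp only [map_smul, map_sum, ← Finset.smul_sum]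
  rw [smul_smul]
  rfl

lemma BH_eq2 {U V : H →ₗᵢ[ℂ] H} (hUV : Commute U V) (I J : ℕ) (u : H) :
    BH U V I J u = (J : ℂ)⁻¹ • SS V J ((I : ℂ)⁻¹ • SS U I u) := by
  unfold BH SS
  rw [Finset.sum_product_right, mul_inv, mul_comm (I : ℂ)⁻¹]
  simp only [map_smul, map_sum, ← Finset.smul_sum]
  rw [smul_smul]
  congr 1
  refine Finset.sum_congr rfl fun j _ => Finset.sum_congr rfl fun i _ => ?_
  unfold act
  rw [(hUV.pow_pow i j).eq]
  rfl

lemma BH_long1 {U V : H →ₗᵢ[ℂ] H} (hUV : Commute U V) (L M : ℕ) (hL : 1 ≤ L) (hM : 1 ≤ M)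
    (u : H) : ‖BH U V L M u‖ ≤ ‖BH U V L L u‖ + 2 * L / M * ‖u‖ := by
  rw [BH_eq2 hUV L M, BH_eq2 hUV L L]
  refine (avg_long V _ L M hL hM).trans ?_
  gcongr
  exact norm_avg_le U u L hL

lemma BH_long2 {U V : H →ₗᵢ[ℂ] H} (L M : ℕ) (hL : 1 ≤ L) (hM : 1 ≤ M)
    (u : H) : ‖BH U V M L u‖ ≤ ‖BH U V L L u‖ + 2 * L / M * ‖u‖ := by
  rw [BH_eq1 M L, BH_eq1 L L]
  refine (avg_long U _ L M hL hM).trans ?_
  gcongr
  exact norm_avg_le V u L hL

lemma BH_sub (U V : H →ₗᵢ[ℂ] H) (I J : ℕ) (u v : H) :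
    BH U V I J (u - v) = BH U V I J u - BH U V I J v := by
  unfold BH
  simp only [map_sub, Finset.sum_sub_distrib, smul_sub]

end Hilbert

section Circle

variable {μ : Measure Tor}

lemma BH_one [IsProbabilityMeasure μ] (h2 : MeasurePreserving (T 2) μ μ)
    (h3 : MeasurePreserving (T 3) μ μ) (I J : ℕ) (hI : 1 ≤ I) (hJ : 1 ≤ J) (c : ℂ) :
    BH (UU h2) (UU h3) I J (c • ev μ 0) = c • ev μ 0 := by
  unfold BH
  have hI' : (I : ℂ) ≠ 0 := by exact_mod_cast (by omega : I ≠ 0)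
  have hJ' : (J : ℂ) ≠ 0 := by exact_mod_cast (by omega : J ≠ 0)
  simp only [map_smul, Helper58.FX.St.act_ev, mul_zero]
  rw [Finset.sum_const, card_product, card_range, card_range, ← Nat.cast_smul_eq_nsmul ℂ,
    smul_smul]
  push_cast
  rw [inv_mul_cancel₀ (mul_ne_zero hI' hJ'), one_smul]

lemma BH_ev_coe [IsProbabilityMeasure μ] (h2 : MeasurePreserving (T 2) μ μ)
    (h3 : MeasurePreserving (T 3) μ μ) (k I J : ℕ) (c : ℂ) :
    ((BH (UU h2) (UU h3) I J (ev μ k) - c • ev μ 0 : Lp ℂ 2 μ) : Tor → ℂ) =ᵐ[μ]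
      fun x => Bx k I J x - c := by
  have h : BH (UU h2) (UU h3) I J (ev μ k) - c • ev μ 0 = ContinuousMap.toLp (E := ℂ) 2 μ ℂ
      ((((I : ℂ) * (J : ℂ))⁻¹ • ∑ s ∈ range I ×ˢ range J, fourier (sc s * k)) -
        c • fourier 0) := by
    unfold BH
    rw [map_sub, map_smul, map_sum, map_smul]
    simp only [Helper58.FX.St.act_ev]
    rfl
  rw [h]
  refine (ContinuousMap.coeFn_toLp μ _).trans (Eventually.of_forall fun x => ?_)
  simp only [ContinuousMap.coe_sub, ContinuousMap.coe_smul, ContinuousMap.coe_sum, Pi.sub_apply,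
    Pi.smul_apply, Finset.sum_apply, smul_eq_mul, fourier_zero, mul_one, Bx]
  congr 2
  refine Finset.sum_congr rfl fun s _ => ?_
  congr 2
  unfold sc
  ring

lemma integral_Bx [IsProbabilityMeasure μ] (h2 : MeasurePreserving (T 2) μ μ)
    (h3 : MeasurePreserving (T 3) μ μ) (k I J : ℕ) (c : ℂ) :
    ∫ x, ‖Bx k I J x - c‖ ^ 2 ∂μ = ‖BH (UU h2) (UU h3) I J (ev μ k) - c • ev μ 0‖ ^ 2 := by
  rw [← Helper58.FXP.H77.l2_sq]
  refine integral_congr_ae ?_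
  filter_upwards [BH_ev_coe h2 h3 k I J c] with x hx
  rw [hx]

theorem long_averages [IsProbabilityMeasure μ] (h2 : MeasurePreserving (T 2) μ μ)
    (h3 : MeasurePreserving (T 3) μ μ) (hE : Erg (ft μ)) (k : ℕ) (η : ℝ) (hη : 0 < η) :
    ∃ L M0 : ℕ, 1 ≤ L ∧ 1 ≤ M0 ∧ ∀ M : ℕ, M0 ≤ M →
      ∫ x, ‖Bx k L M x - ft μ k‖ ^ 2 ∂μ ≤ η ∧ ∫ x, ‖Bx k M L x - ft μ k‖ ^ 2 ∂μ ≤ η := by
  have hUV := Helper58.FX.St.commute_UU h2 h3
  set c := ft μ k with hc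
  set u : Lp ℂ 2 μ := ev μ k - c • ev μ 0 with hu
  have h1 := Helper58.FX.St.mean_ergodic hUV (α := 1) (β := 1) (by simp) (by simp) (ev μ k)
  rw [Helper58.FXP.H85.PE_ev h2 h3 hE] at h1
  have h4 : Tendsto (fun L : ℕ => ‖BH (UU h2) (UU h3) L L u‖) atTop (𝓝 0) := by
    have h5 : Tendsto (fun L : ℕ => ((L : ℂ) ^ 2)⁻¹ •
        ∑ s ∈ Helper58.FX.box L, ((conj (1 : ℂ)) ^ s.1 * (conj (1 : ℂ)) ^ s.2) • act (UU h2) (UU h3) s (ev μ k)
          - c • ev μ 0) atTop (𝓝 (c • ev μ 0 - c • ev μ 0)) := h1.sub_const _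
    rw [sub_self] at h5
    have h6 := h5.norm
    rw [norm_zero] at h6
    refine h6.congr' ?_
    filter_upwards [eventually_ge_atTop 1] with L hL
    rw [hu, BH_sub, BH_one h2 h3 L L hL hL]
    congr 2
    unfold BH
    rw [sq]
    congr 1
    unfold Helper58.FX.box
    refine Finset.sum_congr rfl fun s _ => ?_
    simp
  have hs : 0 < Real.sqrt η / 2 := by positivity
  obtain ⟨L, hL⟩ := ((h4.eventually_lt_const hs).and (eventually_ge_atTop 1)).exists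
  obtain ⟨hL1, hL2⟩ := hL
  obtain ⟨M1, hM1⟩ := exists_nat_gt (2 * L * ‖u‖ / (Real.sqrt η / 2))
  refine ⟨L, M1 + 1, hL2, by omega, fun M hM => ?_⟩
  have hMr : (0 : ℝ) < M := by exact_mod_cast (by omega : 0 < M)
  have hM2 : 2 * L * ‖u‖ / (Real.sqrt η / 2) ≤ M := by
    refine hM1.le.trans ?_
    exact_mod_cast (by omega : M1 ≤ M)
  have h7 : 2 * L / M * ‖u‖ ≤ Real.sqrt η / 2 := by
    rw [div_le_iff₀ hs] at hM2
    rw [div_mul_eq_mul_div, div_le_iff₀ hMr]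
    linarith
  have hsq : Real.sqrt η ^ 2 = η := Real.sq_sqrt hη.le
  have e1 : ∀ I J : ℕ, 1 ≤ I → 1 ≤ J →
      BH (UU h2) (UU h3) I J (ev μ k) - c • ev μ 0 = BH (UU h2) (UU h3) I J u := by
    intro I J hI hJ
    rw [hu, BH_sub, BH_one h2 h3 I J hI hJ]
  constructor
  · rw [integral_Bx h2 h3, e1 L M hL2 (by omega), ← hsq]
    have := BH_long1 hUV L M hL2 (by omega) u
    gcongr
    linarith
  · rw [integral_Bx h2 h3, e1 M L (by omega) hL2, ← hsq]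
    have := BH_long2 (U := UU h2) (V := UU h3) L M hL2 (by omega) u
    gcongr
    linarith

lemma integrable_Bx [IsProbabilityMeasure μ] (k I J : ℕ) (c : ℂ) :
    Integrable (fun x => ‖Bx k I J x - c‖ ^ 2) μ :=
  Helper17.TranslM.integrable_cont μ (((continuous_Bx k I J).sub continuous_const).norm.pow 2)

/-- Chebyshev -/
lemma cheb [IsProbabilityMeasure μ] (k I J : ℕ) (c : ℂ) (η : ℝ)
    (h : ∫ x, ‖Bx k I J x - c‖ ^ 2 ∂μ ≤ η) (hc : c ≠ 0) :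
    μ.real {x | ‖Bx k I J x‖ ≤ ‖c‖ / 2} ≤ 4 * η / ‖c‖ ^ 2 := by
  have hc' : 0 < ‖c‖ := norm_pos_iff.2 hc
  have h1 := mul_meas_ge_le_integral_of_nonneg (μ := μ)
    (f := fun x => ‖Bx k I J x - c‖ ^ 2) (Eventually.of_forall fun x => by positivity)
    (integrable_Bx k I J c) ((‖c‖ / 2) ^ 2)
  have h2 : μ.real {x | ‖Bx k I J x‖ ≤ ‖c‖ / 2} ≤
      μ.real {x | (‖c‖ / 2) ^ 2 ≤ ‖Bx k I J x - c‖ ^ 2} := by
    refine measureReal_mono ?_ (measure_ne_top _ _)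
    intro x hx
    simp only [Set.mem_ofPred_eq] at hx ⊢
    gcongr
    have := norm_sub_norm_le c (Bx k I J x)
    rw [norm_sub_rev] at this
    linarith
  rw [le_div_iff₀ (by positivity)]
  calc μ.real {x | ‖Bx k I J x‖ ≤ ‖c‖ / 2} * ‖c‖ ^ 2
      ≤ μ.real {x | (‖c‖ / 2) ^ 2 ≤ ‖Bx k I J x - c‖ ^ 2} * ‖c‖ ^ 2 := by gcongr
    _ = 4 * ((‖c‖ / 2) ^ 2 * μ.real {x | (‖c‖ / 2) ^ 2 ≤ ‖Bx k I J x - c‖ ^ 2}) := by ring
    _ ≤ 4 * η := by
      have := h1.trans h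
      linarith

end Circle

end Helper58.FH
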