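import Pool.Agent.Helper58.FH.Zero

set_option autoImplicit false
open MeasureTheory Filter Topology Metric Finset
open scoped ENNReal Pointwise

/-! Thin sets of large measure, and injectivity of multiplication by six. -/

namespace Helper58.FH

open Helper58.FX (act UU ev ft Erg T sc PE)

variable {μ : Measure Tor}

theorem thin [IsProbabilityMeasure μ] (h2 : MeasurePreserving (T 2) μ μ)
    (h3 : MeasurePreserving (T 3) μ μ) (hE : Erg (ft μ)) (hne : ∃ n : ℤ, n ≠ 0 ∧ ft μ n ≠ 0)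
    (k : ℕ) (C ε : ℝ) (hC : 0 < C) (hε : 0 < ε) :
    ∃ (A : Finset Tor) (ρ : ℝ), 0 < ρ ∧ C * (A.card : ℝ) ^ k * ρ ≤ ε ∧
      1 - ε ≤ μ.real (⋃ a ∈ A, closedBall a ρ) := by
  classical
  have h6 : MeasurePreserving (fun x : Tor => 6 • x) μ μ := by
    have := mp_pow h2 h3 1 1
    simpa using this
  have hp : Prof 6 (pr μ) := prof_pr (by norm_num) h6
  have hlog : 0 < Real.log 6 := Real.log_pos (by norm_num)
  obtain ⟨n0, hn0⟩ := ent_small (b := 6) (by norm_num) hp (inc_small h2 h3 hE hne)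
    (ε * Real.log 6 / (2 * (k + 1))) (by positivity)
  obtain ⟨s1, hs1⟩ := pow_unbounded_of_one_lt (C / ε) (by norm_num : (1 : ℝ) < 6)
  set s := max (max s1 n0) 1 with hs
  have hs1' : s1 ≤ s := (le_max_left _ _).trans (le_max_left _ _)
  have hsn0 : n0 ≤ s := (le_max_right _ _).trans (le_max_left _ _)
  have hs0 : 1 ≤ s := le_max_right _ _
  set n := 2 * (k + 1) * s with hn
  have hn0n : n0 ≤ n := by
    have : s ≤ n := by rw [hn]; exact Nat.le_mul_of_pos_left _ (by omega)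
    omega
  obtain ⟨hcard, hmass⟩ := thin_aux (b := 6) (by norm_num) hp n s hs0
  set H := (range (6 ^ n)).filter (fun u => (1 / ((6 : ℕ) : ℝ) ^ s) ≤ pr μ (6 ^ n) u) with hH
  have hD1 : 1 ≤ 6 ^ n := Nat.one_le_pow _ _ (by norm_num)
  refine ⟨H.image (fun u : ℕ => ((u / (6 ^ n : ℕ) : ℝ) : Tor)), 1 / (6 ^ n : ℕ), by positivity,
    ?_, ?_⟩
  · have hc : ((H.image (fun u : ℕ => ((u / (6 ^ n : ℕ) : ℝ) : Tor))).card : ℝ) ≤ 6 ^ s := by
      refine le_trans ?_ (le_trans hcard (le_of_eq (by push_cast; rfl)))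
      exact_mod_cast Finset.card_image_le
    calc C * ((H.image (fun u : ℕ => ((u / (6 ^ n : ℕ) : ℝ) : Tor))).card : ℝ) ^ k *
          (1 / ((6 ^ n : ℕ) : ℝ)) ≤ C * (6 ^ s) ^ k * (1 / ((6 ^ n : ℕ) : ℝ)) := by gcongr
      _ = C * (1 / 6 ^ (k * s + 2 * s)) := by
        rw [← pow_mul, mul_comm s k]
        push_cast
        rw [hn, show 2 * (k + 1) * s = k * s + (k * s + 2 * s) by ring, pow_add]
        field_simp
      _ ≤ C * (1 / 6 ^ s1) := by
        gcongr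
        · norm_num
        · calc s1 ≤ s := hs1'
            _ ≤ k * s + 2 * s := by nlinarith
      _ ≤ ε := by
        rw [div_lt_iff₀ hε] at hs1
        rw [mul_one_div, div_le_iff₀ (by positivity)]
        linarith
  · have h4 := (hn0 n hn0n).1
    have h5 : ent (pr μ) (6 ^ n) / (s * Real.log (6 : ℕ)) ≤ ε := by
      have hsr : (0 : ℝ) < s := by exact_mod_cast hs0
      have hlog' : 0 < Real.log ((6 : ℕ) : ℝ) := by exact_mod_cast hlog
      rw [div_le_iff₀ (by positivity)]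
      refine h4.trans (le_of_eq ?_)
      rw [hn]
      push_cast
      field_simp
    refine (sub_le_sub_left h5 1).trans (hmass.trans ?_)
    rw [sum_pr]
    refine measureReal_mono ?_ (measure_ne_top _ _)
    intro x hx
    have hx' : idx (6 ^ n) x ∈ H := hx
    rw [Set.mem_iUnion₂]
    refine ⟨_, Finset.mem_image_of_mem _ hx', ?_⟩
    rw [mem_closedBall, dist_eq_norm]
    exact norm_sub_idx (6 ^ n) hD1 x

lemma six_smul_zero (u : Tor) (h : 6 • u = 0) (hu : ‖u‖ < 1 / 6) : u = 0 := by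
  obtain ⟨t, rfl, ht⟩ := exists_rep u
  rw [← AddCircle.coe_nsmul, AddCircle.coe_eq_zero_iff] at h
  obtain ⟨z, hz⟩ := h
  simp only [zsmul_eq_mul, mul_one, nsmul_eq_mul] at hz
  rw [← ht, abs_lt] at hu
  push_cast at hz
  have h1 : (-1 : ℝ) < z := by linarith
  have h2 : (z : ℝ) < 1 := by linarith
  have h3 : z = 0 := by
    have a1 : (-1 : ℤ) < z := by exact_mod_cast h1
    have a2 : z < (1 : ℤ) := by exact_mod_cast h2
    omega
  rw [h3] at hz
  push_cast at hz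
  have : t = 0 := by linarith
  rw [this]
  simp

theorem inj6 [IsProbabilityMeasure μ] (h2 : MeasurePreserving (T 2) μ μ)
    (h3 : MeasurePreserving (T 3) μ μ) (hE : Erg (ft μ)) (hne : ∃ n : ℤ, n ≠ 0 ∧ ft μ n ≠ 0)
    (ε : ℝ) (hε : 0 < ε) :
    ∃ G : Set Tor, MeasurableSet G ∧ 1 - ε ≤ μ.real G ∧
      ∀ x ∈ G, ∀ y ∈ G, 6 • (x - y) = 0 → x = y := by
  classical
  have h6 : MeasurePreserving (fun x : Tor => 6 • x) μ μ := by
    have := mp_pow h2 h3 1 1
    simpa using this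
  have hp : Prof 6 (pr μ) := prof_pr (by norm_num) h6
  have hlog : 0 < Real.log 2 := Real.log_pos (by norm_num)
  obtain ⟨n, hn⟩ := inc_small h2 h3 hE hne (ε * Real.log 2) (by positivity)
  have hg : ∀ c : ℕ, ∃ g : ℕ, g < 6 ∧ ∀ j < 6, pr μ (6 ^ (n + 1)) (c + 6 ^ n * j) ≤
      pr μ (6 ^ (n + 1)) (c + 6 ^ n * g) := by
    intro c
    obtain ⟨g, hg1, hg2⟩ := Finset.exists_max_image (range 6)
      (fun j => pr μ (6 ^ (n + 1)) (c + 6 ^ n * j)) ⟨0, by simp⟩
    exact ⟨g, mem_range.1 hg1, fun j hj => hg2 j (mem_range.2 hj)⟩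
  choose g hg1 hg2 using hg
  have hmaj := major (b := 6) (by norm_num) hp n g (fun c _ => ⟨hg1 c, hg2 c⟩)
  set W : Finset ℕ := (range (6 ^ n)).image (fun c => c + 6 ^ n * g c) with hW
  have hmod : ∀ w ∈ W, w = w % 6 ^ n + 6 ^ n * g (w % 6 ^ n) := by
    intro w hw
    rw [hW, mem_image] at hw
    obtain ⟨c, hc, rfl⟩ := hw
    rw [Nat.add_mul_mod_self_left, Nat.mod_eq_of_lt (mem_range.1 hc)]
  have hinj : Set.InjOn (fun c => c + 6 ^ n * g c) (range (6 ^ n) : Finset ℕ) := by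
    intro c hc c' hc' h
    have h4 := congrArg (fun t => t % 6 ^ n) h
    simp only [Nat.add_mul_mod_self_left] at h4
    rwa [Nat.mod_eq_of_lt (mem_range.1 (mem_coe.1 hc)),
      Nat.mod_eq_of_lt (mem_range.1 (mem_coe.1 hc'))] at h4
  refine ⟨{x | idx (6 ^ (n + 1)) x ∈ W}, (measurable_idx _) (Finset.measurableSet W), ?_, ?_⟩
  · rw [← sum_pr, hW, Finset.sum_image hinj]
    refine le_trans ?_ hmaj
    have : inc 6 (pr μ) n / Real.log 2 ≤ ε := by rwa [div_le_iff₀ hlog]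
    linarith
  · intro x hx y hy hxy
    have hx' : idx (6 ^ (n + 1)) x ∈ W := hx
    have hy' : idx (6 ^ (n + 1)) y ∈ W := hy
    have hxy' : 6 • x = 6 • y := by
      rw [smul_sub, sub_eq_zero] at hxy; exact hxy
    have e1 := idx_nsmul (6 ^ n) 6 (Nat.one_le_pow _ _ (by norm_num)) x
    have e2 := idx_nsmul (6 ^ n) 6 (Nat.one_le_pow _ _ (by norm_num)) y
    rw [hxy', ← pow_succ] at e1
    rw [← pow_succ] at e2
    have e3 : idx (6 ^ (n + 1)) x % 6 ^ n = idx (6 ^ (n + 1)) y % 6 ^ n := e1.symm.trans e2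
    have e4 : idx (6 ^ (n + 1)) x = idx (6 ^ (n + 1)) y := by
      rw [hmod _ hx', hmod _ hy', e3]
    have hD1 : 1 ≤ 6 ^ (n + 1) := Nat.one_le_pow _ _ (by norm_num)
    have hDr : (0 : ℝ) < ((6 ^ (n + 1) : ℕ) : ℝ) := by exact_mod_cast hD1
    have h5 : ‖x - y‖ < 1 / 6 := by
      have e5 : x - y = ((rep x - rep y : ℝ) : Tor) := by
        rw [AddCircle.coe_sub, coe_rep, coe_rep]
      rw [e5]
      refine (norm_coe_le _).trans_lt ?_
      have a1 := Nat.floor_le (mul_nonneg hDr.le (rep_nonneg x))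
      have a2 := Nat.lt_floor_add_one (((6 ^ (n + 1) : ℕ) : ℝ) * rep x)
      have b1 := Nat.floor_le (mul_nonneg hDr.le (rep_nonneg y))
      have b2 := Nat.lt_floor_add_one (((6 ^ (n + 1) : ℕ) : ℝ) * rep y)
      have e6 : (⌊((6 ^ (n + 1) : ℕ) : ℝ) * rep x⌋₊ : ℝ) = (⌊((6 ^ (n + 1) : ℕ) : ℝ) * rep y⌋₊ : ℝ) := by
        exact_mod_cast e4
      have h7 : (6 : ℝ) ≤ ((6 ^ (n + 1) : ℕ) : ℝ) := by
        push_cast
        calc (6 : ℝ) = 6 ^ 1 := by norm_num
          _ ≤ 6 ^ (n + 1) := by gcongr <;> first | norm_num | omega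
      have h8 : ((6 ^ (n + 1) : ℕ) : ℝ) * |rep x - rep y| < 1 := by
        rw [← abs_of_pos hDr, ← abs_mul, abs_lt]
        constructor <;> linarith
      have h9 := abs_nonneg (rep x - rep y)
      nlinarith
    exact sub_eq_zero.1 (six_smul_zero _ hxy h5)

lemma exists_lower (n : ℕ) (ρ : ℕ → ℝ) (h : ∀ j, 0 < ρ j) :
    ∃ ρ1 : ℝ, 0 < ρ1 ∧ ∀ j ∈ range n, ρ1 ≤ ρ j := by
  induction n with
  | zero => exact ⟨1, one_pos, fun j hj => by simp at hj⟩
  | succ n ih =>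
    obtain ⟨ρ1, h1, h2⟩ := ih
    refine ⟨min ρ1 (ρ n), lt_min h1 (h n), fun j hj => ?_⟩
    rw [mem_range] at hj
    rcases Nat.lt_succ_iff_lt_or_eq.1 hj with h3 | h3
    · exact (min_le_left _ _).trans (h2 j (mem_range.2 h3))
    · rw [h3]; exact min_le_right _ _

/-- injectivity of powers of six on a compact set of large measure, with a margin -/
theorem inj_margin [IsProbabilityMeasure μ] (h2 : MeasurePreserving (T 2) μ μ)
    (h3 : MeasurePreserving (T 3) μ μ) (hE : Erg (ft μ)) (hne : ∃ n : ℤ, n ≠ 0 ∧ ft μ n ≠ 0)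
    (n0 : ℕ) (ε : ℝ) (hε : 0 < ε) :
    ∃ (G : Set Tor) (ρ : ℝ), MeasurableSet G ∧ 0 < ρ ∧ 1 - ε ≤ μ.real G ∧
      ∀ x ∈ G, ∀ y ∈ G, ∀ j < 6 ^ n0, ‖x - y - dd (6 ^ n0) j‖ < ρ → j = 0 := by
  classical
  set ε' : ℝ := ε / (2 * (n0 + 1)) with hε'
  have hε'0 : 0 < ε' := by positivity
  obtain ⟨G0, hG0m, hG0, hG0inj⟩ := inj6 h2 h3 hE hne ε' hε'0
  -- inner regularity
  obtain ⟨K, hKG, hKc, hK⟩ : ∃ K ⊆ G0, IsCompact K ∧ 1 - 2 * ε' ≤ μ.real K := by
    have h4 := hG0m.exists_isCompact_lt_add (measure_ne_top μ G0)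
      (ε := ENNReal.ofReal ε') (by simpa using hε'0)
    obtain ⟨K, hKG, hKc, hlt⟩ := h4
    refine ⟨K, hKG, hKc, ?_⟩
    have h5 : μ.real G0 ≤ μ.real K + ε' := by
      unfold Measure.real
      have h6 := ENNReal.toReal_mono (by finiteness) hlt.le
      rwa [ENNReal.toReal_add (measure_ne_top _ _) (by finiteness),
        ENNReal.toReal_ofReal hε'0.le] at h6
    linarith
  have hmp : ∀ i : ℕ, MeasurePreserving (fun x : Tor => (6 ^ i) • x) μ μ := by
    have h6 : MeasurePreserving (fun x : Tor => 6 • x) μ μ := by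
      have := mp_pow h2 h3 1 1
      simpa using this
    exact fun i => mp_pow_b h6 i
  set G1 : Set Tor := ⋂ i ∈ Set.Iio n0, (fun x : Tor => (6 ^ i) • x) ⁻¹' K with hG1
  have hcont : ∀ i : ℕ, Continuous (fun x : Tor => (6 ^ i) • x) := fun i => by fun_prop
  have hG1c : IsClosed G1 :=
    isClosed_biInter fun i _ => hKc.isClosed.preimage (hcont i)
  have hG1comp : IsCompact G1 := hG1c.isCompact
  have hG1mem : ∀ x, x ∈ G1 ↔ ∀ i < n0, (6 ^ i) • x ∈ K := by
    intro x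
    simp only [hG1, Set.mem_iInter, Set.mem_Iio, Set.mem_preimage]
  -- injectivity
  have hinj : ∀ x ∈ G1, ∀ y ∈ G1, ∀ i, i ≤ n0 → (6 ^ i) • (x - y) = 0 → x = y := by
    intro x hx y hy i
    induction i with
    | zero =>
      intro _ h
      rw [pow_zero, one_smul, sub_eq_zero] at h
      exact h
    | succ i ih =>
      intro hi h
      apply ih (by omega)
      have h4 : 6 • ((6 ^ i) • x - (6 ^ i) • y) = 0 := by
        rw [← smul_sub, smul_smul, ← pow_succ']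
        exact h
      have h5 := hG0inj _ (hKG ((hG1mem x).1 hx i (by omega))) _
        (hKG ((hG1mem y).1 hy i (by omega))) h4
      rw [smul_sub, h5, sub_self]
  -- margin
  have hKK : IsCompact ((fun p : Tor × Tor => p.1 - p.2) '' (G1 ×ˢ G1)) :=
    (hG1comp.prod hG1comp).image (by fun_prop)
  have hmargin : ∀ j : ℕ, ∃ ρ : ℝ, 0 < ρ ∧ (j < 6 ^ n0 → j ≠ 0 → ∀ x ∈ G1, ∀ y ∈ G1,
      ρ ≤ ‖x - y - dd (6 ^ n0) j‖) := by
    intro j
    by_cases hj : j < 6 ^ n0 ∧ j ≠ 0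
    · have hnot : dd (6 ^ n0) j ∉ (fun p : Tor × Tor => p.1 - p.2) '' (G1 ×ˢ G1) := by
        rintro ⟨⟨x, y⟩, ⟨hx, hy⟩, hxy⟩
        have h4 : (6 ^ n0) • (x - y) = 0 := by
          have hxy' : x - y = dd (6 ^ n0) j := hxy
          rw [hxy']
          unfold dd
          rw [← AddCircle.coe_nsmul, nsmul_eq_mul]
          have : (((6 ^ n0 : ℕ) : ℝ)) * ((j : ℝ) / ((6 ^ n0 : ℕ) : ℝ)) = ((j : ℤ) : ℝ) := by
            push_cast; field_simp
          rw [this]
          exact coe_int _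
        have h5 := hinj x hx y hy n0 le_rfl h4
        have h6 : dd (6 ^ n0) j = 0 := by
          have hxy' : x - y = dd (6 ^ n0) j := hxy
          rw [← hxy', h5, sub_self]
        unfold dd at h6
        rw [AddCircle.coe_eq_zero_iff] at h6
        obtain ⟨z, hz⟩ := h6
        simp only [zsmul_eq_mul, mul_one] at hz
        have hpos : (0 : ℝ) < ((6 ^ n0 : ℕ) : ℝ) := by positivity
        rw [eq_div_iff hpos.ne'] at hz
        have hz2 : z * ((6 ^ n0 : ℕ) : ℤ) = (j : ℤ) := by exact_mod_cast hz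
        have hj1 : (0 : ℤ) < (j : ℤ) := by omega
        have hj2 : (j : ℤ) < ((6 ^ n0 : ℕ) : ℤ) := by exact_mod_cast hj.1
        have hz3 : 0 < z := by
          by_contra h7
          have : z * ((6 ^ n0 : ℕ) : ℤ) ≤ 0 :=
            mul_nonpos_of_nonpos_of_nonneg (not_lt.1 h7) (by positivity)
          omega
        have hz4 : 1 * ((6 ^ n0 : ℕ) : ℤ) ≤ z * ((6 ^ n0 : ℕ) : ℤ) := by
          apply mul_le_mul_of_nonneg_right (by omega) (by positivity)
        omega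
      obtain ⟨ρ, hρ, hball⟩ := Metric.isOpen_iff.1 hKK.isClosed.isOpen_compl _ hnot
      refine ⟨ρ, hρ, fun _ _ x hx y hy => ?_⟩
      by_contra hlt
      push Not at hlt
      have h4 : x - y ∈ ball (dd (6 ^ n0) j) ρ := by
        rw [mem_ball, dist_eq_norm]
        exact hlt
      exact hball h4 ⟨(x, y), ⟨hx, hy⟩, rfl⟩
    · exact ⟨1, one_pos, fun h4 h5 => absurd ⟨h4, h5⟩ hj⟩
  choose ρ hρ0 hρ using hmargin
  obtain ⟨ρ1, hρ1, hρ1'⟩ : ∃ ρ1 : ℝ, 0 < ρ1 ∧ ∀ j ∈ range (6 ^ n0), ρ1 ≤ ρ j := by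
    exact exists_lower (6 ^ n0) ρ hρ0
  refine ⟨G1, ρ1, hG1c.measurableSet, hρ1, ?_, ?_⟩
  · have h4 : G1ᶜ ⊆ ⋃ i ∈ range n0, (fun x : Tor => (6 ^ i) • x) ⁻¹' Kᶜ := by
      intro x hx
      rw [Set.mem_compl_iff, hG1mem] at hx
      push Not at hx
      obtain ⟨i, hi, hxi⟩ := hx
      rw [Set.mem_iUnion₂]
      exact ⟨i, mem_range.2 hi, hxi⟩
    have h5 : μ.real G1ᶜ ≤ ∑ i ∈ range n0, μ.real Kᶜ := by
      refine (measureReal_mono h4 (measure_ne_top _ _)).trans ?_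
      refine (measureReal_biUnion_finset_le _ _).trans (le_of_eq ?_)
      refine Finset.sum_congr rfl fun i _ => ?_
      exact (hmp i).measureReal_preimage hKc.isClosed.measurableSet.compl.nullMeasurableSet
    have h6 : μ.real Kᶜ ≤ 2 * ε' := by
      rw [probReal_compl_eq_one_sub hKc.isClosed.measurableSet]
      linarith
    rw [probReal_compl_eq_one_sub hG1c.measurableSet, Finset.sum_const, card_range,
      nsmul_eq_mul] at h5
    have h7 : (n0 : ℝ) * (2 * ε') ≤ ε := by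
      rw [hε']
      have : (n0 : ℝ) * (2 * (ε / (2 * (n0 + 1)))) = ε * (n0 / (n0 + 1)) := by field_simp
      rw [this]
      have h8 : (n0 : ℝ) / (n0 + 1) ≤ 1 := by
        rw [div_le_one (by positivity)]; linarith
      nlinarith
    have h9 : (n0 : ℝ) * μ.real Kᶜ ≤ n0 * (2 * ε') := by gcongr
    linarith
  · intro x hx y hy j hj hlt
    by_contra hj0
    have := hρ j hj hj0 x hx y hy
    have := hρ1' j (mem_range.2 hj)
    linarith

end Helper58.FH
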