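import Pool.Agent.Helper58.FH.Mem

set_option autoImplicit false
open MeasureTheory Filter Topology Metric Finset
open scoped ENNReal ComplexConjugate

/-! The maximal inequality for the number of visits outside a set. -/

namespace Helper58.FH

open Helper58.FX (act UU ev ft Erg T sc PE)

/-- the covering argument of the maximal inequality -/
lemma maximal_aux (a : ℕ → ℕ) (c N1 : ℕ) (R : ℕ) : ∀ t0 : ℕ,
    ((range R).filter fun t => ∃ N, N ≤ N1 ∧ N < c * ∑ s ∈ range N, a (t0 + t + s)).card ≤
      c * ∑ s ∈ range (R + N1), a (t0 + s) := by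
  classical
  induction R using Nat.strong_induction_on with
  | _ R ih =>
    intro t0
    rcases Nat.eq_zero_or_pos R with rfl | hR
    · simp
    set P : ℕ → Prop := fun t => ∃ N, N ≤ N1 ∧ N < c * ∑ s ∈ range N, a (t + s) with hP
    have hcard : ∀ (n t : ℕ), ((range n).filter fun u => P (t + u)).card ≤ n := fun n t =>
      (Finset.card_filter_le _ _).trans (card_range n).le
    have hsplit : ∀ (n R' : ℕ), n ≤ R' → ((range R').filter fun u => P (t0 + u)).card =
        ((range n).filter fun u => P (t0 + u)).card +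
          ((range (R' - n)).filter fun u => P (t0 + n + u)).card := by
      intro n R' hn
      simp only [Finset.card_filter]
      conv_lhs => rw [show R' = n + (R' - n) by omega]
      rw [Finset.sum_range_add]
      congr 1
      refine Finset.sum_congr rfl fun u _ => ?_
      rw [add_assoc]
    by_cases h0 : P t0
    · obtain ⟨N, hN1, hN⟩ := h0
      have hNpos : 0 < N := by
        rcases Nat.eq_zero_or_pos N with rfl | h
        · simp at hN
        · exact h
      rcases le_or_gt R N with h | h
      · refine (hcard R t0).trans (h.trans (hN.le.trans ?_))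
        gcongr
        omega
      · have h1 := ih (R - N) (by omega) (t0 + N)
        have h2 := hsplit N R h.le
        have h3 : ((range R).filter fun u => P (t0 + u)).card ≤
            c * ∑ s ∈ range N, a (t0 + s) + c * ∑ s ∈ range (R - N + N1), a (t0 + N + s) := by
          rw [h2]
          exact Nat.add_le_add ((hcard N t0).trans hN.le) h1
        refine h3.trans (le_of_eq ?_)
        have h4 := Finset.sum_range_add (fun s => a (t0 + s)) N (R - N + N1)
        rw [show N + (R - N + N1) = R + N1 by omega] at h4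
        rw [← mul_add, h4]
        congr 2
        refine Finset.sum_congr rfl fun s _ => ?_
        rw [add_assoc]
    · have h1 := ih (R - 1) (by omega) (t0 + 1)
      have h2 := hsplit 1 R hR
      have h3 : ((range 1).filter fun u => P (t0 + u)).card = 0 := by
        rw [Finset.card_eq_zero, Finset.filter_eq_empty_iff]
        intro u hu
        rw [mem_range, Nat.lt_one_iff] at hu
        subst hu
        exact h0
      have h4 : ((range R).filter fun u => P (t0 + u)).card ≤
          c * ∑ s ∈ range (R - 1 + N1), a (t0 + 1 + s) := by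
        rw [h2, h3, zero_add]
        exact h1
      refine h4.trans ?_
      gcongr
      have h5 := Finset.sum_range_add (fun s => a (t0 + s)) 1 (R - 1 + N1)
      rw [show 1 + (R - 1 + N1) = R + N1 by omega] at h5
      rw [h5]
      have h6 : ∑ s ∈ range (R - 1 + N1), a (t0 + 1 + s) =
          ∑ s ∈ range (R - 1 + N1), a (t0 + (1 + s)) :=
        Finset.sum_congr rfl fun s _ => by rw [add_assoc]
      rw [h6]
      exact Nat.le_add_left _ _

lemma bad_eq_sum (g t0 N : ℕ) (U : Set Tor) (y : Tor) :
    bad g t0 N U y = ∑ s ∈ range N, Uᶜ.indicator (fun _ => (1 : ℕ)) (g ^ (t0 + s) • y) := by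
  classical
  unfold bad
  rw [Finset.card_filter]
  refine Finset.sum_congr rfl fun s _ => ?_
  simp only [Set.indicator_apply, Set.mem_compl_iff]

lemma bad_smul (g t0 t N : ℕ) (U : Set Tor) (y : Tor) :
    bad g t0 N U (g ^ t • y) = bad g (t0 + t) N U y := by
  classical
  unfold bad
  congr 1
  refine Finset.filter_congr fun s _ => ?_
  rw [← mul_smul, ← pow_add, show t0 + s + t = t0 + t + s by ring]

variable {μ : Measure Tor}

lemma bad_closed' (g t0 N k : ℕ) (U : Set Tor) (hU : IsClosed U) :
    IsClosed {y : Tor | k * bad g t0 N U y ≤ N} := by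
  classical
  have e : {y : Tor | k * bad g t0 N U y ≤ N} =
      ⋃ B ∈ (range N).powerset.filter (fun B => k * B.card ≤ N),
        ⋂ t ∈ (range N \ B), (fun y : Tor => g ^ (t0 + t) • y) ⁻¹' U := by
    ext y
    rw [Set.mem_iUnion₂]
    constructor
    · intro hy
      refine ⟨(range N).filter (fun t => g ^ (t0 + t) • y ∉ U), ?_, ?_⟩
      · rw [mem_filter, mem_powerset]
        exact ⟨Finset.filter_subset _ _, hy⟩
      · rw [Set.mem_iInter₂]
        intro t ht
        rw [Finset.mem_sdiff, mem_filter] at ht
        by_contra hcon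
        exact ht.2 ⟨ht.1, hcon⟩
    · rintro ⟨B, hB, hy⟩
      rw [mem_filter] at hB
      rw [Set.mem_iInter₂] at hy
      show k * bad g t0 N U y ≤ N
      refine le_trans (Nat.mul_le_mul_left _ (Finset.card_le_card ?_)) hB.2
      intro t ht
      rw [mem_filter] at ht
      by_contra hcon
      exact ht.2 (hy t (Finset.mem_sdiff.2 ⟨ht.1, hcon⟩))
  rw [e]
  refine isClosed_biUnion_finset fun B _ => isClosed_biInter fun t _ => hU.preimage ?_
  fun_prop

lemma bad_all_closed (g k : ℕ) (U : Set Tor) (hU : IsClosed U) :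
    IsClosed {y : Tor | ∀ N, k * bad g 0 N U y ≤ N} := by
  have e : {y : Tor | ∀ N, k * bad g 0 N U y ≤ N} = ⋂ N, {y : Tor | k * bad g 0 N U y ≤ N} := by
    ext y
    simp
  rw [e]
  exact isClosed_iInter fun N => bad_closed' g 0 N k U hU

/-- **The maximal inequality.** -/
lemma bad_all_mass [IsProbabilityMeasure μ] (g k : ℕ)
    (hg : ∀ n, MeasurePreserving (fun x : Tor => g ^ n • x) μ μ) (U : Set Tor) (hU : IsClosed U) :
    μ.real {y : Tor | ∀ N, k * bad g 0 N U y ≤ N}ᶜ ≤ k * (1 - μ.real U) := by
  classical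
  set E : ℕ → Set Tor := fun N1 => {y | ∃ N, N ≤ N1 ∧ N < k * bad g 0 N U y} with hE
  have hEm : ∀ N1, MeasurableSet (E N1) := by
    intro N1
    have e : E N1 = ⋃ N ∈ Finset.range (N1 + 1), {y : Tor | k * bad g 0 N U y ≤ N}ᶜ := by
      ext y
      simp only [hE, Set.mem_ofPred_eq, Set.mem_iUnion, Finset.mem_range, Set.mem_compl_iff, not_le,
        exists_prop, Nat.lt_succ_iff]
    rw [e]
    exact Finset.measurableSet_biUnion _ fun N _ =>
      (bad_closed' g 0 N k U hU).measurableSet.compl
  have hUm : MeasurableSet Uᶜ := hU.measurableSet.compl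
  have hUc : μ.real Uᶜ = 1 - μ.real U := probReal_compl_eq_one_sub hU.measurableSet
  have hmain : ∀ N1 R : ℕ, (R : ℝ) * μ.real (E N1) ≤ k * ((R + N1 : ℕ) * (1 - μ.real U)) := by
    intro N1 R
    have h1 : ∀ y : Tor, ∑ t ∈ range R, (E N1).indicator (fun _ => (1 : ℝ)) (g ^ t • y) ≤
        k * ∑ s ∈ range (R + N1), Uᶜ.indicator (fun _ => (1 : ℝ)) (g ^ s • y) := by
      intro y
      have h2 := maximal_aux (fun s => Uᶜ.indicator (fun _ => (1 : ℕ)) (g ^ s • y)) k N1 R 0
      simp only [zero_add] at h2
      have h3 : ((range R).filter fun t => ∃ N, N ≤ N1 ∧ N < k * ∑ s ∈ range N,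
          Uᶜ.indicator (fun _ => (1 : ℕ)) (g ^ (t + s) • y)) =
          (range R).filter fun t => g ^ t • y ∈ E N1 := by
        refine Finset.filter_congr fun t _ => ?_
        show (∃ N ≤ N1, _) ↔ ∃ N, N ≤ N1 ∧ N < k * bad g 0 N U (g ^ t • y)
        have h5 : ∀ N, bad g 0 N U (g ^ t • y) =
            ∑ s ∈ range N, Uᶜ.indicator (fun _ => (1 : ℕ)) (g ^ (t + s) • y) := by
          intro N
          rw [bad_smul, bad_eq_sum, zero_add]
        simp only [h5]
      rw [h3, Finset.card_filter] at h2
      have h4 : ((∑ t ∈ range R, if g ^ t • y ∈ E N1 then 1 else 0 : ℕ) : ℝ) ≤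
          ((k * ∑ s ∈ range (R + N1), Uᶜ.indicator (fun _ => (1 : ℕ)) (g ^ s • y) : ℕ) : ℝ) := by
        exact_mod_cast h2
      push_cast at h4
      refine le_trans (le_of_eq ?_) (h4.trans (le_of_eq ?_))
      · refine Finset.sum_congr rfl fun t _ => ?_
        simp only [Set.indicator_apply]
      · congr 1
        refine Finset.sum_congr rfl fun t _ => ?_
        simp only [Set.indicator_apply]
        split_ifs <;> simp
    have hi : ∀ (V : Set Tor), MeasurableSet V → ∀ t, Integrable (fun y : Tor =>
        V.indicator (fun _ => (1 : ℝ)) (g ^ t • y)) μ := by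
      intro V hV t
      have := (hg t).integrable_comp_of_integrable
        (g := V.indicator fun _ => (1 : ℝ)) ((integrable_const _).indicator hV)
      exact this
    have hv : ∀ (V : Set Tor), MeasurableSet V → ∀ t, ∫ y, V.indicator (fun _ => (1 : ℝ))
        (g ^ t • y) ∂μ = μ.real V := by
      intro V hV t
      have h5 : (fun y : Tor => V.indicator (fun _ => (1 : ℝ)) (g ^ t • y)) =
          ((fun x : Tor => g ^ t • x) ⁻¹' V).indicator fun _ => (1 : ℝ) := by
        funext y
        simp only [Set.indicator_apply, Set.mem_preimage]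
      rw [h5, integral_indicator_const _ ((hg t).measurable hV), smul_eq_mul, mul_one,
        Measure.real, (hg t).measure_preimage hV.nullMeasurableSet]
      rfl
    have h2 := integral_mono (μ := μ) (integrable_finsetSum _ fun t _ => hi (E N1) (hEm N1) t)
      ((integrable_finsetSum (range (R + N1)) fun s _ => hi Uᶜ hUm s).const_mul (k : ℝ)) h1
    rw [integral_finsetSum _ fun t _ => hi (E N1) (hEm N1) t, integral_const_mul,
      integral_finsetSum _ fun t _ => hi Uᶜ hUm t] at h2
    simp only [hv _ (hEm N1), hv _ hUm, Finset.sum_const, card_range, nsmul_eq_mul, hUc] at h2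
    exact h2
  have hE1 : ∀ N1 : ℕ, μ.real (E N1) ≤ k * (1 - μ.real U) := by
    intro N1
    have h0 : (0 : ℝ) ≤ 1 - μ.real U := by
      rw [← hUc]
      exact measureReal_nonneg
    refine le_of_forall_pos_le_add fun ε hε => ?_
    obtain ⟨R, hR⟩ := exists_nat_gt (k * (N1 * (1 - μ.real U)) / ε)
    have hR0 : (0 : ℝ) < R := lt_of_le_of_lt (by positivity) hR
    have h1 := hmain N1 R
    rw [div_lt_iff₀ hε] at hR
    push_cast at h1
    have h2 : (R : ℝ) * μ.real (E N1) ≤ R * (k * (1 - μ.real U) + ε) := by nlinarith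
    exact le_of_mul_le_mul_left h2 hR0
  have e : {y : Tor | ∀ N, k * bad g 0 N U y ≤ N}ᶜ = ⋃ N1, E N1 := by
    ext y
    simp only [hE, Set.mem_compl_iff, Set.mem_ofPred_eq, not_forall, not_le, Set.mem_iUnion]
    constructor
    · rintro ⟨N, hN⟩
      exact ⟨N, N, le_rfl, hN⟩
    · rintro ⟨_, N, _, hN⟩
      exact ⟨N, hN⟩
  have hmono : Monotone E := by
    intro N1 N2 h y hy
    obtain ⟨N, hN, hN'⟩ := hy
    exact ⟨N, hN.trans h, hN'⟩
  rw [e]
  have ht := tendsto_measure_iUnion_atTop (μ := μ) hmono
  have ht2 := (ENNReal.tendsto_toReal (measure_ne_top μ (⋃ N1, E N1))).comp ht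
  exact le_of_tendsto' ht2 hE1

end Helper58.FH
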