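import Pool.Agent.Helper58.FH.Hor
import Pool.Agent.Helper58.FH.Max

set_option autoImplicit false
open MeasureTheory Filter Topology Metric Finset
open scoped ENNReal ComplexConjugate

/-! One closed set with small covering numbers at all scales. -/

namespace Helper58.FH

open Helper58.FX (act UU ev ft Erg T sc PE)

variable {μ : Measure Tor}

/-- a countable intersection of large closed sets -/
lemma inter_mass [IsProbabilityMeasure μ] (K : ℕ → Set Tor) (ε : ℝ)
    (hK : ∀ n, MeasurableSet (K n)) (hm : ∀ n, 1 - ε / 2 ^ (n + 1) ≤ μ.real (K n)) :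
    1 - ε ≤ μ.real (⋂ n, K n) := by
  have hc : ∀ n, μ.real (K n)ᶜ ≤ ε / 2 ^ (n + 1) := by
    intro n
    rw [probReal_compl_eq_one_sub (hK n)]
    have := hm n
    linarith
  have h0 : 0 ≤ ε := by
    have h1 := hc 0
    have h2 : 0 ≤ μ.real (K 0)ᶜ := measureReal_nonneg
    have h3 : 0 ≤ ε / 2 ^ (0 + 1) := h2.trans h1
    linarith
  have h1 : μ (⋂ n, K n)ᶜ ≤ ENNReal.ofReal ε := by
    rw [Set.compl_iInter]
    refine (measure_iUnion_le _).trans ?_
    have h2 : ∀ n, μ (K n)ᶜ ≤ ENNReal.ofReal (ε / 2 ^ (n + 1)) := by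
      intro n
      rw [← ofReal_measureReal (μ := μ) (s := (K n)ᶜ) (measure_ne_top _ _)]
      exact ENNReal.ofReal_le_ofReal (hc n)
    refine (ENNReal.tsum_le_tsum h2).trans ?_
    have h3 : HasSum (fun n : ℕ => ε / 2 ^ (n + 1)) ε := by
      have h4 := (hasSum_geometric_two).mul_left (ε / 2)
      have h5 : ε / 2 * 2 = ε := by ring
      rw [h5] at h4
      have h6 : (fun n : ℕ => ε / 2 ^ (n + 1)) = fun n : ℕ => ε / 2 * (1 / 2) ^ n := by
        funext n
        rw [pow_succ, one_div, inv_pow]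
        field_simp
      rw [h6]
      exact h4
    rw [← ENNReal.ofReal_tsum_of_nonneg (fun n => by positivity) h3.summable, h3.tsum_eq]
  have h2 : μ.real (⋂ n, K n)ᶜ ≤ ε := by
    rw [measureReal_def]
    exact ENNReal.toReal_le_of_le_ofReal h0 h1
  rw [probReal_compl_eq_one_sub (MeasurableSet.iInter hK)] at h2
  linarith

lemma norm_nsmul_eq (N : ℕ) (y : Tor) (h : (N : ℝ) * ‖y‖ ≤ 1 / 2) : ‖N • y‖ = N * ‖y‖ := by
  obtain ⟨t, ht, htn⟩ := exists_rep y
  have h1 : N • y = (((N : ℝ) * t : ℝ) : Tor) := by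
    rw [← ht, ← AddCircle.coe_nsmul, nsmul_eq_mul]
  have h2 : |(N : ℝ) * t| = N * ‖y‖ := by
    rw [abs_mul, htn, Nat.abs_cast]
  rw [h1, (AddCircle.norm_coe_eq_abs_iff (p := (1 : ℝ)) (x := (N : ℝ) * t) one_ne_zero).2, h2]
  rw [h2, abs_one]
  exact h

/-- two points with the same pattern are close -/
lemma chain (n1 s j m : ℕ) (hs : s + 1 = n1) (hj : j < s) (x x' : Tor)
    (h0 : ‖x - x'‖ ≤ 2 / 6 ^ n1)
    (h : ∀ u, u < m → ‖6 ^ (j + u * s) • (x - x')‖ ≤ 2 / 6 ^ n1) :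
    ∀ u, u < m → ‖x - x'‖ ≤ 2 / 6 ^ (n1 + j + u * s) := by
  have key : ∀ e : ℕ, (6 : ℝ) ^ e * ‖x - x'‖ ≤ 1 / 2 → ‖6 ^ e • (x - x')‖ ≤ 2 / 6 ^ n1 →
      ‖x - x'‖ ≤ 2 / 6 ^ (n1 + e) := by
    intro e he1 he2
    rw [norm_nsmul_eq (6 ^ e) (x - x') (by push_cast; exact he1)] at he2
    push_cast at he2
    rw [le_div_iff₀ (by positivity)] at he2 ⊢
    rw [pow_add]
    linarith
  intro u
  induction u with
  | zero =>
    intro hm
    have h1 := h 0 hm
    rw [zero_mul, add_zero] at h1 ⊢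
    refine key j ?_ h1
    have h2 : (6 : ℝ) ^ j ≤ 6 ^ (n1 - 1) := pow_le_pow_right₀ (by norm_num) (by omega)
    have h3 : (6 : ℝ) ^ n1 = 6 ^ (n1 - 1) * 6 := by
      rw [← pow_succ]
      congr 1
      omega
    rw [h3] at h0
    have h4 : (0 : ℝ) < 6 ^ (n1 - 1) := by positivity
    calc (6 : ℝ) ^ j * ‖x - x'‖ ≤ 6 ^ (n1 - 1) * (2 / (6 ^ (n1 - 1) * 6)) := by gcongr
      _ = 1 / 3 := by
        field_simp
        norm_num
      _ ≤ 1 / 2 := by norm_num
  | succ u ih =>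
    intro hm
    have h1 := ih (by omega)
    have h2 := h (u + 1) hm
    rw [add_assoc] at h1 ⊢
    refine key (j + (u + 1) * s) ?_ h2
    have h3 : (6 : ℝ) ^ (n1 + (j + u * s)) = 6 * 6 ^ (j + (u + 1) * s) := by
      rw [← pow_succ']
      congr 1
      rw [← hs]
      ring
    rw [h3] at h1
    have h4 : (0 : ℝ) < 6 ^ (j + (u + 1) * s) := by positivity
    calc (6 : ℝ) ^ (j + (u + 1) * s) * ‖x - x'‖ ≤
          6 ^ (j + (u + 1) * s) * (2 / (6 * 6 ^ (j + (u + 1) * s))) := by gcongr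
      _ = 1 / 3 := by
        field_simp
        norm_num
      _ ≤ 1 / 2 := by norm_num

lemma sum_residues (f : ℕ → ℕ) (s m : ℕ) :
    ∑ t ∈ range (s * m), f t = ∑ j ∈ range s, ∑ u ∈ range m, f (j + u * s) := by
  induction m with
  | zero => simp
  | succ m ih =>
    rw [mul_add, mul_one, Finset.sum_range_add, ih]
    simp only [Finset.sum_range_succ]
    rw [Finset.sum_add_distrib]
    congr 1
    refine Finset.sum_congr rfl fun j _ => ?_
    congr 1
    ring

/-- a residue class with few bad times -/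
lemma exists_residue (κ s m : ℕ) (hs : 1 ≤ s) (U : Set Tor) (x : Tor)
    (hx : κ * bad 6 0 (s * m) U x ≤ s * m) :
    ∃ j, j < s ∧ κ * ∑ u ∈ range m, Uᶜ.indicator (fun _ => (1 : ℕ)) (6 ^ (j + u * s) • x) ≤ m := by
  by_contra hcon
  push Not at hcon
  rw [bad_eq_sum] at hx
  simp only [zero_add] at hx
  rw [sum_residues, Finset.mul_sum] at hx
  have h1 : ∑ _j ∈ range s, (m + 1) ≤ ∑ j ∈ range s, κ * ∑ u ∈ range m,
      Uᶜ.indicator (fun _ => (1 : ℕ)) (6 ^ (j + u * s) • x) :=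
    Finset.sum_le_sum fun j hj => hcon j (mem_range.1 hj)
  rw [Finset.sum_const, card_range, smul_eq_mul] at h1
  have h2 : s * (m + 1) ≤ s * m := h1.trans hx
  have h3 := Nat.le_of_mul_le_mul_left h2 (by omega)
  omega

/-- the patterns -/
noncomputable def Pats (A1 D : Finset Tor) (s m b : ℕ) : Finset (ℕ × Tor × (Fin m → Tor)) :=
  open Classical in
  (range s) ×ˢ (D ×ˢ (((Finset.univ : Finset (Fin m)).powerset.filter fun B => B.card ≤ b).biUnion
    fun B => Fintype.piFinset fun u => if u ∈ B then D else A1))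

lemma card_Pats (A1 D : Finset Tor) (s m b : ℕ) (hA : 1 ≤ A1.card) (hD : 1 ≤ D.card) :
    (Pats A1 D s m b).card ≤ s * (D.card * (2 ^ m * (A1.card ^ m * D.card ^ b))) := by
  classical
  unfold Pats
  rw [Finset.card_product, Finset.card_product, card_range]
  gcongr
  refine Finset.card_biUnion_le.trans ?_
  have h1 : ∀ B ∈ ((Finset.univ : Finset (Fin m)).powerset.filter fun B => B.card ≤ b),
      (Fintype.piFinset fun u => if u ∈ B then D else A1).card ≤ A1.card ^ m * D.card ^ b := by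
    intro B hB
    rw [mem_filter] at hB
    rw [Fintype.card_piFinset]
    have h2 : ∀ u : Fin m, (if u ∈ B then D else A1).card ≤
        A1.card * (if u ∈ B then D.card else 1) := by
      intro u
      split_ifs
      · exact Nat.le_mul_of_pos_left _ hA
      · rw [mul_one]
    refine (Finset.prod_le_prod' fun u _ => h2 u).trans ?_
    rw [Finset.prod_mul_distrib, Finset.prod_const, Finset.card_univ, Fintype.card_fin,
      Finset.prod_ite, Finset.prod_const, Finset.prod_const_one, mul_one]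
    gcongr
    refine le_trans (Finset.card_le_card ?_) hB.2
    intro u hu
    exact (mem_filter.1 hu).2
  refine (Finset.sum_le_sum h1).trans ?_
  rw [Finset.sum_const, smul_eq_mul]
  gcongr
  refine (Finset.card_filter_le _ _).trans ?_
  rw [Finset.card_powerset, Finset.card_univ, Fintype.card_fin]

/-- the numerical estimate for the number of patterns -/
lemma pats_num (k n1 s a D b m n E : ℕ) (hs : s + 1 = n1) (hn1 : 8 * k ≤ n1)
    (ha : a ^ (8 * k) ≤ 6 ^ n1) (hD : D ≤ 6 ^ n1) (hb : 8 * k * b ≤ m)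
    (hm : m = n / s + 1) (hE : s ^ (8 * k) * (6 ^ n1) ^ (8 * k) ≤ 6 ^ E) (hn : E + 3 * n1 ≤ 2 * n) :
    (s * (D * (2 ^ m * (a ^ m * D ^ b)))) ^ k ≤ 6 ^ n := by
  have h8 : ((s * (D * (2 ^ m * (a ^ m * D ^ b)))) ^ k) ^ 8 ≤ (6 ^ n) ^ 8 := by
    have h1 : ((s * (D * (2 ^ m * (a ^ m * D ^ b)))) ^ k) ^ 8 =
        s ^ (8 * k) * D ^ (8 * k) * ((2 ^ m) ^ (8 * k) * ((a ^ (8 * k)) ^ m * D ^ (8 * k * b))) := by
      rw [← pow_mul, mul_comm k 8]
      rw [mul_pow, mul_pow, mul_pow, mul_pow, ← pow_mul a, mul_comm m (8 * k), pow_mul a,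
        ← pow_mul D b, mul_comm b (8 * k)]
      ring
    rw [h1]
    have h2 : (2 ^ m) ^ (8 * k) ≤ (6 ^ n1) ^ m := by
      rw [← pow_mul, ← pow_mul, mul_comm m]
      calc 2 ^ (8 * k * m) ≤ 6 ^ (8 * k * m) := Nat.pow_le_pow_left (by norm_num) _
        _ ≤ 6 ^ (n1 * m) := Nat.pow_le_pow_right (by norm_num) (Nat.mul_le_mul_right _ hn1)
    have h3 : (a ^ (8 * k)) ^ m ≤ (6 ^ n1) ^ m := Nat.pow_le_pow_left ha m
    have h4 : D ^ (8 * k * b) ≤ (6 ^ n1) ^ m := by
      calc D ^ (8 * k * b) ≤ (6 ^ n1) ^ (8 * k * b) := Nat.pow_le_pow_left hD _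
        _ ≤ (6 ^ n1) ^ m := Nat.pow_le_pow_right (by positivity) hb
    have h5 : s ^ (8 * k) * D ^ (8 * k) ≤ 6 ^ E :=
      (Nat.mul_le_mul_left _ (Nat.pow_le_pow_left hD _)).trans hE
    calc s ^ (8 * k) * D ^ (8 * k) * ((2 ^ m) ^ (8 * k) * ((a ^ (8 * k)) ^ m * D ^ (8 * k * b)))
        ≤ 6 ^ E * ((6 ^ n1) ^ m * ((6 ^ n1) ^ m * (6 ^ n1) ^ m)) :=
          Nat.mul_le_mul h5 (Nat.mul_le_mul h2 (Nat.mul_le_mul h3 h4))
      _ = 6 ^ (E + 3 * (n1 * m)) := by
          rw [← pow_mul, ← pow_add, ← pow_add, ← pow_add]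
          congr 1
          ring
      _ ≤ 6 ^ (n * 8) := by
          apply Nat.pow_le_pow_right (by norm_num)
          have h6 : s * (n / s) ≤ n := Nat.mul_div_le n s
          have h7 : n / s ≤ n := Nat.div_le_self n s
          rw [hm, ← hs]
          rw [← hs] at hn
          have h9 : (s + 1) * (n / s + 1) = s * (n / s) + n / s + (s + 1) := by ring
          rw [h9]
          omega
      _ = (6 ^ n) ^ 8 := pow_mul _ _ _
  exact (Nat.pow_le_pow_iff_left (by norm_num)).1 h8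

/-- small covering numbers at all scales, fixed rate -/
theorem cover_k [IsProbabilityMeasure μ] (h2 : MeasurePreserving (T 2) μ μ)
    (h3 : MeasurePreserving (T 3) μ μ) (hE : Erg (ft μ)) (hne : ∃ n : ℤ, n ≠ 0 ∧ ft μ n ≠ 0)
    (k : ℕ) (hk : 1 ≤ k) (ε : ℝ) (hε : 0 < ε) :
    ∃ K : Set Tor, IsClosed K ∧ 1 - ε ≤ μ.real K ∧
      ∃ n0 : ℕ, ∀ n, n0 ≤ n → ∃ A : Finset Tor, A.card ^ k ≤ 6 ^ n ∧
        K ⊆ ⋃ a ∈ A, closedBall a (1 / (6 ^ n : ℕ)) := by
  classical
  have hkr : (1 : ℝ) ≤ k := by exact_mod_cast hk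
  obtain ⟨n0', hn0'⟩ := covering h2 h3 hE hne (8 * k) (by omega) (ε / (8 * k)) (by positivity)
  set n1 := n0' + 8 * k with hn1
  obtain ⟨A1, hA1, hmass⟩ := hn0' n1 (by omega)
  set U : Set Tor := ⋃ a ∈ A1, closedBall a (1 / (6 ^ n1 : ℕ)) with hU
  have hUc : IsClosed U := isClosed_biUnion_finset fun _ _ => isClosed_closedBall
  have h6 : ∀ n, MeasurePreserving (fun x : Tor => 6 ^ n • x) μ μ := by
    intro n
    have := mp_pow h2 h3 n n
    rwa [show 2 ^ n * 3 ^ n = 6 ^ n by rw [← mul_pow]; norm_num] at this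
  set K : Set Tor := {y | ∀ N, (8 * k) * bad 6 0 N U y ≤ N} with hK
  refine ⟨K, bad_all_closed _ _ _ hUc, ?_, ?_⟩
  · have h4 : μ.real Kᶜ ≤ (8 * k : ℕ) * (1 - μ.real U) := bad_all_mass 6 (8 * k) h6 U hUc
    rw [probReal_compl_eq_one_sub (bad_all_closed _ _ _ hUc).measurableSet] at h4
    have h5 : ((8 * k : ℕ) : ℝ) * (1 - μ.real U) ≤ (8 * k : ℕ) * (ε / (8 * k)) := by
      apply mul_le_mul_of_nonneg_left _ (Nat.cast_nonneg _)
      linarith
    have h6 : ((8 * k : ℕ) : ℝ) * (ε / (8 * k)) = ε := by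
      push_cast
      field_simp
    linarith
  rcases K.eq_empty_or_nonempty with hKe | ⟨y0, hy0⟩
  · refine ⟨0, fun n _ => ⟨∅, ?_, ?_⟩⟩
    · rw [Finset.card_empty, Nat.zero_pow (by omega)]
      positivity
    · rw [hKe]
      exact Set.empty_subset _
  have hA1c : 1 ≤ A1.card := by
    rw [Nat.one_le_iff_ne_zero, Ne, Finset.card_eq_zero]
    intro h
    have h5 : U = ∅ := by
      rw [hU, h]
      simp
    have h7 := hy0 1
    rw [h5, bad_eq_sum] at h7
    simp at h7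
    omega
  set s := n1 - 1 with hs
  have hs1 : s + 1 = n1 := by omega
  have hs0 : 1 ≤ s := by omega
  set D : Finset Tor := (range (6 ^ n1)).image fun i : ℕ => ((i / (6 ^ n1 : ℕ) : ℝ) : Tor) with hD
  have hDc : D.card ≤ 6 ^ n1 := Finset.card_image_le.trans (card_range _).le
  have hDc1 : 1 ≤ D.card := by
    rw [Nat.one_le_iff_ne_zero, Ne, Finset.card_eq_zero, Finset.image_eq_empty,
      Finset.range_eq_empty_iff]
    positivity
  obtain ⟨E, hE6⟩ : ∃ E : ℕ, s ^ (8 * k) * (6 ^ n1) ^ (8 * k) ≤ 6 ^ E :=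
    ⟨_, (Nat.lt_pow_self (by norm_num)).le⟩
  refine ⟨E + 3 * n1, fun n hn => ?_⟩
  set m := n / s + 1 with hm
  set b := m / (8 * k) with hb
  have hbm : 8 * k * b ≤ m := Nat.mul_div_le m (8 * k)
  -- the pattern of a point
  set Cons : (ℕ × Tor × (Fin m → Tor)) → Tor → Prop := fun p x =>
    ‖x - p.2.1‖ ≤ 1 / (6 ^ n1 : ℕ) ∧ ∀ u : Fin m, ‖6 ^ (p.1 + u * s) • x - p.2.2 u‖ ≤
      1 / (6 ^ n1 : ℕ) with hCons
  have hpat : ∀ x ∈ K, ∃ p ∈ Pats A1 D s m b, Cons p x := by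
    intro x hx
    obtain ⟨j, hj, hjb⟩ := exists_residue (8 * k) s m hs0 U x (hx (s * m))
    obtain ⟨i, hi, hxi⟩ := exists_center (6 ^ n1) (by positivity) x
    have hcen : ∀ u : Fin m, ∃ e : Tor,
        e ∈ (if u ∈ (Finset.univ.filter fun u : Fin m => 6 ^ (j + u * s) • x ∉ U) then D else A1) ∧
        ‖6 ^ (j + u * s) • x - e‖ ≤ 1 / (6 ^ n1 : ℕ) := by
      intro u
      by_cases hu : 6 ^ (j + u * s) • x ∈ U
      · rw [if_neg (by simpa using hu)]
        rw [hU, Set.mem_iUnion₂] at hu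
        obtain ⟨a, ha, hua⟩ := hu
        refine ⟨a, ha, ?_⟩
        rw [mem_closedBall, dist_eq_norm] at hua
        exact hua
      · rw [if_pos (by simpa using hu)]
        obtain ⟨i, hi, hxi⟩ := exists_center (6 ^ n1) (by positivity) (6 ^ (j + u * s) • x)
        exact ⟨_, Finset.mem_image_of_mem _ hi, hxi⟩
    choose c hc1 hc2 using hcen
    refine ⟨(j, ((i / (6 ^ n1 : ℕ) : ℝ) : Tor), c), ?_, hxi, hc2⟩
    unfold Pats
    rw [Finset.mem_product, Finset.mem_product, Finset.mem_biUnion]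
    refine ⟨mem_range.2 hj, Finset.mem_image_of_mem _ hi,
      Finset.univ.filter fun u : Fin m => 6 ^ (j + u * s) • x ∉ U, ?_, ?_⟩
    · rw [mem_filter, mem_powerset]
      refine ⟨Finset.subset_univ _, ?_⟩
      rw [hb, Nat.le_div_iff_mul_le (by omega), mul_comm]
      refine le_trans (le_of_eq ?_) hjb
      congr 1
      rw [Finset.sum_range, Finset.card_filter]
      refine Finset.sum_congr rfl fun u _ => ?_
      simp only [Set.indicator_apply, Set.mem_compl_iff]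
    · rw [Fintype.mem_piFinset]
      exact hc1
  set R : (ℕ × Tor × (Fin m → Tor)) → Tor := fun p =>
    if h : ∃ x ∈ K, Cons p x then h.choose else 0 with hR
  refine ⟨(Pats A1 D s m b).image R, ?_, ?_⟩
  · refine le_trans (Nat.pow_le_pow_left (Finset.card_image_le.trans
      (card_Pats A1 D s m b hA1c hDc1)) k) ?_
    exact pats_num k n1 s A1.card D.card b m n E hs1 (by omega) hA1 hDc hbm hm hE6
      (by omega)
  · intro x hx
    obtain ⟨p, hp, hpx⟩ := hpat x hx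
    rw [Set.mem_iUnion₂]
    refine ⟨R p, Finset.mem_image_of_mem _ hp, ?_⟩
    have hex : ∃ x ∈ K, Cons p x := ⟨x, hx, hpx⟩
    have hRp : R p = hex.choose := by
      rw [hR]
      simp only
      rw [dif_pos hex]
    have hx' : R p ∈ K ∧ Cons p (R p) := by
      rw [hRp]
      exact hex.choose_spec
    have hj : p.1 < s := by
      unfold Pats at hp
      rw [Finset.mem_product] at hp
      exact mem_range.1 hp.1
    have htri : ∀ (a b c : Tor) (r : ℝ), ‖a - c‖ ≤ r → ‖b - c‖ ≤ r → ‖a - b‖ ≤ 2 * r := by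
      intro a b c r ha hb
      have e : a - b = (a - c) - (b - c) := by abel
      rw [e]
      refine (norm_sub_le _ _).trans ?_
      linarith
    have h26 : 2 * (1 / ((6 ^ n1 : ℕ) : ℝ)) = 2 / 6 ^ n1 := by
      push_cast
      ring
    have h5 := chain n1 s p.1 m hs1 hj x (R p) ?_ ?_ (n / s) (by omega)
    · rw [mem_closedBall, dist_eq_norm]
      refine h5.trans ?_
      have h6 : n + 1 ≤ n1 + p.1 + n / s * s := by
        have h7 : n < s * (n / s + 1) := Nat.lt_mul_div_succ n (by omega)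
        have h8 : s * (n / s + 1) = n / s * s + s := by ring
        omega
      have h7 : (6 : ℝ) ^ (n + 1) ≤ 6 ^ (n1 + p.1 + n / s * s) :=
        pow_le_pow_right₀ (by norm_num) h6
      calc (2 : ℝ) / 6 ^ (n1 + p.1 + n / s * s) ≤ 2 / 6 ^ (n + 1) := by gcongr
        _ = (1 / 3) * (1 / 6 ^ n) := by
          rw [pow_succ]
          field_simp
          norm_num
        _ ≤ 1 * (1 / 6 ^ n) := by gcongr; norm_num
        _ = 1 / ((6 ^ n : ℕ) : ℝ) := by push_cast; ring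
    · rw [← h26]
      exact htri _ _ _ _ hpx.1 hx'.2.1
    · intro u hu
      rw [smul_sub, ← h26]
      exact htri _ _ _ _ (hpx.2 ⟨u, hu⟩) (hx'.2.2 ⟨u, hu⟩)

/-- **One closed set with small covering numbers at all scales.** -/
theorem cover_unif [IsProbabilityMeasure μ] (h2 : MeasurePreserving (T 2) μ μ)
    (h3 : MeasurePreserving (T 3) μ μ) (hE : Erg (ft μ)) (hne : ∃ n : ℤ, n ≠ 0 ∧ ft μ n ≠ 0)
    (ε : ℝ) (hε : 0 < ε) :
    ∃ K : Set Tor, IsClosed K ∧ 1 - ε ≤ μ.real K ∧ ∀ k : ℕ, 1 ≤ k →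
      ∃ n0 : ℕ, ∀ n, n0 ≤ n → ∃ A : Finset Tor, A.card ^ k ≤ 6 ^ n ∧
        K ⊆ ⋃ a ∈ A, closedBall a (1 / (6 ^ n : ℕ)) := by
  have h := fun j : ℕ => cover_k h2 h3 hE hne (j + 1) (by omega) (ε / 2 ^ (j + 1)) (by positivity)
  choose K hKc hKm hK using h
  refine ⟨⋂ j, K j, isClosed_iInter hKc, inter_mass K ε (fun n => (hKc n).measurableSet) hKm, ?_⟩
  intro k hk
  obtain ⟨n0, hn0⟩ := hK (k - 1)
  refine ⟨n0, fun n hn => ?_⟩
  obtain ⟨A, hA, hKA⟩ := hn0 n hn
  rw [show k - 1 + 1 = k by omega] at hA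
  exact ⟨A, hA, (Set.iInter_subset _ _).trans hKA⟩

end Helper58.FH
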