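import Pool.Agent.Helper58.FH.Basic
import Pool.Agent.Helper17.TranslM

set_option autoImplicit false
open MeasureTheory Filter Topology Metric Finset
open scoped ENNReal ComplexConjugate

/-! Lebesgue measure has none of the properties of the finite horizon. -/

namespace Helper58.FH

lemma volProb : IsProbabilityMeasure (volume : Measure Tor) := Helper17.TranslM.instProb

lemma leb_horizon (h : ∀ (B : ℕ) (ε : ℝ), 0 < ε → ∃ S0 : ℕ, ∀ S, S0 ≤ S →
    ∃ G : Set Tor, IsClosed G ∧ 1 - ε ≤ (volume : Measure Tor).real G ∧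
      ∀ x ∈ G, ∀ y ∈ G, ∀ r : ℝ, 0 < r → (S : ℝ) ≤ (Real.log (1 / r)) ^ B →
        ∀ i l : ℕ, 2 ^ i * 3 ^ l ≤ S → ‖(2 ^ i * 3 ^ l) • (x - y)‖ ≤ 2 ^ i * 3 ^ l * r →
          ‖x - y‖ ≤ r) : False := by
  haveI := volProb
  obtain ⟨S0, hS0⟩ := h 1 (1 / 4) (by norm_num)
  obtain ⟨G, hGc, hG, hmain⟩ := hS0 (max S0 2) (le_max_left _ _)
  set S := max S0 2 with hS
  have hS2 : 2 ≤ S := le_max_right _ _
  set c : Tor := ((1 / 2 : ℝ) : Tor) with hc
  have hc2 : (2 : ℕ) • c = 0 := by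
    rw [hc, ← AddCircle.coe_nsmul, AddCircle.coe_eq_zero_iff]
    exact ⟨1, by norm_num⟩
  have hcn : ‖c‖ = 1 / 2 := by
    rw [hc, UnitAddCircle.norm_eq]
    have h1 : round (1 / 2 : ℝ) = 1 := by
      rw [round_eq]
      norm_num
    rw [h1]
    norm_num
  have hmp : MeasurePreserving (fun x : Tor => x + c) volume volume :=
    measurePreserving_add_right volume c
  have h1 : (volume : Measure Tor).real ((fun x : Tor => x + c) ⁻¹' G) =
      (volume : Measure Tor).real G := by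
    unfold Measure.real
    rw [hmp.measure_preimage hGc.measurableSet.nullMeasurableSet]
  obtain ⟨x, hx1, hx2⟩ : (G ∩ (fun x : Tor => x + c) ⁻¹' G).Nonempty := by
    by_contra hcon
    rw [Set.not_nonempty_iff_eq_empty] at hcon
    have h2 := measureReal_union (μ := (volume : Measure Tor)) (Set.disjoint_iff_inter_eq_empty.2 hcon)
      (hmp.measurable hGc.measurableSet)
    have h3 : (volume : Measure Tor).real (G ∪ (fun x : Tor => x + c) ⁻¹' G) ≤ 1 :=
      measureReal_le_one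
    rw [h2, h1] at h3
    linarith
  have h4 := hmain x hx1 (x + c) hx2 (Real.exp (-((S : ℝ) + 1))) (Real.exp_pos _) ?_ 1 0 ?_ ?_
  · have e : x - (x + c) = -c := by abel
    rw [e, norm_neg, hcn] at h4
    have h5 : Real.exp (-((S : ℝ) + 1)) < 1 / 2 := by
      have h6 : (S : ℝ) + 1 + 1 ≤ Real.exp ((S : ℝ) + 1) := Real.add_one_le_exp _
      have h7 : (0 : ℝ) ≤ S := Nat.cast_nonneg _
      have h8 : (2 : ℝ) ≤ S := by exact_mod_cast hS2
      rw [Real.exp_neg, inv_lt_comm₀ (Real.exp_pos _) (by norm_num)]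
      linarith
    linarith
  · rw [pow_one, one_div, ← Real.exp_neg, Real.log_exp, neg_neg]
    linarith
  · rw [pow_one, pow_zero, mul_one]; exact hS2
  · have e : (2 ^ 1 * 3 ^ 0) • (x - (x + c)) = -((2 : ℕ) • c) := by
      have e1 : x - (x + c) = -c := by abel
      rw [e1, smul_neg]
      norm_num
    rw [e, hc2, neg_zero, norm_zero]
    positivity

lemma leb_smooth (h : ∀ (P0 : ℕ) (ε : ℝ), 0 < ε → ∃ q0 : ℕ, ∀ B : ℕ, ∃ S0 : ℕ, ∀ S : ℕ, S0 ≤ S →
    ∃ K : Set Tor, IsClosed K ∧ 1 - ε ≤ (volume : Measure Tor).real K ∧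
      ∀ x ∈ K, ∀ y ∈ K, ∀ r : ℝ, 0 < r → (S : ℝ) ≤ (Real.log (1 / r)) ^ B →
        ∀ s : ℕ, 0 < s → s ≤ S → (∀ p : ℕ, p.Prime → p ∣ s → p ≤ P0) →
          ‖s • (x - y)‖ ≤ s * r →
          ∃ q : ℕ, 0 < q ∧ q ≤ q0 ∧ Nat.Coprime q 6 ∧ q ∣ s ∧ ‖q • (x - y)‖ ≤ q * r) :
    False := by
  refine leb_horizon fun B ε hε => ?_
  obtain ⟨q0, hq0⟩ := h 3 ε hε
  obtain ⟨S0, hS0⟩ := hq0 B
  refine ⟨S0, fun S hS => ?_⟩
  obtain ⟨K, hKc, hK, hmain⟩ := hS0 S hS
  refine ⟨K, hKc, hK, ?_⟩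
  intro x hx y hy r hr hSr i l hil hnorm
  have hpr : ∀ p : ℕ, p.Prime → p ∣ 2 ^ i * 3 ^ l → p ≤ 3 := by
    intro p hp hpd
    rcases (Nat.Prime.dvd_mul hp).1 hpd with h1 | h1
    · exact (Nat.le_of_dvd (by norm_num) (hp.dvd_of_dvd_pow h1)).trans (by norm_num)
    · exact Nat.le_of_dvd (by norm_num) (hp.dvd_of_dvd_pow h1)
  have hn' : ‖(2 ^ i * 3 ^ l) • (x - y)‖ ≤ ((2 ^ i * 3 ^ l : ℕ) : ℝ) * r := by
    push_cast
    exact hnorm
  obtain ⟨q, hq0, _, hq6, hqs, hq⟩ := hmain x hx y hy r hr hSr (2 ^ i * 3 ^ l)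
    (Nat.mul_pos (by positivity) (by positivity)) hil hpr hn'
  have hq1 : q = 1 := by
    have hc : Nat.Coprime q (2 ^ i * 3 ^ l) := by
      refine Nat.Coprime.mul_right ?_ ?_
      · exact (Nat.Coprime.coprime_dvd_right (by norm_num) hq6).pow_right i
      · exact (Nat.Coprime.coprime_dvd_right (by norm_num) hq6).pow_right l
    exact Nat.Coprime.eq_one_of_dvd hc hqs
  rw [hq1, one_smul, Nat.cast_one, one_mul] at hq
  exact hq

lemma leb_int (m : ℤ) (hm : m ≠ 0) : ∫ x, (fourier m x : ℂ) ∂(volume : Measure Tor) = 0 :=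
  Helper17.TranslM.integral_fourier_vol hm

lemma leb_sparse (h : ∀ k H : ℕ, ∃ (m0 : ℕ) (δ : ℝ), 0 < δ ∧
    ∀ (a b : Fin k → ℕ) (c : Fin k → ℤ), (∀ i, |c i| ≤ H) →
      ∃ m : ℕ, 1 ≤ m ∧ m ≤ m0 ∧
        δ ≤ ‖∫ x, (fourier ((m : ℤ) * ∑ i, c i * (2 ^ a i * 3 ^ b i)) x : ℂ)
          ∂(volume : Measure Tor)‖) : False := by
  obtain ⟨m0, δ, hδ, hmain⟩ := h 1 1
  obtain ⟨m, hm1, _, hm⟩ := hmain (fun _ => 0) (fun _ => 0) (fun _ => 1) (fun _ => by simp)
  rw [leb_int _ (by simp; omega), norm_zero] at hm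
  linarith

lemma leb_tight (h : ∀ (b : ℕ), 2 ≤ b → ∀ (A ε : ℝ), 0 < ε →
    ∃ C : ℝ, 0 < C ∧ ∀ (N : ℕ) (r : ℝ), 0 < r → r < 1 → (b : ℝ) ^ N ≤ A * Real.log (1 / r) →
      (volume : Measure Tor).real {x | C * (volume : Measure Tor).real (ball x r) <
        ∑ j ∈ Finset.range (b ^ N), (volume : Measure Tor).real (ball (x + dd (b ^ N) j) r)} ≤ ε) :
    False := by
  haveI := volProb
  obtain ⟨C, hC, hmain⟩ := h 2 le_rfl 1 (1 / 2) (by norm_num)
  obtain ⟨N, hN⟩ := pow_unbounded_of_one_lt C (by norm_num : (1 : ℝ) < 2)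
  set r : ℝ := Real.exp (-(2 : ℝ) ^ N) with hr
  have hr0 : 0 < r := Real.exp_pos _
  have hr1 : r < 1 := by rw [hr, Real.exp_lt_one_iff]; simp
  have h1 := hmain N r hr0 hr1 (by
    rw [one_mul, hr, one_div, ← Real.exp_neg, Real.log_exp, neg_neg]
    norm_num)
  have hball : ∀ x : Tor, (volume : Measure Tor).real (ball x r) =
      (volume : Measure Tor).real (ball 0 r) := by
    intro x
    unfold Measure.real
    congr 1
    have hmp : MeasurePreserving (fun y : Tor => y + x) volume volume :=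
      measurePreserving_add_right volume x
    have e : (fun y : Tor => y + x) ⁻¹' (ball x r) = ball 0 r := by
      ext y
      simp [dist_eq_norm]
    rw [← e, hmp.measure_preimage measurableSet_ball.nullMeasurableSet]
  have hv : 0 < (volume : Measure Tor).real (ball (0 : Tor) r) := by
    rw [measureReal_def, ENNReal.toReal_pos_iff]
    exact ⟨measure_ball_pos _ _ hr0, measure_lt_top _ _⟩
  have h2 : {x : Tor | C * (volume : Measure Tor).real (ball x r) <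
        ∑ j ∈ Finset.range (2 ^ N), (volume : Measure Tor).real (ball (x + dd (2 ^ N) j) r)} =
      Set.univ := by
    rw [Set.eq_univ_iff_forall]
    intro x
    simp only [Set.mem_ofPred_eq, hball]
    rw [Finset.sum_const, card_range, nsmul_eq_mul]
    push_cast
    exact mul_lt_mul_of_pos_right hN hv
  rw [h2] at h1
  have h3 : (volume : Measure Tor).real Set.univ = 1 := probReal_univ
  rw [h3] at h1
  norm_num at h1

lemma leb_second (m n : ℕ) (hm : 1 ≤ m) (hn : 1 ≤ n) (y : Tor) :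
    ∫ x, ‖∑ i ∈ range n, ((1 / n : ℝ) : ℂ) * fourier (m : ℤ) ((2 ^ i * 3 ^ 0) • (x - y))‖ ^ 2
      ∂(volume : Measure Tor) = 1 / n := by
  haveI := volProb
  have hnr : (0 : ℝ) < n := by exact_mod_cast hn
  have h1 : ∀ x : Tor,
      ((‖∑ i ∈ range n, ((1 / n : ℝ) : ℂ) * fourier (m : ℤ) ((2 ^ i * 3 ^ 0) • (x - y))‖ ^ 2 : ℝ) : ℂ)
      = ∑ i ∈ range n, ∑ j ∈ range n, ((1 / n : ℂ) ^ 2 *
          fourier (-((m : ℤ) * (2 ^ i - 2 ^ j))) y) *
          fourier ((m : ℤ) * (2 ^ i - 2 ^ j)) x := by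
    intro x
    rw [Complex.ofReal_pow, ← Complex.mul_conj', map_sum, Finset.sum_mul_sum]
    refine Finset.sum_congr rfl fun i _ => Finset.sum_congr rfl fun j _ => ?_
    rw [map_mul, Complex.conj_ofReal, ← fourier_neg]
    have e : ∀ (i : ℕ) (u : Tor), (fourier (m : ℤ) ((2 ^ i * 3 ^ 0) • u) : ℂ) =
        fourier ((m : ℤ) * 2 ^ i) u := by
      intro i u
      rw [fourier_apply, fourier_apply, pow_zero, mul_one, mul_smul, ← natCast_zsmul]
      push_cast
      rfl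
    have e' : (fourier (-(m : ℤ)) ((2 ^ j * 3 ^ 0) • (x - y)) : ℂ) =
        fourier (-((m : ℤ) * 2 ^ j)) (x - y) := by
      rw [fourier_neg, e j, ← fourier_neg]
    rw [e i, e']
    have e2 : ∀ (p q : ℤ) (u : Tor), (fourier p u : ℂ) * fourier q u = fourier (p + q) u :=
      fun p q u => (fourier_add).symm
    have e3 : (fourier ((m : ℤ) * (2 ^ i - 2 ^ j)) (x - y) : ℂ) =
        fourier (-((m : ℤ) * (2 ^ i - 2 ^ j))) y * fourier ((m : ℤ) * (2 ^ i - 2 ^ j)) x := by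
      rw [sub_eq_add_neg x y, fourier_add_arg]
      have : (fourier ((m : ℤ) * (2 ^ i - 2 ^ j)) (-y) : ℂ) =
          fourier (-((m : ℤ) * (2 ^ i - 2 ^ j))) y := by
        rw [fourier_apply, fourier_apply, smul_neg, neg_smul]
      rw [this, mul_comm]
    calc ((1 / n : ℝ) : ℂ) * fourier ((m : ℤ) * 2 ^ i) (x - y) *
          (((1 / n : ℝ) : ℂ) * fourier (-((m : ℤ) * 2 ^ j)) (x - y))
        = (1 / n : ℂ) ^ 2 * (fourier ((m : ℤ) * 2 ^ i) (x - y) *
          fourier (-((m : ℤ) * 2 ^ j)) (x - y)) := by push_cast; ring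
      _ = (1 / n : ℂ) ^ 2 * fourier ((m : ℤ) * (2 ^ i - 2 ^ j)) (x - y) := by
          rw [e2, show (m : ℤ) * 2 ^ i + -((m : ℤ) * 2 ^ j) = (m : ℤ) * (2 ^ i - 2 ^ j) by ring]
      _ = _ := by rw [e3]; ring
  have h2 : ((∫ x, ‖∑ i ∈ range n, ((1 / n : ℝ) : ℂ) *
      fourier (m : ℤ) ((2 ^ i * 3 ^ 0) • (x - y))‖ ^ 2 ∂(volume : Measure Tor) : ℝ) : ℂ) =
      ((1 / n : ℝ) : ℂ) := by
    rw [← integral_complex_ofReal]
    simp only [h1]
    rw [integral_finsetSum _ fun i _ => Helper17.TranslM.integrable_cont _ (by fun_prop)]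
    have h3 : ∀ i ∈ range n, ∫ x, ∑ j ∈ range n, ((1 / n : ℂ) ^ 2 *
          fourier (-((m : ℤ) * (2 ^ i - 2 ^ j))) y) *
          fourier ((m : ℤ) * (2 ^ i - 2 ^ j)) x ∂(volume : Measure Tor) = (1 / n : ℂ) ^ 2 := by
      intro i hi
      rw [integral_finsetSum _ fun j _ => Helper17.TranslM.integrable_cont _ (by fun_prop)]
      have h4 : ∀ j ∈ range n, ∫ x, ((1 / n : ℂ) ^ 2 *
          fourier (-((m : ℤ) * (2 ^ i - 2 ^ j))) y) *
          fourier ((m : ℤ) * (2 ^ i - 2 ^ j)) x ∂(volume : Measure Tor) =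
          if j = i then (1 / n : ℂ) ^ 2 else 0 := by
        intro j _
        rw [integral_const_mul]
        by_cases hij : j = i
        · subst hij
          simp
        · rw [if_neg hij, leb_int _ ?_, mul_zero]
          refine mul_ne_zero (by omega) ?_
          rw [sub_ne_zero]
          intro h5
          apply hij
          have h6 : (2 : ℕ) ^ i = 2 ^ j := by exact_mod_cast h5
          exact (Nat.pow_right_injective le_rfl h6).symm
      rw [Finset.sum_congr rfl h4, Finset.sum_ite_eq' (range n) i (fun _ => (1 / n : ℂ) ^ 2),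
        if_pos hi]
    rw [Finset.sum_congr rfl h3, Finset.sum_const, card_range, nsmul_eq_mul]
    have : (n : ℂ) ≠ 0 := by exact_mod_cast hnr.ne'
    push_cast
    field_simp
  exact_mod_cast h2

lemma leb_weights (h : ∀ ε : ℝ, 0 < ε → ∃ (m0 : ℕ) (δ : ℝ), 0 < δ ∧
    ∀ (F : Finset (ℕ × ℕ)) (w : ℕ × ℕ → ℝ), (∀ s ∈ F, 0 ≤ w s) →
      ∑ s ∈ F, w s = 1 → ∃ G : Set Tor, MeasurableSet G ∧
        1 - ε ≤ (volume : Measure Tor).real G ∧
        ∀ x ∈ G, ∀ y ∈ G, ∃ m : ℕ, 1 ≤ m ∧ m ≤ m0 ∧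
          δ ≤ ‖∑ s ∈ F, (w s : ℂ) * fourier (m : ℤ) ((2 ^ s.1 * 3 ^ s.2) • (x - y))‖) : False := by
  classical
  haveI := volProb
  obtain ⟨m0, δ, hδ, hmain⟩ := h (1 / 4) (by norm_num)
  obtain ⟨n, hn⟩ := exists_nat_gt (4 * (m0 : ℝ) / δ ^ 2)
  have hn0 : 0 < n := by
    rcases Nat.eq_zero_or_pos n with h0 | h0
    · rw [h0] at hn
      have : 0 ≤ 4 * (m0 : ℝ) / δ ^ 2 := by positivity
      push_cast at hn
      linarith
    · exact h0
  have hnr : (0 : ℝ) < n := by exact_mod_cast hn0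
  set F : Finset (ℕ × ℕ) := (range n).image (fun i => (i, 0)) with hF
  have hinj : Set.InjOn (fun i : ℕ => ((i, 0) : ℕ × ℕ)) (range n : Finset ℕ) := by
    intro i _ j _ hij
    simpa using hij
  obtain ⟨G, hGm, hG, hGG⟩ := hmain F (fun _ => 1 / n) (fun _ _ => by positivity) (by
    rw [hF, Finset.sum_image hinj, Finset.sum_const, card_range, nsmul_eq_mul]
    field_simp)
  have hGne : G.Nonempty := by
    by_contra hcon
    rw [Set.not_nonempty_iff_eq_empty] at hcon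
    rw [hcon] at hG
    simp at hG
    norm_num at hG
  obtain ⟨y, hy⟩ := hGne
  set f : ℕ → Tor → ℝ := fun m x =>
    ‖∑ i ∈ range n, ((1 / n : ℝ) : ℂ) * fourier (m : ℤ) ((2 ^ i * 3 ^ 0) • (x - y))‖ ^ 2 with hf
  have hfc : ∀ m, Continuous (f m) := fun m => by
    rw [hf]; fun_prop
  have hbad : ∀ m ∈ Finset.Icc 1 m0, (volume : Measure Tor).real {x | δ ^ 2 ≤ f m x} ≤
      1 / (n * δ ^ 2) := by
    intro m hm
    have hm1 := (Finset.mem_Icc.1 hm).1
    have h1 := mul_meas_ge_le_integral_of_nonneg (μ := (volume : Measure Tor)) (f := f m)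
      (Eventually.of_forall fun x => by rw [hf]; positivity)
      (Helper17.TranslM.integrable_cont _ (hfc m)) (δ ^ 2)
    have h2 : ∫ x, f m x ∂(volume : Measure Tor) = 1 / n := leb_second m n hm1 hn0 y
    rw [h2] at h1
    have h3 : δ ^ 2 * (volume : Measure Tor).real {x | δ ^ 2 ≤ f m x} ≤ 1 / n := h1
    rw [le_div_iff₀ (by positivity)]
    have h4 : δ ^ 2 * (volume : Measure Tor).real {x | δ ^ 2 ≤ f m x} * n ≤ 1 / n * n := by gcongr
    rw [div_mul_cancel₀ _ hnr.ne'] at h4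
    linarith
  have hsub : G ⊆ ⋃ m ∈ Finset.Icc 1 m0, {x | δ ^ 2 ≤ f m x} := by
    intro x hx
    obtain ⟨m, hm1, hm2, hm⟩ := hGG x hx y hy
    rw [Set.mem_iUnion₂]
    refine ⟨m, Finset.mem_Icc.2 ⟨hm1, hm2⟩, ?_⟩
    rw [hF, Finset.sum_image hinj] at hm
    show δ ^ 2 ≤ f m x
    rw [hf]
    exact pow_le_pow_left₀ hδ.le hm 2
  have h5 : (volume : Measure Tor).real G ≤ m0 * (1 / (n * δ ^ 2)) := by
    refine (measureReal_mono hsub (measure_ne_top _ _)).trans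
      ((measureReal_biUnion_finset_le _ _).trans ((Finset.sum_le_sum hbad).trans ?_))
    rw [Finset.sum_const, Nat.card_Icc, nsmul_eq_mul]
    simp
  have h6 : (m0 : ℝ) * (1 / (n * δ ^ 2)) < 1 / 4 := by
    rw [div_lt_iff₀ (by positivity)] at hn
    rw [mul_one_div, div_lt_iff₀ (by positivity)]
    linarith
  linarith

end Helper58.FH
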