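import Pool.Agent.Helper58.FH.Kor

set_option autoImplicit false
open MeasureTheory Filter Topology Metric Finset
open scoped ENNReal ComplexConjugate

/-! Sums of points are badly approximable by 6-adic rationals. -/

namespace Helper58.FH

open Helper58.FX (act UU ev ft Erg T sc PE)

lemma sideK (g : ℕ) (hg : 1 ≤ g) (A : Finset Tor) (ρ : ℝ) (hρ : 0 ≤ ρ) (k H : ℕ) (m0 : ℕ)
    (d : ℤ → ℂ) (δ : ℝ)
    (hmaj : ∀ x : Tor, (VV A ρ k H).indicator (fun _ => (1 : ℝ)) x ≤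
        (∑ m ∈ Finset.Icc (-(m0 : ℤ)) m0, d m * fourier m x).re)
    (hno : ∀ z : ℤ → ℂ, z 0 = 1 → (∀ m, z (-m) = conj (z m)) →
        (∀ m : ℕ, 1 ≤ m → m ≤ m0 → ‖z m‖ < δ) →
        (∑ m ∈ Finset.Icc (-(m0 : ℤ)) m0, d m * z m).re < 1 / 2)
    (M : ℕ) (hM : 1 ≤ M) (x : Fin k → Tor) (c : Fin k → ℤ) (hc : ∀ i, |c i| ≤ H) (q : Tor) (θ : ℝ)
    (hav : ∀ m : ℕ, 1 ≤ m → m ≤ m0 → ‖avg g m M q‖ < δ / 2)
    (hq : ∑ i, c i • x i = q + ((θ : ℝ) : Tor))
    (hθ : 2 * Real.pi * m0 * ((g : ℝ) ^ M * |θ|) ≤ δ / 2)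
    (hx : 2 * ∑ i, bad g 0 M (⋃ a ∈ A, closedBall a ρ) (x i) ≤ M) : False := by
  classical
  have hMr : (0 : ℝ) < M := by exact_mod_cast hM
  have hgr : (1 : ℝ) ≤ g := by exact_mod_cast hg
  set U : Set Tor := ⋃ a ∈ A, closedBall a ρ with hU
  set D : Tor := ∑ i, c i • x i with hD
  set z : ℤ → ℂ := fun m => (1 / M : ℂ) * ∑ t ∈ range M, (fourier m (g ^ t • D) : ℂ) with hz
  have hlt := hno z ?_ ?_ ?_
  · set S : Finset ℕ := (range M).filter (fun t => ∀ i, g ^ (0 + t) • x i ∈ U) with hS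
    have h1 : range M ⊆ S ∪ (Finset.univ : Finset (Fin k)).biUnion
        fun i => (range M).filter (fun t => g ^ (0 + t) • x i ∉ U) := by
      intro t ht
      simp only [hS, mem_union, mem_filter, ht, true_and, mem_biUnion, Finset.mem_univ]
      by_contra hcon
      push Not at hcon
      obtain ⟨⟨i, hi⟩, h⟩ := hcon
      exact hi (h i)
    have h2 : M ≤ S.card + ∑ i, bad g 0 M U (x i) := by
      have h3 := Finset.card_le_card h1
      rw [card_range] at h3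
      refine h3.trans ((Finset.card_union_le _ _).trans ?_)
      gcongr
      exact Finset.card_biUnion_le
    have h3 : M ≤ 2 * S.card := by omega
    have h4 : (S.card : ℝ) ≤ ∑ t ∈ range M,
        (VV A ρ k H).indicator (fun _ => (1 : ℝ)) (g ^ t • D) := by
      have h5 : ∀ t ∈ range M, (if t ∈ S then (1 : ℝ) else 0) ≤
          (VV A ρ k H).indicator (fun _ => (1 : ℝ)) (g ^ t • D) := by
        intro t _
        by_cases htS : t ∈ S
        · rw [if_pos htS]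
          have hm := (mem_filter.1 htS).2
          simp only [zero_add] at hm
          have hV : g ^ t • D ∈ VV A ρ k H := by
            have h5 := mem_VV A ρ hρ k H c hc (fun i => g ^ t • x i) hm
            have e : g ^ t • D = ∑ i, c i • (g ^ t • x i) := by
              rw [hD, Finset.smul_sum]
              exact Finset.sum_congr rfl fun i _ => smul_comm _ _ _
            rw [e]
            exact h5
          rw [Set.indicator_of_mem hV]
        · rw [if_neg htS]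
          exact Set.indicator_nonneg (fun _ _ => zero_le_one) _
      refine le_trans (le_of_eq ?_) (Finset.sum_le_sum h5)
      rw [← Finset.sum_filter, Finset.sum_const, nsmul_eq_mul, mul_one]
      congr 2
      ext t
      simp only [hS, mem_filter]
      tauto
    have h5 : (∑ m ∈ Finset.Icc (-(m0 : ℤ)) m0, d m * z m).re = (1 / M : ℝ) * ∑ t ∈ range M,
        (∑ m ∈ Finset.Icc (-(m0 : ℤ)) m0, d m * fourier m (g ^ t • D)).re := by
      have h6 : ∑ m ∈ Finset.Icc (-(m0 : ℤ)) m0, d m * z m = ((1 / M : ℝ) : ℂ) *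
          ∑ t ∈ range M, ∑ m ∈ Finset.Icc (-(m0 : ℤ)) m0, d m * fourier m (g ^ t • D) := by
        simp only [hz, Finset.mul_sum]
        rw [Finset.sum_comm]
        refine Finset.sum_congr rfl fun s _ => Finset.sum_congr rfl fun m _ => ?_
        push_cast
        ring
      rw [h6, Complex.re_ofReal_mul, Complex.re_sum]
    have h6 : (1 / M : ℝ) * S.card ≤ (∑ m ∈ Finset.Icc (-(m0 : ℤ)) m0, d m * z m).re := by
      rw [h5]
      gcongr
      exact h4.trans (Finset.sum_le_sum fun t _ => hmaj _)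
    have h7 : (M : ℝ) ≤ 2 * S.card := by exact_mod_cast h3
    have h8 : (1 : ℝ) / 2 ≤ 1 / M * S.card := by
      rw [one_div (M : ℝ), ← div_eq_inv_mul, le_div_iff₀ hMr]
      linarith only [h7]
    linarith only [hlt, h6, h8]
  · rw [hz]
    simp only [fourier_zero, Finset.sum_const, card_range, nsmul_eq_mul, mul_one]
    have : (M : ℂ) ≠ 0 := by exact_mod_cast hMr.ne'
    field_simp
  · intro m
    rw [hz]
    simp only
    rw [map_mul, map_sum]
    congr 1
    · simp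
    · exact Finset.sum_congr rfl fun t _ => fourier_neg
  · intro m hm1 hm2
    have e : z m = avg g m M D := rfl
    rw [e]
    have h1 : ‖avg g m M D - avg g m M q‖ ≤ δ / 2 := by
      have e2 : avg g m M D - avg g m M q = (1 / M : ℂ) * ∑ t ∈ range M,
          ((fourier (m : ℤ) (g ^ t • D) : ℂ) - fourier (m : ℤ) (g ^ t • q)) := by
        unfold avg
        rw [← mul_sub, Finset.sum_sub_distrib]
      rw [e2, norm_mul]
      have h2 : ‖(1 / M : ℂ)‖ = 1 / M := by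
        rw [norm_div, norm_one, Complex.norm_natCast]
      have h3 : ∀ t ∈ range M, ‖(fourier (m : ℤ) (g ^ t • D) : ℂ) -
          fourier (m : ℤ) (g ^ t • q)‖ ≤ δ / 2 := by
        intro t ht
        refine (fourier_lip _ _ _).trans (le_trans ?_ hθ)
        have e3 : g ^ t • D - g ^ t • q = (((g : ℝ) ^ t * θ : ℝ) : Tor) := by
          rw [hq, smul_add, add_sub_cancel_left, ← AddCircle.coe_nsmul, nsmul_eq_mul]
          push_cast
          rfl
        have h4 : ‖g ^ t • D - g ^ t • q‖ ≤ (g : ℝ) ^ M * |θ| := by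
          rw [e3]
          refine (norm_coe_le _).trans ?_
          rw [abs_mul, abs_of_pos (by positivity)]
          gcongr
          exact (mem_range.1 ht).le
        have h5 : ((|(m : ℤ)| : ℤ) : ℝ) ≤ m0 := by
          have : |(m : ℤ)| ≤ m0 := by rw [abs_of_nonneg (by omega)]; exact_mod_cast hm2
          exact_mod_cast this
        gcongr
      have h4 := (norm_sum_le _ _).trans (Finset.sum_le_sum h3)
      rw [Finset.sum_const, card_range, nsmul_eq_mul] at h4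
      rw [h2]
      calc 1 / (M : ℝ) * _ ≤ 1 / (M : ℝ) * (M * (δ / 2)) := by gcongr
        _ = δ / 2 := by field_simp
    have h2 := hav m hm1 hm2
    have h3 : ‖avg g m M D‖ ≤ ‖avg g m M D - avg g m M q‖ + ‖avg g m M q‖ := by
      have := norm_add_le (avg g m M D - avg g m M q) (avg g m M q)
      rwa [sub_add_cancel] at this
    linarith only [h1, h2, h3]

lemma four_cube (q : ℕ) (hq : 14 ≤ q) : 4 * q ^ 3 ≤ 2 ^ q := by
  induction q, hq using Nat.le_induction with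
  | base => norm_num
  | succ q hq ih =>
    rw [pow_succ 2 q]
    have h1 : 3 * q ^ 2 + 3 * q + 1 ≤ q ^ 3 := by
      have h2 : 14 * q ^ 2 ≤ q ^ 3 := by
        rw [pow_succ q 2, mul_comm]
        exact Nat.mul_le_mul_left _ hq
      nlinarith only [hq, h2]
    nlinarith only [ih, h1]

variable {μ : Measure Tor}

/-- sums of `k` points with signs, fixed `k` -/
theorem kor_sum_k [IsProbabilityMeasure μ] (h2 : MeasurePreserving (T 2) μ μ)
    (h3 : MeasurePreserving (T 3) μ μ) (hE : Erg (ft μ)) (hne : ∃ n : ℤ, n ≠ 0 ∧ ft μ n ≠ 0)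
    (k H : ℕ) (ε : ℝ) (hε : 0 < ε) :
    ∃ K : Set Tor, IsClosed K ∧ 1 - ε ≤ μ.real K ∧ ∀ θ : ℝ, 2 / 3 < θ → ∃ S0 : ℕ,
      ∀ x : Fin k → Tor, (∀ j, x j ∈ K) → ∀ c : Fin k → ℤ, (∀ j, |c j| ≤ H) →
        ∀ (i l : ℕ) (w : ℤ), S0 ≤ 2 ^ i * 3 ^ l → IsCoprime ((2 ^ i * 3 ^ l : ℕ) : ℤ) w →
          Real.exp (-Real.exp ((Real.log (2 ^ i * 3 ^ l : ℕ)) ^ θ)) <
            ‖∑ j, c j • x j - ((w / (2 ^ i * 3 ^ l) : ℝ) : Tor)‖ := by
  classical
  have hk0 : (0 : ℝ) ≤ k := Nat.cast_nonneg _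
  obtain ⟨A, ρ, hρ, hsmall, hmass⟩ := thin h2 h3 hE hne k
    (16 * (2 * H + 1) ^ k * (k * H + 1)) (min (ε / (16 * (k + 1))) 1) (by positivity) (by positivity)
  set U : Set Tor := ⋃ a ∈ A, closedBall a ρ with hU
  have hUc : IsClosed U := isClosed_biUnion_finset fun _ _ => isClosed_closedBall
  have hvol : (volume : Measure Tor) (VV A ρ k H) < ENNReal.ofReal (1 / 4) := by
    refine (volume_VV A ρ hρ.le k H).trans_lt ?_
    rw [ENNReal.ofReal_lt_ofReal_iff (by norm_num)]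
    have h1 := min_le_right (ε / (16 * ((k : ℝ) + 1))) 1
    have h4 : 8 * (((2 * H + 1 : ℕ) : ℝ) ^ k * (A.card : ℝ) ^ k * (2 * (k * H * ρ))) ≤
        16 * (2 * H + 1) ^ k * (k * H + 1) * (A.card : ℝ) ^ k * ρ := by
      have h5 : (0 : ℝ) ≤ (2 * H + 1) ^ k * (A.card : ℝ) ^ k * ρ := by (clear * - hρ; positivity)
      push_cast
      linarith only [h5]
    linarith
  have hmass' : 1 - ε / (16 * (k + 1)) ≤ μ.real U := by
    have := min_le_left (ε / (16 * ((k : ℝ) + 1))) 1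
    linarith
  obtain ⟨m0, d, δ, hδ, hmaj, hno⟩ := majorant' _ (isClosed_VV A ρ k H) hvol
  have hm2 : ∀ n, MeasurePreserving (fun x : Tor => 2 ^ n • x) μ μ := by
    intro n
    have := mp_pow h2 h3 n 0
    simpa using this
  have hm3 : ∀ n, MeasurePreserving (fun x : Tor => 3 ^ n • x) μ μ := by
    intro n
    have := mp_pow h2 h3 0 n
    simpa using this
  set κ : ℕ := 4 * (k + 1) with hκ
  set T3 : Set Tor := {y | ∀ N, κ * bad 3 0 N U y ≤ N} with hT3
  set T2 : Set Tor := {y | ∀ N, κ * bad 2 0 N U y ≤ N} with hT2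
  have hT3c : IsClosed T3 := bad_all_closed _ _ _ hUc
  have hT2c : IsClosed T2 := bad_all_closed _ _ _ hUc
  have hT3m : μ.real T3ᶜ ≤ κ * (1 - μ.real U) := bad_all_mass 3 κ hm3 U hUc
  have hT2m : μ.real T2ᶜ ≤ κ * (1 - μ.real U) := bad_all_mass 2 κ hm2 U hUc
  have hκε : (κ : ℝ) * (1 - μ.real U) ≤ ε / 4 := by
    have h5 : (κ : ℝ) = 4 * (k + 1) := by rw [hκ]; push_cast; ring
    have h6 : (κ : ℝ) * (ε / (16 * (k + 1))) = ε / 4 := by
      rw [h5]
      field_simp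
      ring
    rw [← h6]
    have h7 : (0 : ℝ) ≤ κ := Nat.cast_nonneg _
    exact mul_le_mul_of_nonneg_left (by linarith) h7
  refine ⟨T3 ∩ T2, hT3c.inter hT2c, ?_, ?_⟩
  · have h4 : μ.real (T3 ∩ T2)ᶜ ≤ μ.real T3ᶜ + μ.real T2ᶜ := by
      rw [Set.compl_inter]
      exact measureReal_union_le _ _
    rw [probReal_compl_eq_one_sub (hT3c.inter hT2c).measurableSet] at h4
    linarith
  intro θ hθ
  -- exponents
  obtain ⟨θ', hθ'⟩ : ∃ θ', θ' = min θ 1 := ⟨_, rfl⟩
  have ht1 : 2 / 3 < θ' := by rw [hθ']; exact lt_min hθ (by norm_num)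
  have ht2 : θ' ≤ 1 := hθ' ▸ min_le_right _ _
  have ht3 : θ' ≤ θ := hθ' ▸ min_le_left _ _
  have ht0 : 0 < θ' := by linarith
  obtain ⟨γ, hγ⟩ : ∃ γ, γ = (1 / θ' + 3 / 2) / 2 := ⟨_, rfl⟩
  have hγ1 : 1 / θ' < 3 / 2 := by
    rw [div_lt_iff₀ ht0]
    linarith
  have hγ2 : γ < 3 / 2 := by linarith only [hγ, hγ1]
  have hγ3 : 1 / θ' < γ := by linarith only [hγ, hγ2]
  have hγ0 : 0 < γ := lt_trans (by positivity) hγ3
  have hγ4 : 1 / γ < θ' := by
    rw [div_lt_iff₀ hγ0]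
    rw [div_lt_iff₀ ht0] at hγ3
    linarith only [hγ3]
  obtain ⟨q2, hq2⟩ := kor_av 2 3 (Or.inl ⟨rfl, rfl⟩) γ hγ2 m0 (δ / 2) (by positivity)
  obtain ⟨q3, hq3⟩ := kor_av 3 2 (Or.inr ⟨rfl, rfl⟩) γ hγ2 m0 (δ / 2) (by positivity)
  obtain ⟨S0, hS0⟩ := kor_scale θ' γ hγ0 (by linarith only [hγ, hγ3, hγ0]) hγ4 (q2 + q3 + k + 14)
    (4 * Real.pi * m0 / δ)
  refine ⟨S0 + 6 ^ (4 + m0), fun x hx c hc i l w hS hcop => ?_⟩
  have hSa : S0 ≤ 2 ^ i * 3 ^ l := (Nat.le_add_right _ _).trans hS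
  have hSb : 6 ^ (4 + m0) ≤ 2 ^ i * 3 ^ l := (Nat.le_add_left _ _).trans hS
  by_contra hcon
  push Not at hcon
  set S := 2 ^ i * 3 ^ l with hSdef
  obtain ⟨r, hr⟩ : ∃ r, r = Real.exp (-Real.exp ((Real.log (S : ℕ)) ^ θ)) := ⟨_, rfl⟩
  rw [← hr] at hcon
  have hr0 : 0 < r := by rw [hr]; exact Real.exp_pos _
  obtain ⟨hL1, q, hq, hLq, h16, hqe, hbig⟩ := hS0 S hSa
  have hS1 : 1 ≤ S := Nat.mul_pos (by positivity) (by positivity)
  have hSr : (1 : ℝ) ≤ S := by exact_mod_cast hS1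
  have hLθ : (Real.log S) ^ θ' ≤ (Real.log S) ^ θ := Real.rpow_le_rpow_of_exponent_le hL1 ht3
  have hr1 : r * Real.exp (Real.exp ((Real.log S) ^ θ')) ≤ 1 := by
    calc r * Real.exp (Real.exp ((Real.log S) ^ θ')) ≤
          Real.exp (-Real.exp ((Real.log S) ^ θ)) * Real.exp (Real.exp ((Real.log S) ^ θ)) := by
          rw [hr]
          gcongr
      _ = 1 := by rw [← Real.exp_add]; simp
  have herr : 2 * Real.pi * m0 * ((3 : ℝ) ^ (3 ^ q) * S * r) ≤ δ / 2 := by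
    have h5 : 4 * Real.pi * m0 / δ * ((3 : ℝ) ^ (3 ^ q) * S) * r ≤ 1 := by
      refine le_trans ?_ hr1
      rw [mul_comm r]
      gcongr
    have h6 : 4 * Real.pi * m0 / δ * ((3 : ℝ) ^ (3 ^ q) * S) * r =
        2 * Real.pi * m0 * ((3 : ℝ) ^ (3 ^ q) * S * r) / (δ / 2) := by
      field_simp
      ring
    rw [h6, div_le_one (by positivity)] at h5
    exact h5
  obtain ⟨β, hβ, hβn⟩ := exists_rep (∑ j, c j • x j - ((w / (2 ^ i * 3 ^ l) : ℝ) : Tor))
  have hβr : |β| ≤ r := by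
    rw [hβn]
    exact hcon
  have hDx : ∑ j, c j • x j = ((w / (2 ^ i * 3 ^ l) + β : ℝ) : Tor) := by
    rw [AddCircle.coe_add, hβ]
    abel
  have h2S : 2 ^ i ≤ S := Nat.le_mul_of_pos_right _ (by positivity)
  have h3S : 3 ^ l ≤ S := Nat.le_mul_of_pos_left _ (by positivity)
  have hlogS : ∀ (g e : ℕ), 2 ≤ g → g ^ e ≤ S → (e : ℝ) ≤ 2 * Real.log S := by
    intro g e hg he
    have h5 : (2 : ℝ) ^ e ≤ S := by
      have : 2 ^ e ≤ S := (Nat.pow_le_pow_left hg e).trans he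
      exact_mod_cast this
    have h6 := Real.log_le_log (by positivity) h5
    rw [Real.log_pow] at h6
    have h7 := Real.log_two_gt_d9
    have h8 : (0 : ℝ) ≤ e := Nat.cast_nonneg e
    have h9 : (e : ℝ) * (1 / 2) ≤ e * Real.log 2 :=
      mul_le_mul_of_nonneg_left (by linarith only [h7]) h8
    linarith only [h6, h9]
  have hiL := hlogS 2 i le_rfl h2S
  have hlL := hlogS 3 l (by norm_num) h3S
  have h2X : (2 : ℝ) ^ q ≤ 3 ^ q := pow_le_pow_left₀ (by norm_num) (by norm_num) q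
  have hor : 4 + m0 ≤ i ∨ 4 + m0 ≤ l := by
    by_contra hcon2
    push Not at hcon2
    have h5 : S < 6 ^ (4 + m0) := by
      have e6 : 6 ^ (4 + m0) = 2 ^ (4 + m0) * 3 ^ (4 + m0) := by
        rw [← mul_pow]
        norm_num
      rw [hSdef, e6]
      exact Nat.mul_lt_mul_of_lt_of_lt (Nat.pow_lt_pow_right (by norm_num) hcon2.1)
        (Nat.pow_lt_pow_right (by norm_num) hcon2.2)
    exact absurd hSb (not_le.2 h5)
  have hsumbad : ∀ (g e N : ℕ), (∀ j, κ * bad g 0 N U (x j) ≤ N) → (k + 1) * e * 4 ≤ N →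
      2 * ∑ j, bad g 0 N U (g ^ e • x j) ≤ N := by
    intro g e N hb he
    have h5 : ∀ j, 4 * (k + 1) * bad g 0 N U (g ^ e • x j) ≤ N + 4 * (k + 1) * e := by
      intro j
      have h6 := bad_shift g e N U (x j)
      have h7 := hb j
      rw [hκ] at h7
      calc 4 * (k + 1) * bad g 0 N U (g ^ e • x j) ≤ 4 * (k + 1) * (bad g 0 N U (x j) + e) :=
            Nat.mul_le_mul_left _ h6
        _ = 4 * (k + 1) * bad g 0 N U (x j) + 4 * (k + 1) * e := by ring
        _ ≤ _ := by omega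
    have h6 : 4 * (k + 1) * ∑ j, bad g 0 N U (g ^ e • x j) ≤ k * (N + 4 * (k + 1) * e) := by
      rw [Finset.mul_sum]
      refine (Finset.sum_le_sum fun j _ => h5 j).trans (le_of_eq ?_)
      rw [Finset.sum_const, Finset.card_univ, Fintype.card_fin, smul_eq_mul]
    have h7 : k * (N + 4 * (k + 1) * e) ≤ (k + 1) * (2 * N) := by
      have h8 : 4 * (k + 1) * e ≤ N := by linarith only [he]
      exact Nat.mul_le_mul (by omega) (by omega)
    have h8 : (k + 1) * (4 * ∑ j, bad g 0 N U (g ^ e • x j)) ≤ (k + 1) * (2 * N) := by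
      refine le_trans (le_of_eq ?_) (h6.trans h7)
      ring
    have h9 := Nat.le_of_mul_le_mul_left h8 (by omega)
    omega
  have hbigq : ∀ e : ℕ, (e : ℝ) ≤ 2 * Real.log S → (k + 1) * e * 4 ≤ 2 ^ q := by
    intro e he
    have hq1 : (1 : ℝ) ≤ q := by exact_mod_cast (by omega : 1 ≤ q)
    have h5 : (q : ℝ) ^ γ ≤ (q : ℝ) ^ 2 := by
      have := Real.rpow_le_rpow_of_exponent_le hq1 (by linarith only [hγ, hγ3, hγ0] : γ ≤ 2)
      rwa [Real.rpow_ofNat] at this
    have h6 : e ≤ q ^ 2 := by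
      have : (e : ℝ) ≤ (q : ℝ) ^ 2 := by linarith only [hLq, he, h5]
      exact_mod_cast this
    calc (k + 1) * e * 4 ≤ q * q ^ 2 * 4 :=
          Nat.mul_le_mul_right _ (Nat.mul_le_mul (by omega) h6)
      _ = 4 * q ^ 3 := by ring
      _ ≤ 2 ^ q := four_cube q (by omega)
  rcases le_or_gt (4 + m0) i with hi0 | hi0
  · -- many factors `2`
    have h8 : (k + 1) * l * 4 ≤ 2 ^ q := hbigq l hlL
    refine sideK 3 (by norm_num) A ρ hρ.le k H m0 d δ hmaj hno (2 ^ q) Nat.one_le_two_pow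
      (fun j => 3 ^ l • x j) c hc ((w / (2 : ℝ) ^ i : ℝ) : Tor) ((3 : ℝ) ^ l * β) ?_ ?_ ?_ ?_
    · intro m hm1 hm2
      refine hq2 q (by omega) i hi0 (hiL.trans hLq) w ?_ m hm1 hm2
      intro h2w
      have h5 : IsCoprime ((2 : ℕ) : ℤ) w := by
        refine IsCoprime.of_isCoprime_of_dvd_left hcop ?_
        exact_mod_cast Dvd.dvd.mul_right (dvd_pow_self 2 (by omega : i ≠ 0)) (3 ^ l)
      have h6 : IsUnit ((2 : ℕ) : ℤ) := h5.isUnit_of_dvd' dvd_rfl h2w
      rw [Int.isUnit_iff] at h6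
      norm_num at h6
    · have e : ∑ j, c j • (3 ^ l • x j) = 3 ^ l • ∑ j, c j • x j := by
        rw [Finset.smul_sum]
        exact Finset.sum_congr rfl fun j _ => smul_comm _ _ _
      rw [e, hDx, ← AddCircle.coe_nsmul, ← AddCircle.coe_add, nsmul_eq_mul]
      congr 1
      push_cast
      field_simp
    · refine le_trans ?_ herr
      have h5 : |(3 : ℝ) ^ l * β| ≤ S * r := by
        rw [abs_mul, abs_of_pos (by positivity)]
        have : (3 : ℝ) ^ l ≤ S := by exact_mod_cast h3S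
        gcongr
      have h6 : (3 : ℝ) ^ (2 ^ q) ≤ 3 ^ (3 ^ q) :=
        pow_le_pow_right₀ (by norm_num) (Nat.pow_le_pow_left (by norm_num) q)
      have h7 : ((3 : ℕ) : ℝ) ^ (2 ^ q) * |(3 : ℝ) ^ l * β| ≤ 3 ^ (3 ^ q) * S * r := by
        rw [mul_assoc]
        push_cast
        gcongr
      gcongr
    · exact hsumbad 3 l (2 ^ q) (fun j => (hx j).1 (2 ^ q)) h8
  · -- many factors `3`
    have hl0 : 4 + m0 ≤ l := by omega
    have h8 : (k + 1) * i * 4 ≤ 3 ^ q :=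
      (hbigq i hiL).trans (Nat.pow_le_pow_left (by norm_num) q)
    refine sideK 2 (by norm_num) A ρ hρ.le k H m0 d δ hmaj hno (3 ^ q)
      (Nat.one_le_pow _ _ (by norm_num))
      (fun j => 2 ^ i • x j) c hc ((w / (3 : ℝ) ^ l : ℝ) : Tor) ((2 : ℝ) ^ i * β) ?_ ?_ ?_ ?_
    · intro m hm1 hm2
      refine hq3 q (by omega) l hl0 (hlL.trans hLq) w ?_ m hm1 hm2
      intro h2w
      have h5 : IsCoprime ((3 : ℕ) : ℤ) w := by
        refine IsCoprime.of_isCoprime_of_dvd_left hcop ?_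
        exact_mod_cast Dvd.dvd.mul_left (dvd_pow_self 3 (by omega : l ≠ 0)) (2 ^ i)
      have h6 : IsUnit ((3 : ℕ) : ℤ) := h5.isUnit_of_dvd' dvd_rfl h2w
      rw [Int.isUnit_iff] at h6
      norm_num at h6
    · have e : ∑ j, c j • (2 ^ i • x j) = 2 ^ i • ∑ j, c j • x j := by
        rw [Finset.smul_sum]
        exact Finset.sum_congr rfl fun j _ => smul_comm _ _ _
      rw [e, hDx, ← AddCircle.coe_nsmul, ← AddCircle.coe_add, nsmul_eq_mul]
      congr 1
      push_cast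
      field_simp
    · refine le_trans ?_ herr
      have h5 : |(2 : ℝ) ^ i * β| ≤ S * r := by
        rw [abs_mul, abs_of_pos (by positivity)]
        have : (2 : ℝ) ^ i ≤ S := by exact_mod_cast h2S
        gcongr
      have h6 : (2 : ℝ) ^ (3 ^ q) ≤ 3 ^ (3 ^ q) :=
        pow_le_pow_left₀ (by norm_num) (by norm_num) _
      have h7 : ((2 : ℕ) : ℝ) ^ (3 ^ q) * |(2 : ℝ) ^ i * β| ≤ 3 ^ (3 ^ q) * S * r := by
        rw [mul_assoc]
        push_cast
        gcongr
      gcongr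
    · exact hsumbad 2 i (3 ^ q) (fun j => (hx j).2 (3 ^ q)) h8

end Helper58.FH
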