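import Pool.Agent.Helper58.FH.SmoothU
import Pool.Agent.Helper58.FH.Sum
import Pool.Agent.Helper58.FH.Leb

set_option autoImplicit false
open MeasureTheory Filter Topology Metric Finset
open scoped ENNReal ComplexConjugate

/-! Difference sets and sumsets are badly approximable by 6-adic rationals. -/

namespace Helper58.FH

open Helper58.FX (act UU ev ft Erg T sc PE)

variable {μ : Measure Tor}

/-- `exp (exp (L ^ θ))` is at least a constant times `exp L` -/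
lemma exp_exp_ge (θ : ℝ) (hθ : 2 / 3 < θ) (L : ℝ) (hL : 0 ≤ L) : L - 8 ≤ Real.exp (L ^ θ) := by
  rcases le_or_gt L 8 with h | h
  · have := Real.exp_pos (L ^ θ)
    linarith
  · have h1 : (1 : ℝ) ≤ L := by linarith
    have h2 : L ^ ((2 : ℝ) / 3) ≤ L ^ θ := Real.rpow_le_rpow_of_exponent_le h1 hθ.le
    have h3 := Real.quadratic_le_exp_of_nonneg (Real.rpow_nonneg hL ((2 : ℝ) / 3))
    have h4 : (L ^ ((2 : ℝ) / 3)) ^ 2 = L * L ^ ((1 : ℝ) / 3) := by
      rw [← Real.rpow_natCast, ← Real.rpow_mul hL]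
      have : (2 : ℝ) / 3 * ((2 : ℕ) : ℝ) = 1 + 1 / 3 := by norm_num
      rw [this, Real.rpow_add (by linarith), Real.rpow_one]
    have h5 : (2 : ℝ) ≤ L ^ ((1 : ℝ) / 3) := by
      have h6 : ((8 : ℝ)) ^ ((1 : ℝ) / 3) ≤ L ^ ((1 : ℝ) / 3) :=
        Real.rpow_le_rpow (by norm_num) h.le (by norm_num)
      have h7 : (8 : ℝ) ^ ((1 : ℝ) / 3) = 2 := by
        rw [show (8 : ℝ) = 2 ^ (3 : ℝ) by norm_num, ← Real.rpow_mul (by norm_num)]
        norm_num
      linarith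
    have h6 : Real.exp (L ^ ((2 : ℝ) / 3)) ≤ Real.exp (L ^ θ) := Real.exp_le_exp.2 h2
    have h7 : (0 : ℝ) ≤ L ^ ((2 : ℝ) / 3) := Real.rpow_nonneg hL _
    nlinarith

/-- **Difference sets are badly approximable by 6-adic rationals.** -/
theorem diof [IsProbabilityMeasure μ] (h2 : MeasurePreserving (T 2) μ μ)
    (h3 : MeasurePreserving (T 3) μ μ) (hE : Erg (ft μ)) (hne : ∃ n : ℤ, n ≠ 0 ∧ ft μ n ≠ 0)
    (ε : ℝ) (hε : 0 < ε) :
    ∃ K : Set Tor, IsClosed K ∧ 1 - ε ≤ μ.real K ∧ ∀ θ : ℝ, 2 / 3 < θ →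
      ∃ c : ℝ, 0 < c ∧ ∀ x ∈ K, ∀ y ∈ K, ∀ (i l : ℕ) (w : ℤ),
        ¬ ((2 ^ i * 3 ^ l : ℕ) : ℤ) ∣ w →
          c * Real.exp (-Real.exp ((Real.log (2 ^ i * 3 ^ l : ℕ)) ^ θ)) <
            ‖x - y - ((w / (2 ^ i * 3 ^ l) : ℝ) : Tor)‖ := by
  obtain ⟨K, hKc, hKm, hK⟩ := kor h2 h3 hE hne ε hε
  refine ⟨K, hKc, hKm, fun θ hθ => ?_⟩
  obtain ⟨S0, hS0⟩ := hK θ hθ
  have hθ0 : 0 < θ := by linarith
  obtain ⟨c, hc⟩ : ∃ c : ℝ, c = min (Real.exp (-Real.exp ((Real.log (S0 + 1 : ℕ)) ^ θ)))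
      (Real.exp (-8) / 4) := ⟨_, rfl⟩
  have hc0 : 0 < c := by
    rw [hc]
    positivity
  have hca : c ≤ Real.exp (-Real.exp ((Real.log (S0 + 1 : ℕ)) ^ θ)) := hc ▸ min_le_left _ _
  have hcb : c ≤ Real.exp (-8) / 4 := hc ▸ min_le_right _ _
  refine ⟨c, hc0, fun x hx y hy i l w hw => ?_⟩
  by_contra hcon
  push Not at hcon
  set s := 2 ^ i * 3 ^ l with hs
  have hs0 : 0 < s := by positivity
  have hsr : (1 : ℝ) ≤ s := by exact_mod_cast hs0
  have hscast : ((2 : ℝ) ^ i * 3 ^ l) = (s : ℝ) := by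
    rw [hs]
    push_cast
    rfl
  rw [hscast] at hcon
  have hlog0 : 0 ≤ Real.log s := Real.log_nonneg hsr
  obtain ⟨r, hr⟩ : ∃ r, r = c * Real.exp (-Real.exp ((Real.log s) ^ θ)) := ⟨_, rfl⟩
  rw [← hr] at hcon
  have hr0 : 0 < r := by rw [hr]; positivity
  have hc1 : c ≤ 1 := by
    refine hca.trans ?_
    rw [Real.exp_le_one_iff]
    have := Real.exp_pos ((Real.log (S0 + 1 : ℕ)) ^ θ)
    linarith
  have hrs : r ≤ Real.exp (-Real.exp ((Real.log s) ^ θ)) := by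
    rw [hr]
    have := Real.exp_pos (-Real.exp ((Real.log s) ^ θ))
    nlinarith
  have hrc : r ≤ c := by
    rw [hr]
    have h5 : Real.exp (-Real.exp ((Real.log s) ^ θ)) ≤ 1 := by
      rw [Real.exp_le_one_iff]
      have := Real.exp_pos ((Real.log s) ^ θ)
      linarith
    nlinarith
  obtain ⟨β, hβ, hβn⟩ := exists_rep (x - y - ((w / s : ℝ) : Tor))
  have hβr : |β| ≤ r := by
    rw [hβn]
    exact hcon
  have hD : x - y = ((w / s + β : ℝ) : Tor) := by
    rw [AddCircle.coe_add, hβ]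
    abel
  have hnorm : ‖(2 ^ i * 3 ^ l) • (x - y)‖ ≤ 2 ^ i * 3 ^ l * r := by
    rw [hscast, ← hs, hD, ← AddCircle.coe_nsmul, nsmul_eq_mul]
    have e : (s : ℝ) * (w / s + β) = (w : ℝ) + s * β := by
      field_simp
    rw [e, AddCircle.coe_add, coe_int, zero_add]
    refine (norm_coe_le _).trans ?_
    rw [abs_mul, abs_of_pos (by linarith)]
    gcongr
  have hxy : ‖x - y‖ ≤ r := by
    refine hS0 (max (S0 + 1) s) (by omega) x hx y hy r hr0 ?_ i l (le_max_right _ _) hnorm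
    rcases le_total (S0 + 1) s with h | h
    · rw [max_eq_right h]
      exact hrs
    · rw [max_eq_left h]
      exact hrc.trans hca
  have h5 := norm_frac s hs0 w hw
  have h6 : ‖((w / s : ℝ) : Tor)‖ ≤ 2 * r := by
    have e : ((w / s : ℝ) : Tor) = (x - y) - (x - y - ((w / s : ℝ) : Tor)) := by abel
    rw [e]
    refine (norm_sub_le _ _).trans ?_
    linarith
  have h7 : 2 * r < 1 / s := by
    have h8 := exp_exp_ge θ hθ (Real.log s) hlog0
    have h9 : Real.exp (-Real.exp ((Real.log s) ^ θ)) ≤ Real.exp (8 - Real.log s) :=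
      Real.exp_le_exp.2 (by linarith)
    have h10 : Real.exp (8 - Real.log s) = Real.exp 8 / s := by
      rw [Real.exp_sub, Real.exp_log (by linarith)]
    rw [h10] at h9
    have h11 : r ≤ Real.exp (-8) / 4 * (Real.exp 8 / s) := by
      rw [hr]
      gcongr
    have h12 : Real.exp (-8) * Real.exp 8 = 1 := by
      rw [← Real.exp_add]
      simp
    have h13 : Real.exp (-8) / 4 * (Real.exp 8 / s) = 1 / (4 * s) := by
      rw [div_mul_div_comm, h12]
    rw [h13] at h11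
    have h14 : 2 * (1 / (4 * (s : ℝ))) < 1 / s := by
      rw [mul_one_div, div_lt_div_iff₀ (by positivity) (by positivity)]
      linarith
    linarith
  linarith

/-- **Sumsets are badly approximable by 6-adic rationals.** -/
theorem kor_sum [IsProbabilityMeasure μ] (h2 : MeasurePreserving (T 2) μ μ)
    (h3 : MeasurePreserving (T 3) μ μ) (hE : Erg (ft μ)) (hne : ∃ n : ℤ, n ≠ 0 ∧ ft μ n ≠ 0)
    (ε : ℝ) (hε : 0 < ε) :
    ∃ K : Set Tor, IsClosed K ∧ 1 - ε ≤ μ.real K ∧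
      (∀ θ : ℝ, 2 / 3 < θ → ∃ c : ℝ, 0 < c ∧ ∀ x ∈ K, ∀ y ∈ K, ∀ (i l : ℕ) (w : ℤ),
        ¬ ((2 ^ i * 3 ^ l : ℕ) : ℤ) ∣ w →
          c * Real.exp (-Real.exp ((Real.log (2 ^ i * 3 ^ l : ℕ)) ^ θ)) <
            ‖x - y - ((w / (2 ^ i * 3 ^ l) : ℝ) : Tor)‖) ∧
      ∀ (k : ℕ) (θ : ℝ), 2 / 3 < θ → ∃ S0 : ℕ,
      ∀ x : Fin k → Tor, (∀ j, x j ∈ K) → ∀ c : Fin k → ℤ, (∀ j, |c j| ≤ 1) →
        ∀ (i l : ℕ) (w : ℤ), S0 ≤ 2 ^ i * 3 ^ l → IsCoprime ((2 ^ i * 3 ^ l : ℕ) : ℤ) w →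
          Real.exp (-Real.exp ((Real.log (2 ^ i * 3 ^ l : ℕ)) ^ θ)) <
            ‖∑ j, c j • x j - ((w / (2 ^ i * 3 ^ l) : ℝ) : Tor)‖ := by
  obtain ⟨K', hKc', hKm', hK'⟩ := diof h2 h3 hE hne (ε / 2) (by positivity)
  have h := fun k : ℕ => kor_sum_k h2 h3 hE hne k 1 (ε / 2 / 2 ^ (k + 1)) (by positivity)
  choose K hKc hKm hK using h
  have hI : IsClosed (⋂ k, K k) := isClosed_iInter hKc
  refine ⟨K' ∩ ⋂ k, K k, hKc'.inter hI, ?_, ?_, ?_⟩
  · have h4 : μ.real (K' ∩ ⋂ k, K k)ᶜ ≤ μ.real K'ᶜ + μ.real (⋂ k, K k)ᶜ := by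
      rw [Set.compl_inter]
      exact measureReal_union_le _ _
    have h5 := inter_mass K (ε / 2) (fun n => (hKc n).measurableSet) hKm
    rw [probReal_compl_eq_one_sub (hKc'.inter hI).measurableSet,
      probReal_compl_eq_one_sub hKc'.measurableSet, probReal_compl_eq_one_sub hI.measurableSet] at h4
    linarith
  · intro θ hθ
    obtain ⟨c, hc, h⟩ := hK' θ hθ
    exact ⟨c, hc, fun x hx y hy => h x hx.1 y hy.1⟩
  · intro k θ hθ
    obtain ⟨S0, hS0⟩ := hK k θ hθ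
    refine ⟨S0, fun x hx c hc => hS0 x (fun j => Set.mem_iInter.1 (hx j).2 k) c (by simpa using hc)⟩

/-- For Lebesgue measure the difference set of a set of measure more than one half is everything. -/
lemma leb_diff (K : Set Tor) (hK : IsClosed K) (hm : 1 / 2 < (volume : Measure Tor).real K)
    (a : Tor) : ∃ x ∈ K, ∃ y ∈ K, x - y = a := by
  have hp := volProb
  by_contra hcon
  push Not at hcon
  have h1 : Disjoint K ((fun x : Tor => x - a) ⁻¹' K) := by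
    rw [Set.disjoint_left]
    intro x hx hx'
    exact hcon x hx (x - a) hx' (by abel)
  have h2 : (volume : Measure Tor).real ((fun x : Tor => x - a) ⁻¹' K) =
      (volume : Measure Tor).real K := by
    rw [measureReal_def, measureReal_def]
    congr 1
    have h3 : MeasurePreserving (fun x : Tor => x - a) volume volume :=
      measurePreserving_sub_right volume a
    exact h3.measure_preimage hK.measurableSet.nullMeasurableSet
  have h3 := measureReal_union h1 ((continuous_sub_right a).measurable hK.measurableSet)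
    (measure_ne_top _ _) (measure_ne_top _ _) (μ := (volume : Measure Tor))
  rw [h2] at h3
  have h4 : (volume : Measure Tor).real (K ∪ (fun x : Tor => x - a) ⁻¹' K) ≤ 1 :=
    measureReal_le_one
  linarith

end Helper58.FH
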