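import Pool.Agent.Helper58.FH.OrdK
import Pool.Agent.Helper58.FH.Dio

set_option autoImplicit false
open MeasureTheory Filter Topology Metric Finset
open scoped ENNReal ComplexConjugate

/-! Difference sets and sumsets are badly approximable by rationals with denominators of large
order. -/

namespace Helper58.FH

open Helper58.FX (act UU ev ft Erg T sc PE)

variable {μ : Measure Tor}

/-- the property of the sets for sums of `k` points -/
def GoodK (K : Set Tor) (k : ℕ) : Prop :=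
  ∀ κ α : ℝ, 0 < κ → 0 < α → α * (2 + 1 / κ) ≤ 1 / 2 →
    ∃ (C : ℝ) (D0 : ℕ), 1 ≤ C ∧ 1 ≤ D0 ∧ ∀ i l f : ℕ, D0 ≤ 2 ^ i * 3 ^ l * f →
      Nat.Coprime f 6 → LargeOrder κ f →
      ∃ N : ℕ, (N : ℝ) ≤ C * ((2 ^ i * 3 ^ l * f : ℕ) : ℝ) ^ α ∧
        ∀ x : Fin k → Tor, (∀ j, x j ∈ K) → ∀ c : Fin k → ℤ, (∀ j, |c j| ≤ 1) → ∀ w : ℤ,
          IsCoprime ((2 ^ i * 3 ^ l * f : ℕ) : ℤ) w → ∀ β : ℝ,
          (3 : ℝ) ^ N * ((2 ^ i * 3 ^ l * f : ℕ) : ℝ) ^ 2 * |β| ≤ 1 →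
            ∑ j, c j • x j = ((w / ((2 ^ i * 3 ^ l * f : ℕ) : ℝ) + β : ℝ) : Tor) → False

theorem exists_good [IsProbabilityMeasure μ] (h2 : MeasurePreserving (T 2) μ μ)
    (h3 : MeasurePreserving (T 3) μ μ) (hE : Erg (ft μ)) (hne : ∃ n : ℤ, n ≠ 0 ∧ ft μ n ≠ 0)
    (k : ℕ) (ε : ℝ) (hε : 0 < ε) :
    ∃ K : Set Tor, IsClosed K ∧ 1 - ε ≤ μ.real K ∧ GoodK K k := by
  obtain ⟨K0, hK0c, hK0m, hcov⟩ := cover_unif h2 h3 hE hne (ε / (8 * (k + 1))) (by positivity)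
  have hm2 : ∀ n, MeasurePreserving (fun x : Tor => 2 ^ n • x) μ μ := by
    intro n
    have := mp_pow h2 h3 n 0
    simpa using this
  have hm3 : ∀ n, MeasurePreserving (fun x : Tor => 3 ^ n • x) μ μ := by
    intro n
    have := mp_pow h2 h3 0 n
    simpa using this
  set T3 : Set Tor := {y | ∀ N, (4 * (k + 1)) * bad 3 0 N K0 y ≤ N} with hT3
  set T2 : Set Tor := {y | ∀ N, (4 * (k + 1)) * bad 2 0 N K0 y ≤ N} with hT2
  have hT3c : IsClosed T3 := bad_all_closed _ _ _ hK0c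
  have hT2c : IsClosed T2 := bad_all_closed _ _ _ hK0c
  have hT3m : μ.real T3ᶜ ≤ (4 * (k + 1) : ℕ) * (1 - μ.real K0) := bad_all_mass 3 _ hm3 K0 hK0c
  have hT2m : μ.real T2ᶜ ≤ (4 * (k + 1) : ℕ) * (1 - μ.real K0) := bad_all_mass 2 _ hm2 K0 hK0c
  refine ⟨T3 ∩ T2, hT3c.inter hT2c, ?_, ?_⟩
  · have h4 : μ.real (T3 ∩ T2)ᶜ ≤ μ.real T3ᶜ + μ.real T2ᶜ := by
      rw [Set.compl_inter]
      exact measureReal_union_le _ _
    rw [probReal_compl_eq_one_sub (hT3c.inter hT2c).measurableSet] at h4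
    have h5 : ((4 * (k + 1) : ℕ) : ℝ) * (1 - μ.real K0) ≤ ε / 2 := by
      have h6 : ((4 * (k + 1) : ℕ) : ℝ) * (ε / (8 * (k + 1))) = ε / 2 := by
        push_cast
        field_simp
        norm_num
      rw [← h6]
      exact mul_le_mul_of_nonneg_left (by linarith) (Nat.cast_nonneg _)
    linarith
  · intro κ α hκ hα hακ
    obtain ⟨C, D0, hC, hD0, h⟩ := ord_k k K0 hcov κ α hκ hα hακ
    refine ⟨C, D0, hC, hD0, fun i l f hd hf hord => ?_⟩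
    obtain ⟨N, hN, h⟩ := h i l f hd hf hord
    exact ⟨N, hN, fun x hx => h x (fun j => (hx j).1) (fun j => (hx j).2)⟩

lemma log_three_le : Real.log 3 ≤ 1.1 := by
  have h4 : Real.log 3 < 1.1 := by
    rw [Real.log_lt_iff_lt_exp (by norm_num)]
    have h5 : (1.1 : ℝ) = 1 + 0.1 := by norm_num
    rw [h5, Real.exp_add]
    have h6 := Real.exp_one_gt_d9
    have h9 := Real.quadratic_le_exp_of_nonneg (show (0 : ℝ) ≤ 1 / 10 by norm_num)
    norm_num at h6 h9 ⊢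
    nlinarith
  exact h4.le

/-- the error at large denominators -/
lemma err_large (C η : ℝ) (hη : 0 < η) : ∃ D : ℕ, ∀ d N : ℕ, D ≤ d →
    (N : ℝ) ≤ C * (d : ℝ) ^ (η / 2) → (3 : ℝ) ^ N * (d : ℝ) ^ 2 ≤ Real.exp ((d : ℝ) ^ η) := by
  have hη2 : 0 < η / 2 := by positivity
  have hpow : Tendsto (fun d : ℕ => (d : ℝ) ^ (η / 2)) atTop atTop :=
    (tendsto_rpow_atTop hη2).comp tendsto_natCast_atTop_atTop
  obtain ⟨D3, hD3⟩ := eventually_atTop.mp (hpow.eventually_ge_atTop (1.1 * C + 2 / (η / 2)))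
  refine ⟨D3 + 1, fun d N hd hN => ?_⟩
  have hd0 : (0 : ℝ) < d := by exact_mod_cast (by omega : 0 < d)
  have h5 := hD3 d (by omega)
  have h6 : (d : ℝ) ^ η = (d : ℝ) ^ (η / 2) * (d : ℝ) ^ (η / 2) := by
    rw [← Real.rpow_add hd0]
    congr 1
    ring
  have h7 : (0 : ℝ) < (d : ℝ) ^ (η / 2) := by positivity
  have h8 : (1.1 * C + 2 / (η / 2)) * (d : ℝ) ^ (η / 2) ≤ (d : ℝ) ^ η := by
    rw [h6]
    gcongr
  have hlogd : 2 * Real.log d ≤ 2 / (η / 2) * (d : ℝ) ^ (η / 2) := by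
    have h9 := Real.log_le_rpow_div hd0.le hη2
    calc 2 * Real.log d ≤ 2 * ((d : ℝ) ^ (η / 2) / (η / 2)) := by gcongr
      _ = _ := by ring
  rw [← Real.log_le_iff_le_exp (by positivity), Real.log_mul (by positivity) (by positivity),
    Real.log_pow, Real.log_pow]
  have h10 : (N : ℝ) * Real.log 3 ≤ C * (d : ℝ) ^ (η / 2) * 1.1 := by
    have h11 : 0 ≤ C * (d : ℝ) ^ (η / 2) := le_trans (Nat.cast_nonneg N) hN
    have : 0 ≤ Real.log 3 := Real.log_nonneg (by norm_num)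
    have := log_three_le
    gcongr
  push_cast
  linarith

/-- sums of points and denominators of large order -/
theorem good_sum (K : Set Tor) (k : ℕ) (hK : GoodK K k) (κ η : ℝ) (hκ : 0 < κ) (hη : 0 < η) :
    ∃ S : ℕ, ∀ x : Fin k → Tor, (∀ j, x j ∈ K) → ∀ c : Fin k → ℤ, (∀ j, |c j| ≤ 1) →
      ∀ (i l f : ℕ) (w : ℤ), S ≤ 2 ^ i * 3 ^ l * f → Nat.Coprime f 6 → LargeOrder κ f →
        IsCoprime ((2 ^ i * 3 ^ l * f : ℕ) : ℤ) w →
        Real.exp (-((2 ^ i * 3 ^ l * f : ℕ) : ℝ) ^ η) <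
          ‖∑ j, c j • x j - ((w / (2 ^ i * 3 ^ l * f : ℕ) : ℝ) : Tor)‖ := by
  have hκ2 : 0 < 2 + 1 / κ := by positivity
  obtain ⟨α, hα⟩ : ∃ α, α = min (η / 2) (1 / 2 / (2 + 1 / κ)) := ⟨_, rfl⟩
  have hα0 : 0 < α := by
    rw [hα]
    positivity
  have hα1 : α * (2 + 1 / κ) ≤ 1 / 2 := by
    rw [← le_div_iff₀ hκ2, hα]
    exact min_le_right _ _
  have hα2 : α ≤ η / 2 := hα ▸ min_le_left _ _
  obtain ⟨C, D0, hC, hD0, h⟩ := hK κ α hκ hα0 hα1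
  obtain ⟨D1, hD1⟩ := err_large C η hη
  refine ⟨D0 + D1, fun x hx c hc i l f w hd hf hord hw => ?_⟩
  by_contra hcon
  push Not at hcon
  obtain ⟨N, hN, h⟩ := h i l f ((Nat.le_add_right _ _).trans hd) hf hord
  obtain ⟨d, hdef⟩ : ∃ d, d = 2 ^ i * 3 ^ l * f := ⟨_, rfl⟩
  rw [← hdef] at hd hw hcon hN h
  have hd1 : 1 ≤ d := by omega
  have hdr : (1 : ℝ) ≤ d := by exact_mod_cast hd1
  obtain ⟨β, hβ, hβn⟩ := exists_rep (∑ j, c j • x j - ((w / d : ℝ) : Tor))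
  have hD : ∑ j, c j • x j = ((w / d + β : ℝ) : Tor) := by
    rw [AddCircle.coe_add, hβ]
    abel
  refine h x hx c hc w hw β ?_ hD
  have h5 : (N : ℝ) ≤ C * (d : ℝ) ^ (η / 2) := by
    refine hN.trans ?_
    gcongr
  have h6 := hD1 d N (by omega) h5
  have h7 : |β| ≤ Real.exp (-(d : ℝ) ^ η) := by
    rw [hβn]
    exact hcon
  calc (3 : ℝ) ^ N * (d : ℝ) ^ 2 * |β| ≤ Real.exp ((d : ℝ) ^ η) * Real.exp (-(d : ℝ) ^ η) := by
        gcongr
    _ = 1 := by rw [← Real.exp_add]; simp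

/-- bounded denominators divisible by two or three -/
theorem small_den [IsProbabilityMeasure μ] (h2 : MeasurePreserving (T 2) μ μ)
    (h3 : MeasurePreserving (T 3) μ μ) (hE : Erg (ft μ)) (hne : ∃ n : ℤ, n ≠ 0 ∧ ft μ n ≠ 0)
    (D : ℕ) (ε : ℝ) (hε : 0 < ε) :
    ∃ (G : Set Tor) (c : ℝ), 0 < c ∧ IsClosed G ∧ 1 - ε ≤ μ.real G ∧
      ∀ x ∈ G, ∀ y ∈ G, ∀ d : ℕ, 0 < d → d ≤ D → ¬ Nat.Coprime d 6 → ∀ w : ℤ,
        IsCoprime (d : ℤ) w → c < ‖x - y - ((w / d : ℝ) : Tor)‖ := by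
  obtain ⟨q0, hq0⟩ := smooth h2 h3 hE hne D ε hε
  obtain ⟨S0, hS0⟩ := hq0 1
  obtain ⟨G, hGc, hGm, hG⟩ := hS0 (S0 + D) (by omega)
  obtain ⟨r, hr⟩ : ∃ r : ℝ, r = min (Real.exp (-((S0 + D : ℕ) : ℝ)))
      (1 / (4 * ((D : ℝ) + 1) ^ 2)) := ⟨_, rfl⟩
  have hr0 : 0 < r := by
    rw [hr]
    positivity
  have hrb : r ≤ Real.exp (-((S0 + D : ℕ) : ℝ)) := hr ▸ min_le_left _ _
  have hrc : r ≤ 1 / (4 * ((D : ℝ) + 1) ^ 2) := hr ▸ min_le_right _ _
  refine ⟨G, r, hr0, hGc, hGm, fun x hx y hy d hd hdD hd6 w hw => ?_⟩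
  by_contra hcon
  push Not at hcon
  have hdr : (1 : ℝ) ≤ d := by exact_mod_cast hd
  have hdDr : (d : ℝ) ≤ D := by exact_mod_cast hdD
  obtain ⟨β, hβ, hβn⟩ := exists_rep (x - y - ((w / d : ℝ) : Tor))
  have hβr : |β| ≤ r := by
    rw [hβn]
    exact hcon
  have hD' : x - y = ((w / d + β : ℝ) : Tor) := by
    rw [AddCircle.coe_add, hβ]
    abel
  have hlog : ((S0 + D : ℕ) : ℝ) ≤ (Real.log (1 / r)) ^ 1 := by
    rw [pow_one, one_div, Real.log_inv, le_neg]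
    rw [Real.log_le_iff_le_exp hr0]
    exact hrb
  have hnorm : ‖d • (x - y)‖ ≤ d * r := by
    rw [hD', ← AddCircle.coe_nsmul, nsmul_eq_mul]
    have e : (d : ℝ) * (w / d + β) = (w : ℝ) + d * β := by
      field_simp
    rw [e, AddCircle.coe_add, coe_int, zero_add]
    refine (norm_coe_le _).trans ?_
    rw [abs_mul, abs_of_pos (by linarith)]
    gcongr
  have hpr : ∀ p : ℕ, p.Prime → p ∣ d → p ≤ D := fun p _ hpd => (Nat.le_of_dvd hd hpd).trans hdD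
  obtain ⟨q, hq, hqq0, hq6, hqd, hqn⟩ := hG x hx y hy r hr0 hlog d hd (by omega) hpr hnorm
  have hne' : q ≠ d := by
    rintro rfl
    exact hd6 hq6
  have hndvd : ¬ (d : ℤ) ∣ (q : ℤ) * w := by
    intro h
    have h5 := hw.dvd_of_dvd_mul_right h
    have h6 : d ∣ q := by exact_mod_cast h5
    exact hne' (Nat.dvd_antisymm hqd h6)
  have h5 := norm_frac d hd ((q : ℤ) * w) hndvd
  have e : (((((q : ℤ) * w : ℤ) : ℝ) / d : ℝ) : Tor) = q • (x - y) - ((q * β : ℝ) : Tor) := by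
    rw [hD', ← AddCircle.coe_nsmul, nsmul_eq_mul, ← AddCircle.coe_sub]
    congr 1
    push_cast
    ring
  have hqd' : (q : ℝ) ≤ d := by exact_mod_cast Nat.le_of_dvd hd hqd
  have h6 : ‖(((((q : ℤ) * w : ℤ) : ℝ) / d : ℝ) : Tor)‖ ≤ 2 * (d * r) := by
    rw [e]
    refine (norm_sub_le _ _).trans ?_
    have h7 : ‖((q * β : ℝ) : Tor)‖ ≤ q * r := by
      refine (norm_coe_le _).trans ?_
      rw [abs_mul, Nat.abs_cast]
      gcongr
    have h8 : (q : ℝ) * r ≤ d * r := by gcongr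
    linarith
  have h7 := h5.trans h6
  rw [div_le_iff₀ (by linarith)] at h7
  have h8 : (d : ℝ) ≤ D + 1 := by linarith
  have h9 : 2 * (d * r) * d ≤ 2 * (((D : ℝ) + 1) * (1 / (4 * ((D : ℝ) + 1) ^ 2))) * (D + 1) := by
    gcongr
  have h10 : 2 * (((D : ℝ) + 1) * (1 / (4 * ((D : ℝ) + 1) ^ 2))) * (D + 1) = 1 / 2 := by
    field_simp
    norm_num
  linarith

lemma LargeOrder.mono {κ κ' : ℝ} (h : κ' ≤ κ) {f : ℕ} (hf : 1 ≤ f) (ho : LargeOrder κ f) :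
    LargeOrder κ' f := by
  have h1 : (f : ℝ) ^ κ' ≤ (f : ℝ) ^ κ :=
    Real.rpow_le_rpow_of_exponent_le (by exact_mod_cast hf) h
  rcases ho with ho | ho
  · exact Or.inl (h1.trans ho)
  · exact Or.inr (h1.trans ho)

/-- **Difference sets and sumsets are badly approximable.**  One closed set serves all
exponents. -/
theorem dioU [IsProbabilityMeasure μ] (h2 : MeasurePreserving (T 2) μ μ)
    (h3 : MeasurePreserving (T 3) μ μ) (hE : Erg (ft μ)) (hne : ∃ n : ℤ, n ≠ 0 ∧ ft μ n ≠ 0)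
    (ε : ℝ) (hε : 0 < ε) :
    ∃ K : Set Tor, IsClosed K ∧ 1 - ε ≤ μ.real K ∧
      (∀ θ : ℝ, 2 / 3 < θ → ∃ c : ℝ, 0 < c ∧ ∀ x ∈ K, ∀ y ∈ K, ∀ (i l : ℕ) (w : ℤ),
        ¬ ((2 ^ i * 3 ^ l : ℕ) : ℤ) ∣ w →
          c * Real.exp (-Real.exp ((Real.log (2 ^ i * 3 ^ l : ℕ)) ^ θ)) <
            ‖x - y - ((w / (2 ^ i * 3 ^ l) : ℝ) : Tor)‖) ∧
      (∀ (k : ℕ) (θ : ℝ), 2 / 3 < θ → ∃ S0 : ℕ,
        ∀ x : Fin k → Tor, (∀ j, x j ∈ K) → ∀ c : Fin k → ℤ, (∀ j, |c j| ≤ 1) →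
          ∀ (i l : ℕ) (w : ℤ), S0 ≤ 2 ^ i * 3 ^ l → IsCoprime ((2 ^ i * 3 ^ l : ℕ) : ℤ) w →
            Real.exp (-Real.exp ((Real.log (2 ^ i * 3 ^ l : ℕ)) ^ θ)) <
              ‖∑ j, c j • x j - ((w / (2 ^ i * 3 ^ l) : ℝ) : Tor)‖) ∧
      (∀ κ : ℝ, 0 < κ → ∃ q0 : ℕ, ∀ η : ℝ, 0 < η → ∃ c : ℝ, 0 < c ∧ ∀ x ∈ K, ∀ y ∈ K,
        ∀ (i l f : ℕ) (w : ℤ), Nat.Coprime f 6 → LargeOrder κ f →
          (q0 < 2 ^ i * 3 ^ l * f ∨ ¬ Nat.Coprime (2 ^ i * 3 ^ l * f) 6) →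
          IsCoprime ((2 ^ i * 3 ^ l * f : ℕ) : ℤ) w →
          c * Real.exp (-((2 ^ i * 3 ^ l * f : ℕ) : ℝ) ^ η) <
            ‖x - y - ((w / (2 ^ i * 3 ^ l * f : ℕ) : ℝ) : Tor)‖) ∧
      ∀ (k : ℕ) (κ η : ℝ), 0 < κ → 0 < η → ∃ S0 : ℕ,
        ∀ x : Fin k → Tor, (∀ j, x j ∈ K) → ∀ c : Fin k → ℤ, (∀ j, |c j| ≤ 1) →
          ∀ (i l f : ℕ) (w : ℤ), S0 ≤ 2 ^ i * 3 ^ l * f → Nat.Coprime f 6 → LargeOrder κ f →
            IsCoprime ((2 ^ i * 3 ^ l * f : ℕ) : ℤ) w →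
            Real.exp (-((2 ^ i * 3 ^ l * f : ℕ) : ℝ) ^ η) <
              ‖∑ j, c j • x j - ((w / (2 ^ i * 3 ^ l * f : ℕ) : ℝ) : Tor)‖ := by
  classical
  obtain ⟨K', hKc', hKm', hKa, hKb⟩ := kor_sum h2 h3 hE hne (ε / 4) (by positivity)
  have hgood := fun k : ℕ => exists_good h2 h3 hE hne k (ε / 4 / 2 ^ (k + 1)) (by positivity)
  choose K hKc hKm hK using hgood
  have hκn : ∀ n : ℕ, (0 : ℝ) < 1 / ((n : ℝ) + 1) := fun n => by positivity
  have hαn : ∀ n : ℕ, (0 : ℝ) < 1 / 2 / (2 + 1 / (1 / ((n : ℝ) + 1))) := fun n => by positivity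
  have hD := fun n : ℕ => hK 2 (1 / ((n : ℝ) + 1)) (1 / 2 / (2 + 1 / (1 / ((n : ℝ) + 1)))) (hκn n)
    (hαn n) (by
      rw [div_mul_cancel₀]
      have := hκn n
      positivity)
  choose C D hC hD1 hDmain using hD
  have hG := fun n : ℕ => small_den h2 h3 hE hne (D n) (ε / 4 / 2 ^ (n + 1)) (by positivity)
  choose G cG hcG hGc hGm hG using hG
  have hI : IsClosed (⋂ k, K k) := isClosed_iInter hKc
  have hJ : IsClosed (⋂ n, G n) := isClosed_iInter hGc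
  refine ⟨K' ∩ ((⋂ k, K k) ∩ ⋂ n, G n), hKc'.inter (hI.inter hJ), ?_, ?_, ?_, ?_, ?_⟩
  · have h4 : μ.real (K' ∩ ((⋂ k, K k) ∩ ⋂ n, G n))ᶜ ≤
        μ.real K'ᶜ + (μ.real (⋂ k, K k)ᶜ + μ.real (⋂ n, G n)ᶜ) := by
      rw [Set.compl_inter, Set.compl_inter]
      exact (measureReal_union_le _ _).trans (by gcongr; exact measureReal_union_le _ _)
    have h5 := inter_mass K (ε / 4) (fun n => (hKc n).measurableSet) hKm
    have h6 := inter_mass G (ε / 4) (fun n => (hGc n).measurableSet) hGm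
    rw [probReal_compl_eq_one_sub (hKc'.inter (hI.inter hJ)).measurableSet,
      probReal_compl_eq_one_sub hKc'.measurableSet, probReal_compl_eq_one_sub hI.measurableSet,
      probReal_compl_eq_one_sub hJ.measurableSet] at h4
    linarith
  · intro θ hθ
    obtain ⟨c, hc, h⟩ := hKa θ hθ
    exact ⟨c, hc, fun x hx y hy => h x hx.1 y hy.1⟩
  · intro k θ hθ
    obtain ⟨S0, hS0⟩ := hKb k θ hθ
    exact ⟨S0, fun x hx => hS0 x (fun j => (hx j).1)⟩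
  · intro κ hκ
    obtain ⟨n, hn⟩ := exists_nat_one_div_lt hκ
    refine ⟨D n, fun η hη => ?_⟩
    obtain ⟨S, hS⟩ := good_sum (K 2) 2 (hK 2) κ η hκ hη
    obtain ⟨M, hM⟩ := exists_nat_ge (C n * (S : ℝ))
    obtain ⟨c, hc⟩ : ∃ c : ℝ, c = min (cG n) (min 1 (1 / (3 ^ M * ((S : ℝ) + 1) ^ 2))) := ⟨_, rfl⟩
    have hc0 : 0 < c := by
      rw [hc]
      have := hcG n
      positivity
    have hca : c ≤ cG n := hc ▸ min_le_left _ _
    have hcb : c ≤ 1 := by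
      rw [hc]
      exact (min_le_right _ _).trans (min_le_left _ _)
    have hcc : c ≤ 1 / (3 ^ M * ((S : ℝ) + 1) ^ 2) := by
      rw [hc]
      exact (min_le_right _ _).trans (min_le_right _ _)
    refine ⟨c, hc0, fun x hx y hy i l f w hf hord hdq hw => ?_⟩
    have hf1 : 1 ≤ f := by
      rcases Nat.eq_zero_or_pos f with h | h
      · rw [h] at hf
        norm_num at hf
      · exact h
    have hordn : LargeOrder (1 / ((n : ℝ) + 1)) f := hord.mono hn.le hf1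
    have hx2 : ∀ j : Fin 2, (![x, y] : Fin 2 → Tor) j ∈ K 2 := by
      intro j
      fin_cases j
      · exact Set.mem_iInter.1 hx.2.1 2
      · exact Set.mem_iInter.1 hy.2.1 2
    have hc2 : ∀ j : Fin 2, |(![1, -1] : Fin 2 → ℤ) j| ≤ 1 := by
      intro j
      fin_cases j <;> simp
    have hsum : ∑ j : Fin 2, (![1, -1] : Fin 2 → ℤ) j • (![x, y] : Fin 2 → Tor) j = x - y := by
      rw [Fin.sum_univ_two]
      simp [sub_eq_add_neg]
    obtain ⟨d, hdef⟩ : ∃ d, d = 2 ^ i * 3 ^ l * f := ⟨_, rfl⟩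
    have hd1 : 1 ≤ d := by
      rw [hdef]
      have : 0 < 2 ^ i * 3 ^ l * f := by positivity
      exact this
    have hdr : (1 : ℝ) ≤ d := by exact_mod_cast hd1
    have hS' := hS ![x, y] hx2 ![1, -1] hc2 i l f w
    have hDm := hDmain n i l f
    rw [hsum, ← hdef] at hS'
    rw [← hdef] at hDm
    rw [← hdef] at hdq hw ⊢
    have hexp1 : Real.exp (-(d : ℝ) ^ η) ≤ 1 := by
      rw [Real.exp_le_one_iff]
      have : (0 : ℝ) ≤ (d : ℝ) ^ η := by positivity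
      linarith
    have hexp0 := Real.exp_pos (-(d : ℝ) ^ η)
    rcases lt_or_ge d (D n) with hdn | hdn
    · have hd6 : ¬ Nat.Coprime d 6 := by
        rcases hdq with h | h
        · omega
        · exact h
      have h5 := hG n x (Set.mem_iInter.1 hx.2.2 n) y (Set.mem_iInter.1 hy.2.2 n) d hd1 hdn.le hd6 w
        hw
      refine lt_of_le_of_lt ?_ h5
      nlinarith
    rcases lt_or_ge d S with hdS | hdS
    · by_contra hcon
      push Not at hcon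
      obtain ⟨N, hN, h⟩ := hDm hdn hf hordn
      obtain ⟨β, hβ, hβn⟩ := exists_rep (x - y - ((w / d : ℝ) : Tor))
      have hD' : x - y = ((w / d + β : ℝ) : Tor) := by
        rw [AddCircle.coe_add, hβ]
        abel
      refine h ![x, y] hx2 ![1, -1] hc2 w hw β ?_ (hsum.trans hD')
      have hNM : N ≤ M := by
        have h6 : (N : ℝ) ≤ M := by
          refine hN.trans (le_trans ?_ hM)
          have h7 : (d : ℝ) ^ (1 / 2 / (2 + 1 / (1 / ((n : ℝ) + 1)))) ≤ S := by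
            calc (d : ℝ) ^ (1 / 2 / (2 + 1 / (1 / ((n : ℝ) + 1)))) ≤ (d : ℝ) ^ (1 : ℝ) := by
                  apply Real.rpow_le_rpow_of_exponent_le hdr
                  rw [div_le_one (by have := hκn n; positivity)]
                  have h8 : (0 : ℝ) < 1 / (1 / ((n : ℝ) + 1)) := by positivity
                  linarith
              _ = d := Real.rpow_one _
              _ ≤ S := by exact_mod_cast hdS.le
          have := hC n
          gcongr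
        exact_mod_cast h6
      have h8 : |β| ≤ 1 / (3 ^ M * ((S : ℝ) + 1) ^ 2) := by
        rw [hβn]
        refine hcon.trans (le_trans ?_ hcc)
        nlinarith
      have hdS' : (d : ℝ) ≤ (S : ℝ) + 1 := by
        have : (d : ℝ) ≤ S := by exact_mod_cast hdS.le
        linarith
      calc (3 : ℝ) ^ N * (d : ℝ) ^ 2 * |β| ≤
            3 ^ M * ((S : ℝ) + 1) ^ 2 * (1 / (3 ^ M * ((S : ℝ) + 1) ^ 2)) := by
            gcongr
            norm_num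
        _ = 1 := by
          field_simp
    · have h5 := hS' hdS hf hord hw
      refine lt_of_le_of_lt ?_ h5
      nlinarith
  · intro k κ η hκ hη
    obtain ⟨S, hS⟩ := good_sum (K k) k (hK k) κ η hκ hη
    exact ⟨S, fun x hx => hS x (fun j => Set.mem_iInter.1 (hx j).2.1 k)⟩

end Helper58.FH
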