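import Mathlib

/-!
Entropies of the distributions of an invariant measure on intervals; a general base.
Adapted from the entropy lemmas of project FR (helper61, P4).
-/

set_option autoImplicit false
open Finset

namespace Helper58.FH

/-- Shannon entropy of the distribution `p D` on `{0, ..., D - 1}` -/
noncomputable def ent (p : ℕ → ℕ → ℝ) (D : ℕ) : ℝ := ∑ a ∈ range D, Real.negMulLog (p D a)

/-- The distributions of a measure invariant under multiplication by `b` on the intervals
of length `1 / D`. -/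
structure Prof (b : ℕ) (p : ℕ → ℕ → ℝ) : Prop where
  nonneg : ∀ D a, 0 ≤ p D a
  sum_eq_one : ∀ D, 1 ≤ D → ∑ a ∈ range D, p D a = 1
  refine_eq : ∀ D s a, 1 ≤ D → 1 ≤ s → a < D → p D a = ∑ j ∈ range s, p (D * s) (a * s + j)
  inv_eq : ∀ D n a, 1 ≤ D → a < D → p D a = ∑ j ∈ range (b ^ n), p (D * b ^ n) (a + D * j)

variable {b : ℕ} {p : ℕ → ℕ → ℝ}

lemma sum_blocks (f : ℕ → ℝ) (D s : ℕ) :
    ∑ c ∈ range (D * s), f c = ∑ a ∈ range D, ∑ j ∈ range s, f (a * s + j) := by
  induction D with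
  | zero => simp
  | succ D ih =>
    rw [add_mul, one_mul, Finset.sum_range_add, ih, Finset.sum_range_succ]

lemma sum_blocks' (f : ℕ → ℝ) (D B : ℕ) :
    ∑ c ∈ range (D * B), f c = ∑ c ∈ range D, ∑ j ∈ range B, f (c + D * j) := by
  rw [mul_comm, sum_blocks, Finset.sum_comm]
  refine Finset.sum_congr rfl fun c _ => Finset.sum_congr rfl fun j _ => ?_
  congr 1
  ring

lemma negMulLog_sum_le {ι : Type*} (S : Finset ι) (x : ι → ℝ) (hx : ∀ u ∈ S, 0 ≤ x u) :
    Real.negMulLog (∑ u ∈ S, x u) ≤ ∑ u ∈ S, Real.negMulLog (x u) := by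
  rw [Real.negMulLog, neg_mul, Finset.sum_mul, ← Finset.sum_neg_distrib]
  refine Finset.sum_le_sum fun u hu => ?_
  rw [Real.negMulLog, neg_mul]
  rcases (hx u hu).eq_or_lt with h | h
  · rw [← h]; simp
  · have h1 : x u ≤ ∑ u ∈ S, x u := Finset.single_le_sum hx hu
    have h2 : Real.log (x u) ≤ Real.log (∑ u ∈ S, x u) := Real.log_le_log h h1
    have h3 := mul_le_mul_of_nonneg_left h2 h.le
    linarith

lemma logsum {ι : Type*} (S : Finset ι) (x y : ι → ℝ) (hx : ∀ u ∈ S, 0 ≤ x u)
    (hxy : ∀ u ∈ S, x u ≤ y u) :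
    ∑ u ∈ S, x u * (Real.log (y u) - Real.log (x u)) ≤
      (∑ u ∈ S, x u) * (Real.log (∑ u ∈ S, y u) - Real.log (∑ u ∈ S, x u)) := by
  set X := ∑ u ∈ S, x u with hX
  set Y := ∑ u ∈ S, y u with hY
  have hX0 : 0 ≤ X := Finset.sum_nonneg hx
  have hXY : X ≤ Y := Finset.sum_le_sum hxy
  rcases hX0.eq_or_lt with h0 | h0
  · have h1 : ∀ u ∈ S, x u = 0 := (Finset.sum_eq_zero_iff_of_nonneg hx).1 h0.symm
    rw [← h0, zero_mul]
    refine le_of_eq (Finset.sum_eq_zero fun u hu => ?_)
    rw [h1 u hu, zero_mul]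
  · have hY0 : 0 < Y := lt_of_lt_of_le h0 hXY
    have h1 : ∀ u ∈ S, x u * (Real.log (y u) - Real.log (x u)) ≤
        x u * (Real.log Y - Real.log X) + (y u * (X / Y) - x u) := by
      intro u hu
      rcases (hx u hu).eq_or_lt with h | h
      · rw [← h]
        have h2 : 0 ≤ y u := le_trans (hx u hu) (hxy u hu)
        have h3 : 0 ≤ X / Y := div_nonneg hX0 hY0.le
        have := mul_nonneg h2 h3
        linarith
      · have hy : 0 < y u := lt_of_lt_of_le h (hxy u hu)
        have h2 : 0 < y u * X / (x u * Y) := by positivity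
        have h3 := Real.log_le_sub_one_of_pos h2
        rw [Real.log_div (by positivity) (by positivity), Real.log_mul hy.ne' h0.ne',
          Real.log_mul h.ne' hY0.ne'] at h3
        have h4 := mul_le_mul_of_nonneg_left h3 h.le
        have h5 : x u * (y u * X / (x u * Y) - 1) = y u * (X / Y) - x u := by
          field_simp
        rw [h5] at h4
        linarith
    refine le_trans (Finset.sum_le_sum h1) ?_
    rw [Finset.sum_add_distrib, ← Finset.sum_mul, Finset.sum_sub_distrib, ← Finset.sum_mul]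
    have h2 : Y * (X / Y) = X := by field_simp
    rw [← hX, ← hY, h2]
    linarith

lemma ent_nonneg (hp : Prof b p) (D : ℕ) (hD : 1 ≤ D) : 0 ≤ ent p D := by
  unfold ent
  refine Finset.sum_nonneg fun a ha => Real.negMulLog_nonneg (hp.nonneg _ _) ?_
  rw [← hp.sum_eq_one D hD]
  exact Finset.single_le_sum (f := fun a => p D a) (fun a _ => hp.nonneg D a) ha

/-- the conditional entropies -/
lemma ent_diff (hp : Prof b p) (E n : ℕ) (hE : 1 ≤ E) :
    ent p (E * b ^ n) - ent p E = ∑ c ∈ range E, ∑ j ∈ range (b ^ n),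
      p (E * b ^ n) (c + E * j) * (Real.log (p E c) - Real.log (p (E * b ^ n) (c + E * j))) := by
  unfold ent
  rw [sum_blocks' (fun c => Real.negMulLog (p (E * b ^ n) c)), ← Finset.sum_sub_distrib]
  refine Finset.sum_congr rfl fun c hc => ?_
  have h1 := hp.inv_eq E n c hE (Finset.mem_range.1 hc)
  have h2 : Real.negMulLog (p E c) =
      ∑ j ∈ range (b ^ n), -(p (E * b ^ n) (c + E * j) * Real.log (p E c)) := by
    rw [Finset.sum_neg_distrib, ← Finset.sum_mul, ← h1, Real.negMulLog, neg_mul]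
  rw [h2, ← Finset.sum_sub_distrib]
  refine Finset.sum_congr rfl fun j _ => ?_
  rw [Real.negMulLog]
  ring

lemma le_parent (hp : Prof b p) (E n c j : ℕ) (hE : 1 ≤ E) (hc : c < E) (hj : j < b ^ n) :
    p (E * b ^ n) (c + E * j) ≤ p E c := by
  rw [hp.inv_eq E n c hE hc]
  exact Finset.single_le_sum (f := fun j => p (E * b ^ n) (c + E * j))
    (fun j _ => hp.nonneg _ _) (Finset.mem_range.2 hj)

theorem ent_step (hb : 1 ≤ b) (hp : Prof b p) (D s n : ℕ) (hD : 1 ≤ D) (hs : 1 ≤ s) :
    ent p (D * s * b ^ n) - ent p (D * s) ≤ ent p (D * b ^ n) - ent p D := by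
  have hDs : 1 ≤ D * s := Nat.mul_pos hD hs
  have hB : 1 ≤ b ^ n := Nat.one_le_pow _ _ hb
  rw [ent_diff hp _ _ hDs, ent_diff hp _ _ hD]
  rw [sum_blocks (fun c' => ∑ j ∈ range (b ^ n), p (D * s * b ^ n) (c' + D * s * j) *
    (Real.log (p (D * s) c') - Real.log (p (D * s * b ^ n) (c' + D * s * j))))]
  refine Finset.sum_le_sum fun c hc => ?_
  rw [Finset.sum_comm]
  refine Finset.sum_le_sum fun j hj => ?_
  rw [Finset.mem_range] at hc hj
  have hlt : c + D * j < D * b ^ n := by
    calc c + D * j < D + D * j := by omega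
      _ = D * (j + 1) := by ring
      _ ≤ D * b ^ n := Nat.mul_le_mul_left _ hj
  have h1 : p (D * b ^ n) (c + D * j) =
      ∑ u ∈ range s, p (D * s * b ^ n) (c * s + u + D * s * j) := by
    rw [hp.refine_eq (D * b ^ n) s (c + D * j) (Nat.mul_pos hD hB) hs hlt]
    refine Finset.sum_congr rfl fun u _ => ?_
    congr 1
    · ring
    · ring
  have h2 : p D c = ∑ u ∈ range s, p (D * s) (c * s + u) := hp.refine_eq D s c hD hs hc
  rw [h1, h2]
  refine logsum _ _ _ (fun u _ => hp.nonneg _ _) fun u hu => ?_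
  rw [Finset.mem_range] at hu
  have h3 : c * s + u < D * s := by
    calc c * s + u < c * s + s := by omega
      _ = (c + 1) * s := by ring
      _ ≤ D * s := Nat.mul_le_mul_right _ hc
  exact le_parent hp (D * s) n _ j hDs h3 hj

/-- the increments of the entropy in base `b` -/
noncomputable def inc (b : ℕ) (p : ℕ → ℕ → ℝ) (n : ℕ) : ℝ := ent p (b ^ (n + 1)) - ent p (b ^ n)

lemma inc_antitone (hb : 1 ≤ b) (hp : Prof b p) (n k : ℕ) : inc b p (n + k) ≤ inc b p n := by
  have h := ent_step hb hp (b ^ n) (b ^ k) 1 (Nat.one_le_pow _ _ hb) (Nat.one_le_pow _ _ hb)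
  unfold inc
  rw [← pow_add, ← pow_add, ← pow_add] at h
  exact h

lemma ent_sum_inc (n k : ℕ) :
    ent p (b ^ (n + k)) - ent p (b ^ n) = ∑ i ∈ range k, inc b p (n + i) := by
  induction k with
  | zero => simp
  | succ k ih =>
    rw [Finset.sum_range_succ, ← ih]
    unfold inc
    rw [← add_assoc]
    ring

lemma inc_le (hb : 1 ≤ b) (hp : Prof b p) (n k : ℕ) :
    k * inc b p (n + k) ≤ ent p (b ^ (n + k)) - ent p (b ^ n) := by
  rw [ent_sum_inc]
  have h : ∀ i ∈ range k, inc b p (n + k) ≤ inc b p (n + i) := by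
    intro i hi
    have := inc_antitone hb hp (n + i) (k - i)
    have e : n + i + (k - i) = n + k := by
      have := mem_range.1 hi
      omega
    rwa [e] at this
  refine le_trans (le_of_eq ?_) (Finset.sum_le_sum h)
  rw [Finset.sum_const, card_range, nsmul_eq_mul]

lemma inc_nonneg (hb : 1 ≤ b) (hp : Prof b p) (n : ℕ) : 0 ≤ inc b p n := by
  unfold inc
  have hE : 1 ≤ b ^ n := Nat.one_le_pow _ _ hb
  have h := ent_diff hp (b ^ n) 1 hE
  rw [← pow_add] at h
  rw [h]
  refine Finset.sum_nonneg fun c hc => Finset.sum_nonneg fun j hj => ?_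
  have h1 := le_parent hp (b ^ n) 1 c j hE (mem_range.1 hc) (mem_range.1 hj)
  rw [← pow_add] at h1
  rcases (hp.nonneg (b ^ (n + 1)) (c + b ^ n * j)).eq_or_lt with h2 | h2
  · rw [← h2]; simp
  · have := Real.log_le_log h2 h1
    exact mul_nonneg h2.le (by linarith)

/-- small increments at one place give small entropy -/
lemma ent_small (hb : 1 ≤ b) (hp : Prof b p) (h : ∀ θ : ℝ, 0 < θ → ∃ n, inc b p n ≤ θ) :
    ∀ θ : ℝ, 0 < θ → ∃ n0 : ℕ, ∀ n, n0 ≤ n → ent p (b ^ n) ≤ θ * n ∧ inc b p n ≤ θ := by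
  intro θ hθ
  obtain ⟨n1, hn1⟩ := h (θ / 2) (by positivity)
  obtain ⟨n2, hn2⟩ := exists_nat_ge (2 * ent p (b ^ n1) / θ)
  refine ⟨max n1 n2, fun n hn => ?_⟩
  have h1 : n1 ≤ n := (le_max_left _ _).trans hn
  have h2 : n2 ≤ n := (le_max_right _ _).trans hn
  have hinc : ∀ i, inc b p (n1 + i) ≤ θ / 2 := fun i => (inc_antitone hb hp n1 i).trans hn1
  obtain ⟨k, rfl⟩ := Nat.exists_eq_add_of_le h1
  constructor
  · have h3 := ent_sum_inc (b := b) (p := p) n1 k
    have h4 : ∑ i ∈ range k, inc b p (n1 + i) ≤ k * (θ / 2) := by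
      refine (Finset.sum_le_sum fun i _ => hinc i).trans (le_of_eq ?_)
      rw [Finset.sum_const, card_range, nsmul_eq_mul]
    have h5 : 2 * ent p (b ^ n1) / θ ≤ ((n1 + k : ℕ) : ℝ) := hn2.trans (by exact_mod_cast h2)
    rw [div_le_iff₀ hθ] at h5
    push_cast at h5 ⊢
    have h6 : (0 : ℝ) ≤ n1 := Nat.cast_nonneg _
    nlinarith
  · exact (hinc k).trans (by linarith)

/-- **Stage 1.** -/
theorem stage1 (hb : 2 ≤ b) (hp : Prof b p) (D n : ℕ) (hD : 1 ≤ D) (S : ℕ → ℂ)
    (Bd : Finset ℕ) (R κ β δ : ℝ) (hκ : 0 < κ) (hδ : 0 < δ) (hδ1 : δ ≤ 1)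
    (hS : ∀ c < D, ∑ j ∈ range (b ^ n), ‖S (c + D * j)‖ ^ 2 ≤ R)
    (hB : ∑ a ∈ Bd, p (D * b ^ n) a ≤ β)
    (hSB : ∀ a < D * b ^ n, a ∉ Bd → κ ≤ ‖S a‖) :
    ent p (D * b ^ n) - ent p D ≤
      Real.log (1 / δ) + (β + δ * R / κ ^ 2) * (n * Real.log b) + 1 := by
  classical
  have hBpos : 0 < b ^ n := Nat.pow_pos (by omega)
  have hbr : (1 : ℝ) < b := by exact_mod_cast (by omega : 1 < b)
  have hlogb : 0 < Real.log b := Real.log_pos hbr
  have hBr : (0 : ℝ) < (b : ℝ) ^ n := by positivity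
  set q : ℕ → ℕ → ℝ := fun c j => p (D * b ^ n) (c + D * j) with hq
  have hq0 : ∀ c j, 0 ≤ q c j := fun c j => hp.nonneg _ _
  set X : Finset (ℕ × ℕ) := range D ×ˢ range (b ^ n) with hX
  -- the exceptional pairs
  set E1 := X.filter (fun x => x.1 + D * x.2 ∈ Bd) with hE1
  set E2 := X.filter (fun x => x.1 + D * x.2 ∉ Bd ∧ q x.1 x.2 ≤ δ * p D x.1) with hE2
  rw [ent_diff hp D n hD, ← Finset.sum_product']
  -- pointwise bound
  have hpt : ∀ x ∈ X, q x.1 x.2 * (Real.log (p D x.1) - Real.log (q x.1 x.2)) ≤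
      q x.1 x.2 * Real.log (1 / δ) + ((if x ∈ E1 then q x.1 x.2 else 0) +
        (if x ∈ E2 then q x.1 x.2 else 0)) * (n * Real.log b) + p D x.1 / (b : ℝ) ^ n := by
    rintro ⟨c, j⟩ hx
    have hx' := hx
    rw [hX, mem_product, mem_range, mem_range] at hx'
    have hlogδ : 0 ≤ Real.log (1 / δ) := Real.log_nonneg (by rw [le_div_iff₀ hδ]; linarith)
    have hP0 : 0 ≤ p D c := hp.nonneg _ _
    have h0 : 0 ≤ p D c / (b : ℝ) ^ n := by positivity
    have hcase : ∀ u : ℝ, 1 ≤ u → q c j * (Real.log (p D c) - Real.log (q c j)) ≤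
        q c j * Real.log (1 / δ) + u * q c j * (n * Real.log b) + p D c / (b : ℝ) ^ n := by
      intro u hu
      rcases (hq0 c j).eq_or_lt with h | h
      · rw [← h]; simp; exact h0
      · have hPpos : 0 < p D c := lt_of_lt_of_le h (le_parent hp D n c j hD hx'.1 hx'.2)
        have h2 : 0 < p D c / (q c j * (b : ℝ) ^ n) := by positivity
        have h3 := Real.log_le_sub_one_of_pos h2
        rw [Real.log_div hPpos.ne' (by positivity), Real.log_mul h.ne' hBr.ne', Real.log_pow] at h3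
        have h4 := mul_le_mul_of_nonneg_left h3 h.le
        have h5 : q c j * (p D c / (q c j * (b : ℝ) ^ n) - 1) = p D c / (b : ℝ) ^ n - q c j := by
          field_simp
        rw [h5] at h4
        have h6 : 0 ≤ q c j * (n * Real.log b) := by positivity
        have h7 : 0 ≤ q c j * Real.log (1 / δ) := by positivity
        nlinarith
    by_cases h1 : (c, j) ∈ E1
    · by_cases h2 : (c, j) ∈ E2
      · rw [if_pos h1, if_pos h2]
        refine (hcase 2 (by norm_num)).trans (le_of_eq ?_)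
        ring
      · rw [if_pos h1, if_neg h2]
        refine (hcase 1 le_rfl).trans (le_of_eq ?_)
        ring
    · by_cases h2 : (c, j) ∈ E2
      · rw [if_neg h1, if_pos h2]
        refine (hcase 1 le_rfl).trans (le_of_eq ?_)
        ring
      · rw [if_neg h1, if_neg h2]
        have h3 : c + D * j ∉ Bd := by
          intro h
          exact h1 (mem_filter.2 ⟨hx, h⟩)
        have h4 : δ * p D c < q c j := by
          by_contra h
          exact h2 (mem_filter.2 ⟨hx, h3, not_lt.1 h⟩)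
        have h5 : 0 < q c j := lt_of_le_of_lt (by positivity) h4
        have hPpos : 0 < p D c := lt_of_lt_of_le h5 (le_parent hp D n c j hD hx'.1 hx'.2)
        have h6 : Real.log (p D c) - Real.log (q c j) ≤ Real.log (1 / δ) := by
          have h7 := Real.log_le_log (by positivity) h4.le
          rw [Real.log_mul hδ.ne' hPpos.ne'] at h7
          rw [Real.log_div one_ne_zero hδ.ne', Real.log_one]
          linarith
        have h8 := mul_le_mul_of_nonneg_left h6 h5.le
        simp only [add_zero, zero_mul]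
        linarith
  refine (Finset.sum_le_sum hpt).trans ?_
  rw [Finset.sum_add_distrib, Finset.sum_add_distrib, ← Finset.sum_mul, ← Finset.sum_mul,
    Finset.sum_add_distrib]
  have hsumq : ∑ x ∈ X, q x.1 x.2 = 1 := by
    rw [hX, Finset.sum_product, ← hp.sum_eq_one D hD]
    refine Finset.sum_congr rfl fun c hc => ?_
    rw [hp.inv_eq D n c hD (mem_range.1 hc)]
  have hsumP : ∑ x ∈ X, p D x.1 / (b : ℝ) ^ n = 1 := by
    rw [hX, Finset.sum_product]
    simp only [Finset.sum_const, card_range, nsmul_eq_mul]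
    rw [← hp.sum_eq_one D hD]
    refine Finset.sum_congr rfl fun c _ => ?_
    push_cast
    field_simp
  have hs1 : ∑ x ∈ X, (if x ∈ E1 then q x.1 x.2 else 0) ≤ β := by
    rw [← Finset.sum_filter]
    refine le_trans ?_ hB
    have hinj : Set.InjOn (fun x : ℕ × ℕ => x.1 + D * x.2) (X.filter (fun x => x ∈ E1) : Finset (ℕ × ℕ)) := by
      rintro ⟨c, j⟩ hx ⟨c', j'⟩ hx' h
      have h1 := (mem_filter.1 (mem_coe.1 hx)).1
      have h2 := (mem_filter.1 (mem_coe.1 hx')).1
      rw [hX, mem_product, mem_range, mem_range] at h1 h2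
      simp only at h h1 h2
      have h3 : c = c' := by
        have := congrArg (fun t => t % D) h
        simp only [Nat.add_mul_mod_self_left] at this
        rwa [Nat.mod_eq_of_lt h1.1, Nat.mod_eq_of_lt h2.1] at this
      subst h3
      have h4 : D * j = D * j' := by omega
      rw [Nat.eq_of_mul_eq_mul_left (by omega) h4]
    have e : ∑ x ∈ X.filter (fun x => x ∈ E1), q x.1 x.2 =
        ∑ a ∈ (X.filter (fun x => x ∈ E1)).image (fun x : ℕ × ℕ => x.1 + D * x.2),
          p (D * b ^ n) a := by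
      rw [Finset.sum_image hinj]
    rw [e]
    refine Finset.sum_le_sum_of_subset_of_nonneg ?_ fun a _ _ => hp.nonneg _ _
    intro a ha
    rw [mem_image] at ha
    obtain ⟨x, hx, rfl⟩ := ha
    exact (mem_filter.1 (mem_filter.1 hx).2).2
  have hs2 : ∑ x ∈ X, (if x ∈ E2 then q x.1 x.2 else 0) ≤ δ * R / κ ^ 2 := by
    rw [hX, Finset.sum_product]
    have h1 : ∀ c ∈ range D, ∑ j ∈ range (b ^ n), (if (c, j) ∈ E2 then q c j else 0) ≤
        p D c * (δ * R / κ ^ 2) := by
      intro c hc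
      have h2 : ∀ j ∈ range (b ^ n), (if (c, j) ∈ E2 then q c j else 0) ≤
          (δ * p D c / κ ^ 2) * ‖S (c + D * j)‖ ^ 2 := by
        intro j hj
        have hP0 : 0 ≤ p D c := hp.nonneg _ _
        split_ifs with h3
        · have h4 := mem_filter.1 h3
          have h5 : c + D * j < D * b ^ n := by
            rw [mem_range] at hc hj
            calc c + D * j < D + D * j := by omega
              _ = D * (j + 1) := by ring
              _ ≤ D * b ^ n := Nat.mul_le_mul_left _ hj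
          have h6 := hSB _ h5 h4.2.1
          have h7 : κ ^ 2 ≤ ‖S (c + D * j)‖ ^ 2 := by gcongr
          calc q c j ≤ δ * p D c := h4.2.2
            _ = (δ * p D c / κ ^ 2) * κ ^ 2 := by field_simp
            _ ≤ _ := by gcongr
        · positivity
      refine (Finset.sum_le_sum h2).trans ?_
      rw [← Finset.mul_sum]
      have hP0 : 0 ≤ p D c := hp.nonneg _ _
      calc (δ * p D c / κ ^ 2) * ∑ j ∈ range (b ^ n), ‖S (c + D * j)‖ ^ 2
          ≤ (δ * p D c / κ ^ 2) * R := by
            gcongr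
            exact hS c (mem_range.1 hc)
        _ = _ := by ring
    refine (Finset.sum_le_sum h1).trans ?_
    rw [← Finset.sum_mul, hp.sum_eq_one D hD, one_mul]
  rw [hsumq, hsumP, one_mul]
  have h9 : (0 : ℝ) ≤ n * Real.log b := by positivity
  have := mul_le_mul_of_nonneg_right (add_le_add hs1 hs2) h9
  linarith

/-- the heavy intervals -/
theorem thin_aux (hb : 2 ≤ b) (hp : Prof b p) (n s : ℕ) (hs : 1 ≤ s) :
    (((range (b ^ n)).filter (fun u => (1 / (b : ℝ) ^ s) ≤ p (b ^ n) u)).card : ℝ) ≤ (b : ℝ) ^ s ∧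
    1 - ent p (b ^ n) / (s * Real.log b) ≤
      ∑ u ∈ (range (b ^ n)).filter (fun u => (1 / (b : ℝ) ^ s) ≤ p (b ^ n) u), p (b ^ n) u := by
  have hbr : (1 : ℝ) < b := by exact_mod_cast (by omega : 1 < b)
  have hlogb : 0 < Real.log b := Real.log_pos hbr
  have hD : 1 ≤ b ^ n := Nat.one_le_pow _ _ (by omega)
  have hsr : (0 : ℝ) < s := by exact_mod_cast hs
  have hsum := hp.sum_eq_one (b ^ n) hD
  have hle1 : ∀ u ∈ range (b ^ n), p (b ^ n) u ≤ 1 := fun u hu => by
    rw [← hsum]
    exact Finset.single_le_sum (f := fun a => p (b ^ n) a) (fun a _ => hp.nonneg _ a) hu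
  constructor
  · have h1 : ∑ u ∈ (range (b ^ n)).filter (fun u => (1 / (b : ℝ) ^ s) ≤ p (b ^ n) u),
        (1 / (b : ℝ) ^ s) ≤ 1 := by
      refine (Finset.sum_le_sum fun u hu => (mem_filter.1 hu).2).trans ?_
      rw [← hsum]
      exact Finset.sum_le_sum_of_subset_of_nonneg (filter_subset _ _) fun a _ _ => hp.nonneg _ _
    rw [Finset.sum_const, nsmul_eq_mul, mul_one_div, div_le_one (by positivity)] at h1
    exact h1
  · have h2 := Finset.sum_filter_add_sum_filter_not (range (b ^ n))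
      (fun u => (1 / (b : ℝ) ^ s) ≤ p (b ^ n) u) (fun u => p (b ^ n) u)
    have h3 : ∑ u ∈ (range (b ^ n)).filter (fun u => ¬ (1 / (b : ℝ) ^ s) ≤ p (b ^ n) u),
        p (b ^ n) u ≤ ent p (b ^ n) / (s * Real.log b) := by
      rw [le_div_iff₀ (by positivity), Finset.sum_mul]
      unfold ent
      refine le_trans (Finset.sum_le_sum (g := fun u => Real.negMulLog (p (b ^ n) u))
        fun u hu => ?_) (Finset.sum_le_sum_of_subset_of_nonneg (filter_subset _ _) fun a ha _ =>
          Real.negMulLog_nonneg (hp.nonneg _ _) (hle1 a ha))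
      have h4 := (mem_filter.1 hu).2
      rcases (hp.nonneg (b ^ n) u).eq_or_lt with h | h
      · rw [← h]; simp
      · push Not at h4
        have h5 := Real.log_le_log h h4.le
        rw [Real.log_div one_ne_zero (by positivity), Real.log_one, Real.log_pow, zero_sub] at h5
        rw [Real.negMulLog]
        nlinarith
    linarith

/-- the majority digit -/
theorem major (hb : 2 ≤ b) (hp : Prof b p) (n : ℕ) (g : ℕ → ℕ)
    (hg : ∀ c < b ^ n, g c < b ∧ ∀ j < b, p (b ^ (n + 1)) (c + b ^ n * j) ≤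
      p (b ^ (n + 1)) (c + b ^ n * g c)) :
    1 - inc b p n / Real.log 2 ≤ ∑ c ∈ range (b ^ n), p (b ^ (n + 1)) (c + b ^ n * g c) := by
  have hE : 1 ≤ b ^ n := Nat.one_le_pow _ _ (by omega)
  have hlog2 : 0 < Real.log 2 := Real.log_pos (by norm_num)
  have h := ent_diff hp (b ^ n) 1 hE
  rw [← pow_add, pow_one] at h
  have hsum := hp.sum_eq_one (b ^ n) hE
  have h1 : ∀ c ∈ range (b ^ n), (p (b ^ n) c - p (b ^ (n + 1)) (c + b ^ n * g c)) * Real.log 2 ≤
      ∑ j ∈ range b, p (b ^ (n + 1)) (c + b ^ n * j) *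
        (Real.log (p (b ^ n) c) - Real.log (p (b ^ (n + 1)) (c + b ^ n * j))) := by
    intro c hc
    have hc' := mem_range.1 hc
    obtain ⟨hgc, hmax⟩ := hg c hc'
    have h2 := hp.inv_eq (b ^ n) 1 c hE hc'
    rw [← pow_add, pow_one] at h2
    have hle : ∀ j, j < b → p (b ^ (n + 1)) (c + b ^ n * j) ≤ p (b ^ n) c := by
      intro j hj
      have := le_parent hp (b ^ n) 1 c j hE hc' (by rwa [pow_one])
      rwa [← pow_add] at this
    have h3 : p (b ^ n) c - p (b ^ (n + 1)) (c + b ^ n * g c) =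
        ∑ j ∈ (range b).erase (g c), p (b ^ (n + 1)) (c + b ^ n * j) := by
      rw [h2, ← Finset.add_sum_erase _ _ (mem_range.2 hgc)]
      ring
    rw [h3, Finset.sum_mul, ← Finset.add_sum_erase (range b) _ (mem_range.2 hgc)]
    have h4 : 0 ≤ p (b ^ (n + 1)) (c + b ^ n * g c) *
        (Real.log (p (b ^ n) c) - Real.log (p (b ^ (n + 1)) (c + b ^ n * g c))) := by
      rcases (hp.nonneg (b ^ (n + 1)) (c + b ^ n * g c)).eq_or_lt with h5 | h5
      · rw [← h5]; simp
      · have := Real.log_le_log h5 (hle _ hgc)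
        exact mul_nonneg h5.le (by linarith)
    refine le_trans (Finset.sum_le_sum fun j hj => ?_) (le_add_of_nonneg_left h4)
    obtain ⟨hj1, hj2⟩ := mem_erase.1 hj
    have hj3 := mem_range.1 hj2
    rcases (hp.nonneg (b ^ (n + 1)) (c + b ^ n * j)).eq_or_lt with h5 | h5
    · rw [← h5]; simp
    · have h6 : 2 * p (b ^ (n + 1)) (c + b ^ n * j) ≤ p (b ^ n) c := by
        rw [h2, ← Finset.add_sum_erase _ _ (mem_range.2 hgc)]
        have h7 : p (b ^ (n + 1)) (c + b ^ n * j) ≤
            ∑ j ∈ (range b).erase (g c), p (b ^ (n + 1)) (c + b ^ n * j) :=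
          Finset.single_le_sum (f := fun j => p (b ^ (n + 1)) (c + b ^ n * j))
            (fun j _ => hp.nonneg _ _) hj
        have h8 := hmax j hj3
        linarith
      have h9 := Real.log_le_log (by positivity) h6
      rw [Real.log_mul (by norm_num) h5.ne'] at h9
      exact mul_le_mul_of_nonneg_left (by linarith) h5.le
  have h2 := Finset.sum_le_sum h1
  have h3 : ∑ c ∈ range (b ^ n), ∑ j ∈ range b, p (b ^ (n + 1)) (c + b ^ n * j) *
        (Real.log (p (b ^ n) c) - Real.log (p (b ^ (n + 1)) (c + b ^ n * j))) = inc b p n := by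
    unfold inc
    rw [h]
  rw [h3, ← Finset.sum_mul, Finset.sum_sub_distrib, hsum] at h2
  have h4 : 1 - ∑ c ∈ range (b ^ n), p (b ^ (n + 1)) (c + b ^ n * g c) ≤ inc b p n / Real.log 2 := by
    rw [le_div_iff₀ hlog2]; exact h2
  linarith

end Helper58.FH
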