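import Mathlib
import Pool.Agent.Helper17.TranslM
import Pool.Agent.Helper58.FH.Basic

set_option autoImplicit false
open MeasureTheory Filter Topology Metric Finset
open scoped ENNReal ComplexConjugate

/-! Trigonometric majorants of closed sets of small measure; thin sumsets. -/

namespace Helper58.FH

lemma majorant (V : Set Tor) (hV : IsClosed V)
    (hvol : (volume : Measure Tor) V < ENNReal.ofReal (1 / 4)) :
    ∃ (m0 : ℕ) (c : ℤ → ℂ), (c 0).re ≤ 3 / 8 ∧ ∀ x : Tor,
      V.indicator (fun _ => (1 : ℝ)) x ≤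
        (∑ m ∈ Finset.Icc (-(m0 : ℤ)) m0, c m * fourier m x).re := by
  classical
  obtain ⟨O, hVO, hO, hOv⟩ := Set.exists_isOpen_lt_of_lt V _ hvol
  obtain ⟨f, hf0, hf1, hf⟩ := exists_continuous_zero_one_of_isClosed hO.isClosed_compl hV
    (Set.disjoint_left.2 fun x hx hx' => hx (hVO hx'))
  set g : C(Tor, ℂ) := ⟨fun x => ((f x : ℝ) : ℂ), by fun_prop⟩ with hg
  have hgm : g ∈ (Submodule.span ℂ (Set.range (fourier (T := (1 : ℝ))))).topologicalClosure := by
    rw [span_fourier_closure_eq_top]; trivial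
  have hgm' : g ∈ closure ((Submodule.span ℂ (Set.range (fourier (T := (1 : ℝ)))) :
      Submodule ℂ C(Tor, ℂ)) : Set C(Tor, ℂ)) := hgm
  obtain ⟨P, hP, hPg⟩ := Metric.mem_closure_iff.1 hgm' (1 / 16) (by norm_num)
  obtain ⟨c0, hc0⟩ := Finsupp.mem_span_range_iff_exists_finsupp.1 hP
  rw [dist_eq_norm] at hPg
  set m0 : ℕ := c0.support.sup Int.natAbs with hm0
  have hsub : c0.support ⊆ Finset.Icc (-(m0 : ℤ)) m0 := by
    intro m hm
    have := Finset.le_sup (f := Int.natAbs) hm
    rw [Finset.mem_Icc]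
    omega
  have hPx : ∀ x : Tor, P x = ∑ m ∈ Finset.Icc (-(m0 : ℤ)) m0, c0 m * fourier m x := by
    intro x
    rw [← hc0, Finsupp.sum_of_support_subset _ hsub _ (by simp)]
    rw [ContinuousMap.sum_apply]
    rfl
  have hclose : ∀ x : Tor, |(P x).re - f x| ≤ 1 / 16 := by
    intro x
    have h1 : ‖(g - P) x‖ ≤ 1 / 16 := ((g - P).norm_coe_le_norm x).trans hPg.le
    have h2 : ((g - P) x).re = f x - (P x).re := by
      simp [hg]
    rw [abs_sub_comm, ← h2]
    exact (Complex.abs_re_le_norm _).trans h1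
  refine ⟨m0, fun m => c0 m + if m = 0 then 1 / 16 else 0, ?_, ?_⟩
  · -- the mean
    have hint : ∫ x, P x ∂(volume : Measure Tor) = c0 0 := by
      simp only [hPx]
      rw [integral_finsetSum _ (fun m _ => Helper17.TranslM.integrable_cont _ (by fun_prop))]
      have e : ∀ m : ℤ, ∫ x, c0 m * (fourier m x : ℂ) ∂(volume : Measure Tor) =
          if m = 0 then c0 0 else 0 := by
        intro m
        rw [integral_const_mul]
        by_cases hm : m = 0
        · subst hm
          simp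
        · rw [if_neg hm, Helper17.TranslM.integral_fourier_vol hm, mul_zero]
      simp only [e]
      rw [Finset.sum_ite_eq' (Finset.Icc (-(m0 : ℤ)) m0) 0 (fun _ => c0 0), if_pos]
      rw [Finset.mem_Icc]; omega
    have hPint : Integrable (fun x => P x) (volume : Measure Tor) :=
      Helper17.TranslM.integrable_cont _ P.continuous
    have h1 : (c0 0).re = ∫ x, (P x).re ∂(volume : Measure Tor) := by
      rw [← hint]
      exact (integral_re hPint).symm
    have h2 : ∫ x, (P x).re ∂(volume : Measure Tor) ≤ ∫ x, (f x + 1 / 16) ∂(volume : Measure Tor) := by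
      refine integral_mono hPint.re ?_ fun x => ?_
      · exact (Helper17.TranslM.integrable_cont _ f.continuous).add (integrable_const _)
      · have := (abs_le.1 (hclose x)).2
        show (P x).re ≤ f x + 1 / 16
        linarith
    have h3 : ∫ x, (f x + 1 / 16) ∂(volume : Measure Tor) ≤ 1 / 4 + 1 / 16 := by
      rw [integral_add (Helper17.TranslM.integrable_cont _ f.continuous) (integrable_const _)]
      have h4 : ∫ x, f x ∂(volume : Measure Tor) ≤ 1 / 4 := by
        have h5 : ∫ x, f x ∂(volume : Measure Tor) ≤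
            ∫ x, O.indicator (fun _ => (1 : ℝ)) x ∂(volume : Measure Tor) := by
          refine integral_mono (Helper17.TranslM.integrable_cont _ f.continuous)
            ((integrable_const _).indicator hO.measurableSet) fun x => ?_
          by_cases hx : x ∈ O
          · rw [Set.indicator_of_mem hx]; exact (hf x).2
          · rw [Set.indicator_of_notMem hx]
            exact le_of_eq (hf0 hx)
        refine h5.trans ?_
        rw [integral_indicator_const _ hO.measurableSet, smul_eq_mul, mul_one]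
        unfold Measure.real
        have := ENNReal.toReal_mono (by simp) hOv.le
        rwa [ENNReal.toReal_ofReal (by norm_num)] at this
      have h6 : (volume : Measure Tor).real Set.univ = 1 := probReal_univ
      rw [integral_const, smul_eq_mul, h6, one_mul]
      linarith
    show (c0 0 + if (0 : ℤ) = 0 then (1 / 16 : ℂ) else 0).re ≤ 3 / 8
    rw [if_pos rfl]
    have e2 : (c0 0 + 1 / 16 : ℂ).re = (c0 0).re + 1 / 16 := by
      rw [Complex.add_re]
      norm_num
    rw [e2, h1]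
    linarith
  · intro x
    have e : ∑ m ∈ Finset.Icc (-(m0 : ℤ)) m0, (c0 m + if m = 0 then 1 / 16 else 0) *
        (fourier m x : ℂ) = P x + 1 / 16 := by
      simp only [add_mul]
      rw [Finset.sum_add_distrib, ← hPx]
      congr 1
      simp only [ite_mul, zero_mul]
      rw [Finset.sum_ite_eq' (Finset.Icc (-(m0 : ℤ)) m0) 0 (fun m => 1 / 16 * (fourier m x : ℂ)),
        if_pos]
      · simp
      · rw [Finset.mem_Icc]; omega
    rw [e]
    have e2 : (P x + 1 / 16 : ℂ).re = (P x).re + 1 / 16 := by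
      rw [Complex.add_re]
      norm_num
    rw [e2]
    have h1 := (abs_le.1 (hclose x)).1
    by_cases hx : x ∈ V
    · rw [Set.indicator_of_mem hx]
      have : f x = 1 := hf1 hx
      linarith
    · rw [Set.indicator_of_notMem hx]
      have := (hf x).1
      linarith

lemma majorant' (V : Set Tor) (hV : IsClosed V)
    (hvol : (volume : Measure Tor) V < ENNReal.ofReal (1 / 4)) :
    ∃ (m0 : ℕ) (c : ℤ → ℂ) (δ : ℝ), 0 < δ ∧ (∀ x : Tor,
      V.indicator (fun _ => (1 : ℝ)) x ≤
        (∑ m ∈ Finset.Icc (-(m0 : ℤ)) m0, c m * fourier m x).re) ∧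
      ∀ z : ℤ → ℂ, z 0 = 1 → (∀ m, z (-m) = conj (z m)) →
        (∀ m : ℕ, 1 ≤ m → m ≤ m0 → ‖z m‖ < δ) →
        (∑ m ∈ Finset.Icc (-(m0 : ℤ)) m0, c m * z m).re < 1 / 2 := by
  obtain ⟨m0, c, hc, hmaj⟩ := majorant V hV hvol
  set Λ : ℝ := ∑ m ∈ Finset.Icc (-(m0 : ℤ)) m0, ‖c m‖ with hΛ
  have hΛ0 : 0 ≤ Λ := Finset.sum_nonneg fun _ _ => norm_nonneg _
  refine ⟨m0, c, 1 / (8 * (Λ + 1)), by positivity, hmaj, ?_⟩
  intro z hz0 hzc hz
  have h0 : (0 : ℤ) ∈ Finset.Icc (-(m0 : ℤ)) m0 := by rw [Finset.mem_Icc]; omega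
  rw [← Finset.add_sum_erase _ _ h0, Complex.add_re, hz0, mul_one]
  have h1 : ∀ m ∈ (Finset.Icc (-(m0 : ℤ)) m0).erase 0, ‖z m‖ ≤ 1 / (8 * (Λ + 1)) := by
    intro m hm
    obtain ⟨hm0, hm1⟩ := Finset.mem_erase.1 hm
    rw [Finset.mem_Icc] at hm1
    rcases lt_or_gt_of_ne hm0 with h | h
    · have h2 := hz m.natAbs (by omega) (by omega)
      have h3 : ((m.natAbs : ℕ) : ℤ) = -m := by omega
      rw [h3, hzc, Complex.norm_conj] at h2
      exact h2.le
    · have h2 := hz m.natAbs (by omega) (by omega)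
      have h3 : ((m.natAbs : ℕ) : ℤ) = m := by omega
      rw [h3] at h2
      exact h2.le
  have h2 : ‖∑ m ∈ (Finset.Icc (-(m0 : ℤ)) m0).erase 0, c m * z m‖ ≤ Λ * (1 / (8 * (Λ + 1))) := by
    refine (norm_sum_le _ _).trans ?_
    calc ∑ m ∈ (Finset.Icc (-(m0 : ℤ)) m0).erase 0, ‖c m * z m‖
        ≤ ∑ m ∈ (Finset.Icc (-(m0 : ℤ)) m0).erase 0, ‖c m‖ * (1 / (8 * (Λ + 1))) := by
          refine Finset.sum_le_sum fun m hm => ?_
          rw [norm_mul]
          gcongr
          exact h1 m hm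
      _ = (∑ m ∈ (Finset.Icc (-(m0 : ℤ)) m0).erase 0, ‖c m‖) * (1 / (8 * (Λ + 1))) := by
          rw [Finset.sum_mul]
      _ ≤ Λ * (1 / (8 * (Λ + 1))) := by
          gcongr
          exact Finset.sum_le_sum_of_subset_of_nonneg (Finset.erase_subset _ _)
            fun _ _ _ => norm_nonneg _
  have h3 : Λ * (1 / (8 * (Λ + 1))) < 1 / 8 := by
    rw [mul_one_div, div_lt_iff₀ (by positivity)]
    linarith
  have h4 := Complex.re_le_norm (∑ m ∈ (Finset.Icc (-(m0 : ℤ)) m0).erase 0, c m * z m)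
  linarith

/-- the sumset of a union of balls -/
def VV (A : Finset Tor) (ρ : ℝ) (k H : ℕ) : Set Tor :=
  ⋃ c ∈ Fintype.piFinset (fun _ : Fin k => Finset.Icc (-(H : ℤ)) H),
    ⋃ a ∈ Fintype.piFinset (fun _ : Fin k => A), closedBall (∑ i, c i • a i) (k * H * ρ)

lemma isClosed_VV (A : Finset Tor) (ρ : ℝ) (k H : ℕ) : IsClosed (VV A ρ k H) := by
  unfold VV
  refine isClosed_biUnion_finset fun c _ => ?_
  exact isClosed_biUnion_finset fun a _ => isClosed_closedBall

lemma mem_VV (A : Finset Tor) (ρ : ℝ) (hρ : 0 ≤ ρ) (k H : ℕ) (c : Fin k → ℤ)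
    (hc : ∀ i, |c i| ≤ H) (u : Fin k → Tor) (hu : ∀ i, u i ∈ ⋃ a ∈ A, closedBall a ρ) :
    ∑ i, c i • u i ∈ VV A ρ k H := by
  have h : ∀ i, ∃ a ∈ A, u i ∈ closedBall a ρ := by
    intro i
    have := hu i
    rw [Set.mem_iUnion₂] at this
    obtain ⟨a, ha, h⟩ := this
    exact ⟨a, ha, h⟩
  choose a ha hua using h
  unfold VV
  rw [Set.mem_iUnion₂]
  refine ⟨c, ?_, ?_⟩
  · rw [Fintype.mem_piFinset]
    intro i
    rw [Finset.mem_Icc]
    exact abs_le.1 (hc i)
  rw [Set.mem_iUnion₂]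
  refine ⟨a, Fintype.mem_piFinset.2 ha, ?_⟩
  rw [mem_closedBall, dist_eq_norm, ← Finset.sum_sub_distrib]
  refine (norm_sum_le _ _).trans ?_
  have h1 : ∀ i : Fin k, ‖c i • u i - c i • a i‖ ≤ H * ρ := by
    intro i
    rw [← smul_sub]
    refine (norm_zsmul_le _ _).trans ?_
    have h2 := hua i
    rw [mem_closedBall, dist_eq_norm] at h2
    have h3 : ‖(c i : ℝ)‖ ≤ H := by
      rw [Real.norm_eq_abs]
      have := hc i
      exact_mod_cast this
    calc _ ≤ ‖(c i : ℝ)‖ * ‖u i - a i‖ := by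
          simp [Int.norm_eq_abs]
      _ ≤ _ := by gcongr
  refine (Finset.sum_le_sum fun i _ => h1 i).trans (le_of_eq ?_)
  rw [Finset.sum_const, Finset.card_univ, Fintype.card_fin, nsmul_eq_mul, mul_assoc]

lemma volume_VV (A : Finset Tor) (ρ : ℝ) (hρ : 0 ≤ ρ) (k H : ℕ) :
    (volume : Measure Tor) (VV A ρ k H) ≤
      ENNReal.ofReal ((2 * H + 1 : ℕ) ^ k * (A.card : ℝ) ^ k * (2 * (k * H * ρ))) := by
  unfold VV
  refine (measure_biUnion_finset_le _ _).trans ?_
  have h1 : ∀ c : Fin k → ℤ, (volume : Measure Tor) (⋃ a ∈ Fintype.piFinset (fun _ : Fin k => A),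
      closedBall (∑ i, c i • a i) (k * H * ρ)) ≤
      ((A.card ^ k : ℕ) : ℝ≥0∞) * ENNReal.ofReal (2 * (k * H * ρ)) := by
    intro c
    refine (measure_biUnion_finset_le _ _).trans ?_
    have h2 : ∀ a ∈ Fintype.piFinset (fun _ : Fin k => A),
        (volume : Measure Tor) (closedBall (∑ i, c i • a i) (k * H * ρ)) ≤
        ENNReal.ofReal (2 * (k * H * ρ)) := by
      intro a _
      rw [AddCircle.volume_closedBall]
      exact ENNReal.ofReal_le_ofReal (min_le_right _ _)
    refine (Finset.sum_le_sum h2).trans (le_of_eq ?_)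
    rw [Finset.sum_const, Fintype.card_piFinset_const, nsmul_eq_mul]
  refine (Finset.sum_le_sum fun c _ => h1 c).trans (le_of_eq ?_)
  rw [Finset.sum_const, Fintype.card_piFinset_const, nsmul_eq_mul, Int.card_Icc]
  have e : ((H : ℤ) + 1 - -(H : ℤ)).toNat = 2 * H + 1 := by omega
  rw [e]
  have e3 : ((2 * H + 1 : ℕ) : ℝ) ^ k * (A.card : ℝ) ^ k * (2 * (k * H * ρ)) =
      (((2 * H + 1) ^ k * A.card ^ k : ℕ) : ℝ) * (2 * (k * H * ρ)) := by
    push_cast
    ring
  rw [e3, ENNReal.ofReal_mul (p := (((2 * H + 1) ^ k * A.card ^ k : ℕ) : ℝ)) (by positivity),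
    ENNReal.ofReal_natCast]
  push_cast
  ring

end Helper58.FH
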