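import Mathlib
import Pool.Agent.Helper58.FH.Maj
import Pool.Agent.Helper58.FH.Thin

set_option autoImplicit false
open MeasureTheory Filter Topology Metric Finset
open scoped ENNReal ComplexConjugate

/-! Differences of typical points are never equidistributed along a weight; sparse sums. -/

namespace Helper58.FH

open Helper58.FX (act UU ev ft Erg T sc PE)

variable {μ : Measure Tor}

lemma measurable_U (A : Finset Tor) (ρ : ℝ) : IsClosed (⋃ a ∈ A, closedBall a ρ : Set Tor) :=
  isClosed_biUnion_finset fun _ _ => isClosed_closedBall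

theorem weights [IsProbabilityMeasure μ] (h2 : MeasurePreserving (T 2) μ μ)
    (h3 : MeasurePreserving (T 3) μ μ) (hE : Erg (ft μ)) (hne : ∃ n : ℤ, n ≠ 0 ∧ ft μ n ≠ 0)
    (ε : ℝ) (hε : 0 < ε) :
    ∃ (m0 : ℕ) (δ : ℝ), 0 < δ ∧ ∀ (F : Finset (ℕ × ℕ)) (w : ℕ × ℕ → ℝ), (∀ s ∈ F, 0 ≤ w s) →
      ∑ s ∈ F, w s = 1 → ∃ G : Set Tor, MeasurableSet G ∧ 1 - ε ≤ μ.real G ∧
        ∀ x ∈ G, ∀ y ∈ G, ∃ m : ℕ, 1 ≤ m ∧ m ≤ m0 ∧
          δ ≤ ‖∑ s ∈ F, (w s : ℂ) * fourier (m : ℤ) ((2 ^ s.1 * 3 ^ s.2) • (x - y))‖ := by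
  classical
  obtain ⟨A, ρ, hρ, hsmall, hmass⟩ := thin h2 h3 hE hne 2 1000 (min (ε / 4) 1) (by norm_num)
    (by positivity)
  set U : Set Tor := ⋃ a ∈ A, closedBall a ρ with hU
  have hUc : IsClosed U := measurable_U A ρ
  have hvol : (volume : Measure Tor) (VV A ρ 2 1) < ENNReal.ofReal (1 / 4) := by
    refine (volume_VV A ρ hρ.le 2 1).trans_lt ?_
    rw [ENNReal.ofReal_lt_ofReal_iff (by norm_num)]
    have h1 := min_le_right (ε / 4) (1 : ℝ)
    push_cast
    norm_num
    norm_num at hsmall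
    nlinarith
  obtain ⟨m0, c, δ, hδ, hmaj, hno⟩ := majorant' _ (isClosed_VV A ρ 2 1) hvol
  refine ⟨m0, δ, hδ, ?_⟩
  intro F w hw hw1
  have hT : ∀ s : ℕ × ℕ, MeasurePreserving (fun x : Tor => (2 ^ s.1 * 3 ^ s.2) • x) μ μ :=
    fun s => mp_pow h2 h3 s.1 s.2
  set g : Tor → ℝ := fun x => ∑ s ∈ F, w s * Uᶜ.indicator (fun _ => (1 : ℝ)) ((2 ^ s.1 * 3 ^ s.2) • x)
    with hg
  have hterm : ∀ s : ℕ × ℕ, (fun x : Tor => Uᶜ.indicator (fun _ => (1 : ℝ)) ((2 ^ s.1 * 3 ^ s.2) • x)) =
      ((fun x : Tor => (2 ^ s.1 * 3 ^ s.2) • x) ⁻¹' Uᶜ).indicator (fun _ => (1 : ℝ)) := by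
    intro s
    funext x
    simp only [Set.indicator_apply, Set.mem_preimage]
  have hmeas : ∀ s : ℕ × ℕ, MeasurableSet ((fun x : Tor => (2 ^ s.1 * 3 ^ s.2) • x) ⁻¹' Uᶜ) :=
    fun s => (hT s).measurable hUc.measurableSet.compl
  have hgm : Measurable g := by
    refine Finset.measurable_sum _ fun s _ => ?_
    refine Measurable.const_mul ?_ _
    rw [hterm]
    exact measurable_const.indicator (hmeas s)
  have hgint : ∫ x, g x ∂μ ≤ ε / 4 := by
    rw [hg, integral_finsetSum]
    · have h1 : ∀ s ∈ F, ∫ x, w s * Uᶜ.indicator (fun _ => (1 : ℝ)) ((2 ^ s.1 * 3 ^ s.2) • x) ∂μ =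
          w s * μ.real Uᶜ := by
        intro s _
        rw [integral_const_mul, hterm, integral_indicator_const _ (hmeas s), smul_eq_mul, mul_one,
          Measure.real, (hT s).measure_preimage hUc.measurableSet.compl.nullMeasurableSet]
        rfl
      rw [Finset.sum_congr rfl h1, ← Finset.sum_mul, hw1, one_mul,
        probReal_compl_eq_one_sub hUc.measurableSet]
      have := min_le_left (ε / 4) (1 : ℝ)
      linarith
    · intro s _
      refine Integrable.const_mul ?_ _
      rw [hterm]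
      exact (integrable_const _).indicator (hmeas s)
  have hg0 : ∀ x, 0 ≤ g x := by
    intro x
    refine Finset.sum_nonneg fun s hs => mul_nonneg (hw s hs) ?_
    exact Set.indicator_nonneg (fun _ _ => zero_le_one) _
  have hgi : Integrable g μ := by
    refine integrable_finsetSum _ fun s _ => ?_
    refine Integrable.const_mul ?_ _
    rw [hterm]
    exact (integrable_const _).indicator (hmeas s)
  refine ⟨{x | g x < 1 / 4}, measurableSet_lt hgm measurable_const, ?_, ?_⟩
  · have h1 : μ.real {x | 1 / 4 ≤ g x} ≤ ε := by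
      have h2 := mul_meas_ge_le_integral_of_nonneg (Eventually.of_forall hg0) hgi (1 / 4)
      have h3 : (1 / 4 : ℝ) * μ.real {x | 1 / 4 ≤ g x} ≤ ∫ x, g x ∂μ := h2
      linarith
    have h2 : {x | g x < 1 / 4} = {x | 1 / 4 ≤ g x}ᶜ := by
      ext x
      simp
    rw [h2, probReal_compl_eq_one_sub (measurableSet_le measurable_const hgm)]
    linarith
  · intro x hx y hy
    have hx' : g x < 1 / 4 := hx
    have hy' : g y < 1 / 4 := hy
    by_contra hcon
    push Not at hcon
    set z : ℤ → ℂ := fun m => ∑ s ∈ F, (w s : ℂ) * fourier m ((2 ^ s.1 * 3 ^ s.2) • (x - y)) with hz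
    have h1 := hno z ?_ ?_ ?_
    · -- lower bound
      have h3 : (1 : ℝ) / 2 < ∑ s ∈ F, w s *
          (VV A ρ 2 1).indicator (fun _ => (1 : ℝ)) ((2 ^ s.1 * 3 ^ s.2) • (x - y)) := by
        have h4 : ∀ s ∈ F, w s - w s * Uᶜ.indicator (fun _ => (1 : ℝ)) ((2 ^ s.1 * 3 ^ s.2) • x) -
            w s * Uᶜ.indicator (fun _ => (1 : ℝ)) ((2 ^ s.1 * 3 ^ s.2) • y) ≤ w s *
            (VV A ρ 2 1).indicator (fun _ => (1 : ℝ)) ((2 ^ s.1 * 3 ^ s.2) • (x - y)) := by
          intro s hs
          have hws := hw s hs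
          have hVn : 0 ≤ (VV A ρ 2 1).indicator (fun _ => (1 : ℝ))
              ((2 ^ s.1 * 3 ^ s.2) • (x - y)) :=
            Set.indicator_nonneg (fun _ _ => zero_le_one) _
          have hUn : ∀ u : Tor, 0 ≤ Uᶜ.indicator (fun _ => (1 : ℝ)) u :=
            fun u => Set.indicator_nonneg (fun _ _ => zero_le_one) _
          by_cases hxs : (2 ^ s.1 * 3 ^ s.2) • x ∈ U
          · by_cases hys : (2 ^ s.1 * 3 ^ s.2) • y ∈ U
            · have hV : (2 ^ s.1 * 3 ^ s.2) • (x - y) ∈ VV A ρ 2 1 := by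
                have h5 := mem_VV A ρ hρ.le 2 1 ![1, -1] ?_
                  ![(2 ^ s.1 * 3 ^ s.2) • x, (2 ^ s.1 * 3 ^ s.2) • y] ?_
                · rw [Fin.sum_univ_two] at h5
                  simp only [Matrix.cons_val_zero, Matrix.cons_val_one, one_smul, neg_smul] at h5
                  rw [← sub_eq_add_neg, ← smul_sub] at h5
                  exact h5
                · intro i
                  fin_cases i <;> simp
                · intro i
                  fin_cases i
                  · exact hxs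
                  · exact hys
              rw [Set.indicator_of_mem hV, Set.indicator_of_notMem (by simpa using hxs),
                Set.indicator_of_notMem (by simpa using hys)]
              linarith
            · rw [Set.indicator_of_mem (s := Uᶜ) (a := (2 ^ s.1 * 3 ^ s.2) • y) hys]
              have := mul_nonneg hws (hUn ((2 ^ s.1 * 3 ^ s.2) • x))
              have := mul_nonneg hws hVn
              linarith
          · rw [Set.indicator_of_mem (s := Uᶜ) (a := (2 ^ s.1 * 3 ^ s.2) • x) hxs]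
            have := mul_nonneg hws (hUn ((2 ^ s.1 * 3 ^ s.2) • y))
            have := mul_nonneg hws hVn
            linarith
        have h5 := Finset.sum_le_sum h4
        rw [Finset.sum_sub_distrib, Finset.sum_sub_distrib, hw1] at h5
        have h6 : ∑ s ∈ F, w s * Uᶜ.indicator (fun _ => (1 : ℝ)) ((2 ^ s.1 * 3 ^ s.2) • x) = g x := rfl
        have h7 : ∑ s ∈ F, w s * Uᶜ.indicator (fun _ => (1 : ℝ)) ((2 ^ s.1 * 3 ^ s.2) • y) = g y := rfl
        rw [h6, h7] at h5
        linarith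
      have h4 : ∑ s ∈ F, w s *
          (VV A ρ 2 1).indicator (fun _ => (1 : ℝ)) ((2 ^ s.1 * 3 ^ s.2) • (x - y)) ≤
          (∑ m ∈ Finset.Icc (-(m0 : ℤ)) m0, c m * z m).re := by
        have h5 : (∑ m ∈ Finset.Icc (-(m0 : ℤ)) m0, c m * z m).re = ∑ s ∈ F, w s *
            (∑ m ∈ Finset.Icc (-(m0 : ℤ)) m0, c m *
              fourier m ((2 ^ s.1 * 3 ^ s.2) • (x - y))).re := by
          have h6 : ∑ m ∈ Finset.Icc (-(m0 : ℤ)) m0, c m * z m = ∑ s ∈ F, (w s : ℂ) *
              ∑ m ∈ Finset.Icc (-(m0 : ℤ)) m0, c m *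
                fourier m ((2 ^ s.1 * 3 ^ s.2) • (x - y)) := by
            simp only [hz, Finset.mul_sum]
            rw [Finset.sum_comm]
            refine Finset.sum_congr rfl fun s _ => Finset.sum_congr rfl fun m _ => ?_
            ring
          rw [h6, Complex.re_sum]
          refine Finset.sum_congr rfl fun s _ => ?_
          rw [Complex.re_ofReal_mul]
        rw [h5]
        exact Finset.sum_le_sum fun s hs => mul_le_mul_of_nonneg_left (hmaj _) (hw s hs)
      linarith
    · rw [hz]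
      simp only [fourier_zero, mul_one]
      rw [← Complex.ofReal_sum, hw1, Complex.ofReal_one]
    · intro m
      rw [hz]
      simp only
      rw [map_sum]
      refine Finset.sum_congr rfl fun s _ => ?_
      rw [map_mul, Complex.conj_ofReal, fourier_neg]
    · intro m hm1 hm2
      exact hcon m hm1 hm2

theorem sparse [IsProbabilityMeasure μ] (h2 : MeasurePreserving (T 2) μ μ)
    (h3 : MeasurePreserving (T 3) μ μ) (hE : Erg (ft μ)) (hne : ∃ n : ℤ, n ≠ 0 ∧ ft μ n ≠ 0)
    (k H : ℕ) :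
    ∃ (m0 : ℕ) (δ : ℝ), 0 < δ ∧ ∀ (a b : Fin k → ℕ) (c : Fin k → ℤ), (∀ i, |c i| ≤ H) →
      ∃ m : ℕ, 1 ≤ m ∧ m ≤ m0 ∧
        δ ≤ ‖∫ x, (fourier ((m : ℤ) * ∑ i, c i * (2 ^ a i * 3 ^ b i)) x : ℂ) ∂μ‖ := by
  classical
  obtain ⟨A, ρ, hρ, hsmall, hmass⟩ := thin h2 h3 hE hne k
    (16 * (2 * H + 1) ^ k * (k * H + 1)) (1 / (2 * (k + 1))) (by positivity) (by positivity)
  set U : Set Tor := ⋃ a ∈ A, closedBall a ρ with hU
  have hUc : IsClosed U := measurable_U A ρ
  have hvol : (volume : Measure Tor) (VV A ρ k H) < ENNReal.ofReal (1 / 4) := by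
    refine (volume_VV A ρ hρ.le k H).trans_lt ?_
    rw [ENNReal.ofReal_lt_ofReal_iff (by norm_num)]
    have h1 : (1 : ℝ) / (2 * (k + 1)) ≤ 1 := by
      rw [div_le_one (by positivity)]
      have : (0 : ℝ) ≤ k := Nat.cast_nonneg _
      linarith
    have h4 : 8 * (((2 * H + 1 : ℕ) : ℝ) ^ k * (A.card : ℝ) ^ k * (2 * (k * H * ρ))) ≤
        16 * (2 * H + 1) ^ k * (k * H + 1) * (A.card : ℝ) ^ k * ρ := by
      have h5 : (0 : ℝ) ≤ (2 * H + 1) ^ k * (A.card : ℝ) ^ k * ρ := by positivity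
      push_cast
      nlinarith
    linarith
  obtain ⟨m0, d, δ, hδ, hmaj, hno⟩ := majorant' _ (isClosed_VV A ρ k H) hvol
  refine ⟨m0, δ, hδ, ?_⟩
  intro a b c hc
  by_contra hcon
  push Not at hcon
  set n : ℤ := ∑ i, c i * (2 ^ a i * 3 ^ b i) with hn
  have hT : ∀ i : Fin k, MeasurePreserving (fun x : Tor => (2 ^ a i * 3 ^ b i) • x) μ μ :=
    fun i => mp_pow h2 h3 (a i) (b i)
  set E : Set Tor := ⋂ i : Fin k, (fun x : Tor => (2 ^ a i * 3 ^ b i) • x) ⁻¹' U with hEdef
  have hEm : MeasurableSet E :=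
    MeasurableSet.iInter fun i => (hT i).measurable hUc.measurableSet
  have hEc : μ.real Eᶜ ≤ 1 / 2 := by
    have h1 : Eᶜ = ⋃ i : Fin k, ((fun x : Tor => (2 ^ a i * 3 ^ b i) • x) ⁻¹' Uᶜ) := by
      rw [hEdef, Set.compl_iInter]
      rfl
    rw [h1]
    refine (measureReal_iUnion_fintype_le _).trans ?_
    have h4 : ∀ i : Fin k, μ.real ((fun x : Tor => (2 ^ a i * 3 ^ b i) • x) ⁻¹' Uᶜ) ≤
        1 / (2 * (k + 1)) := by
      intro i
      rw [Measure.real, (hT i).measure_preimage hUc.measurableSet.compl.nullMeasurableSet]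
      have h5 : (μ Uᶜ).toReal = 1 - μ.real U := probReal_compl_eq_one_sub hUc.measurableSet
      rw [h5]
      linarith
    refine (Finset.sum_le_sum fun i _ => h4 i).trans ?_
    rw [Finset.sum_const, Finset.card_univ, Fintype.card_fin, nsmul_eq_mul]
    have hk : (0 : ℝ) ≤ k := Nat.cast_nonneg _
    rw [mul_one_div, div_le_div_iff₀ (by positivity) (by norm_num)]
    linarith
  have hE2 : 1 / 2 ≤ μ.real E := by
    rw [probReal_compl_eq_one_sub hEm] at hEc
    linarith
  have hnx : ∀ x ∈ E, n • x ∈ VV A ρ k H := by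
    intro x hx
    have h5 := mem_VV A ρ hρ.le k H c hc (fun i => (2 ^ a i * 3 ^ b i) • x) ?_
    · have e : n • x = ∑ i, c i • ((2 ^ a i * 3 ^ b i) • x) := by
        rw [hn, Finset.sum_smul]
        refine Finset.sum_congr rfl fun i _ => ?_
        rw [mul_smul, ← natCast_zsmul]
        push_cast
        rfl
      rw [e]
      exact h5
    · intro i
      rw [hEdef, Set.mem_iInter] at hx
      exact hx i
  set z : ℤ → ℂ := fun m => ∫ x, (fourier (m * n) x : ℂ) ∂μ with hz
  have hz1 := hno z ?_ ?_ ?_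
  · have h6 : (1 : ℝ) / 2 ≤ (∑ m ∈ Finset.Icc (-(m0 : ℤ)) m0, d m * z m).re := by
      have h7 : (∑ m ∈ Finset.Icc (-(m0 : ℤ)) m0, d m * z m) =
          ∫ x, ∑ m ∈ Finset.Icc (-(m0 : ℤ)) m0, d m * (fourier m (n • x) : ℂ) ∂μ := by
        rw [integral_finsetSum]
        · refine Finset.sum_congr rfl fun m _ => ?_
          rw [integral_const_mul]
          congr 1
          rw [hz]
          refine integral_congr_ae (Eventually.of_forall fun x => ?_)
          simp only
          rw [fourier_apply, fourier_apply, mul_smul]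
        · intro m _
          exact Helper17.TranslM.integrable_cont _ (by fun_prop)
      rw [h7]
      have h8 : Integrable (fun x : Tor => ∑ m ∈ Finset.Icc (-(m0 : ℤ)) m0,
          d m * (fourier m (n • x) : ℂ)) μ :=
        Helper17.TranslM.integrable_cont _ (by fun_prop)
      have h9 : (∫ x, ∑ m ∈ Finset.Icc (-(m0 : ℤ)) m0, d m * (fourier m (n • x) : ℂ) ∂μ).re =
          ∫ x, (∑ m ∈ Finset.Icc (-(m0 : ℤ)) m0, d m * (fourier m (n • x) : ℂ)).re ∂μ :=
        (integral_re h8).symm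
      rw [h9]
      have h10 : ∫ x, E.indicator (fun _ => (1 : ℝ)) x ∂μ ≤
          ∫ x, (∑ m ∈ Finset.Icc (-(m0 : ℤ)) m0, d m * (fourier m (n • x) : ℂ)).re ∂μ := by
        refine integral_mono ((integrable_const _).indicator hEm) h8.re fun x => ?_
        refine le_trans ?_ (hmaj (n • x))
        by_cases hx : x ∈ E
        · rw [Set.indicator_of_mem hx, Set.indicator_of_mem (hnx x hx)]
        · rw [Set.indicator_of_notMem hx]
          exact Set.indicator_nonneg (fun _ _ => zero_le_one) _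
      rw [integral_indicator_const _ hEm, smul_eq_mul, mul_one] at h10
      exact hE2.trans h10
    linarith
  · rw [hz]
    simp
  · intro m
    rw [hz]
    simp only
    rw [← integral_conj]
    refine integral_congr_ae (Eventually.of_forall fun x => ?_)
    simp only
    rw [neg_mul, fourier_neg]
  · intro m hm1 hm2
    exact hcon m hm1 hm2

end Helper58.FH
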