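import Pool.Agent.Helper58.FH.Basic
import Pool.Agent.Helper58.FH.Ent

set_option autoImplicit false
open MeasureTheory Filter Topology Metric Finset
open scoped ENNReal

/-! Intervals on the circle and the profile of an invariant measure. -/

namespace Helper58.FH

/-- the representative in `[0, 1)` -/
noncomputable def rep (x : Tor) : ℝ := (AddCircle.equivIco (1 : ℝ) 0 x : ℝ)

lemma rep_nonneg (x : Tor) : 0 ≤ rep x := (AddCircle.equivIco (1 : ℝ) 0 x).2.1

lemma rep_lt_one (x : Tor) : rep x < 1 := by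
  have := (AddCircle.equivIco (1 : ℝ) 0 x).2.2
  simpa [rep] using this

lemma coe_rep (x : Tor) : ((rep x : ℝ) : Tor) = x := by
  unfold rep
  exact (AddCircle.equivIco (1 : ℝ) 0).symm_apply_apply x

lemma coe_int (z : ℤ) : ((z : ℝ) : Tor) = 0 := by
  rw [AddCircle.coe_eq_zero_iff]
  exact ⟨z, by simp⟩

lemma coe_fract (t : ℝ) : ((Int.fract t : ℝ) : Tor) = (t : Tor) := by
  rw [Int.fract, AddCircle.coe_sub, coe_int, sub_zero]

lemma rep_coe (t : ℝ) : rep (t : Tor) = Int.fract t := by
  have h1 : ((rep (t : Tor) : ℝ) : Tor) = ((Int.fract t : ℝ) : Tor) := by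
    rw [coe_rep, coe_fract]
  have h2 := rep_nonneg (t : Tor)
  have h3 := rep_lt_one (t : Tor)
  have h4 := Int.fract_nonneg t
  have h5 := Int.fract_lt_one t
  have h6 : ((rep (t : Tor) - Int.fract t : ℝ) : Tor) = 0 := by
    rw [AddCircle.coe_sub, h1, sub_self]
  rw [AddCircle.coe_eq_zero_iff] at h6
  obtain ⟨z, hz⟩ := h6
  simp only [zsmul_eq_mul, mul_one] at hz
  have h7 : (-1 : ℝ) < z := by linarith
  have h8 : (z : ℝ) < 1 := by linarith
  have h9 : z = 0 := by
    have a1 : (-1 : ℤ) < z := by exact_mod_cast h7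
    have a2 : z < (1 : ℤ) := by exact_mod_cast h8
    omega
  rw [h9] at hz
  push_cast at hz
  linarith

lemma rep_nsmul (n : ℕ) (x : Tor) : rep (n • x) = Int.fract (n * rep x) := by
  conv_lhs => rw [← coe_rep x]
  rw [← AddCircle.coe_nsmul, rep_coe, nsmul_eq_mul]

lemma measurable_rep : Measurable rep := by
  have h := (AddCircle.measurableEquivIco (1 : ℝ) 0).measurable
  exact measurable_subtype_coe.comp h

/-- the index of the interval of length `1 / D` -/
noncomputable def idx (D : ℕ) (x : Tor) : ℕ := ⌊(D : ℝ) * rep x⌋₊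

lemma measurable_idx (D : ℕ) : Measurable (idx D) :=
  Nat.measurable_floor.comp (measurable_rep.const_mul _)

lemma idx_lt (D : ℕ) (hD : 1 ≤ D) (x : Tor) : idx D x < D := by
  have hD0 : (0 : ℝ) < D := by exact_mod_cast hD
  unfold idx
  rw [Nat.floor_lt (mul_nonneg hD0.le (rep_nonneg x))]
  have := rep_lt_one x
  nlinarith

lemma floor_mul_fract (D : ℕ) (hD : 1 ≤ D) (y : ℝ) (hy : 0 ≤ y) :
    ⌊(D : ℝ) * Int.fract y⌋₊ = ⌊(D : ℝ) * y⌋₊ % D := by
  have h0 : (⌊y⌋₊ : ℝ) + Int.fract y = y := by
    have h1 := Int.floor_add_fract y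
    have h2 : ((⌊y⌋₊ : ℕ) : ℝ) = ((⌊y⌋ : ℤ) : ℝ) := by
      have h3 := Int.natCast_floor_eq_floor hy
      exact_mod_cast h3
    rw [h2]
    exact h1
  have hf0 := Int.fract_nonneg y
  have hf1 := Int.fract_lt_one y
  have hD0 : (0 : ℝ) < D := by exact_mod_cast hD
  have h4 : ⌊(D : ℝ) * y⌋₊ = D * ⌊y⌋₊ + ⌊(D : ℝ) * Int.fract y⌋₊ := by
    have h5 : (D : ℝ) * y = (D : ℝ) * Int.fract y + ((D * ⌊y⌋₊ : ℕ) : ℝ) := by
      push_cast
      rw [← mul_add, add_comm (Int.fract y), h0]
    rw [h5, Nat.floor_add_natCast (by positivity), add_comm]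
  have h6 : ⌊(D : ℝ) * Int.fract y⌋₊ < D := by
    rw [Nat.floor_lt (by positivity)]
    nlinarith
  rw [h4, Nat.mul_add_mod, Nat.mod_eq_of_lt h6]

lemma idx_nsmul (D n : ℕ) (hD : 1 ≤ D) (x : Tor) : idx D (n • x) = idx (D * n) x % D := by
  unfold idx
  rw [rep_nsmul, floor_mul_fract D hD _ (mul_nonneg (Nat.cast_nonneg _) (rep_nonneg x))]
  congr 2
  push_cast
  ring

lemma idx_refine (D s : ℕ) (hs : 1 ≤ s) (x : Tor) : idx D x = idx (D * s) x / s := by
  unfold idx
  rw [← Nat.floor_div_natCast]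
  congr 1
  have hs0 : (s : ℝ) ≠ 0 := by
    have : (0 : ℝ) < s := by exact_mod_cast hs
    exact this.ne'
  push_cast
  field_simp

lemma norm_sub_idx (D : ℕ) (hD : 1 ≤ D) (x : Tor) :
    ‖x - ((idx D x / D : ℝ) : Tor)‖ ≤ 1 / D := by
  have hD0 : (0 : ℝ) < D := by exact_mod_cast hD
  have h1 := Nat.floor_le (mul_nonneg hD0.le (rep_nonneg x))
  have h2 := Nat.lt_floor_add_one ((D : ℝ) * rep x)
  have e : x - ((idx D x / D : ℝ) : Tor) = ((rep x - idx D x / D : ℝ) : Tor) := by
    rw [AddCircle.coe_sub, coe_rep]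
  rw [e]
  refine (norm_coe_le _).trans ?_
  unfold idx
  rw [abs_le]
  constructor
  · have : 0 ≤ rep x - (⌊(D : ℝ) * rep x⌋₊ : ℝ) / D := by
      rw [sub_nonneg, div_le_iff₀ hD0]
      linarith
    have h3 : 0 ≤ 1 / (D : ℝ) := by positivity
    linarith
  · rw [sub_le_iff_le_add, ← add_div, le_div_iff₀ hD0]
    linarith

/-- the distribution on the intervals of length `1 / D` -/
noncomputable def pr (μ : Measure Tor) (D a : ℕ) : ℝ := μ.real {x | idx D x = a}

variable {μ : Measure Tor}

lemma measurableSet_idx (D a : ℕ) : MeasurableSet {x : Tor | idx D x = a} :=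
  measurable_idx D (measurableSet_singleton a)

lemma idx_disjoint (D : ℕ) {a b : ℕ} (h : a ≠ b) :
    Disjoint {x : Tor | idx D x = a} {x : Tor | idx D x = b} := by
  rw [Set.disjoint_left]
  intro x hx hx'
  exact h (hx.symm.trans hx')

lemma sum_pr [IsProbabilityMeasure μ] (D : ℕ) (A : Finset ℕ) :
    ∑ a ∈ A, pr μ D a = μ.real {x | idx D x ∈ A} := by
  unfold pr
  rw [← measureReal_biUnion_finset]
  · congr 1
    ext x
    simp
  · intro a _ b _ hab
    exact idx_disjoint D hab
  · intro a _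
    exact measurableSet_idx D a

lemma mp_pow_b {b : ℕ} (hb : MeasurePreserving (fun x : Tor => b • x) μ μ) (n : ℕ) :
    MeasurePreserving (fun x : Tor => (b ^ n) • x) μ μ := by
  induction n with
  | zero => simp only [pow_zero, one_smul]; exact MeasurePreserving.id μ
  | succ n ih =>
    have h := hb.comp ih
    have e : (fun x : Tor => b • x) ∘ (fun x : Tor => (b ^ n) • x) =
        fun x : Tor => (b ^ (n + 1)) • x := by
      funext x
      simp only [Function.comp_apply, smul_smul]
      rw [pow_succ, mul_comm]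
    rwa [e] at h

theorem prof_pr [IsProbabilityMeasure μ] {b : ℕ} (hb1 : 1 ≤ b)
    (hb : MeasurePreserving (fun x : Tor => b • x) μ μ) : Prof b (pr μ) := by
  refine ⟨fun D a => measureReal_nonneg, ?_, ?_, ?_⟩
  · intro D hD
    rw [sum_pr]
    have : {x : Tor | idx D x ∈ range D} = Set.univ := by
      rw [Set.eq_univ_iff_forall]
      intro x
      exact mem_range.2 (idx_lt D hD x)
    rw [this]
    simp
  · intro D s a hD hs ha
    have h1 : {x : Tor | idx D x = a} =
        ⋃ j ∈ range s, {x : Tor | idx (D * s) x = a * s + j} := by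
      ext x
      simp only [Set.mem_iUnion, Set.mem_ofPred_eq, Finset.mem_range, exists_prop]
      rw [idx_refine D s hs x]
      constructor
      · intro h3
        refine ⟨idx (D * s) x % s, Nat.mod_lt _ (by omega), ?_⟩
        rw [← h3]
        have := Nat.div_add_mod (idx (D * s) x) s
        rw [mul_comm] at this
        exact this.symm
      · rintro ⟨j, hj, h3⟩
        rw [h3, mul_comm a s, Nat.mul_add_div (by omega), Nat.div_eq_of_lt hj, add_zero]
    unfold pr
    rw [h1, measureReal_biUnion_finset]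
    · intro i _ j _ hij
      exact idx_disjoint (D * s) (fun h => hij (by omega))
    · intro i _
      exact measurableSet_idx _ _
  · intro D n a hD ha
    have hB : 1 ≤ b ^ n := Nat.one_le_pow _ _ hb1
    have h1 := (mp_pow_b hb n).measureReal_preimage (measurableSet_idx D a).nullMeasurableSet
    unfold pr
    rw [← h1]
    have h2 : ((fun x : Tor => (b ^ n) • x) ⁻¹' {x : Tor | idx D x = a})
        = ⋃ j ∈ range (b ^ n), {x : Tor | idx (D * b ^ n) x = a + D * j} := by
      ext x
      simp only [Set.mem_preimage, Set.mem_iUnion, Set.mem_ofPred_eq, Finset.mem_range,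
        exists_prop]
      rw [idx_nsmul D _ hD]
      constructor
      · intro h8
        refine ⟨idx (D * b ^ n) x / D, ?_, ?_⟩
        · rw [Nat.div_lt_iff_lt_mul (by omega), mul_comm (b ^ n)]
          exact idx_lt _ (Nat.mul_pos hD hB) x
        · rw [← h8]
          exact (Nat.mod_add_div _ _).symm
      · rintro ⟨j, hj, h8⟩
        rw [h8, Nat.add_mul_mod_self_left, Nat.mod_eq_of_lt ha]
    rw [h2, measureReal_biUnion_finset]
    · intro i _ j _ hij
      refine idx_disjoint (D * b ^ n) (fun h => hij ?_)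
      have : D * i = D * j := by omega
      exact Nat.eq_of_mul_eq_mul_left (by omega) this
    · intro i _
      exact measurableSet_idx _ _

end Helper58.FH
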