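import Pool.Agent.Helper58.FH.Basic

set_option autoImplicit false
open MeasureTheory Filter Topology Metric
open scoped ENNReal

/-! The covering inequality. -/

namespace Helper58.FH

lemma measurable_ball (μ : Measure Tor) [IsProbabilityMeasure μ] (r : ℝ) (d : Tor) :
    Measurable fun x : Tor => μ (ball (x + d) r) := by
  have h : MeasurableSet {p : Tor × Tor | dist p.2 (p.1 + d) < r} := by
    apply IsOpen.measurableSet
    exact isOpen_lt (by fun_prop) continuous_const
  exact measurable_measure_prodMk_left h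

/-- **key inequality** -/
theorem key (μ : Measure Tor) [IsProbabilityMeasure μ] (m : ℕ) (d : ℕ → Tor) (r : ℝ)
    (hr0 : 0 < r) (hr1 : r < 1) (w : Tor → ℝ≥0∞) (hw : Measurable w) (δ : ℝ≥0∞)
    (hwδ : ∀ x y : Tor, ‖x - y‖ < r → w x ≤ 2 * w y + δ) :
    ∫⁻ x, (∑ j ∈ Finset.range m, μ (ball (x + d j) r)) * w x / μ (ball x r) ∂μ ≤
      10 * ∑ j ∈ Finset.range m, ∫⁻ z, (2 * w (z - d j) + δ) ∂μ := by
  classical
  set Q : ℕ := ⌊2 / r⌋₊ + 1 with hQ
  have hQ0 : 0 < Q := Nat.succ_pos _
  have hQr : (0 : ℝ) < Q := by exact_mod_cast hQ0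
  have hQ1 : 2 / r < Q := by rw [hQ]; push_cast; exact Nat.lt_floor_add_one _
  have hQ2 : (Q : ℝ) ≤ 2 / r + 1 := by
    rw [hQ]; push_cast
    have := Nat.floor_le (show 0 ≤ 2 / r by positivity)
    linarith
  set c : ℕ → Tor := fun i => ((i / Q : ℝ) : Tor) with hc
  set J : ℕ → ℝ≥0∞ := fun i => ∑ j ∈ Finset.range m,
    ∫⁻ z in ball (c i + d j) (3 * r / 2), (2 * w (z - d j) + δ) ∂μ with hJ
  have hcover : (⋃ i : Fin Q, ball (c i) (r / 2)) = Set.univ := by
    rw [Set.eq_univ_iff_forall]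
    intro x
    obtain ⟨i, hi, hx⟩ := exists_center Q hQ0 x
    rw [Set.mem_iUnion]
    refine ⟨⟨i, Finset.mem_range.1 hi⟩, ?_⟩
    rw [mem_ball, dist_eq_norm]
    refine hx.trans_lt ?_
    rw [div_lt_iff₀ hQr]
    rw [div_lt_iff₀ hr0] at hQ1
    linarith
  have hterm : ∀ i : ℕ, ∀ x ∈ ball (c i) (r / 2),
      (∑ j ∈ Finset.range m, μ (ball (x + d j) r)) * w x ≤ J i := by
    intro i x hx
    rw [mem_ball, dist_eq_norm] at hx
    rw [hJ, Finset.sum_mul]
    refine Finset.sum_le_sum fun j _ => ?_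
    have h1 : μ (ball (x + d j) r) * w x ≤
        ∫⁻ z in ball (x + d j) r, (2 * w (z - d j) + δ) ∂μ := by
      rw [mul_comm, ← setLIntegral_const]
      refine setLIntegral_mono' measurableSet_ball fun z hz => ?_
      apply hwδ
      rw [mem_ball, dist_eq_norm] at hz
      have e : x - (z - d j) = -(z - (x + d j)) := by abel
      rw [e, norm_neg]; exact hz
    refine h1.trans ?_
    apply lintegral_mono_set
    intro z hz
    rw [mem_ball, dist_eq_norm] at hz ⊢
    have e : z - (c i + d j) = (z - (x + d j)) + (x - c i) := by abel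
    rw [e]
    refine (norm_add_le _ _).trans_lt ?_
    linarith
  have hball : ∀ i : ℕ, ∀ x ∈ ball (c i) (r / 2), μ (ball (c i) (r / 2)) ≤ μ (ball x r) := by
    intro i x hx
    apply measure_mono
    intro y hy
    rw [mem_ball, dist_eq_norm] at hx hy ⊢
    have e : y - x = (y - c i) - (x - c i) := by abel
    rw [e]
    refine (norm_sub_le _ _).trans_lt ?_
    linarith
  have hpiece : ∀ i : ℕ, ∫⁻ x in ball (c i) (r / 2),
      (∑ j ∈ Finset.range m, μ (ball (x + d j) r)) * w x / μ (ball x r) ∂μ ≤ J i := by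
    intro i
    rcases eq_or_ne (μ (ball (c i) (r / 2))) 0 with h0 | h0
    · rw [Measure.restrict_eq_zero.2 h0]; simp
    calc ∫⁻ x in ball (c i) (r / 2),
      (∑ j ∈ Finset.range m, μ (ball (x + d j) r)) * w x / μ (ball x r) ∂μ
        ≤ ∫⁻ x in ball (c i) (r / 2), J i / μ (ball (c i) (r / 2)) ∂μ := by
          refine setLIntegral_mono' measurableSet_ball fun x hx => ?_
          exact ENNReal.div_le_div (hterm i x hx) (hball i x hx)
      _ = J i / μ (ball (c i) (r / 2)) * μ (ball (c i) (r / 2)) := by rw [setLIntegral_const]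
      _ ≤ J i := by
          rw [ENNReal.div_mul_cancel h0 (measure_ne_top _ _)]
  have hsum : ∑ i ∈ Finset.range Q, J i ≤
      10 * ∑ j ∈ Finset.range m, ∫⁻ z, (2 * w (z - d j) + δ) ∂μ := by
    rw [hJ, Finset.sum_comm, Finset.mul_sum]
    refine Finset.sum_le_sum fun j _ => ?_
    have hmeas : Measurable fun z => 2 * w (z - d j) + δ :=
      ((hw.comp (measurable_id.sub_const _)).const_mul _).add_const _
    have e : ∀ i : ℕ, ∫⁻ z in ball (c i + d j) (3 * r / 2), (2 * w (z - d j) + δ) ∂μ =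
        ∫⁻ z, (ball (c i + d j) (3 * r / 2)).indicator (fun z => 2 * w (z - d j) + δ) z ∂μ := by
      intro i
      rw [lintegral_indicator measurableSet_ball]
    simp only [e]
    rw [← lintegral_finsetSum _ (fun i _ => hmeas.indicator measurableSet_ball),
      ← lintegral_const_mul _ hmeas]
    refine lintegral_mono fun z => ?_
    have e2 : ∀ i : ℕ, (ball (c i + d j) (3 * r / 2)).indicator
        (fun z => 2 * w (z - d j) + δ) z =
        if ‖(z - d j) - c i‖ < 3 * r / 2 then (2 * w (z - d j) + δ) else 0 := by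
      intro i
      rw [Set.indicator_apply]
      congr 1
      rw [mem_ball, dist_eq_norm]
      have : z - (c i + d j) = (z - d j) - c i := by abel
      rw [this]
    simp only [e2]
    rw [← Finset.sum_filter, Finset.sum_const, nsmul_eq_mul]
    gcongr
    have h3 := overlap Q hQ0 (z - d j) (3 * r / 2) (by positivity)
    have h4 : 2 * (3 * r / 2) * Q + 1 ≤ 10 := by
      have : 3 * r * Q ≤ 3 * r * (2 / r + 1) := by gcongr
      have h5 : 3 * r * (2 / r + 1) = 6 + 3 * r := by field_simp; ring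
      linarith
    have h6 := h3.trans h4
    have h7 : ((Finset.range Q).filter (fun i : ℕ =>
      ‖(z - d j) - ((i / Q : ℝ) : Tor)‖ < 3 * r / 2)).card ≤ 10 := by exact_mod_cast h6
    show (((Finset.range Q).filter (fun i : ℕ =>
      ‖(z - d j) - ((i / Q : ℝ) : Tor)‖ < 3 * r / 2)).card : ℝ≥0∞) ≤ 10
    exact_mod_cast h7
  calc ∫⁻ x, (∑ j ∈ Finset.range m, μ (ball (x + d j) r)) * w x / μ (ball x r) ∂μ
      = ∫⁻ x in (⋃ i : Fin Q, ball (c i) (r / 2)),
        (∑ j ∈ Finset.range m, μ (ball (x + d j) r)) * w x / μ (ball x r) ∂μ := by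
        rw [hcover, setLIntegral_univ]
    _ ≤ ∑' i : Fin Q, ∫⁻ x in ball (c i) (r / 2),
        (∑ j ∈ Finset.range m, μ (ball (x + d j) r)) * w x / μ (ball x r) ∂μ :=
        lintegral_iUnion_le _ _
    _ ≤ ∑' i : Fin Q, J i := ENNReal.tsum_le_tsum fun i => hpiece i
    _ = ∑ i ∈ Finset.range Q, J i := by rw [tsum_fintype, Finset.sum_range]
    _ ≤ _ := hsum

end Helper58.FH
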