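import Mathlib
import Pool.Agent.Helper58.FH.Mean
import Pool.Agent.Helper58.FH.Key

set_option autoImplicit false
open MeasureTheory Filter Topology Metric Finset
open scoped ENNReal InnerProductSpace ComplexConjugate

/-! Tightness of the fibre ratio. -/

namespace Helper58.FH

open Helper58.FX (act UU ev ft Erg T sc PE)

variable {μ : Measure Tor}

lemma mp_pow (h2 : MeasurePreserving (T 2) μ μ) (h3 : MeasurePreserving (T 3) μ μ) (i l : ℕ) :
    MeasurePreserving (fun x : Tor => (2 ^ i * 3 ^ l) • x) μ μ := by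
  have e2 : ∀ i : ℕ, MeasurePreserving (fun x : Tor => (2 ^ i) • x) μ μ := by
    intro i
    have h := h2.iterate i
    have e : (T 2)^[i] = fun x : Tor => (2 ^ i) • x := by
      funext x
      exact Helper17.TranslM.iterate_T 2 i x
    rwa [e] at h
  have e3 : ∀ i : ℕ, MeasurePreserving (fun x : Tor => (3 ^ i) • x) μ μ := by
    intro i
    have h := h3.iterate i
    have e : (T 3)^[i] = fun x : Tor => (3 ^ i) • x := by
      funext x
      exact Helper17.TranslM.iterate_T 3 i x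
    rwa [e] at h
  have h := (e2 i).comp (e3 l)
  have e : (fun x : Tor => (2 ^ i * 3 ^ l) • x) =
      (fun x : Tor => (2 ^ i) • x) ∘ (fun x : Tor => (3 ^ l) • x) := by
    funext x
    simp only [Function.comp_apply, smul_smul]
  rw [e]; exact h

lemma tail [IsProbabilityMeasure μ] (m : ℕ) (d : ℕ → Tor) (r : ℝ)
    (hr0 : 0 < r) (hr1 : r < 1) (w : Tor → ℝ≥0∞) (hw : Measurable w) (δ : ℝ≥0∞)
    (hwδ : ∀ x y : Tor, ‖x - y‖ < r → w x ≤ 2 * w y + δ) (F C κ : ℝ) (hC : 0 < C) (hκ : 0 < κ)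
    (hF0 : 0 ≤ F) (hF : ∑ j ∈ Finset.range m, ∫⁻ z, (2 * w (z - d j) + δ) ∂μ ≤ ENNReal.ofReal F) :
    μ.real ({x | C * μ.real (ball x r) < ∑ j ∈ Finset.range m, μ.real (ball (x + d j) r)} ∩
      {x | ENNReal.ofReal κ ≤ w x}) ≤ 10 * F / (C * κ) := by
  have hk := key μ m d r hr0 hr1 w hw δ hwδ
  set f : Tor → ℝ≥0∞ := fun x =>
    (∑ j ∈ Finset.range m, μ (ball (x + d j) r)) * w x / μ (ball x r) with hf
  have hfm : Measurable f := by
    refine Measurable.div (Measurable.mul ?_ hw) ?_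
    · exact Finset.measurable_sum _ fun j _ => measurable_ball μ r (d j)
    · have := measurable_ball μ r 0
      simpa only [add_zero] using this
  have h1 := mul_meas_ge_le_lintegral (μ := μ) hfm (ENNReal.ofReal (C * κ))
  have h2 : {x | C * μ.real (ball x r) < ∑ j ∈ Finset.range m, μ.real (ball (x + d j) r)} ∩
      {x | ENNReal.ofReal κ ≤ w x} ⊆ {x | ENNReal.ofReal (C * κ) ≤ f x} := by
    rintro x ⟨hx1, hx2⟩
    simp only [Set.mem_ofPred_eq] at hx1 hx2 ⊢
    have e1 : ENNReal.ofReal (∑ j ∈ Finset.range m, μ.real (ball (x + d j) r)) =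
        ∑ j ∈ Finset.range m, μ (ball (x + d j) r) := by
      rw [ENNReal.ofReal_sum_of_nonneg fun j _ => measureReal_nonneg]
      refine Finset.sum_congr rfl fun j _ => ?_
      exact ofReal_measureReal
    have e2 : ENNReal.ofReal C * μ (ball x r) ≤ ∑ j ∈ Finset.range m, μ (ball (x + d j) r) := by
      rw [← e1, ← ofReal_measureReal (μ := μ) (s := ball x r), ← ENNReal.ofReal_mul hC.le]
      exact ENNReal.ofReal_le_ofReal hx1.le
    have e3 : 0 < ∑ j ∈ Finset.range m, μ (ball (x + d j) r) := by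
      rw [← e1, ENNReal.ofReal_pos]
      exact lt_of_le_of_lt (mul_nonneg hC.le measureReal_nonneg) hx1
    have e4 : 0 < w x := lt_of_lt_of_le (ENNReal.ofReal_pos.2 hκ) hx2
    rw [hf]
    rw [ENNReal.le_div_iff_mul_le (Or.inr (mul_ne_zero e3.ne' e4.ne')) (Or.inl (measure_ne_top _ _)),
      ENNReal.ofReal_mul hC.le]
    calc ENNReal.ofReal C * ENNReal.ofReal κ * μ (ball x r)
        = (ENNReal.ofReal C * μ (ball x r)) * ENNReal.ofReal κ := by ring
      _ ≤ (∑ j ∈ Finset.range m, μ (ball (x + d j) r)) * w x := by gcongr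
  have h3 : ENNReal.ofReal (C * κ) * μ ({x | C * μ.real (ball x r) <
      ∑ j ∈ Finset.range m, μ.real (ball (x + d j) r)} ∩ {x | ENNReal.ofReal κ ≤ w x}) ≤
      ENNReal.ofReal (10 * F) := by
    refine (mul_le_mul_right (measure_mono h2) _).trans (h1.trans (hk.trans ?_))
    rw [ENNReal.ofReal_mul (by norm_num)]
    gcongr
    simp
  rw [le_div_iff₀ (mul_pos hC hκ), mul_comm]
  rw [← ofReal_measureReal (μ := μ), ← ENNReal.ofReal_mul (by positivity)] at h3
  exact (ENNReal.ofReal_le_ofReal_iff (by positivity)).1 h3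

lemma trivial_tail [IsProbabilityMeasure μ] (m : ℕ) (d : ℕ → Tor) (r : ℝ)
    (hr0 : 0 < r) (hr1 : r < 1) (C : ℝ) (hC : 0 < C) :
    μ.real {x | C * μ.real (ball x r) < ∑ j ∈ Finset.range m, μ.real (ball (x + d j) r)} ≤
      20 * m / C := by
  have h := tail (μ := μ) m d r hr0 hr1 (fun _ => 1) measurable_const 0
    (fun x y _ => by norm_num) (2 * m) C 1 hC one_pos (by positivity) (by
      simp only [mul_one, add_zero, lintegral_const, measure_univ]
      rw [Finset.sum_const, card_range, nsmul_eq_mul, ENNReal.ofReal_mul (by norm_num),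
        ENNReal.ofReal_natCast]
      simp [mul_comm])
  have e : {x : Tor | ENNReal.ofReal 1 ≤ (1 : ℝ≥0∞)} = Set.univ := by
    rw [Set.eq_univ_iff_forall]; intro x; simp
  rw [e, Set.inter_univ] at h
  refine h.trans (le_of_eq ?_)
  ring

lemma exists_nat [IsProbabilityMeasure μ] (hne : ∃ n : ℤ, n ≠ 0 ∧ ft μ n ≠ 0) :
    ∃ k : ℕ, 1 ≤ k ∧ ft μ k ≠ 0 := by
  obtain ⟨n, hn, hf⟩ := hne
  rcases le_or_gt 0 n with h | h
  · refine ⟨n.toNat, by omega, ?_⟩
    rwa [Int.toNat_of_nonneg h]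
  · refine ⟨(-n).toNat, by omega, ?_⟩
    rw [Int.toNat_of_nonneg (by omega)]
    intro h0
    apply hf
    have e : ft μ n = conj (ft μ (-n)) := by
      unfold ft
      rw [← integral_conj]
      refine integral_congr_ae (Eventually.of_forall fun x => ?_)
      show _ = conj (fourier (-n) x : ℂ)
      rw [fourier_neg, Complex.conj_conj]
    rw [e, h0, map_zero]

lemma eventually_small (K : ℝ) : ∃ y1 : ℝ, 0 < y1 ∧ ∀ y : ℝ, y1 ≤ y → K * (y ^ 3 * Real.exp (-y)) ≤ 1 := by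
  have h := (Real.tendsto_pow_mul_exp_neg_atTop_nhds_zero 3).const_mul K
  rw [mul_zero] at h
  have h1 := (h.eventually_lt_const (zero_lt_one)).and (eventually_gt_atTop 0)
  obtain ⟨y1, hy1⟩ := eventually_atTop.1 h1
  exact ⟨max y1 1, by positivity, fun y hy => (hy1 y ((le_max_left _ _).trans hy)).1.le⟩

/-- **Tightness.** -/
theorem tight [IsProbabilityMeasure μ] (h2 : MeasurePreserving (T 2) μ μ)
    (h3 : MeasurePreserving (T 3) μ μ) (hE : Erg (ft μ)) (hne : ∃ n : ℤ, n ≠ 0 ∧ ft μ n ≠ 0)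
    (b : ℕ) (hb : 2 ≤ b) (A ε : ℝ) (hε : 0 < ε) :
    ∃ C : ℝ, 0 < C ∧ ∀ (N : ℕ) (r : ℝ), 0 < r → r < 1 → (b : ℝ) ^ N ≤ A * Real.log (1 / r) →
      μ.real {x | C * μ.real (ball x r) <
        ∑ j ∈ Finset.range (b ^ N), μ.real (ball (x + dd (b ^ N) j) r)} ≤ ε := by
  wlog hA : 0 < A generalizing A
  · refine ⟨1, one_pos, fun N r hr0 hr1 hN => ?_⟩
    exfalso
    have h4 : 0 < Real.log (1 / r) := Real.log_pos (by rw [lt_div_iff₀ hr0]; linarith)
    have h5 : (0 : ℝ) < (b : ℝ) ^ N := by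
      have : (0 : ℝ) < b := by exact_mod_cast (by omega : 0 < b)
      positivity
    nlinarith [not_lt.1 hA]
  obtain ⟨k, hk, hfk⟩ := exists_nat hne
  set c := ft μ k with hc
  have hc' : 0 < ‖c‖ := norm_pos_iff.2 hfk
  obtain ⟨L, M0, hL, hM0, hlong⟩ := long_averages h2 h3 hE k (ε * ‖c‖ ^ 2 / 16) (by positivity)
  obtain ⟨a, c', hab, hfib⟩ := fibreA b (by omega) k L hk hL
  set K : ℝ := 32 * Real.pi ^ 2 * k ^ 2 * 36 ^ L * A ^ 3 with hK
  obtain ⟨y0, hy0, hsmall⟩ := eventually_small K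
  set y1 : ℝ := max (max y0 8) (4 * (M0 + 1)) with hy1
  set κ : ℝ := (‖c‖ / 2) ^ 4 with hκ
  set F : ℝ := 2 * (c' + 8 * A) ^ 2 + 1 with hF
  set C : ℝ := 20 * F / (κ * ε) + 20 * (A * y1) / ε with hC
  have hFpos : 0 < F := by positivity
  have hy1pos : 0 < y1 := by positivity
  have hκpos : 0 < κ := by positivity
  have hCpos : 0 < C := by positivity
  refine ⟨C, hCpos, fun N r hr0 hr1 hN => ?_⟩
  set y : ℝ := Real.log (1 / r) with hy
  have hbN0 : 0 < b ^ N := Nat.pow_pos (by omega)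
  have hry : r = Real.exp (-y) := by
    rw [hy, Real.log_div one_ne_zero hr0.ne', Real.log_one, zero_sub, neg_neg, Real.exp_log hr0]
  rcases lt_or_ge y y1 with hyy | hyy
  · -- bounded fibres
    refine (trivial_tail (b ^ N) (dd (b ^ N)) r hr0 hr1 C hCpos).trans ?_
    rw [div_le_iff₀ hCpos]
    have h4 : ((b ^ N : ℕ) : ℝ) ≤ A * y1 := by
      push_cast
      exact hN.trans (by gcongr)
    calc 20 * ((b ^ N : ℕ) : ℝ) ≤ 20 * (A * y1) := by gcongr
      _ = ε * (20 * (A * y1) / ε) := by field_simp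
      _ ≤ ε * C := by
        gcongr
        rw [hC]
        have : 0 ≤ 20 * F / (κ * ε) := by positivity
        linarith
  -- long fibres
  have hy8 : 8 ≤ y := (le_max_right _ _).trans ((le_max_left _ _).trans hyy)
  have hyy0 : y0 ≤ y := (le_max_left _ _).trans ((le_max_left _ _).trans hyy)
  have hyM : 4 * ((M0 : ℝ) + 1) ≤ y := (le_max_right _ _).trans hyy
  set M : ℕ := ⌊y / 4⌋₊ with hM
  have hMle : (M : ℝ) ≤ y / 4 := Nat.floor_le (by linarith)
  have hMlt : y / 4 < M + 1 := Nat.lt_floor_add_one _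
  have hM8 : y ≤ 8 * M := by linarith
  have hM0M : M0 ≤ M := by
    rw [hM]
    apply Nat.le_floor
    linarith
  have hM1 : 1 ≤ M := hM0.trans hM0M
  obtain ⟨hl1, hl2⟩ := hlong M hM0M
  have hbA : (b : ℝ) ^ N ≤ (8 * A) * M := by
    refine hN.trans ?_
    calc A * y ≤ A * (8 * M) := by gcongr
      _ = 8 * A * M := by ring
  have hfib' := hfib (8 * A) N M (by positivity) hM1 hbA
  set w : Tor → ℝ≥0∞ := fun x => ENNReal.ofReal (‖AA k a N L M x‖ ^ 2) with hw
  have hwc : Continuous w :=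
    ENNReal.continuous_ofReal.comp ((continuous_AA k a N L M).norm.pow 2)
  set Λ : ℝ := 2 * Real.pi * (2 * k * 6 ^ L * 3 ^ M * 2 ^ (a * N)) with hΛ
  have hΛ0 : 0 ≤ Λ := by positivity
  set δ : ℝ := 2 * (Λ * r) ^ 2 with hδ
  have hwδ : ∀ x y : Tor, ‖x - y‖ < r → w x ≤ 2 * w y + ENNReal.ofReal δ := by
    intro x y hxy
    rw [hw]
    simp only
    have e2 : (2 : ℝ≥0∞) = ENNReal.ofReal 2 := by simp
    rw [e2, ← ENNReal.ofReal_mul (by norm_num), ← ENNReal.ofReal_add (by positivity) (by positivity)]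
    apply ENNReal.ofReal_le_ofReal
    have h4 : ‖AA k a N L M x - AA k a N L M y‖ ≤ Λ * r :=
      (norm_AA_sub k a N L M hL hM1 x y).trans (by gcongr)
    have h5 : ‖AA k a N L M x‖ ≤ ‖AA k a N L M y‖ + Λ * r := by
      have := norm_sub_norm_le (AA k a N L M x) (AA k a N L M y)
      linarith
    have h6 : ‖AA k a N L M x‖ ^ 2 ≤ (‖AA k a N L M y‖ + Λ * r) ^ 2 := by gcongr
    linarith only [h6, sq_nonneg (‖AA k a N L M y‖ - Λ * r)]
  have hbr : (1 : ℝ) ≤ b := by exact_mod_cast (by omega : 1 ≤ b)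
  have hδ1 : ((b ^ N : ℕ) : ℝ) * δ ≤ 1 := by
    have e1 : ((2 : ℝ) ^ (a * N)) ≤ A * y := by
      refine le_trans ?_ hN
      rw [pow_mul]
      gcongr
      exact_mod_cast hab
    have e2 : ((b ^ N : ℕ) : ℝ) ≤ A * y := by push_cast; exact hN
    have e3 : ((3 : ℝ) ^ M) ^ 2 ≤ Real.exp y := by
      have h9 : (9 : ℝ) ≤ Real.exp 3 := by
        have := Real.exp_one_gt_d9
        have h10 : Real.exp 3 = Real.exp 1 ^ 3 := by rw [← Real.exp_nat_mul]; norm_num
        rw [h10]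
        exact le_trans (by norm_num) (pow_le_pow_left₀ (by norm_num : (0:ℝ) ≤ 2.7182818283) this.le 3)
      calc ((3 : ℝ) ^ M) ^ 2 = 9 ^ M := by rw [← pow_mul, mul_comm, pow_mul]; norm_num
        _ ≤ (Real.exp 3) ^ M := by gcongr
        _ = Real.exp (M * 3) := by rw [← Real.exp_nat_mul]
        _ ≤ Real.exp y := by
          apply Real.exp_le_exp.2
          linarith
    have e4 : r ^ 2 = Real.exp (-y) * Real.exp (-y) := by rw [hry, sq]
    have e5 : Real.exp y * Real.exp (-y) = 1 := by rw [← Real.exp_add]; simp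
    calc ((b ^ N : ℕ) : ℝ) * δ = ((b ^ N : ℕ) : ℝ) * (32 * Real.pi ^ 2 * k ^ 2 * (6 ^ L) ^ 2 *
          (((3 : ℝ) ^ M) ^ 2) * (2 ^ (a * N)) ^ 2 * r ^ 2) := by rw [hδ, hΛ]; ring
      _ ≤ (A * y) * (32 * Real.pi ^ 2 * k ^ 2 * (6 ^ L) ^ 2 *
          (Real.exp y) * (A * y) ^ 2 * r ^ 2) := by gcongr
      _ = (32 * Real.pi ^ 2 * k ^ 2 * (6 ^ L) ^ 2 * A ^ 3) *
          (y ^ 3 * (Real.exp y * Real.exp (-y)) * Real.exp (-y)) := by rw [e4]; ring
      _ = K * (y ^ 3 * Real.exp (-y)) := by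
        rw [e5, hK, mul_one, ← pow_mul, mul_comm L 2, pow_mul]; norm_num
      _ ≤ 1 := hsmall y hyy0
  have hFint : ∑ j ∈ Finset.range (b ^ N), ∫⁻ z, (2 * w (z - dd (b ^ N) j) +
      ENNReal.ofReal δ) ∂μ ≤ ENNReal.ofReal F := by
    have hmeas : ∀ j, Measurable fun z => 2 * w (z - dd (b ^ N) j) + ENNReal.ofReal δ := fun j =>
      ((hwc.measurable.comp (measurable_id.sub_const _)).const_mul _).add_const _
    rw [← lintegral_finsetSum _ (fun j _ => hmeas j)]
    have h5 : ∀ z : Tor, ∑ j ∈ Finset.range (b ^ N), (2 * w (z - dd (b ^ N) j) +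
        ENNReal.ofReal δ) ≤ ENNReal.ofReal F := by
      intro z
      rw [Finset.sum_add_distrib, Finset.sum_const, card_range, nsmul_eq_mul, ← Finset.mul_sum]
      have e1 : ∑ j ∈ Finset.range (b ^ N), w (z - dd (b ^ N) j) =
          ENNReal.ofReal (∑ j ∈ Finset.range (b ^ N), ‖AA k a N L M (z - dd (b ^ N) j)‖ ^ 2) := by
        rw [ENNReal.ofReal_sum_of_nonneg fun j _ => by positivity]
      have e2 : (2 : ℝ≥0∞) = ENNReal.ofReal 2 := by simp
      rw [e1, e2, ← ENNReal.ofReal_natCast, ← ENNReal.ofReal_mul (by norm_num),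
        ← ENNReal.ofReal_mul (by positivity), ← ENNReal.ofReal_add (by positivity) (by positivity)]
      apply ENNReal.ofReal_le_ofReal
      have := hfib' z
      linarith
    refine (lintegral_mono h5).trans ?_
    rw [lintegral_const, measure_univ, mul_one]
  have htail := tail (μ := μ) (b ^ N) (dd (b ^ N)) r hr0 hr1 w hwc.measurable
    (ENNReal.ofReal δ) hwδ F C κ hCpos hκpos hFpos.le hFint
  -- the exceptional sets
  have hx1 := cheb k L M c _ hl1 hfk
  have hx2 := cheb k M L c _ hl2 hfk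
  have e1 : 4 * (ε * ‖c‖ ^ 2 / 16) / ‖c‖ ^ 2 = ε / 4 := by field_simp; norm_num
  rw [e1] at hx1 hx2
  have hmp := mp_pow h2 h3 (a * N) 0
  rw [pow_zero] at hmp
  simp only [mul_one] at hmp
  have hset : MeasurableSet {x : Tor | ‖Bx k M L x‖ ≤ ‖c‖ / 2} :=
    (isClosed_le (continuous_Bx k M L).norm continuous_const).measurableSet
  have hx3 : μ.real {x : Tor | ‖Bx k M L ((2 ^ (a * N)) • x)‖ ≤ ‖c‖ / 2} ≤ ε / 4 := by
    refine le_trans (le_of_eq ?_) hx2
    have := hmp.measure_preimage hset.nullMeasurableSet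
    unfold Measure.real
    rw [← this]
    rfl
  have hcov : {x | C * μ.real (ball x r) <
        ∑ j ∈ Finset.range (b ^ N), μ.real (ball (x + dd (b ^ N) j) r)} ⊆
      ({x | C * μ.real (ball x r) < ∑ j ∈ Finset.range (b ^ N),
        μ.real (ball (x + dd (b ^ N) j) r)} ∩ {x | ENNReal.ofReal κ ≤ w x}) ∪
      ({x : Tor | ‖Bx k L M x‖ ≤ ‖c‖ / 2} ∪
        {x : Tor | ‖Bx k M L ((2 ^ (a * N)) • x)‖ ≤ ‖c‖ / 2}) := by
    intro x hx
    by_cases h4 : ‖Bx k L M x‖ ≤ ‖c‖ / 2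
    · exact Or.inr (Or.inl h4)
    by_cases h5 : ‖Bx k M L ((2 ^ (a * N)) • x)‖ ≤ ‖c‖ / 2
    · exact Or.inr (Or.inr h5)
    refine Or.inl ⟨hx, ?_⟩
    simp only [Set.mem_ofPred_eq, hw]
    apply ENNReal.ofReal_le_ofReal
    push Not at h4 h5
    rw [AA_eq, norm_mul, mul_pow, hκ]
    calc (‖c‖ / 2) ^ 4 = (‖c‖ / 2) ^ 2 * (‖c‖ / 2) ^ 2 := by ring
      _ ≤ _ := by gcongr
  have hfin : 10 * F / (C * κ) ≤ ε / 2 := by
    rw [div_le_iff₀ (by positivity)]
    have h4 : 20 * F / (κ * ε) ≤ C := by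
      rw [hC]
      have : 0 ≤ 20 * (A * y1) / ε := by positivity
      linarith
    rw [div_le_iff₀ (by positivity)] at h4
    linarith
  calc _ ≤ μ.real (({x | C * μ.real (ball x r) < ∑ j ∈ Finset.range (b ^ N),
        μ.real (ball (x + dd (b ^ N) j) r)} ∩ {x | ENNReal.ofReal κ ≤ w x}) ∪
      ({x : Tor | ‖Bx k L M x‖ ≤ ‖c‖ / 2} ∪
        {x : Tor | ‖Bx k M L ((2 ^ (a * N)) • x)‖ ≤ ‖c‖ / 2})) :=
        measureReal_mono hcov (measure_ne_top _ _)
    _ ≤ ε / 2 + (ε / 4 + ε / 4) := by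
      refine (measureReal_union_le _ _).trans (add_le_add (htail.trans hfin) ?_)
      exact (measureReal_union_le _ _).trans (add_le_add hx1 hx3)
    _ = ε := by ring

end Helper58.FH
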