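import Mathlib
import Pool.Agent.Helper58.FH.Idx
import Pool.Agent.Helper58.FH.Tight

set_option autoImplicit false
open MeasureTheory Filter Topology Metric Finset
open scoped ENNReal

/-! Memory and covering numbers: multiplication by the elements of the semigroup generated by
`2` and `3` is injective at fine scales on a set of large measure. -/

namespace Helper58.FH

open Helper58.FX (act UU ev ft Erg T sc PE)

lemma n3 (N j : ℕ) (h : 3 ^ N ∣ 2 ^ j - 1) : 3 ^ N ∣ 3 * j := by
  rcases Nat.eq_zero_or_pos j with rfl | hj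
  · simp
  have h1 : 2 ^ j - 1 ∣ 4 ^ j - 1 := by
    have := Nat.sub_dvd_pow_sub_pow (2 ^ j) 1 2
    rw [one_pow, ← pow_mul, mul_comm, pow_mul] at this
    exact this
  have h2 : 3 ^ N ∣ 4 ^ j - 1 := h.trans h1
  haveI : Fact (Nat.Prime 3) := ⟨Nat.prime_three⟩
  have h4j : 4 ≤ 4 ^ j := Nat.le_self_pow (by omega) _
  rw [padicValNat_dvd_iff_le (by omega)] at h2
  rw [padicValNat_dvd_iff_le (by positivity)]
  have h4 := padicValNat.pow_sub_pow (p := 3) (by decide) (x := 4) (y := 1) (by norm_num)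
    (by norm_num) (by norm_num) hj.ne'
  rw [one_pow] at h4
  have e1 : padicValNat 3 (4 - 1) = 1 := by
    rw [show 4 - 1 = 3 by norm_num]; exact padicValNat.self (by norm_num)
  have e2 : padicValNat 3 3 = 1 := padicValNat.self (by norm_num)
  rw [padicValNat.mul (by norm_num) hj.ne', e2]
  omega

lemma split (p : ℤ) (i : ℕ) (z : ℤ) (h : ¬ p ^ i ∣ z) :
    ∃ v < i, ∃ w : ℤ, z = p ^ v * w ∧ ¬ p ∣ w := by
  induction i with
  | zero => simp at h
  | succ i ih =>
    by_cases hi : p ^ i ∣ z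
    · obtain ⟨w, rfl⟩ := hi
      refine ⟨i, Nat.lt_succ_self _, w, rfl, ?_⟩
      intro hw
      apply h
      rw [pow_succ]
      exact mul_dvd_mul_left _ hw
    · obtain ⟨v, hv, w, hw⟩ := ih hi
      exact ⟨v, hv.trans (Nat.lt_succ_self _), w, hw⟩

lemma distinct (P g : ℕ) (hg : 1 ≤ g) (w : ℤ) (hw : IsCoprime (P : ℤ) w)
    (hPg : Nat.Coprime P g) (T e : ℕ) (hord : ∀ j, 0 < j → j < T → ¬ P ∣ g ^ j - 1) :
    ∀ t < T, ∀ t' < T, (P : ℤ) ∣ w * g ^ (t + e) - w * g ^ (t' + e) → t = t' := by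
  have key : ∀ t < T, ∀ t' < T, t' < t → ¬ (P : ℤ) ∣ w * g ^ (t + e) - w * g ^ (t' + e) := by
    intro t ht t' ht' h hd
    have e1 := pow_sub_pow_eq g (t' + e) (t + e) hg (by omega)
    have e2 : t + e - (t' + e) = t - t' := by omega
    rw [← mul_sub, e1, e2] at hd
    have h1 := hw.dvd_of_dvd_mul_left hd
    rw [Int.natCast_dvd_natCast] at h1
    have h2 := (Nat.Coprime.pow_right (t' + e) hPg).dvd_of_dvd_mul_left h1
    exact hord (t - t') (by omega) (by omega) h2
  intro t ht t' ht' hd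
  rcases lt_trichotomy t t' with h | h | h
  · exact absurd (by
      have := dvd_neg.2 hd
      rwa [neg_sub] at this) (key t' ht' t ht h)
  · exact h
  · exact absurd hd (key t ht t' ht' h)

/-- at most thirteen points of a spaced family lie in a short arc -/
lemma core1 (P N : ℕ) (hP : 1 ≤ P) (u : ℕ → ℤ) (D : ℕ → Tor)
    (hu : ∀ t < N, ∀ t' < N, (P : ℤ) ∣ u t - u t' → t = t')
    (hD : ∀ t < N, ‖D t - ((u t / P : ℝ) : Tor)‖ ≤ 1 / P) (d : Tor) (S : Finset ℕ)
    (hS : S ⊆ range N) (hSd : ∀ t ∈ S, ‖D t - d‖ ≤ 2 / P) : S.card ≤ 13 := by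
  classical
  have hPr : (0 : ℝ) < P := by exact_mod_cast hP
  rcases S.eq_empty_or_nonempty with rfl | ⟨t0, ht0⟩
  · simp
  have h1 : ∀ t ∈ S, ∃ z : ℤ, |u t - u t0 - P * z| ≤ 6 := by
    intro t ht
    have ht' := mem_range.1 (hS ht)
    have ht0' := mem_range.1 (hS ht0)
    have h2 : ‖(((u t - u t0 : ℝ) / P : ℝ) : Tor)‖ ≤ 6 / P := by
      have e : (((u t - u t0 : ℝ) / P : ℝ) : Tor) =
          -(D t - ((u t / P : ℝ) : Tor)) + (D t - d) - (D t0 - d) +
            (D t0 - ((u t0 / P : ℝ) : Tor)) := by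
        rw [sub_div, AddCircle.coe_sub]
        abel
      rw [e]
      refine (norm_add_le _ _).trans ?_
      have a1 := norm_sub_le (-(D t - ((u t / P : ℝ) : Tor)) + (D t - d)) (D t0 - d)
      have a2 := norm_add_le (-(D t - ((u t / P : ℝ) : Tor))) (D t - d)
      rw [norm_neg] at a2
      have a3 := hD t ht'
      have a4 := hD t0 ht0'
      have a5 := hSd t ht
      have a6 := hSd t0 ht0
      have e6 : (6 : ℝ) / P = 1 / P + 2 / P + 2 / P + 1 / P := by ring
      rw [e6]
      linarith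
    obtain ⟨τ, hτ, hτn⟩ := exists_rep (((u t - u t0 : ℝ) / P : ℝ) : Tor)
    rw [← sub_eq_zero, ← AddCircle.coe_sub, AddCircle.coe_eq_zero_iff] at hτ
    obtain ⟨z, hz⟩ := hτ
    simp only [zsmul_eq_mul, mul_one] at hz
    refine ⟨-z, ?_⟩
    rw [← hτn] at h2
    have e7 : ((u t - u t0 - P * -z : ℤ) : ℝ) = P * τ := by
      push_cast
      have : τ = (u t - u t0 : ℝ) / P + z := by linarith
      rw [this]
      field_simp
      ring
    have h8 : |((u t - u t0 - P * -z : ℤ) : ℝ)| ≤ 6 := by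
      rw [e7, abs_mul, abs_of_pos hPr]
      calc (P : ℝ) * |τ| ≤ P * (6 / P) := by gcongr
        _ = 6 := by field_simp
    exact_mod_cast h8
  choose! z hz using h1
  have h13 : (Finset.Icc (-6 : ℤ) 6).card = 13 := by simp
  rw [← h13]
  apply Finset.card_le_card_of_injOn (fun t => u t - u t0 - P * z t)
  · intro t ht
    have := abs_le.1 (hz t (mem_coe.1 ht))
    simp only [coe_Icc, Set.mem_Icc]
    exact this
  · intro t ht t' ht' h
    simp only at h
    apply hu t (mem_range.1 (hS (mem_coe.1 ht))) t' (mem_range.1 (hS (mem_coe.1 ht')))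
    exact ⟨z t - z t', by rw [mul_sub]; linarith⟩

lemma core (P N : ℕ) (hP : 1 ≤ P) (u : ℕ → ℤ) (D : ℕ → Tor) (A : Finset Tor)
    (hu : ∀ t < N, ∀ t' < N, (P : ℤ) ∣ u t - u t' → t = t')
    (hD : ∀ t < N, ‖D t - ((u t / P : ℝ) : Tor)‖ ≤ 1 / P) (S : Finset ℕ)
    (hS : S ⊆ range N) (hSA : ∀ t ∈ S, ∃ a ∈ A, ∃ a' ∈ A, ‖D t - (a - a')‖ ≤ 2 / P) :
    S.card ≤ 13 * A.card ^ 2 := by
  classical
  have hsub : S ⊆ (A ×ˢ A).biUnion (fun p => S.filter (fun t => ‖D t - (p.1 - p.2)‖ ≤ 2 / P)) := by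
    intro t ht
    obtain ⟨a, ha, a', ha', h⟩ := hSA t ht
    rw [mem_biUnion]
    exact ⟨(a, a'), mem_product.2 ⟨ha, ha'⟩, mem_filter.2 ⟨ht, h⟩⟩
  refine (Finset.card_le_card hsub).trans (Finset.card_biUnion_le.trans ?_)
  refine (Finset.sum_le_card_nsmul _ _ 13 ?_).trans (le_of_eq ?_)
  · intro p _
    exact core1 P N hP u D hu hD (p.1 - p.2) _ ((Finset.filter_subset _ _).trans hS)
      fun t ht => (mem_filter.1 ht).2
  · rw [card_product, smul_eq_mul]
    ring

open Classical in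
/-- the number of times outside a set -/
noncomputable def bad (g t0 N : ℕ) (U : Set Tor) (y : Tor) : ℕ :=
  ((range N).filter (fun t => g ^ (t0 + t) • y ∉ U)).card

lemma side (P g e' t0 N : ℕ) (hP : 1 ≤ P) (hg : 1 ≤ g) (he : e' ≤ t0) (w : ℤ)
    (hw : IsCoprime (P : ℤ) w) (hPg : Nat.Coprime P g)
    (hord : ∀ j, 0 < j → j < N → ¬ P ∣ g ^ j - 1) (γ : ℝ)
    (hγ : (g : ℝ) ^ (t0 + N) * |γ| * P ≤ 1) (A : Finset Tor) (y y' : Tor)
    (hD : y - y' = ((w / (P * g ^ e') + γ : ℝ) : Tor)) (ρ : ℝ) (hρ : ρ * P ≤ 1)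
    (hy : 8 * bad g t0 N (⋃ a ∈ A, closedBall a ρ) y ≤ N)
    (hy' : 8 * bad g t0 N (⋃ a ∈ A, closedBall a ρ) y' ≤ N)
    (hN : 52 * A.card ^ 2 < 3 * N) : False := by
  classical
  have hPr : (0 : ℝ) < P := by exact_mod_cast hP
  have hgr : (1 : ℝ) ≤ g := by exact_mod_cast hg
  set U : Set Tor := ⋃ a ∈ A, closedBall a ρ with hU
  set S : Finset ℕ := (range N).filter
    (fun t => g ^ (t0 + t) • y ∈ U ∧ g ^ (t0 + t) • y' ∈ U) with hS
  have h1 : range N ⊆ S ∪ (range N).filter (fun t => g ^ (t0 + t) • y ∉ U) ∪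
      (range N).filter (fun t => g ^ (t0 + t) • y' ∉ U) := by
    intro t ht
    simp only [hS, mem_union, mem_filter, ht, true_and]
    tauto
  have h2 : N ≤ S.card + bad g t0 N U y + bad g t0 N U y' := by
    have h3 := Finset.card_le_card h1
    rw [card_range] at h3
    refine h3.trans ((Finset.card_union_le _ _).trans ?_)
    gcongr
    · exact Finset.card_union_le _ _
    · exact le_rfl
  have h3 : S.card ≤ 13 * A.card ^ 2 := by
    refine core P N hP (fun t => w * g ^ (t + (t0 - e'))) (fun t => g ^ (t0 + t) • (y - y')) A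
      (distinct P g hg w hw hPg N (t0 - e') hord) ?_ S (Finset.filter_subset _ _) ?_
    · intro t ht
      have e : g ^ (t0 + t) • (y - y') - (((w * g ^ (t + (t0 - e')) : ℤ) / P : ℝ) : Tor) =
          (((g : ℝ) ^ (t0 + t) * γ : ℝ) : Tor) := by
        rw [hD, ← AddCircle.coe_nsmul, ← AddCircle.coe_sub]
        congr 1
        rw [nsmul_eq_mul]
        push_cast
        have e2 : (g : ℝ) ^ (t0 + t) = g ^ (t + (t0 - e')) * g ^ e' := by
          rw [← pow_add]
          congr 1
          omega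
        have hge : (g : ℝ) ^ e' ≠ 0 := by positivity
        have e3 : (g : ℝ) ^ (t0 + t) * (w / (P * g ^ e') + γ) =
            g ^ (t0 + t) * (w / (P * g ^ e')) + g ^ (t0 + t) * γ := by ring
        rw [e3, e2]
        field_simp
        ring
      rw [e]
      refine (norm_coe_le _).trans ?_
      rw [abs_mul, abs_of_pos (by positivity), le_div_iff₀ hPr]
      refine le_trans ?_ hγ
      gcongr
    · intro t ht
      rw [hS, mem_filter] at ht
      obtain ⟨_, ha, ha'⟩ := ht
      rw [hU, Set.mem_iUnion₂] at ha ha'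
      obtain ⟨a, haA, ha⟩ := ha
      obtain ⟨a', haA', ha'⟩ := ha'
      rw [mem_closedBall, dist_eq_norm] at ha ha'
      refine ⟨a, haA, a', haA', ?_⟩
      have e : g ^ (t0 + t) • (y - y') - (a - a') =
          (g ^ (t0 + t) • y - a) - (g ^ (t0 + t) • y' - a') := by
        rw [smul_sub]
        abel
      rw [e]
      refine (norm_sub_le _ _).trans ?_
      rw [le_div_iff₀ hPr]
      nlinarith
  omega

lemma bad_closed (g t0 N : ℕ) (U : Set Tor) (hU : IsClosed U) :
    IsClosed {y : Tor | 8 * bad g t0 N U y ≤ N} := by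
  classical
  have e : {y : Tor | 8 * bad g t0 N U y ≤ N} =
      ⋃ B ∈ (range N).powerset.filter (fun B => 8 * B.card ≤ N),
        ⋂ t ∈ (range N \ B), (fun y : Tor => g ^ (t0 + t) • y) ⁻¹' U := by
    ext y
    rw [Set.mem_iUnion₂]
    constructor
    · intro hy
      refine ⟨(range N).filter (fun t => g ^ (t0 + t) • y ∉ U), ?_, ?_⟩
      · rw [mem_filter, mem_powerset]
        exact ⟨Finset.filter_subset _ _, hy⟩
      · rw [Set.mem_iInter₂]
        intro t ht
        rw [Finset.mem_sdiff, mem_filter] at ht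
        by_contra hcon
        exact ht.2 ⟨ht.1, hcon⟩
    · rintro ⟨B, hB, hy⟩
      rw [mem_filter] at hB
      rw [Set.mem_iInter₂] at hy
      show 8 * bad g t0 N U y ≤ N
      refine le_trans (Nat.mul_le_mul_left _ (Finset.card_le_card ?_)) hB.2
      intro t ht
      rw [mem_filter] at ht
      by_contra hcon
      exact ht.2 (hy t (Finset.mem_sdiff.2 ⟨ht.1, hcon⟩))
  rw [e]
  refine isClosed_biUnion_finset fun B _ => isClosed_biInter fun t _ => hU.preimage ?_
  fun_prop

variable {μ : Measure Tor}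

lemma bad_mass [IsProbabilityMeasure μ] (g t0 N : ℕ) (hN : 1 ≤ N)
    (hg : ∀ n, MeasurePreserving (fun x : Tor => g ^ n • x) μ μ) (U : Set Tor) (hU : IsClosed U) :
    μ.real {y : Tor | 8 * bad g t0 N U y ≤ N}ᶜ ≤ 8 * (1 - μ.real U) := by
  classical
  have hmeas : ∀ t, MeasurableSet ((fun x : Tor => g ^ (t0 + t) • x) ⁻¹' Uᶜ) :=
    fun t => (hg _).measurable hU.measurableSet.compl
  set f : Tor → ℝ := fun y => ∑ t ∈ range N,
    ((fun x : Tor => g ^ (t0 + t) • x) ⁻¹' Uᶜ).indicator (fun _ => (1 : ℝ)) y with hf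
  have hfbad : ∀ y, f y = (bad g t0 N U y : ℝ) := by
    intro y
    simp only [hf, bad, Finset.card_filter, Set.indicator_apply, Set.mem_preimage,
      Set.mem_compl_iff]
    push_cast
    rfl
  have hfi : Integrable f μ := by
    refine integrable_finsetSum _ fun t _ => ?_
    exact (integrable_const _).indicator (hmeas t)
  have hint : ∫ y, f y ∂μ = N * (1 - μ.real U) := by
    rw [hf, integral_finsetSum _ fun t _ => (integrable_const _).indicator (hmeas t)]
    have h1 : ∀ t ∈ range N, ∫ y, ((fun x : Tor => g ^ (t0 + t) • x) ⁻¹' Uᶜ).indicator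
        (fun _ => (1 : ℝ)) y ∂μ = 1 - μ.real U := by
      intro t _
      rw [integral_indicator_const _ (hmeas t), smul_eq_mul, mul_one, Measure.real,
        (hg _).measure_preimage hU.measurableSet.compl.nullMeasurableSet]
      exact probReal_compl_eq_one_sub hU.measurableSet
    rw [Finset.sum_congr rfl h1, Finset.sum_const, card_range, nsmul_eq_mul]
  have h2 := mul_meas_ge_le_integral_of_nonneg (μ := μ) (f := f)
    (Eventually.of_forall fun y => by rw [hfbad]; positivity) hfi ((N : ℝ) / 8)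
  have h3 : {y : Tor | 8 * bad g t0 N U y ≤ N}ᶜ ⊆ {y | (N : ℝ) / 8 ≤ f y} := by
    intro y hy
    simp only [Set.mem_compl_iff, Set.mem_ofPred_eq, not_le] at hy ⊢
    rw [hfbad]
    have : (N : ℝ) < 8 * bad g t0 N U y := by exact_mod_cast hy
    linarith
  have h4 : μ.real {y : Tor | 8 * bad g t0 N U y ≤ N}ᶜ ≤ μ.real {y | (N : ℝ) / 8 ≤ f y} :=
    measureReal_mono h3 (measure_ne_top _ _)
  rw [hint] at h2
  have hNr : (0 : ℝ) < N := by exact_mod_cast hN
  have h5 : (N : ℝ) / 8 * μ.real {y | (N : ℝ) / 8 ≤ f y} ≤ N * (1 - μ.real U) := h2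
  have h6 : μ.real {y | (N : ℝ) / 8 ≤ f y} ≤ 8 * (1 - μ.real U) := by
    have h7 : (N : ℝ) * μ.real {y | (N : ℝ) / 8 ≤ f y} ≤ N * (8 * (1 - μ.real U)) := by linarith
    exact le_of_mul_le_mul_left h7 hNr
  exact h4.trans h6

/-- **Memory and covering numbers.** -/
theorem memory [IsProbabilityMeasure μ] (h2 : MeasurePreserving (T 2) μ μ)
    (h3 : MeasurePreserving (T 3) μ μ) (A : Finset Tor) (S : ℕ) (hS : 160 * A.card ^ 2 ≤ S) :
    ∃ G : Set Tor, IsClosed G ∧
      1 - 16 * (1 - μ.real (⋃ a ∈ A, closedBall a (1 / (S : ℝ) ^ 2))) ≤ μ.real G ∧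
      ∀ x ∈ G, ∀ y ∈ G, ∀ r : ℝ, 0 ≤ r → (S : ℝ) ^ 4 * 3 ^ (20 * A.card ^ 2) * r ≤ 1 →
        ∀ i l : ℕ, 2 ^ i * 3 ^ l ≤ S → ‖(2 ^ i * 3 ^ l) • (x - y)‖ ≤ 2 ^ i * 3 ^ l * r →
          ‖x - y‖ ≤ r := by
  classical
  rcases A.eq_empty_or_nonempty with rfl | hA
  · refine ⟨∅, isClosed_empty, ?_, fun x hx => absurd hx (Set.notMem_empty x)⟩
    simp
  have hK : 1 ≤ A.card := hA.card_pos
  have hK2 : 1 ≤ A.card ^ 2 := Nat.one_le_pow _ _ hK
  set N := 20 * A.card ^ 2 with hN
  have hN1 : 1 ≤ N := by omega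
  have hNS : 8 * N ≤ S := by omega
  have hS1 : 1 ≤ S := by omega
  have hSr : (1 : ℝ) ≤ S := by exact_mod_cast hS1
  set p := Nat.log 2 S with hp
  set q := Nat.log 3 S with hq
  have hp1 : 2 ^ p ≤ S := Nat.pow_log_le_self 2 (by omega)
  have hp2 : S < 2 ^ (p + 1) := Nat.lt_pow_succ_log_self (by norm_num) S
  have hq1 : 3 ^ q ≤ S := Nat.pow_log_le_self 3 (by omega)
  have hq2 : S < 3 ^ (q + 1) := Nat.lt_pow_succ_log_self (by norm_num) S
  set U : Set Tor := ⋃ a ∈ A, closedBall a (1 / (S : ℝ) ^ 2) with hU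
  have hUc : IsClosed U := isClosed_biUnion_finset fun _ _ => isClosed_closedBall
  have hm2 : ∀ n, MeasurePreserving (fun x : Tor => 2 ^ n • x) μ μ := by
    intro n
    have := mp_pow h2 h3 n 0
    simpa using this
  have hm3 : ∀ n, MeasurePreserving (fun x : Tor => 3 ^ n • x) μ μ := by
    intro n
    have := mp_pow h2 h3 0 n
    simpa using this
  set T3 : Set Tor := {y | 8 * bad 3 (2 * q) N U y ≤ N} with hT3
  set T2 : Set Tor := {y | 8 * bad 2 (2 * p) N U y ≤ N} with hT2
  have hT3c : IsClosed T3 := bad_closed _ _ _ _ hUc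
  have hT2c : IsClosed T2 := bad_closed _ _ _ _ hUc
  have hT3m : μ.real T3ᶜ ≤ 8 * (1 - μ.real U) := bad_mass 3 (2 * q) N hN1 hm3 U hUc
  have hT2m : μ.real T2ᶜ ≤ 8 * (1 - μ.real U) := bad_mass 2 (2 * p) N hN1 hm2 U hUc
  have hTc : IsClosed (T3 ∩ T2) := hT3c.inter hT2c
  have hTm : 1 - 16 * (1 - μ.real U) ≤ μ.real (T3 ∩ T2) := by
    have h4 : μ.real (T3 ∩ T2)ᶜ ≤ μ.real T3ᶜ + μ.real T2ᶜ := by
      rw [Set.compl_inter]
      exact measureReal_union_le _ _
    rw [probReal_compl_eq_one_sub hTc.measurableSet] at h4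
    linarith
  set Q := 2 ^ p * 3 ^ q with hQ
  have hQ1 : 1 ≤ Q := Nat.mul_pos (by positivity) (by positivity)
  have hQr : (1 : ℝ) ≤ Q := by exact_mod_cast hQ1
  have hQmp : MeasurePreserving (fun x : Tor => Q • x) μ μ := mp_pow h2 h3 p q
  have hGc : IsClosed ((fun x : Tor => Q • x) '' (T3 ∩ T2)) :=
    (hTc.isCompact.image (by fun_prop)).isClosed
  refine ⟨(fun x : Tor => Q • x) '' (T3 ∩ T2), hGc, ?_, ?_⟩
  · refine hTm.trans ?_
    have h4 : μ.real ((fun x : Tor => Q • x) ⁻¹' ((fun x : Tor => Q • x) '' (T3 ∩ T2))) =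
        μ.real ((fun x : Tor => Q • x) '' (T3 ∩ T2)) := by
      unfold Measure.real
      rw [hQmp.measure_preimage hGc.measurableSet.nullMeasurableSet]
    rw [← h4]
    exact measureReal_mono (Set.subset_preimage_image _ _) (measure_ne_top _ _)
  · rintro x ⟨y, hy, rfl⟩ x' ⟨y', hy', rfl⟩ r hr hrS i l hil hnorm
    simp only at hnorm ⊢
    set s := 2 ^ i * 3 ^ l with hs
    have hs1 : 1 ≤ s := Nat.mul_pos (by positivity) (by positivity)
    have hsr : (0 : ℝ) < s := by exact_mod_cast hs1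
    have hscast : (2 : ℝ) ^ i * 3 ^ l = (s : ℝ) := by rw [hs]; push_cast; ring
    rw [hscast] at hnorm
    have hi : i ≤ p := by
      rw [hp]
      apply Nat.le_log_of_pow_le (by norm_num)
      calc 2 ^ i ≤ 2 ^ i * 3 ^ l := Nat.le_mul_of_pos_right _ (by positivity)
        _ ≤ S := hil
    have hl : l ≤ q := by
      rw [hq]
      apply Nat.le_log_of_pow_le (by norm_num)
      calc 3 ^ l ≤ 2 ^ i * 3 ^ l := Nat.le_mul_of_pos_left _ (by positivity)
        _ ≤ S := hil
    obtain ⟨β, hβ, hβn⟩ := exists_rep (s • (Q • y - Q • y'))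
    rw [← hβn] at hnorm
    set τ := rep (y - y') with hτ
    have hτc : ((τ : ℝ) : Tor) = y - y' := coe_rep _
    have hz : ∃ z : ℤ, (s : ℝ) * Q * τ - β = z := by
      have h4 : (((s : ℝ) * Q * τ - β : ℝ) : Tor) = 0 := by
        rw [AddCircle.coe_sub, hβ, ← smul_sub Q, ← hτc, ← AddCircle.coe_nsmul,
          ← AddCircle.coe_nsmul, nsmul_eq_mul, nsmul_eq_mul, ← mul_assoc, sub_self]
      rw [AddCircle.coe_eq_zero_iff] at h4
      obtain ⟨z, hz⟩ := h4
      simp only [zsmul_eq_mul, mul_one] at hz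
      exact ⟨z, hz.symm⟩
    obtain ⟨z, hz⟩ := hz
    by_cases hdvd : (s : ℤ) ∣ z
    · obtain ⟨z1, rfl⟩ := hdvd
      have h4 : Q • y - Q • y' = ((β / s : ℝ) : Tor) := by
        rw [← smul_sub, ← hτc, ← AddCircle.coe_nsmul, nsmul_eq_mul]
        have h5 : (Q : ℝ) * τ = z1 + β / s := by
          push_cast at hz
          field_simp
          linarith
        rw [h5, AddCircle.coe_add, coe_int, zero_add]
      rw [h4]
      refine (norm_coe_le _).trans ?_
      rw [abs_div, abs_of_pos hsr, div_le_iff₀ hsr]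
      linarith
    · exfalso
      have hQs : (0 : ℝ) < s * Q := by positivity
      have hγ : |β / (s * Q)| ≤ r := by
        rw [abs_div, abs_of_pos hQs, div_le_iff₀ hQs]
        calc |β| ≤ s * r := hnorm
          _ ≤ r * (s * Q) := by nlinarith [mul_nonneg hr hsr.le]
      have hcop : IsCoprime ((2 : ℤ) ^ i) ((3 : ℤ) ^ l) := by
        apply IsCoprime.pow
        norm_num
      have hor : ¬ (2 : ℤ) ^ i ∣ z ∨ ¬ (3 : ℤ) ^ l ∣ z := by
        by_contra hcon
        push Not at hcon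
        apply hdvd
        have := hcop.mul_dvd hcon.1 hcon.2
        rw [hs]
        push_cast
        exact this
      have hρle : ∀ P : ℕ, P ≤ S ^ 2 → 1 / (S : ℝ) ^ 2 * P ≤ 1 := by
        intro P hP
        rw [one_div, inv_mul_le_iff₀ (by positivity), mul_one]
        exact_mod_cast hP
      rcases hor with h | h
      · obtain ⟨v, hv, w, rfl, hw⟩ := split 2 i z h
        have hPle : 2 ^ (i + p - v) ≤ S ^ 2 := by
          calc 2 ^ (i + p - v) ≤ 2 ^ (p + p) := Nat.pow_le_pow_right (by norm_num) (by omega)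
            _ = 2 ^ p * 2 ^ p := pow_add _ _ _
            _ ≤ S * S := Nat.mul_le_mul hp1 hp1
            _ = S ^ 2 := by ring
        refine side (2 ^ (i + p - v)) 3 (l + q) (2 * q) N (Nat.one_le_pow _ _ (by norm_num))
          (by norm_num) (by omega) w ?_ ?_ ?_ (β / (s * Q)) ?_ A y y' ?_ (1 / (S : ℝ) ^ 2)
          (hρle _ hPle) hy.1 hy'.1 (by omega)
        · push_cast
          apply IsCoprime.pow_left
          exact (Int.prime_two.coprime_iff_not_dvd).2 hw
        · apply Nat.Coprime.pow_left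
          norm_num
        · intro j hj0 hjN hd
          have h5 := n2 1 le_rfl (i + p - v) j (by rwa [one_mul])
          have h6 := Nat.le_of_dvd (by positivity) h5
          have h7 : 2 ^ (p + 1) ≤ 2 ^ (i + p - v) := Nat.pow_le_pow_right (by norm_num) (by omega)
          omega
        · have h5 : ((2 ^ (i + p - v) : ℕ) : ℝ) ≤ (S : ℝ) ^ 2 := by exact_mod_cast hPle
          have h6 : (3 : ℝ) ^ (2 * q) ≤ (S : ℝ) ^ 2 := by
            rw [mul_comm, pow_mul]
            gcongr
            exact_mod_cast hq1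
          calc ((3 : ℕ) : ℝ) ^ (2 * q + N) * |β / (s * Q)| * ((2 ^ (i + p - v) : ℕ) : ℝ)
              ≤ ((S : ℝ) ^ 2 * 3 ^ N) * r * (S : ℝ) ^ 2 := by
                push_cast at h5 ⊢
                rw [pow_add]
                gcongr
            _ = (S : ℝ) ^ 4 * 3 ^ N * r := by ring
            _ ≤ 1 := hrS
        · rw [← hτc]
          congr 1
          have h5 : (s : ℝ) * Q = 2 ^ v * (2 ^ (i + p - v) * 3 ^ (l + q)) := by
            rw [hs, hQ]
            push_cast
            have h6 : (2 : ℝ) ^ i * 2 ^ p = 2 ^ v * 2 ^ (i + p - v) := by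
              rw [← pow_add, ← pow_add]
              congr 1
              omega
            calc (2 : ℝ) ^ i * 3 ^ l * (2 ^ p * 3 ^ q) = (2 ^ i * 2 ^ p) * 3 ^ l * 3 ^ q := by ring
              _ = _ := by rw [h6, pow_add]; ring
          have h7 : τ = ((2 : ℝ) ^ v * w + β) / (s * Q) := by
            push_cast at hz
            rw [eq_div_iff hQs.ne']
            linarith
          rw [h7, add_div]
          congr 1
          rw [h5]
          push_cast
          rw [mul_div_mul_left _ _ (by positivity)]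
      · obtain ⟨v, hv, w, rfl, hw⟩ := split 3 l z h
        have hPle : 3 ^ (l + q - v) ≤ S ^ 2 := by
          calc 3 ^ (l + q - v) ≤ 3 ^ (q + q) := Nat.pow_le_pow_right (by norm_num) (by omega)
            _ = 3 ^ q * 3 ^ q := pow_add _ _ _
            _ ≤ S * S := Nat.mul_le_mul hq1 hq1
            _ = S ^ 2 := by ring
        refine side (3 ^ (l + q - v)) 2 (i + p) (2 * p) N (Nat.one_le_pow _ _ (by norm_num))
          (by norm_num) (by omega) w ?_ ?_ ?_ (β / (s * Q)) ?_ A y y' ?_ (1 / (S : ℝ) ^ 2)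
          (hρle _ hPle) hy.2 hy'.2 (by omega)
        · push_cast
          apply IsCoprime.pow_left
          exact (Int.prime_three.coprime_iff_not_dvd).2 hw
        · apply Nat.Coprime.pow_left
          norm_num
        · intro j hj0 hjN hd
          have h5 := n3 (l + q - v) j hd
          have h6 := Nat.le_of_dvd (by positivity) h5
          have h7 : 3 ^ (q + 1) ≤ 3 ^ (l + q - v) := Nat.pow_le_pow_right (by norm_num) (by omega)
          omega
        · have h5 : ((3 ^ (l + q - v) : ℕ) : ℝ) ≤ (S : ℝ) ^ 2 := by exact_mod_cast hPle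
          have h6 : (2 : ℝ) ^ (2 * p) ≤ (S : ℝ) ^ 2 := by
            rw [mul_comm, pow_mul]
            gcongr
            exact_mod_cast hp1
          calc ((2 : ℕ) : ℝ) ^ (2 * p + N) * |β / (s * Q)| * ((3 ^ (l + q - v) : ℕ) : ℝ)
              ≤ ((S : ℝ) ^ 2 * 3 ^ N) * r * (S : ℝ) ^ 2 := by
                push_cast at h5 ⊢
                rw [pow_add]
                gcongr
                norm_num
            _ = (S : ℝ) ^ 4 * 3 ^ N * r := by ring
            _ ≤ 1 := hrS
        · rw [← hτc]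
          congr 1
          have h5 : (s : ℝ) * Q = 3 ^ v * (3 ^ (l + q - v) * 2 ^ (i + p)) := by
            rw [hs, hQ]
            push_cast
            have h6 : (3 : ℝ) ^ l * 3 ^ q = 3 ^ v * 3 ^ (l + q - v) := by
              rw [← pow_add, ← pow_add]
              congr 1
              omega
            calc (2 : ℝ) ^ i * 3 ^ l * (2 ^ p * 3 ^ q) = (3 ^ l * 3 ^ q) * 2 ^ i * 2 ^ p := by ring
              _ = _ := by rw [h6, pow_add]; ring
          have h7 : τ = ((3 : ℝ) ^ v * w + β) / (s * Q) := by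
            push_cast at hz
            rw [eq_div_iff hQs.ne']
            linarith
          rw [h7, add_div]
          congr 1
          rw [h5]
          push_cast
          rw [mul_div_mul_left _ _ (by positivity)]

end Helper58.FH
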