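import Pool.Agent.Helper58.FH.Tight
import Pool.Agent.Helper58.FH.Idx

set_option autoImplicit false
open MeasureTheory Filter Topology Metric Finset
open scoped ENNReal

/-! Zero entropy in base six. -/

namespace Helper58.FH

open Helper58.FX (act UU ev ft Erg T sc PE)

variable {μ : Measure Tor}

lemma dd_neg (m j : ℕ) (hm : 0 < m) (hj : j < m) : dd m (m - 1 - j) = - dd m (j + 1) := by
  have hmr : (m : ℝ) ≠ 0 := by exact_mod_cast hm.ne'
  unfold dd
  rw [← AddCircle.coe_neg, ← sub_eq_zero, ← AddCircle.coe_sub]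
  have e : ((m - 1 - j : ℕ) : ℝ) = m - 1 - j := by
    rw [Nat.cast_sub (by omega), Nat.cast_sub (by omega)]
    push_cast; ring
  rw [e]
  have e2 : ((m : ℝ) - 1 - j) / m - -(((j + 1 : ℕ) : ℝ) / m) = ((1 : ℤ) : ℝ) := by
    push_cast; field_simp; ring
  rw [e2]
  exact coe_int 1

lemma dd_self (m : ℕ) (hm : 0 < m) : dd m m = dd m 0 := by
  have hmr : (m : ℝ) ≠ 0 := by exact_mod_cast hm.ne'
  unfold dd
  rw [div_self hmr]
  have := coe_int 1
  push_cast at this ⊢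
  rw [this]
  simp

lemma sum_dd_neg (m : ℕ) (hm : 0 < m) (f : Tor → ℝ) (x : Tor) :
    ∑ j ∈ range m, f (x + dd m j) = ∑ j ∈ range m, f (x - dd m j) := by
  rw [← Finset.sum_range_reflect]
  have e : ∀ j ∈ range m, f (x + dd m (m - 1 - j)) = f (x - dd m (j + 1)) := by
    intro j hj
    rw [dd_neg m j hm (mem_range.1 hj), sub_eq_add_neg]
  rw [Finset.sum_congr rfl e]
  have h1 := Finset.sum_range_succ' (fun j => f (x - dd m j)) m
  have h2 := Finset.sum_range_succ (fun j => f (x - dd m j)) m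
  rw [h1] at h2
  rw [dd_self m hm] at h2
  linarith

/-- **zero entropy** -/
theorem inc_small [IsProbabilityMeasure μ] (h2 : MeasurePreserving (T 2) μ μ)
    (h3 : MeasurePreserving (T 3) μ μ) (hE : Erg (ft μ)) (hne : ∃ n : ℤ, n ≠ 0 ∧ ft μ n ≠ 0)
    (θ : ℝ) (hθ : 0 < θ) : ∃ n, inc 6 (pr μ) n ≤ θ := by
  have h6 : MeasurePreserving (fun x : Tor => 6 • x) μ μ := by
    have := mp_pow h2 h3 1 1
    simpa using this
  have hp : Prof 6 (pr μ) := prof_pr (by norm_num) h6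
  obtain ⟨k, hk, hfk⟩ := exists_nat hne
  set c := ft μ k with hc
  have hc' : 0 < ‖c‖ := norm_pos_iff.2 hfk
  have hlog : 0 < Real.log 6 := Real.log_pos (by norm_num)
  set β : ℝ := θ / (4 * Real.log 6) with hβ
  have hβ0 : 0 < β := by positivity
  obtain ⟨L, M0, hL, hM0, hlong⟩ := long_averages h2 h3 hE k (β * ‖c‖ ^ 2 / 8) (by positivity)
  obtain ⟨a, c', hab, hfib⟩ := fibreA 6 (by norm_num) k L hk hL
  set κ : ℝ := ‖c‖ ^ 2 / 8 with hκ
  have hκ0 : 0 < κ := by positivity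
  set R : ℝ := (c' + 1) ^ 2 with hR
  have hR0 : 0 < R := by positivity
  set δ : ℝ := min 1 (β * κ ^ 2 / R) with hδ
  have hδ0 : 0 < δ := by positivity
  have hδ1 : δ ≤ 1 := min_le_left _ _
  have hδR : δ * R / κ ^ 2 ≤ β := by
    rw [div_le_iff₀ (by positivity)]
    have : δ ≤ β * κ ^ 2 / R := min_le_right _ _
    rw [le_div_iff₀ hR0] at this
    exact this
  obtain ⟨N1, hN1⟩ := exists_nat_ge (2 * (Real.log (1 / δ) + 1) / θ)
  set N := max (max N1 M0) 1 with hN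
  have hN1' : N1 ≤ N := (le_max_left _ _).trans (le_max_left _ _)
  have hNM0 : M0 ≤ N := (le_max_right _ _).trans (le_max_left _ _)
  have hN0 : 1 ≤ N := le_max_right _ _
  set M := 6 ^ N with hM
  have hMN : N ≤ M := (Nat.lt_pow_self (by norm_num)).le
  have hM1 : 1 ≤ M := hN0.trans hMN
  obtain ⟨hl1, hl2⟩ := hlong M (hNM0.trans hMN)
  have hfib' := hfib 1 N M zero_le_one hM1 (by rw [hM]; push_cast; simp)
  set Λ : ℝ := 2 * Real.pi * (2 * k * 6 ^ L * 3 ^ M * 2 ^ (a * N)) with hΛ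
  have hΛ0 : 0 ≤ Λ := by positivity
  obtain ⟨m, hm⟩ := pow_unbounded_of_one_lt (Λ / κ) (by norm_num : (1 : ℝ) < 6)
  set D := 6 ^ m with hD
  have hD1 : 1 ≤ D := Nat.one_le_pow _ _ (by norm_num)
  have hDB1 : 1 ≤ D * 6 ^ N := Nat.mul_pos hD1 (by positivity)
  have hDr : (1 : ℝ) ≤ D := by exact_mod_cast hD1
  set S : ℕ → ℂ := fun u => AA k a N L M (((u / (D * 6 ^ N : ℕ) : ℝ)) : Tor) with hS
  set Bd : Finset ℕ := (range (D * 6 ^ N)).filter (fun u => ‖S u‖ < κ) with hBd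
  have hclose : ∀ x : Tor, ‖AA k a N L M x - S (idx (D * 6 ^ N) x)‖ ≤ κ := by
    intro x
    refine (norm_AA_sub k a N L M hL hM1 _ _).trans ?_
    have h4 := norm_sub_idx (D * 6 ^ N) hDB1 x
    have h5 : (1 : ℝ) / ((D * 6 ^ N : ℕ) : ℝ) ≤ 1 / D := by
      apply one_div_le_one_div_of_le (by linarith)
      push_cast
      have : (1 : ℝ) ≤ 6 ^ N := one_le_pow₀ (by norm_num)
      nlinarith
    have h6 : Λ / κ < D := by rw [hD]; push_cast; exact hm
    rw [div_lt_iff₀ hκ0] at h6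
    calc Λ * ‖x - _‖ ≤ Λ * (1 / D) := by gcongr; exact h4.trans h5
      _ = Λ / D := by ring
      _ ≤ κ := by rw [div_le_iff₀ (by linarith)]; linarith
  have hcov : {x : Tor | idx (D * 6 ^ N) x ∈ Bd} ⊆ {x : Tor | ‖Bx k L M x‖ ≤ ‖c‖ / 2} ∪
        {x : Tor | ‖Bx k M L ((2 ^ (a * N)) • x)‖ ≤ ‖c‖ / 2} := by
    intro x hx
    by_contra hcon
    simp only [Set.mem_union, Set.mem_ofPred_eq, not_or, not_le] at hcon
    obtain ⟨h4, h5⟩ := hcon
    have hx' : idx (D * 6 ^ N) x ∈ Bd := hx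
    have h6 := (mem_filter.1 hx').2
    have h7 := hclose x
    have h8 : ‖c‖ / 2 * (‖c‖ / 2) ≤ ‖AA k a N L M x‖ := by
      rw [AA_eq, norm_mul]
      exact mul_le_mul h4.le h5.le (by positivity) (by positivity)
    have h9 := norm_sub_norm_le (AA k a N L M x) (S (idx (D * 6 ^ N) x))
    have h10 : ‖c‖ / 2 * (‖c‖ / 2) = 2 * κ := by rw [hκ]; ring
    linarith
  have hx1 := cheb k L M c _ hl1 hfk
  have hx2 := cheb k M L c _ hl2 hfk
  have e1 : 4 * (β * ‖c‖ ^ 2 / 8) / ‖c‖ ^ 2 = β / 2 := by field_simp; norm_num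
  rw [e1] at hx1 hx2
  have hmp := mp_pow h2 h3 (a * N) 0
  rw [pow_zero] at hmp
  simp only [mul_one] at hmp
  have hset : MeasurableSet {x : Tor | ‖Bx k M L x‖ ≤ ‖c‖ / 2} :=
    (isClosed_le (continuous_Bx k M L).norm continuous_const).measurableSet
  have hx3 : μ.real {x : Tor | ‖Bx k M L ((2 ^ (a * N)) • x)‖ ≤ ‖c‖ / 2} ≤ β / 2 := by
    refine le_trans (le_of_eq ?_) hx2
    have := hmp.measure_preimage hset.nullMeasurableSet
    unfold Measure.real
    rw [← this]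
    rfl
  have hBsum : ∑ u ∈ Bd, pr μ (D * 6 ^ N) u ≤ β := by
    rw [sum_pr]
    refine (measureReal_mono hcov (measure_ne_top _ _)).trans ?_
    refine (measureReal_union_le _ _).trans ?_
    linarith
  have hSf : ∀ u < D, ∑ j ∈ range (6 ^ N), ‖S (u + D * j)‖ ^ 2 ≤ R := by
    intro u _
    have h4 := hfib' (((u / (D * 6 ^ N : ℕ) : ℝ)) : Tor)
    rw [← sum_dd_neg (6 ^ N) (by positivity) (fun y => ‖AA k a N L M y‖ ^ 2)] at h4
    refine le_trans (le_of_eq ?_) h4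
    refine Finset.sum_congr rfl fun j _ => ?_
    rw [hS]
    simp only
    congr 3
    unfold dd
    rw [← AddCircle.coe_add]
    congr 1
    have hD0 : (D : ℝ) ≠ 0 := by linarith
    push_cast
    field_simp
  have hst := stage1 (b := 6) (by norm_num) hp D N hD1 S Bd R κ β δ hκ0 hδ0 hδ1 hSf hBsum
    (fun u hu hu' => by
      by_contra hcon
      push Not at hcon
      exact hu' (mem_filter.2 ⟨mem_range.2 hu, hcon⟩))
  have hinc := inc_le (b := 6) (by norm_num) hp m N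
  have hNr : (0 : ℝ) < N := by exact_mod_cast hN0
  refine ⟨m + N, ?_⟩
  have h7 : (N : ℝ) * inc 6 (pr μ) (m + N) ≤ N * θ := by
    refine hinc.trans ?_
    rw [hD, ← pow_add] at hst
    refine hst.trans ?_
    have h8 : (β + δ * R / κ ^ 2) * (N * Real.log (6 : ℕ)) ≤ N * θ / 2 := by
      calc (β + δ * R / κ ^ 2) * (N * Real.log (6 : ℕ)) ≤ (β + β) * (N * Real.log (6 : ℕ)) := by
            gcongr
        _ = N * θ / 2 := by
          rw [hβ]; push_cast; field_simp; norm_num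
    have h9 : Real.log (1 / δ) + 1 ≤ N * θ / 2 := by
      have h10 : 2 * (Real.log (1 / δ) + 1) / θ ≤ N := hN1.trans (by exact_mod_cast hN1')
      rw [div_le_iff₀ hθ] at h10
      linarith
    linarith
  exact le_of_mul_le_mul_left h7 hNr

end Helper58.FH
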