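import Mathlib
import Pool.Agent.Helper58.FH.Mem
import Pool.Agent.Helper58.FH.Zero

set_option autoImplicit false
open MeasureTheory Filter Topology Metric Finset
open scoped ENNReal Pointwise

/-! The finite horizon. -/

namespace Helper58.FH

open Helper58.FX (act UU ev ft Erg T sc PE)

variable {μ : Measure Tor}

theorem covering [IsProbabilityMeasure μ] (h2 : MeasurePreserving (T 2) μ μ)
    (h3 : MeasurePreserving (T 3) μ μ) (hE : Erg (ft μ)) (hne : ∃ n : ℤ, n ≠ 0 ∧ ft μ n ≠ 0)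
    (k : ℕ) (hk : 1 ≤ k) (ε : ℝ) (hε : 0 < ε) :
    ∃ n0 : ℕ, ∀ n, n0 ≤ n → ∃ A : Finset Tor, A.card ^ k ≤ 6 ^ n ∧
      1 - ε ≤ μ.real (⋃ a ∈ A, closedBall a (1 / (6 ^ n : ℕ))) := by
  classical
  have h6 : MeasurePreserving (fun x : Tor => 6 • x) μ μ := by
    have := mp_pow h2 h3 1 1
    simpa using this
  have hp : Prof 6 (pr μ) := prof_pr (by norm_num) h6
  have hlog : 0 < Real.log 6 := Real.log_pos (by norm_num)
  have hkr : (0 : ℝ) < k := by exact_mod_cast hk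
  obtain ⟨n0, hn0⟩ := ent_small (b := 6) (by norm_num) hp (inc_small h2 h3 hE hne)
    (ε * Real.log 6 / (2 * k)) (by positivity)
  refine ⟨max n0 k, fun n hn => ?_⟩
  have hn0n : n0 ≤ n := (le_max_left _ _).trans hn
  have hkn : k ≤ n := (le_max_right _ _).trans hn
  set s := n / k with hs
  have hs1 : 1 ≤ s := (Nat.one_le_div_iff (by omega)).2 hkn
  have hsk : s * k ≤ n := Nat.div_mul_le_self n k
  have hns : n ≤ 2 * (s * k) := by
    have h1 : n < k * (s + 1) := Nat.lt_mul_div_succ n (by omega)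
    nlinarith
  obtain ⟨hcard, hmass⟩ := thin_aux (b := 6) (by norm_num) hp n s hs1
  set H := (range (6 ^ n)).filter (fun u => (1 / ((6 : ℕ) : ℝ) ^ s) ≤ pr μ (6 ^ n) u) with hH
  have hD1 : 1 ≤ 6 ^ n := Nat.one_le_pow _ _ (by norm_num)
  refine ⟨H.image (fun u : ℕ => ((u / (6 ^ n : ℕ) : ℝ) : Tor)), ?_, ?_⟩
  · have hc : (H.image (fun u : ℕ => ((u / (6 ^ n : ℕ) : ℝ) : Tor))).card ≤ 6 ^ s := by
      refine Finset.card_image_le.trans ?_
      exact_mod_cast hcard
    calc (H.image (fun u : ℕ => ((u / (6 ^ n : ℕ) : ℝ) : Tor))).card ^ k ≤ (6 ^ s) ^ k :=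
          Nat.pow_le_pow_left hc k
      _ = 6 ^ (s * k) := (pow_mul _ _ _).symm
      _ ≤ 6 ^ n := Nat.pow_le_pow_right (by norm_num) hsk
  · have h4 := (hn0 n hn0n).1
    have h5 : ent (pr μ) (6 ^ n) / (s * Real.log (6 : ℕ)) ≤ ε := by
      have hsr : (0 : ℝ) < s := by exact_mod_cast hs1
      have hlog' : 0 < Real.log ((6 : ℕ) : ℝ) := by exact_mod_cast hlog
      rw [div_le_iff₀ (by positivity)]
      refine h4.trans ?_
      have hns' : (n : ℝ) ≤ 2 * (s * k) := by exact_mod_cast hns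
      push_cast
      calc ε * Real.log 6 / (2 * k) * n ≤ ε * Real.log 6 / (2 * k) * (2 * (s * k)) := by gcongr
        _ = ε * (s * Real.log 6) := by field_simp
    refine (sub_le_sub_left h5 1).trans (hmass.trans ?_)
    rw [sum_pr]
    refine measureReal_mono ?_ (measure_ne_top _ _)
    intro x hx
    have hx' : idx (6 ^ n) x ∈ H := hx
    rw [Set.mem_iUnion₂]
    refine ⟨_, Finset.mem_image_of_mem _ hx', ?_⟩
    rw [mem_closedBall, dist_eq_norm]
    exact norm_sub_idx (6 ^ n) hD1 x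

/-- **The finite horizon.** -/
theorem horizon [IsProbabilityMeasure μ] (h2 : MeasurePreserving (T 2) μ μ)
    (h3 : MeasurePreserving (T 3) μ μ) (hE : Erg (ft μ)) (hne : ∃ n : ℤ, n ≠ 0 ∧ ft μ n ≠ 0)
    (B : ℕ) (ε : ℝ) (hε : 0 < ε) :
    ∃ S0 : ℕ, ∀ S, S0 ≤ S → ∃ G : Set Tor, IsClosed G ∧ 1 - ε ≤ μ.real G ∧
      ∀ x ∈ G, ∀ y ∈ G, ∀ r : ℝ, 0 < r → (S : ℝ) ≤ (Real.log (1 / r)) ^ B →
        ∀ i l : ℕ, 2 ^ i * 3 ^ l ≤ S → ‖(2 ^ i * 3 ^ l) • (x - y)‖ ≤ 2 ^ i * 3 ^ l * r →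
          ‖x - y‖ ≤ r := by
  classical
  rcases Nat.eq_zero_or_pos B with rfl | hB
  · refine ⟨2, fun S hS => ⟨Set.univ, isClosed_univ, ?_, ?_⟩⟩
    · have h6 : μ.real Set.univ = 1 := probReal_univ
      rw [h6]; linarith
    · intro x _ y _ r _ hS'
      have : (2 : ℝ) ≤ S := by exact_mod_cast hS
      rw [pow_zero] at hS'
      linarith
  obtain ⟨n0, hn0⟩ := covering h2 h3 hE hne (8 * B) (by omega) (ε / 16) (by positivity)
  refine ⟨max (max (6 ^ n0) (400000)) ((57 + 8 * B) ^ (2 * B)), fun S hS => ?_⟩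
  have hSn0 : 6 ^ n0 ≤ S := ((le_max_left _ _).trans (le_max_left _ _)).trans hS
  have hS4 : 400000 ≤ S := ((le_max_right _ _).trans (le_max_left _ _)).trans hS
  have hSB : (57 + 8 * B) ^ (2 * B) ≤ S := (le_max_right _ _).trans hS
  have hSr : (400000 : ℝ) ≤ S := by exact_mod_cast hS4
  -- the scale
  obtain ⟨n, hn1, hn2⟩ : ∃ n, S ^ 2 ≤ 6 ^ n ∧ 6 ^ n ≤ 6 * S ^ 2 := by
    refine ⟨Nat.log 6 (S ^ 2) + 1, (Nat.lt_pow_succ_log_self (by norm_num) _).le, ?_⟩
    rw [pow_succ, mul_comm]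
    exact Nat.mul_le_mul_left _ (Nat.pow_log_le_self 6 (by positivity))
  have hn0n : n0 ≤ n := by
    have h4 : 6 ^ n0 ≤ 6 ^ n := by
      calc 6 ^ n0 ≤ S := hSn0
        _ ≤ S ^ 2 := Nat.le_self_pow (by norm_num) S
        _ ≤ 6 ^ n := hn1
    exact (Nat.pow_le_pow_iff_right (by norm_num)).1 h4
  obtain ⟨A, hA, hmass⟩ := hn0 n hn0n
  set a := A.card ^ 2 with ha
  have ha4 : a ^ (4 * B) ≤ 6 * S ^ 2 := by
    rw [ha, ← pow_mul, show 2 * (4 * B) = 8 * B by ring]
    exact hA.trans hn2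
  have haS : 160 * a ≤ S := by
    have h4 : a ^ 4 ≤ 6 * S ^ 2 := by
      refine le_trans ?_ ha4
      rcases Nat.eq_zero_or_pos a with h0 | h0
      · rw [h0]; simp
      · exact Nat.pow_le_pow_right h0 (by omega)
    by_contra hcon
    push Not at hcon
    have h5 : (160 * a) ^ 4 ≤ 160 ^ 4 * (6 * S ^ 2) := by
      rw [mul_pow]; exact Nat.mul_le_mul_left _ h4
    have h6 : S ^ 4 < 160 ^ 4 * (6 * S ^ 2) := lt_of_lt_of_le (Nat.pow_lt_pow_left hcon (by norm_num)) h5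
    have h7 : 400000 ^ 2 * S ^ 2 ≤ S ^ 4 := by
      calc 400000 ^ 2 * S ^ 2 ≤ S ^ 2 * S ^ 2 := Nat.mul_le_mul_right _ (Nat.pow_le_pow_left hS4 2)
        _ = S ^ 4 := by ring
    have h8 : 0 < S ^ 2 := by positivity
    nlinarith
  obtain ⟨G, hGc, hG, hmain⟩ := memory h2 h3 A S haS
  refine ⟨G, hGc, ?_, ?_⟩
  · refine le_trans ?_ hG
    have h4 : μ.real (⋃ a ∈ A, closedBall a (1 / (6 ^ n : ℕ))) ≤
        μ.real (⋃ a ∈ A, closedBall a (1 / (S : ℝ) ^ 2)) := by
      refine measureReal_mono ?_ (measure_ne_top _ _)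
      refine Set.iUnion₂_mono fun b _ => closedBall_subset_closedBall ?_
      apply one_div_le_one_div_of_le (by positivity)
      exact_mod_cast hn1
    linarith
  · intro x hx y hy r hr hSlog i l hil hnorm
    rcases le_or_gt (1 / 2) r with hr2 | hr2
    · refine le_trans ?_ hr2
      have := AddCircle.norm_le_half_period (1 : ℝ) one_ne_zero (x := x - y)
      simpa using this
    refine hmain x hx y hy r hr.le ?_ i l hil hnorm
    set Y := Real.log (1 / r) with hY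
    have hY0 : 0 < Y := Real.log_pos (by rw [lt_div_iff₀ hr]; linarith)
    have hYr : r = Real.exp (-Y) := by
      rw [hY, Real.log_div one_ne_zero hr.ne', Real.log_one, zero_sub, neg_neg, Real.exp_log hr]
    set P : ℝ := 57 + 8 * B with hP
    have hP0 : 0 < P := by positivity
    have hYB : P ^ 2 ≤ Y := by
      have h4 : (P ^ 2) ^ B ≤ Y ^ B := by
        refine le_trans ?_ hSlog
        rw [← pow_mul, hP]
        exact_mod_cast hSB
      exact le_of_pow_le_pow_left₀ (by omega) hY0.le h4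
    -- `a ^ 2 ≤ 6 Y`
    have haY : (a : ℝ) ^ 2 ≤ 6 * Y := by
      have h4 : ((a : ℝ) ^ 2) ^ (2 * B) ≤ 6 * (Y ^ B) ^ 2 := by
        rw [← pow_mul, show 2 * (2 * B) = 4 * B by ring]
        calc (a : ℝ) ^ (4 * B) ≤ 6 * (S : ℝ) ^ 2 := by exact_mod_cast ha4
          _ ≤ 6 * (Y ^ B) ^ 2 := by gcongr
      have h5 : 6 * (Y ^ B) ^ 2 ≤ (6 * Y) ^ (2 * B) := by
        rw [mul_pow, ← pow_mul, mul_comm B 2]
        gcongr
        calc (6 : ℝ) = 6 ^ 1 := (pow_one _).symm
          _ ≤ 6 ^ (2 * B) := pow_le_pow_right₀ (by norm_num) (by omega)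
      exact le_of_pow_le_pow_left₀ (by omega) (by positivity) (h4.trans h5)
    set R := Real.sqrt Y with hR
    have hR0 : 0 < R := Real.sqrt_pos.2 hY0
    have hRR : R ^ 2 = Y := Real.sq_sqrt hY0.le
    have hRP : P ≤ R := Real.le_sqrt_of_sq_le hYB
    have haR : (a : ℝ) ≤ 2.5 * R := by
      have h4 : (a : ℝ) ^ 2 ≤ (2.5 * R) ^ 2 := by
        rw [mul_pow, hRR]
        linarith
      exact le_of_pow_le_pow_left₀ (by norm_num) (by positivity) h4
    have hlogR : Real.log R ≤ R := (Real.log_le_sub_one_of_pos hR0).trans (by linarith)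
    have hlogS : Real.log S ≤ 2 * B * R := by
      have h4 : Real.log S ≤ Real.log (Y ^ B) := Real.log_le_log (by linarith) hSlog
      rw [Real.log_pow, ← hRR, Real.log_pow] at h4
      push_cast at h4
      have hBr : (0 : ℝ) ≤ B := Nat.cast_nonneg _
      nlinarith
    have hlog3 : Real.log 3 ≤ 1.1 := by
      have h4 : Real.log 3 < 1.1 := by
        rw [Real.log_lt_iff_lt_exp (by norm_num)]
        have h5 : (1.1 : ℝ) = 1 + 0.1 := by norm_num
        rw [h5, Real.exp_add]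
        have h6 := Real.exp_one_gt_d9
        have h7 := Real.add_one_le_exp (0.1 : ℝ)
        norm_num at h6 h7 ⊢
        have h8 : (2.7182818283 : ℝ) * 1.1 < 3 := by norm_num
        -- second-order bound
        have h9 := Real.quadratic_le_exp_of_nonneg (show (0 : ℝ) ≤ 1 / 10 by norm_num)
        nlinarith
      exact h4.le
    have hfin : Real.log ((S : ℝ) ^ 4 * 3 ^ (20 * a)) ≤ Y := by
      rw [Real.log_mul (by positivity) (by positivity), Real.log_pow, Real.log_pow]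
      push_cast
      have h4 : (20 * (a : ℝ)) * Real.log 3 ≤ 20 * (2.5 * R) * 1.1 := by
        have : 0 ≤ Real.log 3 := Real.log_nonneg (by norm_num)
        gcongr
      have h5 : P * R ≤ Y := by
        rw [← hRR, sq]
        gcongr
      rw [hP] at h5
      nlinarith
    have h4 : (S : ℝ) ^ 4 * 3 ^ (20 * a) ≤ Real.exp Y := by
      rw [← Real.log_le_iff_le_exp (by positivity)]
      exact hfin
    rw [hYr]
    calc (S : ℝ) ^ 4 * 3 ^ (20 * a) * Real.exp (-Y) ≤ Real.exp Y * Real.exp (-Y) := by gcongr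
      _ = 1 := by rw [← Real.exp_add]; simp

end Helper58.FH
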