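import Pool.Agent.Helper58.FH.Smooth
import Pool.Agent.Helper58.FH.Max
import Pool.Agent.Helper17.KW.St.G4

set_option autoImplicit false
open MeasureTheory Filter Topology Metric Finset
open scoped ENNReal ComplexConjugate

/-! The finite horizon beyond powers of the logarithm: multipliers `2 ^ i 3 ^ l`. -/

namespace Helper58.FH

open Helper58.FX (act UU ev ft Erg T sc PE)

/-- average of a character along the powers of `g` -/
noncomputable def avg (g m M : ℕ) (x : Tor) : ℂ :=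
  (1 / M : ℂ) * ∑ t ∈ range M, (fourier (m : ℤ) (g ^ t • x) : ℂ)

lemma bad_shift (g l N : ℕ) (U : Set Tor) (x : Tor) :
    bad g 0 N U (g ^ l • x) ≤ bad g 0 N U x + l := by
  classical
  unfold bad
  have h1 : (range N).filter (fun t => g ^ (0 + t) • (g ^ l • x) ∉ U) ⊆
      ((range N).filter (fun t => g ^ (0 + (l + t)) • x ∉ U)) := by
    intro t ht
    rw [mem_filter] at ht ⊢
    refine ⟨ht.1, ?_⟩
    have e : g ^ (0 + (l + t)) • x = g ^ (0 + t) • (g ^ l • x) := by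
      rw [← mul_smul, ← pow_add]
      congr 2
      ring
    rw [e]
    exact ht.2
  refine (Finset.card_le_card h1).trans ?_
  have h2 : (((range N).filter (fun t => g ^ (0 + (l + t)) • x ∉ U)).image fun t => l + t) ⊆
      (range N).filter (fun t => g ^ (0 + t) • x ∉ U) ∪ Ico N (N + l) := by
    intro t ht
    rw [mem_image] at ht
    obtain ⟨u, hu, rfl⟩ := ht
    rw [mem_filter, mem_range] at hu
    rw [mem_union, mem_filter, mem_range, mem_Ico]
    by_cases h : l + u < N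
    · exact Or.inl ⟨h, hu.2⟩
    · right
      omega
  have h3 := Finset.card_le_card h2
  rw [Finset.card_image_of_injective _ (fun a b h => by simpa using h)] at h3
  refine h3.trans ((Finset.card_union_le _ _).trans ?_)
  rw [Nat.card_Ico]
  omega

lemma sideG (g : ℕ) (hg : 1 ≤ g) (A : Finset Tor) (ρ : ℝ) (hρ : 0 ≤ ρ) (m0 : ℕ) (c : ℤ → ℂ)
    (δ : ℝ)
    (hmaj : ∀ x : Tor, (VV A ρ 2 1).indicator (fun _ => (1 : ℝ)) x ≤
        (∑ m ∈ Finset.Icc (-(m0 : ℤ)) m0, c m * fourier m x).re)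
    (hno : ∀ z : ℤ → ℂ, z 0 = 1 → (∀ m, z (-m) = conj (z m)) →
        (∀ m : ℕ, 1 ≤ m → m ≤ m0 → ‖z m‖ < δ) →
        (∑ m ∈ Finset.Icc (-(m0 : ℤ)) m0, c m * z m).re < 1 / 2)
    (M : ℕ) (hM : 1 ≤ M) (x x' : Tor) (q : Tor) (θ : ℝ)
    (hav : ∀ m : ℕ, 1 ≤ m → m ≤ m0 → ‖avg g m M q‖ < δ / 2)
    (hq : x - x' = q + ((θ : ℝ) : Tor)) (hθ : 2 * Real.pi * m0 * ((g : ℝ) ^ M * |θ|) ≤ δ / 2)
    (hx : 2 * (bad g 0 M (⋃ a ∈ A, closedBall a ρ) x +
      bad g 0 M (⋃ a ∈ A, closedBall a ρ) x') ≤ M) : False := by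
  classical
  have hMr : (0 : ℝ) < M := by exact_mod_cast hM
  have hgr : (1 : ℝ) ≤ g := by exact_mod_cast hg
  set U : Set Tor := ⋃ a ∈ A, closedBall a ρ with hU
  set z : ℤ → ℂ := fun m => (1 / M : ℂ) * ∑ t ∈ range M, (fourier m (g ^ t • (x - x')) : ℂ) with hz
  have hlt := hno z ?_ ?_ ?_
  · set S : Finset ℕ := (range M).filter
      (fun t => g ^ (0 + t) • x ∈ U ∧ g ^ (0 + t) • x' ∈ U) with hS
    have h1 : range M ⊆ S ∪ (range M).filter (fun t => g ^ (0 + t) • x ∉ U) ∪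
        (range M).filter (fun t => g ^ (0 + t) • x' ∉ U) := by
      intro t ht
      simp only [hS, mem_union, mem_filter, ht, true_and]
      tauto
    have h2 : M ≤ S.card + bad g 0 M U x + bad g 0 M U x' := by
      have h3 := Finset.card_le_card h1
      rw [card_range] at h3
      refine h3.trans ((Finset.card_union_le _ _).trans ?_)
      gcongr
      · exact Finset.card_union_le _ _
      · exact le_rfl
    have h3 : M ≤ 2 * S.card := by omega
    have h4 : (S.card : ℝ) ≤ ∑ t ∈ range M,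
        (VV A ρ 2 1).indicator (fun _ => (1 : ℝ)) (g ^ t • (x - x')) := by
      have h5 : ∀ t ∈ range M, (if t ∈ S then (1 : ℝ) else 0) ≤
          (VV A ρ 2 1).indicator (fun _ => (1 : ℝ)) (g ^ t • (x - x')) := by
        intro t _
        by_cases htS : t ∈ S
        · rw [if_pos htS]
          have hm := (mem_filter.1 htS).2
          rw [zero_add] at hm
          have hV : g ^ t • (x - x') ∈ VV A ρ 2 1 := by
            have h5 := mem_VV A ρ hρ 2 1 ![1, -1] ?_ ![g ^ t • x, g ^ t • x'] ?_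
            · rw [Fin.sum_univ_two] at h5
              simp only [Matrix.cons_val_zero, Matrix.cons_val_one, one_smul, neg_smul] at h5
              rw [← sub_eq_add_neg, ← smul_sub] at h5
              exact h5
            · intro i
              fin_cases i <;> simp
            · intro i
              fin_cases i
              · exact hm.1
              · exact hm.2
          rw [Set.indicator_of_mem hV]
        · rw [if_neg htS]
          exact Set.indicator_nonneg (fun _ _ => zero_le_one) _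
      refine le_trans (le_of_eq ?_) (Finset.sum_le_sum h5)
      rw [← Finset.sum_filter, Finset.sum_const, nsmul_eq_mul, mul_one]
      congr 2
      ext t
      simp only [hS, mem_filter]
      tauto
    have h5 : (∑ m ∈ Finset.Icc (-(m0 : ℤ)) m0, c m * z m).re = (1 / M : ℝ) * ∑ t ∈ range M,
        (∑ m ∈ Finset.Icc (-(m0 : ℤ)) m0, c m * fourier m (g ^ t • (x - x'))).re := by
      have h6 : ∑ m ∈ Finset.Icc (-(m0 : ℤ)) m0, c m * z m = ((1 / M : ℝ) : ℂ) *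
          ∑ t ∈ range M, ∑ m ∈ Finset.Icc (-(m0 : ℤ)) m0, c m * fourier m (g ^ t • (x - x')) := by
        simp only [hz, Finset.mul_sum]
        rw [Finset.sum_comm]
        refine Finset.sum_congr rfl fun s _ => Finset.sum_congr rfl fun m _ => ?_
        push_cast
        ring
      rw [h6, Complex.re_ofReal_mul, Complex.re_sum]
    have h6 : (1 / M : ℝ) * S.card ≤ (∑ m ∈ Finset.Icc (-(m0 : ℤ)) m0, c m * z m).re := by
      rw [h5]
      gcongr
      exact h4.trans (Finset.sum_le_sum fun t _ => hmaj _)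
    have h7 : (M : ℝ) ≤ 2 * S.card := by exact_mod_cast h3
    have h8 : (1 : ℝ) / 2 ≤ 1 / M * S.card := by
      rw [one_div (M : ℝ), ← div_eq_inv_mul, le_div_iff₀ hMr]
      linarith only [h7]
    linarith only [hlt, h6, h8]
  · rw [hz]
    simp only [fourier_zero, Finset.sum_const, card_range, nsmul_eq_mul, mul_one]
    have : (M : ℂ) ≠ 0 := by exact_mod_cast hMr.ne'
    field_simp
  · intro m
    rw [hz]
    simp only
    rw [map_mul, map_sum]
    congr 1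
    · simp
    · exact Finset.sum_congr rfl fun t _ => fourier_neg
  · intro m hm1 hm2
    have e : z m = avg g m M (x - x') := rfl
    rw [e]
    have h1 : ‖avg g m M (x - x') - avg g m M q‖ ≤ δ / 2 := by
      have e2 : avg g m M (x - x') - avg g m M q = (1 / M : ℂ) * ∑ t ∈ range M,
          ((fourier (m : ℤ) (g ^ t • (x - x')) : ℂ) - fourier (m : ℤ) (g ^ t • q)) := by
        unfold avg
        rw [← mul_sub, Finset.sum_sub_distrib]
      rw [e2, norm_mul]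
      have h2 : ‖(1 / M : ℂ)‖ = 1 / M := by
        rw [norm_div, norm_one, Complex.norm_natCast]
      have h3 : ∀ t ∈ range M, ‖(fourier (m : ℤ) (g ^ t • (x - x')) : ℂ) -
          fourier (m : ℤ) (g ^ t • q)‖ ≤ δ / 2 := by
        intro t ht
        refine (fourier_lip _ _ _).trans (le_trans ?_ hθ)
        have e3 : g ^ t • (x - x') - g ^ t • q = (((g : ℝ) ^ t * θ : ℝ) : Tor) := by
          rw [hq, smul_add, add_sub_cancel_left, ← AddCircle.coe_nsmul, nsmul_eq_mul]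
          push_cast
          rfl
        have h4 : ‖g ^ t • (x - x') - g ^ t • q‖ ≤ (g : ℝ) ^ M * |θ| := by
          rw [e3]
          refine (norm_coe_le _).trans ?_
          rw [abs_mul, abs_of_pos (by positivity)]
          gcongr
          exact (mem_range.1 ht).le
        have h5 : ((|(m : ℤ)| : ℤ) : ℝ) ≤ m0 := by
          have : |(m : ℤ)| ≤ m0 := by rw [abs_of_nonneg (by omega)]; exact_mod_cast hm2
          exact_mod_cast this
        gcongr
      have h4 := (norm_sum_le _ _).trans (Finset.sum_le_sum h3)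
      rw [Finset.sum_const, card_range, nsmul_eq_mul] at h4
      rw [h2]
      calc 1 / (M : ℝ) * _ ≤ 1 / (M : ℝ) * (M * (δ / 2)) := by gcongr
        _ = δ / 2 := by field_simp
    have h2 := hav m hm1 hm2
    have h3 : ‖avg g m M (x - x')‖ ≤ ‖avg g m M (x - x') - avg g m M q‖ + ‖avg g m M q‖ := by
      have := norm_add_le (avg g m M (x - x') - avg g m M q) (avg g m M q)
      rwa [sub_add_cancel] at this
    linarith only [h1, h2, h3]

/-- Korobov's bound for the averages along the powers of `g` of a point with denominator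
`p ^ n'`. -/
theorem kor_av (p g : ℕ) (hpg : (p = 2 ∧ g = 3) ∨ (p = 3 ∧ g = 2)) (γ : ℝ) (hγ : γ < 3 / 2)
    (m0 : ℕ) (δ : ℝ) (hδ : 0 < δ) :
    ∃ q₀ : ℕ, ∀ q, q₀ ≤ q → ∀ n' : ℕ, 4 + m0 ≤ n' → (n' : ℝ) ≤ (q : ℝ) ^ γ →
      ∀ d : ℤ, ¬ (p : ℤ) ∣ d → ∀ m : ℕ, 1 ≤ m → m ≤ m0 →
        ‖avg g m (p ^ q) (((d / (p : ℝ) ^ n' : ℝ)) : Tor)‖ < δ := by
  have hp : p.Prime := by
    rcases hpg with ⟨rfl, -⟩ | ⟨rfl, -⟩
    · exact Nat.prime_two
    · exact Nat.prime_three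
  have hp2 : 2 ≤ p := hp.two_le
  have hpr : (0 : ℝ) < p := by exact_mod_cast (by omega : 0 < p)
  obtain ⟨q₀, hq₀⟩ := Pool.Agent.Helper17.KW.korobov_gen p g hpg γ hγ (δ / 2) (by positivity)
  refine ⟨q₀, fun q hq n' hn hnq d hd m hm1 hm2 => ?_⟩
  obtain ⟨v, m', hm', hmv⟩ := Nat.exists_eq_pow_mul_and_not_dvd (n := m) (by omega) p (by omega)
  have hm'1 : 1 ≤ m' := by
    rcases Nat.eq_zero_or_pos m' with h | h
    · exact absurd (h ▸ dvd_zero p) hm'
    · exact h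
  have hvm : v ≤ m := by
    have h3 : v < p ^ v := Nat.lt_pow_self (by omega)
    have h4 : p ^ v ≤ m := by
      rw [hmv]; exact Nat.le_mul_of_pos_right _ hm'1
    omega
  have hv : v + 4 ≤ n' := by omega
  have hnd : ¬ (p : ℤ) ∣ ((m' : ℤ) * d) := by
    intro h4
    have h3 : Prime (p : ℤ) := Nat.prime_iff_prime_int.mp hp
    rcases h3.dvd_or_dvd h4 with h5 | h5
    · exact hm' (by exact_mod_cast h5)
    · exact hd h5
  have hnle : ((n' - v : ℕ) : ℝ) ≤ (q : ℝ) ^ γ := by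
    refine le_trans ?_ hnq
    exact_mod_cast Nat.sub_le n' v
  have key := hq₀ q hq (n' - v) (by omega) hnle ((m' : ℤ) * d) hnd
  have hterm : ∀ k : ℕ, (fourier (m : ℤ) (g ^ k • (((d / (p : ℝ) ^ n' : ℝ)) : Tor)) : ℂ) =
      Pool.Agent.Helper17.KW.e ((((m' : ℤ) * d : ℤ) : ℝ) * (g : ℝ) ^ k / (p : ℝ) ^ (n' - v)) := by
    intro k
    rw [← AddCircle.coe_nsmul, fourier_coe_apply]
    unfold Pool.Agent.Helper17.KW.e
    congr 1
    have h3 : (p : ℝ) ^ n' = (p : ℝ) ^ (n' - v) * (p : ℝ) ^ v := by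
      rw [← pow_add]; congr 1; omega
    have h4 : (p : ℝ) ^ v ≠ 0 := by positivity
    have h5 : (p : ℝ) ^ (n' - v) ≠ 0 := by positivity
    have h6 : (m : ℝ) = (p : ℝ) ^ v * m' := by
      rw [hmv]; push_cast; ring
    have h7 : ((m : ℕ) : ℝ) * ((g : ℝ) ^ k * (d / (p : ℝ) ^ n')) =
        (((m' : ℤ) * d : ℤ) : ℝ) * (g : ℝ) ^ k / (p : ℝ) ^ (n' - v) := by
      rw [h3, h6]
      push_cast
      field_simp
    rw [← h7, nsmul_eq_mul]
    push_cast
    ring
  have hN0 : (0 : ℝ) < ((p ^ q : ℕ) : ℝ) := by positivity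
  unfold avg
  rw [Finset.sum_congr rfl fun k _ => hterm k, norm_mul, norm_div, norm_one, Complex.norm_natCast]
  have h8 : 1 / ((p ^ q : ℕ) : ℝ) * ‖∑ k ∈ range (p ^ q), Pool.Agent.Helper17.KW.e
      ((((m' : ℤ) * d : ℤ) : ℝ) * (g : ℝ) ^ k / (p : ℝ) ^ (n' - v))‖ ≤
      1 / ((p ^ q : ℕ) : ℝ) * (δ / 2 * (p : ℝ) ^ q) := by gcongr
  refine h8.trans_lt ?_
  have h9 : 1 / ((p ^ q : ℕ) : ℝ) * (δ / 2 * (p : ℝ) ^ q) = δ / 2 := by
    push_cast
    field_simp
  rw [h9]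
  linarith only [hδ]

lemma eight_sq (q : ℕ) (hq : 10 ≤ q) : 8 * q ^ 2 ≤ 2 ^ q := by
  induction q, hq using Nat.le_induction with
  | base => norm_num
  | succ q hq ih =>
    rw [pow_succ 2 q]
    nlinarith only [hq, ih]

/-- the choice of the length of the averages -/
lemma kor_scale (θ γ : ℝ) (hγ : 0 < γ) (hγ2 : γ ≤ 2) (h : 1 / γ < θ) (q0 : ℕ) (C : ℝ) :
    ∃ S0 : ℕ, ∀ S : ℕ, S0 ≤ S → 1 ≤ Real.log S ∧ ∃ q : ℕ, q0 ≤ q ∧
      2 * Real.log S ≤ (q : ℝ) ^ γ ∧ 16 * Real.log S ≤ 2 ^ q ∧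
      q ≤ Real.exp ((Real.log S) ^ θ) ∧
      C * ((3 : ℝ) ^ (3 ^ q) * S) ≤ Real.exp (Real.exp ((Real.log S) ^ θ)) := by
  have hlog : Tendsto (fun S : ℕ => Real.log S) atTop atTop :=
    Real.tendsto_log_atTop.comp tendsto_natCast_atTop_atTop
  have hg : 0 < 1 / γ := by positivity
  have h1 := hlog.eventually_ge_atTop 1
  have h2 : ∀ᶠ S : ℕ in atTop, (q0 : ℝ) + 10 + |C| ≤ (2 * Real.log S) ^ (1 / γ) :=
    ((tendsto_rpow_atTop hg).comp (hlog.const_mul_atTop (by norm_num : (0 : ℝ) < 2))).eventually_ge_atTop _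
  have h3 : ∀ᶠ S : ℕ in atTop, 2 * 2 ^ (1 / γ) + 4 ≤ (Real.log S) ^ (θ - 1 / γ) :=
    ((tendsto_rpow_atTop (by linarith)).comp hlog).eventually_ge_atTop _
  obtain ⟨S0, hS0⟩ := eventually_atTop.mp (h1.and (h2.and h3))
  refine ⟨S0 + 1, fun S hS => ?_⟩
  obtain ⟨hL1, hA, hgap⟩ := hS0 S (by omega)
  have hS1 : (1 : ℝ) ≤ S := by exact_mod_cast (by omega : 1 ≤ S)
  refine ⟨hL1, ?_⟩
  set L := Real.log S with hL
  obtain ⟨A, hAdef⟩ : ∃ A, A = (2 * L) ^ (1 / γ) := ⟨_, rfl⟩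
  rw [← hAdef] at hA
  have hA0 : 0 ≤ A := by rw [hAdef]; positivity
  have hqA : A ≤ ⌈A⌉₊ := Nat.le_ceil A
  have hqA' : (⌈A⌉₊ : ℝ) < A + 1 := Nat.ceil_lt_add_one hA0
  set q := ⌈A⌉₊ with hq
  have hC0 : 0 ≤ |C| := abs_nonneg C
  have hq0r : (0 : ℝ) ≤ q0 := Nat.cast_nonneg q0
  have hqq0 : q0 ≤ q := by
    have : (q0 : ℝ) ≤ q := by linarith only [hA, hqA, hC0]
    exact_mod_cast this
  have hq10 : 10 ≤ q := by
    have : (10 : ℝ) ≤ q := by linarith only [hA, hqA, hC0]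
    exact_mod_cast this
  have hq1 : (1 : ℝ) ≤ q := by
    have : (10 : ℝ) ≤ q := by exact_mod_cast hq10
    linarith only [hA, hqA, hC0]
  have hqC : |C| ≤ q := by linarith only [hA, hqA]
  have hqγ : 2 * L ≤ (q : ℝ) ^ γ := by
    have h5 : A ^ γ = 2 * L := by
      rw [hAdef, ← Real.rpow_mul (by linarith only [hL1]), one_div, inv_mul_cancel₀ hγ.ne', Real.rpow_one]
    rw [← h5]
    exact Real.rpow_le_rpow hA0 hqA hγ.le
  have h16 : 16 * L ≤ 2 ^ q := by
    have h5 : (q : ℝ) ^ γ ≤ (q : ℝ) ^ 2 := by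
      have := Real.rpow_le_rpow_of_exponent_le hq1 hγ2
      rwa [Real.rpow_ofNat] at this
    have h6 : 8 * (q : ℝ) ^ 2 ≤ 2 ^ q := by exact_mod_cast eight_sq q hq10
    linarith only [hqγ, h5, h6]
  refine ⟨q, hqq0, hqγ, h16, ?_⟩
  set X : ℝ := 3 ^ q with hX
  have hX1 : (1 : ℝ) ≤ X := one_le_pow₀ (by norm_num)
  have h2X : (2 : ℝ) ^ q ≤ X := pow_le_pow_left₀ (by norm_num) (by norm_num) q
  have hqX : (q : ℝ) ≤ X := by
    have h5 : q ≤ 3 ^ q := (Nat.lt_pow_self (by norm_num)).le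
    rw [hX]
    exact_mod_cast h5
  have hLX : L ≤ X := by linarith only [hL1, h16, h2X]
  have he2 : (4 : ℝ) ≤ Real.exp 2 := by
    have h5 := Real.exp_one_gt_d9
    have h6 : Real.exp 2 = Real.exp 1 * Real.exp 1 := by
      rw [← Real.exp_add]
      norm_num
    rw [h6]
    have h7 : (2 : ℝ) ≤ Real.exp 1 := by linarith only [h5]
    have h8 := mul_le_mul h7 h7 (by norm_num) (by linarith only [h7])
    linarith only [h8]
  have hC : C ≤ Real.exp X := by
    have h5 := Real.add_one_le_exp X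
    have h6 := le_abs_self C
    linarith only [hA, hqA, hqX, h5, h6]
  have hS : (S : ℝ) ≤ Real.exp X := by
    rw [← Real.exp_log (by linarith only [hS1] : (0 : ℝ) < S)]
    exact Real.exp_le_exp.2 hLX
  have h3X : (3 : ℝ) ^ (3 ^ q) ≤ Real.exp (2 * X) := by
    have h5 : Real.exp (2 * X) = (Real.exp 2) ^ (3 ^ q) := by
      rw [← Real.exp_nat_mul]
      congr 1
      rw [hX]
      push_cast
      ring
    rw [h5]
    exact pow_le_pow_left₀ (by norm_num) (by linarith only [he2]) _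
  have h4X : 4 * X ≤ Real.exp (L ^ θ) := by
    have h5 : X ≤ Real.exp (2 * q) := by
      rw [hX, mul_comm, Real.exp_nat_mul]
      exact pow_le_pow_left₀ (by norm_num) (by linarith only [he2]) _
    have h6 : 2 + 2 * (q : ℝ) ≤ L ^ θ := by
      have h7 : L ^ θ = L ^ (θ - 1 / γ) * L ^ (1 / γ) := by
        rw [← Real.rpow_add (by linarith only [hL1])]
        congr 1
        ring
      have h8 : A = 2 ^ (1 / γ) * L ^ (1 / γ) := by
        rw [hAdef, Real.mul_rpow (by norm_num) (by linarith only [hL1])]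
      have h9 : 1 ≤ L ^ (1 / γ) := Real.one_le_rpow hL1 hg.le
      rw [h7]
      have h10 : (2 * 2 ^ (1 / γ) + 4) * L ^ (1 / γ) ≤ L ^ (θ - 1 / γ) * L ^ (1 / γ) := by gcongr
      linarith only [hqA', h8, h9, h10]
    calc 4 * X ≤ Real.exp 2 * Real.exp (2 * q) := by gcongr
      _ = Real.exp (2 + 2 * q) := (Real.exp_add _ _).symm
      _ ≤ Real.exp (L ^ θ) := Real.exp_le_exp.2 h6
  refine ⟨by linarith only [hL1, h16, h2X, hqX, h4X], ?_⟩
  calc C * ((3 : ℝ) ^ (3 ^ q) * S) ≤ Real.exp X * (Real.exp (2 * X) * Real.exp X) := by gcongr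
    _ = Real.exp (4 * X) := by rw [← Real.exp_add, ← Real.exp_add]; congr 1; ring
    _ ≤ _ := Real.exp_le_exp.2 h4X

variable {μ : Measure Tor}

/-- **The Korobov horizon.**  One closed set of mass at least `1 - ε` serves all scales. -/
theorem kor [IsProbabilityMeasure μ] (h2 : MeasurePreserving (T 2) μ μ)
    (h3 : MeasurePreserving (T 3) μ μ) (hE : Erg (ft μ)) (hne : ∃ n : ℤ, n ≠ 0 ∧ ft μ n ≠ 0)
    (ε : ℝ) (hε : 0 < ε) :
    ∃ K : Set Tor, IsClosed K ∧ 1 - ε ≤ μ.real K ∧ ∀ θ : ℝ, 2 / 3 < θ → ∃ S0 : ℕ,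
      ∀ S : ℕ, S0 ≤ S → ∀ x ∈ K, ∀ y ∈ K, ∀ r : ℝ, 0 < r →
        r ≤ Real.exp (-Real.exp ((Real.log S) ^ θ)) →
        ∀ i l : ℕ, 2 ^ i * 3 ^ l ≤ S → ‖(2 ^ i * 3 ^ l) • (x - y)‖ ≤ 2 ^ i * 3 ^ l * r →
          ‖x - y‖ ≤ r := by
  classical
  -- the fixed thin set
  obtain ⟨A1, ρ1, hρ1, hsmall, hmass1⟩ := thin h2 h3 hE hne 2 1000 (min (ε / 64) 1) (by norm_num)
    (by positivity)
  have hvol : (volume : Measure Tor) (VV A1 ρ1 2 1) < ENNReal.ofReal (1 / 4) := by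
    refine (volume_VV A1 ρ1 hρ1.le 2 1).trans_lt ?_
    rw [ENNReal.ofReal_lt_ofReal_iff (by norm_num)]
    have h1 := min_le_right (ε / 64) (1 : ℝ)
    push_cast
    norm_num
    norm_num at hsmall
    linarith only [hsmall.2]
  have hmass1' : 1 - ε / 64 ≤ μ.real (⋃ a ∈ A1, closedBall a ρ1) := by
    have := min_le_left (ε / 64) (1 : ℝ)
    linarith only [hmass1, this]
  obtain ⟨m0, cc, δ, hδ, hmaj, hno⟩ := majorant' _ (isClosed_VV A1 ρ1 2 1) hvol
  obtain ⟨S1, hS1⟩ := horizon h2 h3 hE hne 1 (ε / 4) (by positivity)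
  obtain ⟨G1, hG1c, hG1m, hG1⟩ := hS1 (max S1 (6 ^ (4 + m0))) (le_max_left _ _)
  set S2 := max S1 (6 ^ (4 + m0)) with hS2
  set U1 : Set Tor := ⋃ a ∈ A1, closedBall a ρ1 with hU1
  have hU1c : IsClosed U1 := isClosed_biUnion_finset fun _ _ => isClosed_closedBall
  have hm2 : ∀ n, MeasurePreserving (fun x : Tor => 2 ^ n • x) μ μ := by
    intro n
    have := mp_pow h2 h3 n 0
    simpa using this
  have hm3 : ∀ n, MeasurePreserving (fun x : Tor => 3 ^ n • x) μ μ := by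
    intro n
    have := mp_pow h2 h3 0 n
    simpa using this
  set T3 : Set Tor := {y | ∀ N, 8 * bad 3 0 N U1 y ≤ N} with hT3
  set T2 : Set Tor := {y | ∀ N, 8 * bad 2 0 N U1 y ≤ N} with hT2
  have hT3c : IsClosed T3 := bad_all_closed _ _ _ hU1c
  have hT2c : IsClosed T2 := bad_all_closed _ _ _ hU1c
  have hT3m : μ.real T3ᶜ ≤ (8 : ℕ) * (1 - μ.real U1) := bad_all_mass 3 8 hm3 U1 hU1c
  have hT2m : μ.real T2ᶜ ≤ (8 : ℕ) * (1 - μ.real U1) := bad_all_mass 2 8 hm2 U1 hU1c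
  push_cast at hT3m hT2m
  refine ⟨G1 ∩ (T3 ∩ T2), hG1c.inter (hT3c.inter hT2c), ?_, ?_⟩
  · have h4 : μ.real (G1 ∩ (T3 ∩ T2))ᶜ ≤ μ.real G1ᶜ + (μ.real T3ᶜ + μ.real T2ᶜ) := by
      rw [Set.compl_inter, Set.compl_inter]
      exact (measureReal_union_le _ _).trans (by gcongr; exact measureReal_union_le _ _)
    rw [probReal_compl_eq_one_sub (hG1c.inter (hT3c.inter hT2c)).measurableSet,
      probReal_compl_eq_one_sub hG1c.measurableSet] at h4
    linarith only [hε, hG1m, hmass1', hT3m, hT2m, h4]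
  intro θ hθ
  -- exponents
  obtain ⟨θ', hθ'⟩ : ∃ θ', θ' = min θ 1 := ⟨_, rfl⟩
  have ht1 : 2 / 3 < θ' := by rw [hθ']; exact lt_min hθ (by norm_num)
  have ht2 : θ' ≤ 1 := hθ' ▸ min_le_right _ _
  have ht3 : θ' ≤ θ := hθ' ▸ min_le_left _ _
  have ht0 : 0 < θ' := by linarith only [ht1]
  obtain ⟨γ, hγ⟩ : ∃ γ, γ = (1 / θ' + 3 / 2) / 2 := ⟨_, rfl⟩
  have hγ1 : 1 / θ' < 3 / 2 := by
    rw [div_lt_iff₀ ht0]
    linarith only [ht1]
  have hγ2 : γ < 3 / 2 := by linarith only [hγ, hγ1]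
  have hγ3 : 1 / θ' < γ := by linarith only [hγ, hγ2]
  have hγ0 : 0 < γ := lt_trans (by positivity) hγ3
  have hγ4 : 1 / γ < θ' := by
    rw [div_lt_iff₀ hγ0]
    rw [div_lt_iff₀ ht0] at hγ3
    linarith only [hγ3]
  obtain ⟨q2, hq2⟩ := kor_av 2 3 (Or.inl ⟨rfl, rfl⟩) γ hγ2 m0 (δ / 2) (by positivity)
  obtain ⟨q3, hq3⟩ := kor_av 3 2 (Or.inr ⟨rfl, rfl⟩) γ hγ2 m0 (δ / 2) (by positivity)
  obtain ⟨S0, hS0⟩ := kor_scale θ' γ hγ0 (by linarith only [hγ, hγ3, hγ0]) hγ4 (q2 + q3 + S2) (4 * Real.pi * m0 / δ)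
  refine ⟨S0 + 1, fun S hS x hx y hy r hr hrS i l hil hnorm => ?_⟩
  obtain ⟨hL1, q, hq, hLq, h16, hqe, hbig⟩ := hS0 S (by omega)
  have hSr : (1 : ℝ) ≤ S := by exact_mod_cast (by omega : 1 ≤ S)
  have hLθ : (Real.log S) ^ θ' ≤ (Real.log S) ^ θ := Real.rpow_le_rpow_of_exponent_le hL1 ht3
  have hr1 : r * Real.exp (Real.exp ((Real.log S) ^ θ')) ≤ 1 := by
    calc r * Real.exp (Real.exp ((Real.log S) ^ θ')) ≤
          Real.exp (-Real.exp ((Real.log S) ^ θ)) * Real.exp (Real.exp ((Real.log S) ^ θ)) := by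
          gcongr
      _ = 1 := by rw [← Real.exp_add]; simp
  have herr : 2 * Real.pi * m0 * ((3 : ℝ) ^ (3 ^ q) * S * r) ≤ δ / 2 := by
    have h5 : 4 * Real.pi * m0 / δ * ((3 : ℝ) ^ (3 ^ q) * S) * r ≤ 1 := by
      refine le_trans ?_ hr1
      rw [mul_comm r]
      gcongr
    have h6 : 4 * Real.pi * m0 / δ * ((3 : ℝ) ^ (3 ^ q) * S) * r =
        2 * Real.pi * m0 * ((3 : ℝ) ^ (3 ^ q) * S * r) / (δ / 2) := by
      field_simp
      ring
    rw [h6, div_le_one (by positivity)] at h5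
    exact h5
  -- the representation of the difference
  set s := 2 ^ i * 3 ^ l with hs
  have hs0 : 0 < s := by positivity
  have hsr : (0 : ℝ) < s := by exact_mod_cast hs0
  obtain ⟨β, hβ, hβn⟩ := exists_rep (s • (x - y))
  have hβr : |β| ≤ s * r := by
    rw [hβn]
    refine hnorm.trans (le_of_eq ?_)
    rw [hs]
    push_cast
    ring
  obtain ⟨z, hz⟩ : ∃ z : ℤ, (s : ℝ) * rep (x - y) - β = z := by
    have h4 : (((s : ℝ) * rep (x - y) - β : ℝ) : Tor) = 0 := by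
      rw [AddCircle.coe_sub, hβ, ← nsmul_eq_mul, AddCircle.coe_nsmul, coe_rep, sub_self]
    rw [AddCircle.coe_eq_zero_iff] at h4
    obtain ⟨z, hz⟩ := h4
    simp only [zsmul_eq_mul, mul_one] at hz
    exact ⟨z, hz.symm⟩
  obtain ⟨w, P, g0, hg0, hP0, hzw, hsP, hcop⟩ := lowest z s hs0
  have hPs : P ∣ 2 ^ i * 3 ^ l := ⟨g0, by rw [← hs]; exact hsP⟩
  obtain ⟨P2, P3, hP2, hP3, hPP⟩ := (Nat.dvd_mul).1 hPs
  obtain ⟨i', hi', rfl⟩ := (Nat.dvd_prime_pow Nat.prime_two).1 hP2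
  obtain ⟨l', hl', rfl⟩ := (Nat.dvd_prime_pow Nat.prime_three).1 hP3
  have hPS : 2 ^ i' * 3 ^ l' ≤ S := by
    refine le_trans ?_ hil
    exact Nat.mul_le_mul (Nat.pow_le_pow_right (by norm_num) hi')
      (Nat.pow_le_pow_right (by norm_num) hl')
  have hβs : |β / s| ≤ r := by
    rw [abs_div, abs_of_pos hsr, div_le_iff₀ hsr]
    linarith only [hβr]
  have hDx : x - y = ((w / (2 ^ i' * 3 ^ l') + β / s : ℝ) : Tor) := by
    rw [← coe_rep (x - y)]
    congr 1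
    have hgr : (g0 : ℝ) ≠ 0 := by exact_mod_cast hg0.ne'
    have e1 : (s : ℝ) = 2 ^ i' * 3 ^ l' * g0 := by
      rw [← hPP] at hsP
      exact_mod_cast hsP
    have e2 : (z : ℝ) = w * g0 := by exact_mod_cast hzw
    have e3 : rep (x - y) = (z + β) / s := by
      rw [eq_div_iff hsr.ne']
      linarith only [hz]
    rw [e3, add_div, e2]
    congr 1
    rw [e1, mul_div_mul_right _ _ hgr]
  have h2S : 2 ^ i' ≤ S := (Nat.le_mul_of_pos_right _ (by positivity)).trans hPS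
  have h3S : 3 ^ l' ≤ S := (Nat.le_mul_of_pos_left _ (by positivity)).trans hPS
  have hlogS : ∀ (g e : ℕ), 2 ≤ g → g ^ e ≤ S → (e : ℝ) ≤ 2 * Real.log S := by
    intro g e hg he
    have h5 : (2 : ℝ) ^ e ≤ S := by
      have : 2 ^ e ≤ S := (Nat.pow_le_pow_left hg e).trans he
      exact_mod_cast this
    have h6 := Real.log_le_log (by positivity) h5
    rw [Real.log_pow] at h6
    have h7 := Real.log_two_gt_d9
    have h8 : (0 : ℝ) ≤ e := Nat.cast_nonneg e
    have h9 : (e : ℝ) * (1 / 2) ≤ e * Real.log 2 :=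
      mul_le_mul_of_nonneg_left (by linarith only [h7]) h8
    linarith only [h6, h9]
  have hi'L := hlogS 2 i' le_rfl h2S
  have hl'L := hlogS 3 l' (by norm_num) h3S
  have h2X : (2 : ℝ) ^ q ≤ 3 ^ q := pow_le_pow_left₀ (by norm_num) (by norm_num) q
  rcases le_or_gt (4 + m0) i' with hi0 | hi0
  · -- many factors `2`
    exfalso
    have h8 : 8 * l' ≤ 2 ^ q := by
      have : 8 * (l' : ℝ) ≤ 2 ^ q := by linarith only [h16, hl'L]
      exact_mod_cast this
    refine sideG 3 (by norm_num) A1 ρ1 hρ1.le m0 cc δ hmaj hno (2 ^ q) Nat.one_le_two_pow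
      (3 ^ l' • x) (3 ^ l' • y) ((w / (2 : ℝ) ^ i' : ℝ) : Tor) ((3 : ℝ) ^ l' * (β / s)) ?_ ?_ ?_ ?_
    · intro m hm1 hm2
      refine hq2 q (by omega) i' hi0 (hi'L.trans hLq) w ?_ m hm1 hm2
      intro h2w
      have h5 : IsCoprime ((2 : ℕ) : ℤ) w := by
        refine IsCoprime.of_isCoprime_of_dvd_left hcop ?_
        rw [← hPP]
        exact_mod_cast Dvd.dvd.mul_right (dvd_pow_self 2 (by omega : i' ≠ 0)) (3 ^ l')
      have h6 : IsUnit ((2 : ℕ) : ℤ) := h5.isUnit_of_dvd' dvd_rfl h2w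
      rw [Int.isUnit_iff] at h6
      norm_num at h6
    · rw [← smul_sub, hDx, ← AddCircle.coe_nsmul, ← AddCircle.coe_add, nsmul_eq_mul]
      congr 1
      push_cast
      field_simp
    · refine le_trans ?_ herr
      have h5 : |(3 : ℝ) ^ l' * (β / s)| ≤ S * r := by
        rw [abs_mul, abs_of_pos (by positivity)]
        have : (3 : ℝ) ^ l' ≤ S := by exact_mod_cast h3S
        gcongr
      have h6 : (3 : ℝ) ^ (2 ^ q) ≤ 3 ^ (3 ^ q) :=
        pow_le_pow_right₀ (by norm_num) (Nat.pow_le_pow_left (by norm_num) q)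
      have h7 : ((3 : ℕ) : ℝ) ^ (2 ^ q) * |(3 : ℝ) ^ l' * (β / s)| ≤ 3 ^ (3 ^ q) * S * r := by
        rw [mul_assoc]
        push_cast
        gcongr
      gcongr
    · change 2 * (bad 3 0 (2 ^ q) U1 (3 ^ l' • x) + bad 3 0 (2 ^ q) U1 (3 ^ l' • y)) ≤ 2 ^ q
      have h5 := bad_shift 3 l' (2 ^ q) U1 x
      have h6 := bad_shift 3 l' (2 ^ q) U1 y
      have h7 := hx.2.1 (2 ^ q)
      have h9 := hy.2.1 (2 ^ q)
      omega
  rcases le_or_gt (4 + m0) l' with hl0 | hl0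
  · -- many factors `3`
    exfalso
    have h8 : 8 * i' ≤ 3 ^ q := by
      have : 8 * (i' : ℝ) ≤ 3 ^ q := by linarith only [h16, hi'L, h2X]
      exact_mod_cast this
    refine sideG 2 (by norm_num) A1 ρ1 hρ1.le m0 cc δ hmaj hno (3 ^ q)
      (Nat.one_le_pow _ _ (by norm_num))
      (2 ^ i' • x) (2 ^ i' • y) ((w / (3 : ℝ) ^ l' : ℝ) : Tor) ((2 : ℝ) ^ i' * (β / s)) ?_ ?_ ?_ ?_
    · intro m hm1 hm2
      refine hq3 q (by omega) l' hl0 (hl'L.trans hLq) w ?_ m hm1 hm2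
      intro h2w
      have h5 : IsCoprime ((3 : ℕ) : ℤ) w := by
        refine IsCoprime.of_isCoprime_of_dvd_left hcop ?_
        rw [← hPP]
        exact_mod_cast Dvd.dvd.mul_left (dvd_pow_self 3 (by omega : l' ≠ 0)) (2 ^ i')
      have h6 : IsUnit ((3 : ℕ) : ℤ) := h5.isUnit_of_dvd' dvd_rfl h2w
      rw [Int.isUnit_iff] at h6
      norm_num at h6
    · rw [← smul_sub, hDx, ← AddCircle.coe_nsmul, ← AddCircle.coe_add, nsmul_eq_mul]
      congr 1
      push_cast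
      field_simp
    · refine le_trans ?_ herr
      have h5 : |(2 : ℝ) ^ i' * (β / s)| ≤ S * r := by
        rw [abs_mul, abs_of_pos (by positivity)]
        have : (2 : ℝ) ^ i' ≤ S := by exact_mod_cast h2S
        gcongr
      have h6 : (2 : ℝ) ^ (3 ^ q) ≤ 3 ^ (3 ^ q) :=
        pow_le_pow_left₀ (by norm_num) (by norm_num) _
      have h7 : ((2 : ℕ) : ℝ) ^ (3 ^ q) * |(2 : ℝ) ^ i' * (β / s)| ≤ 3 ^ (3 ^ q) * S * r := by
        rw [mul_assoc]
        push_cast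
        gcongr
      gcongr
    · change 2 * (bad 2 0 (3 ^ q) U1 (2 ^ i' • x) + bad 2 0 (3 ^ q) U1 (2 ^ i' • y)) ≤ 3 ^ q
      have h5 := bad_shift 2 i' (3 ^ q) U1 x
      have h6 := bad_shift 2 i' (3 ^ q) U1 y
      have h7 := hx.2.2 (3 ^ q)
      have h9 := hy.2.2 (3 ^ q)
      omega
  -- bounded denominators
  refine hG1 x hx.1 y hy.1 r hr ?_ (4 + m0) (4 + m0) ?_ ?_
  · have h5 : (S2 : ℝ) ≤ q := by exact_mod_cast (by omega : S2 ≤ q)
    have h6 : Real.exp ((Real.log S) ^ θ') ≤ Real.log (1 / r) := by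
      rw [Real.le_log_iff_exp_le (by positivity), le_div_iff₀ hr, mul_comm]
      exact hr1
    rw [pow_one]
    linarith only [hqe, h5, h6]
  · rw [← mul_pow]
    exact le_max_right _ _
  · have e1 : (2 ^ (4 + m0) * 3 ^ (4 + m0)) • (x - y) =
        (((2 : ℝ) ^ (4 + m0) * 3 ^ (4 + m0) * (β / s) : ℝ) : Tor) := by
      rw [hDx, ← AddCircle.coe_nsmul, nsmul_eq_mul]
      have e2 : (((2 ^ (4 + m0) * 3 ^ (4 + m0) : ℕ) : ℝ)) *
          ((w : ℝ) / (2 ^ i' * 3 ^ l') + β / s) =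
          ((w * 2 ^ (4 + m0 - i') * 3 ^ (4 + m0 - l') : ℤ) : ℝ) +
            (2 : ℝ) ^ (4 + m0) * 3 ^ (4 + m0) * (β / s) := by
        have e3 : (2 : ℝ) ^ (4 + m0) = 2 ^ (4 + m0 - i') * 2 ^ i' := by
          rw [← pow_add]
          congr 1
          omega
        have e4 : (3 : ℝ) ^ (4 + m0) = 3 ^ (4 + m0 - l') * 3 ^ l' := by
          rw [← pow_add]
          congr 1
          omega
        push_cast
        rw [mul_add]
        congr 1
        rw [e3, e4]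
        field_simp
      rw [e2, AddCircle.coe_add, coe_int, zero_add]
    rw [e1]
    refine (norm_coe_le _).trans ?_
    rw [abs_mul, abs_of_pos (by positivity)]
    gcongr

end Helper58.FH
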