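import Mathlib
import Pool.Agent.Helper58.FH.Mem

set_option autoImplicit false
open MeasureTheory Filter Topology Metric Finset
open scoped ENNReal ComplexConjugate

/-! Orders of two and three; averages at rational points; typical points and rational
differences. -/

namespace Helper58.FH

/-- the order of two modulo an odd number with prime factors in a fixed set -/
lemma ordb (b : ℕ) (hb : Odd b) (K : ℕ) (hK : 1 ≤ K) :
    ∃ c : ℕ, 1 ≤ c ∧ ∀ d j : ℕ, 0 < d → (∀ p : ℕ, p.Prime → p ∣ d → p ∣ b) →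
      d ∣ K * (2 ^ j - 1) → d ∣ c * j := by
  have hb0 : 0 < b := hb.pos
  have hφ : 0 < Nat.totient b := Nat.totient_pos.2 hb0
  set y : ℕ := 2 ^ Nat.totient b with hy
  have hy2 : 2 ≤ y := by
    rw [hy]; calc 2 = 2 ^ 1 := rfl
      _ ≤ _ := Nat.pow_le_pow_right (by norm_num) hφ
  have hby : b ∣ y - 1 := by
    have h := Nat.ModEq.pow_totient (n := b) (x := 2) (Nat.coprime_two_left.2 hb)
    exact (Nat.modEq_iff_dvd' (by omega)).1 h.symm
  refine ⟨K * (y - 1), Nat.mul_pos hK (by omega), ?_⟩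
  intro d j hd hpr h
  rcases Nat.eq_zero_or_pos j with rfl | hj
  · simp
  have h1 : 2 ^ j - 1 ∣ y ^ j - 1 := by
    have := Nat.sub_dvd_pow_sub_pow (2 ^ j) 1 (Nat.totient b)
    rw [one_pow, ← pow_mul, mul_comm, pow_mul] at this
    exact this
  have h2 : d ∣ K * (y ^ j - 1) := h.trans (Nat.mul_dvd_mul_left _ h1)
  have hyj : 2 ≤ y ^ j := hy2.trans (Nat.le_self_pow hj.ne' _)
  rw [← Nat.factorization_prime_le_iff_dvd hd.ne' (by
    have : 0 < y - 1 := by omega
    positivity)]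
  intro p hp
  by_cases hpd : p ∣ d
  · haveI : Fact p.Prime := ⟨hp⟩
    have hpb := hpr p hp hpd
    have hpo : Odd p := hb.of_dvd_nat hpb
    have hpy : p ∣ y - 1 := hpb.trans hby
    have hpy' : ¬ p ∣ y := by
      intro h3
      have h4 : p ∣ 1 := by
        have := Nat.dvd_sub h3 hpy
        have e : y - (y - 1) = 1 := by omega
        rwa [e] at this
      exact hp.one_lt.ne' (Nat.dvd_one.1 h4)
    have h3 := (Nat.factorization_le_iff_dvd hd.ne' (by
      have : 0 < y ^ j - 1 := by omega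
      positivity)).2 h2 p
    refine h3.trans ?_
    have hy1 : y - 1 ≠ 0 := by omega
    have hyj1 : y ^ j - 1 ≠ 0 := by omega
    rw [Nat.factorization_mul (by omega) hyj1, Nat.factorization_mul (by positivity) (by omega),
      Nat.factorization_mul (by omega) hy1]
    simp only [Finsupp.coe_add, Pi.add_apply]
    rw [Nat.factorization_def _ hp, Nat.factorization_def _ hp, Nat.factorization_def _ hp,
      Nat.factorization_def _ hp]
    have h5 := padicValNat.pow_sub_pow (p := p) hpo (x := y) (y := 1) (by omega) hpy hpy' hj.ne'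
    rw [one_pow] at h5
    rw [h5, add_assoc]
  · rw [Nat.factorization_eq_zero_of_not_dvd hpd]
    exact Nat.zero_le _

/-- the average of a character along powers of two -/
noncomputable def av (m M : ℕ) (x : Tor) : ℂ :=
  (1 / M : ℂ) * ∑ t ∈ range M, (fourier (m : ℤ) (2 ^ t • x) : ℂ)

lemma norm_av_le (m M : ℕ) (hM : 1 ≤ M) (x : Tor) : ‖av m M x‖ ≤ 1 := by
  have hMr : (0 : ℝ) < M := by exact_mod_cast hM
  unfold av
  rw [norm_mul]
  have h1 : ‖∑ t ∈ range M, (fourier (m : ℤ) (2 ^ t • x) : ℂ)‖ ≤ M := by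
    refine (norm_sum_le _ _).trans (le_of_eq ?_)
    rw [Finset.sum_congr rfl (fun t _ => norm_fourier _ _), Finset.sum_const, card_range,
      nsmul_eq_mul, mul_one]
  have h2 : ‖(1 / M : ℂ)‖ = 1 / M := by
    rw [norm_div, norm_one, Complex.norm_natCast]
  rw [h2, one_div, inv_mul_le_iff₀ hMr, mul_one]
  exact h1

lemma av_shift_one (m M : ℕ) (hM : 1 ≤ M) (x : Tor) : ‖av m M ((2 : ℕ) • x) - av m M x‖ ≤ 2 / M := by
  have hMr : (0 : ℝ) < M := by exact_mod_cast hM
  have e : av m M ((2 : ℕ) • x) - av m M x =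
      (1 / M : ℂ) * ((fourier (m : ℤ) (2 ^ M • x) : ℂ) - fourier (m : ℤ) (2 ^ 0 • x)) := by
    unfold av
    rw [← mul_sub]
    congr 1
    have h1 : ∀ t : ℕ, (2 : ℕ) ^ t • ((2 : ℕ) • x) = 2 ^ (t + 1) • x := by
      intro t
      rw [smul_smul, pow_succ]
    simp only [h1]
    rw [← Finset.sum_sub_distrib]
    exact Finset.sum_range_sub (fun t => (fourier (m : ℤ) (2 ^ t • x) : ℂ)) M
  rw [e, norm_mul]
  have h2 : ‖(1 / M : ℂ)‖ = 1 / M := by
    rw [norm_div, norm_one, Complex.norm_natCast]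
  rw [h2, div_mul_eq_mul_div, one_mul]
  gcongr
  refine (norm_sub_le _ _).trans ?_
  rw [norm_fourier, norm_fourier]
  norm_num

lemma av_shift (m M : ℕ) (hM : 1 ≤ M) (i : ℕ) (x : Tor) :
    ‖av m M (2 ^ i • x) - av m M x‖ ≤ 2 * i / M := by
  induction i with
  | zero => simp
  | succ i ih =>
    have e : av m M (2 ^ (i + 1) • x) - av m M x =
        (av m M ((2 : ℕ) • (2 ^ i • x)) - av m M (2 ^ i • x)) + (av m M (2 ^ i • x) - av m M x) := by
      rw [smul_smul, ← pow_succ']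
      ring
    rw [e]
    refine (norm_add_le _ _).trans ?_
    have h1 := av_shift_one m M hM (2 ^ i • x)
    have h2 : (2 : ℝ) * (i + 1 : ℕ) / M = 2 / M + 2 * i / M := by
      push_cast
      ring
    rw [h2]
    exact add_le_add h1 ih

/-- **averages at rational points** -/
lemma av_small (b : ℕ) (hb : Odd b) (m : ℕ) (hm : 1 ≤ m) (δ : ℝ) (hδ : 0 < δ) :
    ∃ q0 M0 : ℕ, ∀ M : ℕ, M0 ≤ M → ∀ d : ℕ, q0 < d → d ≤ M → (∀ p : ℕ, p.Prime → p ∣ d → p ∣ b) →
      Nat.Coprime d 2 → ∀ w : ℤ, IsCoprime (d : ℤ) w →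
        ‖av m M (((w / d : ℝ)) : Tor)‖ < δ := by
  classical
  obtain ⟨c, hc1, hc⟩ := ordb b hb m hm
  obtain ⟨c', hc1', hc'⟩ := ordb b hb 1 le_rfl
  obtain ⟨R, hR⟩ := exists_nat_gt (4 * (c + 1) / δ ^ 2)
  obtain ⟨M0, hM0⟩ := exists_nat_gt (4 * R / δ)
  refine ⟨c' * R, max M0 1, fun M hM d hd hdM hpr hd2 w hw => ?_⟩
  have hM1 : 1 ≤ M := (le_max_right _ _).trans hM
  have hMM0 : (M0 : ℝ) ≤ M := by exact_mod_cast (le_max_left _ _).trans hM
  have hMr : (0 : ℝ) < M := by exact_mod_cast hM1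
  have hd0 : 0 < d := by omega
  have hdr : (0 : ℝ) < d := by exact_mod_cast hd0
  by_contra hcon
  push Not at hcon
  -- second moment
  have hfib := fibre (range M) (fun t => (m : ℤ) * 2 ^ t) d hd0 (c * M / d + 1) ?_ 0
  swap
  · intro t ht
    refine spacing _ M c d hc1 hd0 (Finset.filter_subset _ _) ?_
    intro l hl l' hl' hll
    rw [mem_filter] at hl hl'
    have h1 : (d : ℤ) ∣ (m : ℤ) * 2 ^ l' - (m : ℤ) * 2 ^ l := by
      have := dvd_sub hl.2 hl'.2
      have e : ((m : ℤ) * 2 ^ t - (m : ℤ) * 2 ^ l) - ((m : ℤ) * 2 ^ t - (m : ℤ) * 2 ^ l') =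
          (m : ℤ) * 2 ^ l' - (m : ℤ) * 2 ^ l := by ring
      rwa [e] at this
    have e1 : (2 : ℤ) ^ l' - 2 ^ l = 2 ^ l * (2 ^ (l' - l) - 1) := by
      rw [mul_sub, mul_one, ← pow_add]
      congr 2
      omega
    rw [← mul_sub, e1] at h1
    have h2 : d ∣ 2 ^ l * (m * (2 ^ (l' - l) - 1)) := by
      have h3 : (d : ℤ) ∣ ((2 ^ l * (m * (2 ^ (l' - l) - 1)) : ℕ) : ℤ) := by
        have h1le : 1 ≤ 2 ^ (l' - l) := Nat.one_le_pow _ _ (by norm_num)
        push_cast [Nat.cast_sub h1le]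
        convert h1 using 1
        ring
      exact Int.natCast_dvd_natCast.1 h3
    have h3 := (Nat.Coprime.pow_right l hd2).dvd_of_dvd_mul_left h2
    exact hc d (l' - l) hd0 hpr h3
  have hsum : ∑ j ∈ range d, ‖av m M (dd d j)‖ ^ 2 ≤ c + 1 := by
    have e : ∀ j : ℕ, ‖av m M (dd d j)‖ ^ 2 = (1 / M) ^ 2 *
        ‖∑ a ∈ range M, (fourier ((fun t : ℕ => (m : ℤ) * 2 ^ t) a) (0 + dd d j) : ℂ)‖ ^ 2 := by
      intro j
      unfold av
      rw [norm_mul, mul_pow]
      congr 2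
      · rw [norm_div, norm_one, Complex.norm_natCast]
      · congr 1
        refine Finset.sum_congr rfl fun t _ => ?_
        simp only
        rw [zero_add, fourier_apply, fourier_apply, mul_smul, ← natCast_zsmul]
        push_cast
        rfl
    simp only [e]
    rw [← Finset.mul_sum]
    have h1 : ((c * M / d + 1 : ℕ) : ℝ) ≤ c * M / d + 1 := by
      push_cast
      gcongr
      exact_mod_cast Nat.cast_div_le (α := ℝ)
    calc (1 / (M : ℝ)) ^ 2 * _ ≤ (1 / (M : ℝ)) ^ 2 * (d * ((range M).card * ((c * M / d + 1 : ℕ) : ℝ))) := by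
          gcongr
      _ ≤ (1 / (M : ℝ)) ^ 2 * (d * (M * (c * M / d + 1))) := by
          rw [card_range]
          gcongr
      _ = c + d / M := by field_simp
      _ ≤ c + 1 := by
          gcongr
          rw [div_le_one hMr]
          exact_mod_cast hdM
  -- the orbit
  set u : ℕ → ℕ := fun i => ((w * 2 ^ i) % (d : ℤ)).toNat with hu
  have hut : ∀ i, ((u i : ℕ) : ℤ) = (w * 2 ^ i) % (d : ℤ) := by
    intro i
    rw [hu]
    simp only
    rw [Int.toNat_of_nonneg (Int.emod_nonneg _ (by omega))]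
  have hpt : ∀ i, dd d (u i) = 2 ^ i • ((((w / d : ℝ)) : Tor)) := by
    intro i
    unfold dd
    rw [← AddCircle.coe_nsmul, ← sub_eq_zero, ← AddCircle.coe_sub, AddCircle.coe_eq_zero_iff]
    refine ⟨-((w * 2 ^ i) / (d : ℤ)), ?_⟩
    have h1 := Int.emod_add_mul_ediv (w * 2 ^ i) (d : ℤ)
    rw [← hut i] at h1
    have h2 : ((u i : ℝ) + d * ((w * 2 ^ i / (d : ℤ) : ℤ) : ℝ)) = w * 2 ^ i := by exact_mod_cast h1
    simp only [zsmul_eq_mul, mul_one, nsmul_eq_mul]
    push_cast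
    have h3 : (u i : ℝ) = w * 2 ^ i - d * ((w * 2 ^ i / (d : ℤ) : ℤ) : ℝ) := by linarith
    rw [h3]
    field_simp
    ring
  have hinj : Set.InjOn u (range R : Finset ℕ) := by
    intro i hi j hj hij
    have hi' := mem_range.1 (mem_coe.1 hi)
    have hj' := mem_range.1 (mem_coe.1 hj)
    refine distinct d 2 (by norm_num) w hw hd2 R 0 ?_ i hi' j hj' ?_
    · intro j hj0 hjR hdj
      have h1 := hc' d j hd0 hpr (by rwa [one_mul])
      have h2 := Nat.le_of_dvd (Nat.mul_pos hc1' hj0) h1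
      have h3 : c' * j ≤ c' * R := Nat.mul_le_mul_left _ hjR.le
      omega
    · have h1 : (w * 2 ^ i) % (d : ℤ) = (w * 2 ^ j) % (d : ℤ) := by
        rw [← hut, ← hut, hij]
      rw [add_zero, add_zero]
      push_cast
      exact (show (w * 2 ^ j) ≡ (w * 2 ^ i) [ZMOD (d : ℤ)] from h1.symm).dvd
  have hsub : (range R).image u ⊆ range d := by
    intro v hv
    rw [mem_image] at hv
    obtain ⟨i, _, rfl⟩ := hv
    rw [mem_range]
    have := Int.emod_lt_of_pos (w * 2 ^ i) (by omega : (0 : ℤ) < d)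
    rw [← hut] at this
    exact_mod_cast this
  have hlow : ∀ i ∈ range R, (δ / 2) ^ 2 ≤ ‖av m M (dd d (u i))‖ ^ 2 := by
    intro i hi
    rw [hpt]
    have h1 := av_shift m M hM1 i (((w / d : ℝ)) : Tor)
    have h2 : (2 : ℝ) * i / M ≤ δ / 2 := by
      rw [div_le_iff₀ hMr]
      have h3 : (i : ℝ) ≤ R := by exact_mod_cast (mem_range.1 hi).le
      rw [div_lt_iff₀ hδ] at hM0
      nlinarith
    have h3 : ‖av m M (((w / d : ℝ)) : Tor)‖ ≤ ‖av m M (2 ^ i • (((w / d : ℝ)) : Tor))‖ +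
        ‖av m M (2 ^ i • (((w / d : ℝ)) : Tor)) - av m M (((w / d : ℝ)) : Tor)‖ := by
      have := norm_sub_norm_le (av m M (((w / d : ℝ)) : Tor)) (av m M (2 ^ i • (((w / d : ℝ)) : Tor)))
      rw [← norm_neg (av m M (2 ^ i • (((w / d : ℝ)) : Tor)) - av m M (((w / d : ℝ)) : Tor)), neg_sub]
      linarith
    apply pow_le_pow_left₀ (by positivity)
    linarith
  have h1 : (R : ℝ) * (δ / 2) ^ 2 ≤ c + 1 := by
    refine le_trans ?_ hsum
    refine le_trans ?_ (Finset.sum_le_sum_of_subset_of_nonneg hsub fun _ _ _ => by positivity)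
    rw [Finset.sum_image hinj]
    refine le_trans (le_of_eq ?_) (Finset.sum_le_sum hlow)
    rw [Finset.sum_const, card_range, nsmul_eq_mul]
  rw [div_lt_iff₀ (by positivity)] at hR
  nlinarith

end Helper58.FH
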