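import Pool.Agent.Helper58.FH.Smooth
import Pool.Agent.Helper58.FH.Cov

set_option autoImplicit false
open MeasureTheory Filter Topology Metric Finset
open scoped ENNReal ComplexConjugate

/-! Differences of points are badly approximable by rationals with smooth denominators. -/

namespace Helper58.FH

open Helper58.FX (act UU ev ft Erg T sc PE)

lemma bad_mono (g t0 N : ℕ) {U V : Set Tor} (h : U ⊆ V) (y : Tor) :
    bad g t0 N V y ≤ bad g t0 N U y := by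
  classical
  unfold bad
  refine Finset.card_le_card ?_
  intro t ht
  rw [mem_filter] at ht ⊢
  exact ⟨ht.1, fun h' => ht.2 (h h')⟩

lemma bad_shift' (g l N : ℕ) (U : Set Tor) (x : Tor) :
    bad g 0 N U (g ^ l • x) ≤ bad g 0 N U x + l := by
  classical
  unfold bad
  have h1 : (range N).filter (fun t => g ^ (0 + t) • (g ^ l • x) ∉ U) ⊆
      ((range N).filter (fun t => g ^ (0 + (l + t)) • x ∉ U)) := by
    intro t ht
    rw [mem_filter] at ht ⊢
    refine ⟨ht.1, ?_⟩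
    have e : g ^ (0 + (l + t)) • x = g ^ (0 + t) • (g ^ l • x) := by
      rw [← mul_smul, ← pow_add]
      congr 2
      ring
    rw [e]
    exact ht.2
  refine (Finset.card_le_card h1).trans ?_
  have h2 : (((range N).filter (fun t => g ^ (0 + (l + t)) • x ∉ U)).image fun t => l + t) ⊆
      (range N).filter (fun t => g ^ (0 + t) • x ∉ U) ∪ Ico N (N + l) := by
    intro t ht
    rw [mem_image] at ht
    obtain ⟨u, hu, rfl⟩ := ht
    rw [mem_filter, mem_range] at hu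
    rw [mem_union, mem_filter, mem_range, mem_Ico]
    by_cases h : l + u < N
    · exact Or.inl ⟨h, hu.2⟩
    · right
      omega
  have h3 := Finset.card_le_card h2
  rw [Finset.card_image_of_injective _ (fun a b h => by simpa using h)] at h3
  refine h3.trans ((Finset.card_union_le _ _).trans ?_)
  rw [Nat.card_Ico]
  omega

lemma norm_frac (d : ℕ) (hd : 0 < d) (w : ℤ) (h : ¬ (d : ℤ) ∣ w) :
    1 / (d : ℝ) ≤ ‖((w / d : ℝ) : Tor)‖ := by
  have hdr : (0 : ℝ) < d := by exact_mod_cast hd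
  obtain ⟨t, ht, htn⟩ := exists_rep ((w / d : ℝ) : Tor)
  rw [← htn]
  have h1 : (((w / d : ℝ) - t : ℝ) : Tor) = 0 := by
    rw [AddCircle.coe_sub, ht, sub_self]
  rw [AddCircle.coe_eq_zero_iff] at h1
  obtain ⟨z, hz⟩ := h1
  simp only [zsmul_eq_mul, mul_one] at hz
  have h2 : (d : ℝ) * t = ((w - d * z : ℤ) : ℝ) := by
    push_cast
    rw [hz]
    field_simp
    ring
  have h3 : w - d * z ≠ 0 := by
    intro h4
    apply h
    exact ⟨z, by linarith⟩
  have h4 : (1 : ℝ) ≤ |((w - d * z : ℤ) : ℝ)| := by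
    have : (1 : ℤ) ≤ |w - d * z| := Int.one_le_abs h3
    exact_mod_cast this
  rw [← h2, abs_mul, abs_of_pos hdr] at h4
  rw [div_le_iff₀ hdr]
  linarith

lemma smooth_key (g P e D1 N d : ℕ) (hg : 1 ≤ g) (hg3 : g ≤ 3) (hd : 0 < d)
    (hdP : d = g ^ e * P) (w : ℤ) (hw : IsCoprime (d : ℤ) w) (hD1 : D1 ∣ P)
    (hcop : Nat.Coprime D1 g) (hord : ∀ j, 0 < j → j < N → ¬ D1 ∣ g ^ j - 1) (β : ℝ)
    (hβ : (3 : ℝ) ^ N * (d : ℝ) ^ 2 * |β| ≤ 1) (K0 : Set Tor) (A : Finset Tor) (ρ : ℝ)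
    (hρ0 : 0 ≤ ρ) (hK : K0 ⊆ ⋃ a ∈ A, closedBall a ρ) (hρ : ρ * d ≤ 1) (x x' : Tor)
    (hD : x - x' = ((w / d + β : ℝ) : Tor))
    (hx : 16 * bad g 0 N K0 x ≤ N) (hx' : 16 * bad g 0 N K0 x' ≤ N) (he : 16 * e ≤ N)
    (hN : 52 * A.card ^ 2 < 3 * N) : False := by
  have hP : 1 ≤ P := by
    rcases Nat.eq_zero_or_pos P with h | h
    · rw [h, mul_zero] at hdP
      omega
    · exact h
  have hdr : (0 : ℝ) < d := by exact_mod_cast hd
  have hPr : (0 : ℝ) < P := by exact_mod_cast hP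
  have hgr : (1 : ℝ) ≤ g := by exact_mod_cast hg
  have hdP' : (d : ℝ) = (g : ℝ) ^ e * P := by exact_mod_cast hdP
  have hPd : (P : ℝ) ≤ d := by
    rw [hdP']
    have : (1 : ℝ) ≤ (g : ℝ) ^ e := one_le_pow₀ hgr
    nlinarith
  have hge : (g : ℝ) ^ e ≤ d := by
    rw [hdP']
    have h1 : (1 : ℝ) ≤ P := by exact_mod_cast hP
    have : (0 : ℝ) < (g : ℝ) ^ e := by positivity
    nlinarith
  have hwP : IsCoprime (P : ℤ) w := by
    refine IsCoprime.of_isCoprime_of_dvd_left hw ?_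
    rw [hdP]
    exact_mod_cast Dvd.intro_left _ rfl
  refine side2 P g D1 N hP hg w hwP hD1 hcop hord ((g : ℝ) ^ e * β) ?_ A (g ^ e • x) (g ^ e • x')
    ?_ ρ ?_ ?_ ?_ hN
  · rw [abs_mul, abs_of_pos (by positivity)]
    refine le_trans ?_ hβ
    have h1 : (g : ℝ) ^ N ≤ 3 ^ N := pow_le_pow_left₀ (by positivity) (by exact_mod_cast hg3) N
    calc (g : ℝ) ^ N * ((g : ℝ) ^ e * |β|) * P = (g : ℝ) ^ N * d * |β| := by rw [hdP']; ring
      _ ≤ 3 ^ N * (d : ℝ) ^ 2 * |β| := by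
        gcongr
        have h2 : (1 : ℝ) ≤ d := by exact_mod_cast hd
        nlinarith
  · rw [← smul_sub, hD, ← AddCircle.coe_nsmul, nsmul_eq_mul]
    congr 1
    push_cast
    rw [hdP']
    have : (g : ℝ) ^ e ≠ 0 := by positivity
    field_simp
  · calc ρ * P ≤ ρ * d := by gcongr
      _ ≤ 1 := hρ
  · have h1 := bad_shift' g e N K0 x
    have h2 := bad_mono g 0 N hK (g ^ e • x)
    omega
  · have h1 := bad_shift' g e N K0 x'
    have h2 := bad_mono g 0 N hK (g ^ e • x')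
    omega

lemma smooth_num (k a L n d : ℕ) (hk : 2 ≤ k) (hd : 1 ≤ d) (ha : a ^ k ≤ 6 ^ n) (hn : 6 ^ n ≤ 6 * d)
    (hL : 2 ^ L ≤ d) :
    ((20 * a ^ 2 + 16 * L + 1 : ℕ) : ℝ) ≤ (121 + 16 * k) * (d : ℝ) ^ ((2 : ℝ) / k) := by
  have hkr : (0 : ℝ) < k := by exact_mod_cast (by omega : 0 < k)
  have hdr : (1 : ℝ) ≤ d := by exact_mod_cast hd
  have hα : (0 : ℝ) < 2 / k := by positivity
  have h1 : (1 : ℝ) ≤ (d : ℝ) ^ ((2 : ℝ) / k) := Real.one_le_rpow hdr hα.le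
  have h2 : (a : ℝ) ^ 2 ≤ 6 * (d : ℝ) ^ ((2 : ℝ) / k) := by
    have h3 : (a : ℝ) ^ k ≤ 6 * d := by exact_mod_cast ha.trans hn
    have h4 : (a : ℝ) ≤ (6 * d : ℝ) ^ ((1 : ℝ) / k) := by
      have h5 := Real.rpow_le_rpow (by positivity) h3 (by positivity : (0 : ℝ) ≤ 1 / k)
      rwa [← Real.rpow_natCast (a : ℝ) k, ← Real.rpow_mul (by positivity), mul_one_div_cancel
        hkr.ne', Real.rpow_one] at h5
    have h5 : (a : ℝ) ^ 2 ≤ ((6 * d : ℝ) ^ ((1 : ℝ) / k)) ^ 2 := by gcongr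
    refine h5.trans ?_
    rw [← Real.rpow_natCast, ← Real.rpow_mul (by positivity), Real.mul_rpow (by norm_num)
      (by positivity)]
    have e : (1 : ℝ) / k * ((2 : ℕ) : ℝ) = 2 / k := by
      push_cast
      ring
    rw [e]
    gcongr
    calc (6 : ℝ) ^ ((2 : ℝ) / k) ≤ 6 ^ (1 : ℝ) := by
          apply Real.rpow_le_rpow_of_exponent_le (by norm_num)
          rw [div_le_one hkr]
          exact_mod_cast hk
      _ = 6 := Real.rpow_one 6
  have h3 : (L : ℝ) ≤ k * (d : ℝ) ^ ((2 : ℝ) / k) := by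
    have h4 : (2 : ℝ) ^ L ≤ d := by exact_mod_cast hL
    have h5 := Real.log_le_log (by positivity) h4
    rw [Real.log_pow] at h5
    have h6 := Real.log_two_gt_d9
    have h7 := Real.log_le_rpow_div (by positivity : (0 : ℝ) ≤ d) hα
    have h8 : (d : ℝ) ^ ((2 : ℝ) / k) / (2 / k) = k / 2 * (d : ℝ) ^ ((2 : ℝ) / k) := by
      field_simp
    rw [h8] at h7
    have h9 : (0 : ℝ) ≤ L := Nat.cast_nonneg L
    have h10 : (L : ℝ) * (1 / 2) ≤ L * Real.log 2 := by gcongr; linarith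
    linarith
  push_cast
  nlinarith

/-- the case of large denominators -/
theorem smooth_k (P0 : ℕ) (K0 : Set Tor) (k : ℕ) (hk : 12 ≤ k)
    (hcov : ∃ n0 : ℕ, ∀ n, n0 ≤ n → ∃ A : Finset Tor, A.card ^ k ≤ 6 ^ n ∧
        K0 ⊆ ⋃ a ∈ A, closedBall a (1 / (6 ^ n : ℕ))) :
    ∃ D0 : ℕ, 1 ≤ D0 ∧ ∀ d : ℕ, D0 ≤ d → (∀ p : ℕ, p.Prime → p ∣ d → p ≤ P0) →
      ∃ N : ℕ, (N : ℝ) ≤ (121 + 16 * k) * (d : ℝ) ^ ((2 : ℝ) / k) ∧
        ∀ x x' : Tor, (∀ N, 16 * bad 3 0 N K0 x ≤ N) → (∀ N, 16 * bad 2 0 N K0 x ≤ N) →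
          (∀ N, 16 * bad 3 0 N K0 x' ≤ N) → (∀ N, 16 * bad 2 0 N K0 x' ≤ N) →
          ∀ w : ℤ, IsCoprime (d : ℤ) w → ∀ β : ℝ, (3 : ℝ) ^ N * (d : ℝ) ^ 2 * |β| ≤ 1 →
            x - x' = ((w / d + β : ℝ) : Tor) → False := by
  obtain ⟨b, hb, hbp⟩ := odd_prod P0
  obtain ⟨c1, hc1, hord1⟩ := ordb b hb 1 le_rfl
  obtain ⟨n0, hn0⟩ := hcov
  have hkr : (12 : ℝ) ≤ k := by exact_mod_cast hk
  set C : ℝ := 121 + 16 * k with hC
  have hC1 : 1 ≤ C := by rw [hC]; linarith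
  obtain ⟨D1, hD1⟩ := exists_nat_gt ((24 * c1 * C ^ 3) ^ 2)
  have h6pos : 1 ≤ 6 ^ n0 := Nat.one_le_pow _ _ (by norm_num)
  refine ⟨6 ^ n0 + D1, h6pos.trans (Nat.le_add_right _ _), fun d hd hpr => ?_⟩
  have hd6 : 6 ^ n0 ≤ d := (Nat.le_add_right _ _).trans hd
  have hd1 : 1 ≤ d := h6pos.trans hd6
  have hdD1 : D1 ≤ d := (Nat.le_add_left _ _).trans hd
  set n := Nat.log 6 d + 1 with hn
  have hn1 : d ≤ 6 ^ n := (Nat.lt_pow_succ_log_self (by norm_num) d).le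
  have hn2 : 6 ^ n ≤ 6 * d := by
    rw [hn, pow_succ, mul_comm]
    exact Nat.mul_le_mul_left _ (Nat.pow_log_le_self 6 (by omega))
  have hn0n : n0 ≤ n := (Nat.pow_le_pow_iff_right (by norm_num)).1 (hd6.trans hn1)
  obtain ⟨A, hA, hKA⟩ := hn0 n hn0n
  set L := Nat.log 2 d with hL
  have hL2 : 2 ^ L ≤ d := Nat.pow_log_le_self 2 (by omega)
  set N := 20 * A.card ^ 2 + 16 * L + 1 with hN
  have hNC : (N : ℝ) ≤ C * (d : ℝ) ^ ((2 : ℝ) / k) :=
    smooth_num k A.card L n d (by omega) hd1 hA hn2 hL2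
  refine ⟨N, hNC, fun x x' hx3 hx2 hx3' hx2' w hw β hβ hD => ?_⟩
  have hρ : (1 / ((6 ^ n : ℕ) : ℝ)) * d ≤ 1 := by
    rw [one_div, inv_mul_le_iff₀ (by positivity), mul_one]
    exact_mod_cast hn1
  have hρ0 : (0 : ℝ) ≤ 1 / ((6 ^ n : ℕ) : ℝ) := by positivity
  have h52 : 52 * A.card ^ 2 < 3 * N := by omega
  obtain ⟨i, m1, hm1, hdm1⟩ := Nat.exists_eq_pow_mul_and_not_dvd (n := d) (by omega) 2 (by norm_num)
  have hm10 : m1 ≠ 0 := by
    rintro rfl
    rw [mul_zero] at hdm1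
    omega
  obtain ⟨l, m2, hm2, hdm2⟩ := Nat.exists_eq_pow_mul_and_not_dvd (n := m1) hm10 3 (by norm_num)
  have hm20 : 0 < m2 := by
    rcases Nat.eq_zero_or_pos m2 with h | h
    · rw [h, mul_zero] at hdm2
      exact absurd hdm2 hm10
    · exact h
  have hd2 : d = 2 ^ i * (3 ^ l * m2) := by rw [hdm1, hdm2]
  have hd3 : d = 3 ^ l * (2 ^ i * m2) := by rw [hd2]; ring
  have hiL : i ≤ L := by
    rw [hL]
    apply Nat.le_log_of_pow_le (by norm_num)
    rw [hd2]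
    exact Nat.le_mul_of_pos_right _ (by positivity)
  have hlL : l ≤ L := by
    rw [hL]
    apply Nat.le_log_of_pow_le (by norm_num)
    rw [hd3]
    exact (Nat.pow_le_pow_left (by norm_num) l).trans (Nat.le_mul_of_pos_right _ (by positivity))
  have hm2odd : Nat.Coprime m2 2 := by
    rw [Nat.coprime_comm, Nat.Prime.coprime_iff_not_dvd Nat.prime_two]
    intro h
    apply hm1
    rw [hdm2]
    exact h.mul_left _
  -- the three parts are small
  have h8 : 2 ^ i < 8 * N := by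
    by_contra hcon
    push Not at hcon
    refine smooth_key 3 (2 ^ i * m2) l (2 ^ i) N d (by norm_num) le_rfl (by omega) hd3 w hw
      (Dvd.intro _ rfl) (Nat.Coprime.pow_left _ (by norm_num)) ?_ β hβ K0 A _ hρ0 hKA hρ x x' hD
      (hx3 N) (hx3' N) (by omega) h52
    intro j hj0 hjN hdj
    have h5 := n2 1 le_rfl i j (by rwa [one_mul])
    have h6 := Nat.le_of_dvd (by positivity) h5
    omega
  have h3 : 3 ^ l < 3 * N := by
    by_contra hcon
    push Not at hcon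
    refine smooth_key 2 (3 ^ l * m2) i (3 ^ l) N d (by norm_num) (by norm_num) (by omega) hd2 w hw
      (Dvd.intro _ rfl) (Nat.Coprime.pow_left _ (by norm_num)) ?_ β hβ K0 A _ hρ0 hKA hρ x x' hD
      (hx2 N) (hx2' N) (by omega) h52
    intro j hj0 hjN hdj
    have h5 := n3 l j hdj
    have h6 := Nat.le_of_dvd (by positivity) h5
    omega
  have hc : m2 < c1 * N := by
    by_contra hcon
    push Not at hcon
    refine smooth_key 2 (3 ^ l * m2) i m2 N d (by norm_num) (by norm_num) (by omega) hd2 w hw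
      (Dvd.intro_left _ rfl) hm2odd ?_ β hβ K0 A _ hρ0 hKA hρ x x' hD
      (hx2 N) (hx2' N) (by omega) h52
    intro j hj0 hjN hdj
    have hm2pr : ∀ p : ℕ, p.Prime → p ∣ m2 → p ∣ b := by
      intro p hp hpm
      refine hbp p hp (hpr p hp ?_) (Nat.Coprime.coprime_dvd_left hpm hm2odd)
      rw [hd2]
      exact (hpm.mul_left _).mul_left _
    have h5 := hord1 m2 j hm20 hm2pr (by rwa [one_mul])
    have h6 := Nat.le_of_dvd (Nat.mul_pos hc1 hj0) h5
    have h7 : c1 * j < c1 * N := Nat.mul_lt_mul_of_pos_left hjN hc1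
    omega
  -- the numerical contradiction
  have h9 : (d : ℝ) < 24 * c1 * (N : ℝ) ^ 3 := by
    have h10 : d < 8 * N * (3 * N * (c1 * N)) := by
      rw [hd2]
      exact Nat.mul_lt_mul_of_lt_of_lt h8 (Nat.mul_lt_mul_of_lt_of_lt h3 hc)
    have h11 : 8 * N * (3 * N * (c1 * N)) = 24 * c1 * N ^ 3 := by ring
    rw [h11] at h10
    exact_mod_cast h10
  have hdr : (1 : ℝ) ≤ d := by exact_mod_cast hd1
  have hN3 : (N : ℝ) ^ 3 ≤ C ^ 3 * (d : ℝ) ^ ((1 : ℝ) / 2) := by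
    calc (N : ℝ) ^ 3 ≤ (C * (d : ℝ) ^ ((2 : ℝ) / k)) ^ 3 := by gcongr
      _ = C ^ 3 * (d : ℝ) ^ ((2 : ℝ) / k * (3 : ℕ)) := by
        rw [mul_pow, ← Real.rpow_natCast ((d : ℝ) ^ ((2 : ℝ) / k)), ← Real.rpow_mul (by positivity)]
      _ ≤ C ^ 3 * (d : ℝ) ^ ((1 : ℝ) / 2) := by
        gcongr
        push_cast
        rw [div_mul_eq_mul_div, div_le_div_iff₀ (by positivity) (by norm_num)]
        linarith
  have h12 : (d : ℝ) = (d : ℝ) ^ ((1 : ℝ) / 2) * (d : ℝ) ^ ((1 : ℝ) / 2) := by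
    rw [← Real.rpow_add (by positivity)]
    norm_num
  have h13 : (0 : ℝ) < (d : ℝ) ^ ((1 : ℝ) / 2) := by positivity
  have h14 : (d : ℝ) ^ ((1 : ℝ) / 2) < 24 * c1 * C ^ 3 := by
    have h15 : (d : ℝ) ^ ((1 : ℝ) / 2) * (d : ℝ) ^ ((1 : ℝ) / 2) <
        24 * c1 * C ^ 3 * (d : ℝ) ^ ((1 : ℝ) / 2) := by
      rw [← h12]
      refine h9.trans_le ?_
      calc 24 * (c1 : ℝ) * (N : ℝ) ^ 3 ≤ 24 * c1 * (C ^ 3 * (d : ℝ) ^ ((1 : ℝ) / 2)) := by gcongr
        _ = _ := by ring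
    exact lt_of_mul_lt_mul_right h15 h13.le
  have h15 : (d : ℝ) < (24 * c1 * C ^ 3) ^ 2 := by
    rw [h12, sq]
    gcongr
  have h16 : (D1 : ℝ) ≤ d := by exact_mod_cast hdD1
  linarith

variable {μ : Measure Tor}

/-- **Differences are badly approximable by rationals with smooth denominators.** -/
theorem smoothU [IsProbabilityMeasure μ] (h2 : MeasurePreserving (T 2) μ μ)
    (h3 : MeasurePreserving (T 3) μ μ) (hE : Erg (ft μ)) (hne : ∃ n : ℤ, n ≠ 0 ∧ ft μ n ≠ 0)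
    (P0 : ℕ) (ε : ℝ) (hε : 0 < ε) :
    ∃ (q0 : ℕ) (K : Set Tor), IsClosed K ∧ 1 - ε ≤ μ.real K ∧ ∀ η : ℝ, 0 < η →
      ∃ c : ℝ, 0 < c ∧ ∀ x ∈ K, ∀ y ∈ K, ∀ d : ℕ, 0 < d →
        (∀ p : ℕ, p.Prime → p ∣ d → p ≤ P0) → (q0 < d ∨ ¬ Nat.Coprime d 6) →
        ∀ w : ℤ, IsCoprime (d : ℤ) w →
          c * Real.exp (-(d : ℝ) ^ η) < ‖x - y - ((w / d : ℝ) : Tor)‖ := by
  classical
  obtain ⟨K0, hK0c, hK0m, hcov⟩ := cover_unif h2 h3 hE hne (ε / 64) (by positivity)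
  obtain ⟨D1, hD11, hD1⟩ := smooth_k P0 K0 12 le_rfl (hcov 12 (by norm_num))
  obtain ⟨q0, hq0⟩ := smooth h2 h3 hE hne P0 (ε / 4) (by positivity)
  obtain ⟨S0, hS0⟩ := hq0 1
  obtain ⟨G, hGc, hGm, hG⟩ := hS0 (S0 + D1) (by omega)
  have hm2 : ∀ n, MeasurePreserving (fun x : Tor => 2 ^ n • x) μ μ := by
    intro n
    have := mp_pow h2 h3 n 0
    simpa using this
  have hm3 : ∀ n, MeasurePreserving (fun x : Tor => 3 ^ n • x) μ μ := by
    intro n
    have := mp_pow h2 h3 0 n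
    simpa using this
  set T3 : Set Tor := {y | ∀ N, 16 * bad 3 0 N K0 y ≤ N} with hT3
  set T2 : Set Tor := {y | ∀ N, 16 * bad 2 0 N K0 y ≤ N} with hT2
  have hT3c : IsClosed T3 := bad_all_closed _ _ _ hK0c
  have hT2c : IsClosed T2 := bad_all_closed _ _ _ hK0c
  have hT3m : μ.real T3ᶜ ≤ (16 : ℕ) * (1 - μ.real K0) := bad_all_mass 3 16 hm3 K0 hK0c
  have hT2m : μ.real T2ᶜ ≤ (16 : ℕ) * (1 - μ.real K0) := bad_all_mass 2 16 hm2 K0 hK0c
  push_cast at hT3m hT2m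
  refine ⟨q0, G ∩ (T3 ∩ T2), hGc.inter (hT3c.inter hT2c), ?_, ?_⟩
  · have h4 : μ.real (G ∩ (T3 ∩ T2))ᶜ ≤ μ.real Gᶜ + (μ.real T3ᶜ + μ.real T2ᶜ) := by
      rw [Set.compl_inter, Set.compl_inter]
      exact (measureReal_union_le _ _).trans (by gcongr; exact measureReal_union_le _ _)
    rw [probReal_compl_eq_one_sub (hGc.inter (hT3c.inter hT2c)).measurableSet,
      probReal_compl_eq_one_sub hGc.measurableSet] at h4
    linarith
  intro η hη
  -- the rate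
  obtain ⟨k', hk'⟩ := exists_nat_gt (4 / η)
  set k := max 12 k' with hk
  have hk12 : 12 ≤ k := le_max_left _ _
  have hkη : 4 / η < k := by
    refine hk'.trans_le ?_
    exact_mod_cast le_max_right 12 k'
  have hkr : (12 : ℝ) ≤ k := by exact_mod_cast hk12
  obtain ⟨D2, hD21, hD2⟩ := smooth_k P0 K0 k hk12 (hcov k (by omega))
  have hη2 : 0 < η - 2 / k := by
    rw [div_lt_iff₀ hη] at hkη
    have h5 : (2 : ℝ) / k < η := by
      rw [div_lt_iff₀ (by positivity)]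
      linarith
    linarith
  have hpow : Tendsto (fun d : ℕ => (d : ℝ) ^ (η - 2 / k)) atTop atTop :=
    (tendsto_rpow_atTop hη2).comp tendsto_natCast_atTop_atTop
  obtain ⟨D3, hD3⟩ := eventually_atTop.mp (hpow.eventually_ge_atTop (1.1 * (121 + 16 * k) + k))
  set D4 := D2 + D3 with hD4
  have hD41 : (1 : ℝ) ≤ D4 := by exact_mod_cast (by omega : 1 ≤ D4)
  have hD11r : (1 : ℝ) ≤ D1 := by exact_mod_cast hD11
  obtain ⟨c, hc⟩ : ∃ c : ℝ, c = min (1 / (3 ^ (313 * D4) * (D4 : ℝ) ^ 2))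
      (min (Real.exp (-((S0 + D1 : ℕ) : ℝ))) (1 / (4 * (D1 : ℝ) ^ 2))) := ⟨_, rfl⟩
  have hc0 : 0 < c := by
    rw [hc]
    positivity
  have hca : c ≤ 1 / (3 ^ (313 * D4) * (D4 : ℝ) ^ 2) := hc ▸ min_le_left _ _
  have hcb : c ≤ Real.exp (-((S0 + D1 : ℕ) : ℝ)) := by
    rw [hc]
    exact (min_le_right _ _).trans (min_le_left _ _)
  have hcc : c ≤ 1 / (4 * (D1 : ℝ) ^ 2) := by
    rw [hc]
    exact (min_le_right _ _).trans (min_le_right _ _)
  have hc1 : c ≤ 1 := by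
    refine hcb.trans ?_
    rw [Real.exp_le_one_iff]
    have : (0 : ℝ) ≤ ((S0 + D1 : ℕ) : ℝ) := Nat.cast_nonneg _
    linarith
  refine ⟨c, hc0, fun x hx y hy d hd hpr hdq w hw => ?_⟩
  by_contra hcon
  push Not at hcon
  have hdr : (1 : ℝ) ≤ d := by exact_mod_cast hd
  obtain ⟨r, hr⟩ : ∃ r, r = c * Real.exp (-(d : ℝ) ^ η) := ⟨_, rfl⟩
  rw [← hr] at hcon
  have hr0 : 0 < r := by rw [hr]; positivity
  have hrc : r ≤ c := by
    rw [hr]
    have h5 : Real.exp (-(d : ℝ) ^ η) ≤ 1 := by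
      rw [Real.exp_le_one_iff]
      have : (0 : ℝ) ≤ (d : ℝ) ^ η := by positivity
      linarith
    nlinarith
  obtain ⟨β, hβ, hβn⟩ := exists_rep (x - y - ((w / d : ℝ) : Tor))
  have hβr : |β| ≤ r := by
    rw [hβn]
    exact hcon
  have hD : x - y = ((w / d + β : ℝ) : Tor) := by
    rw [AddCircle.coe_add, hβ]
    abel
  rcases lt_or_ge d D1 with hd1 | hd1
  · -- bounded denominators
    have hlog : ((S0 + D1 : ℕ) : ℝ) ≤ (Real.log (1 / r)) ^ 1 := by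
      rw [pow_one, one_div, Real.log_inv, le_neg]
      rw [Real.log_le_iff_le_exp hr0]
      exact hrc.trans hcb
    have hnorm : ‖d • (x - y)‖ ≤ d * r := by
      rw [hD, ← AddCircle.coe_nsmul, nsmul_eq_mul]
      have e : (d : ℝ) * (w / d + β) = (w : ℝ) + d * β := by
        field_simp
      rw [e, AddCircle.coe_add, coe_int, zero_add]
      refine (norm_coe_le _).trans ?_
      rw [abs_mul, abs_of_pos (by linarith)]
      gcongr
    obtain ⟨q, hq, hqq0, hq6, hqd, hqn⟩ := hG x hx.1 y hy.1 r hr0 hlog d hd (by omega) hpr hnorm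
    have hne' : q ≠ d := by
      rintro rfl
      rcases hdq with h | h
      · omega
      · exact h hq6
    have hndvd : ¬ (d : ℤ) ∣ (q : ℤ) * w := by
      intro h
      have h5 := hw.dvd_of_dvd_mul_right h
      have h6 : d ∣ q := by exact_mod_cast h5
      exact hne' (Nat.dvd_antisymm hqd h6)
    have h5 := norm_frac d hd ((q : ℤ) * w) hndvd
    have e : (((((q : ℤ) * w : ℤ) : ℝ) / d : ℝ) : Tor) = q • (x - y) - ((q * β : ℝ) : Tor) := by
      rw [hD, ← AddCircle.coe_nsmul, nsmul_eq_mul, ← AddCircle.coe_sub]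
      congr 1
      push_cast
      ring
    have hqd' : (q : ℝ) ≤ d := by exact_mod_cast Nat.le_of_dvd hd hqd
    have h6 : ‖(((((q : ℤ) * w : ℤ) : ℝ) / d : ℝ) : Tor)‖ ≤ 2 * (d * r) := by
      rw [e]
      refine (norm_sub_le _ _).trans ?_
      have h7 : ‖((q * β : ℝ) : Tor)‖ ≤ q * r := by
        refine (norm_coe_le _).trans ?_
        rw [abs_mul, Nat.abs_cast]
        gcongr
      have h8 : (q : ℝ) * r ≤ d * r := by gcongr
      linarith
    have h7 := h5.trans h6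
    rw [div_le_iff₀ (by linarith)] at h7
    have h8 : (d : ℝ) ≤ D1 := by exact_mod_cast hd1.le
    have h9 : 2 * (d * r) * d ≤ 2 * (D1 * (1 / (4 * (D1 : ℝ) ^ 2))) * D1 := by
      gcongr
      exact hrc.trans hcc
    have h10 : 2 * ((D1 : ℝ) * (1 / (4 * (D1 : ℝ) ^ 2))) * D1 = 1 / 2 := by
      field_simp
      norm_num
    linarith
  rcases lt_or_ge d D4 with hd4 | hd4
  · -- medium denominators
    obtain ⟨N, hN, hmain⟩ := hD1 d hd1 hpr
    refine hmain x y hx.2.1 hx.2.2 hy.2.1 hy.2.2 w hw β ?_ hD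
    have hdD4 : (d : ℝ) ≤ D4 := by exact_mod_cast hd4.le
    have hN2 : N ≤ 313 * D4 := by
      have h5 : (d : ℝ) ^ ((2 : ℝ) / (12 : ℕ)) ≤ d := by
        calc (d : ℝ) ^ ((2 : ℝ) / (12 : ℕ)) ≤ (d : ℝ) ^ (1 : ℝ) := by
              apply Real.rpow_le_rpow_of_exponent_le hdr
              norm_num
          _ = d := Real.rpow_one _
      have h6 : (N : ℝ) ≤ 313 * D4 := by
        refine hN.trans ?_
        push_cast at h5 ⊢
        nlinarith
      exact_mod_cast h6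
    calc (3 : ℝ) ^ N * (d : ℝ) ^ 2 * |β| ≤
          3 ^ (313 * D4) * (D4 : ℝ) ^ 2 * (1 / (3 ^ (313 * D4) * (D4 : ℝ) ^ 2)) := by
          gcongr
          · norm_num
          · exact hβr.trans (hrc.trans hca)
      _ = 1 := by
        field_simp
  · -- large denominators
    obtain ⟨N, hN, hmain⟩ := hD2 d (by omega) hpr
    refine hmain x y hx.2.1 hx.2.2 hy.2.1 hy.2.2 w hw β ?_ hD
    have hd0 : (0 : ℝ) < d := by linarith
    have hα : (0 : ℝ) < 2 / k := by positivity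
    have h5 := hD3 d (by omega)
    have h6 : (d : ℝ) ^ η = (d : ℝ) ^ (η - 2 / k) * (d : ℝ) ^ ((2 : ℝ) / k) := by
      rw [← Real.rpow_add hd0]
      congr 1
      ring
    have h7 : (0 : ℝ) < (d : ℝ) ^ ((2 : ℝ) / k) := by positivity
    have h8 : (1.1 * (121 + 16 * (k : ℝ)) + k) * (d : ℝ) ^ ((2 : ℝ) / k) ≤ (d : ℝ) ^ η := by
      rw [h6]
      gcongr
    have hlog3 : Real.log 3 ≤ 1.1 := by
      have h4 : Real.log 3 < 1.1 := by
        rw [Real.log_lt_iff_lt_exp (by norm_num)]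
        have h5 : (1.1 : ℝ) = 1 + 0.1 := by norm_num
        rw [h5, Real.exp_add]
        have h6 := Real.exp_one_gt_d9
        have h9 := Real.quadratic_le_exp_of_nonneg (show (0 : ℝ) ≤ 1 / 10 by norm_num)
        norm_num at h6 h9 ⊢
        nlinarith
      exact h4.le
    have hlogd : 2 * Real.log d ≤ k * (d : ℝ) ^ ((2 : ℝ) / k) := by
      have h9 := Real.log_le_rpow_div hd0.le hα
      have h10 : (d : ℝ) ^ ((2 : ℝ) / k) / (2 / k) = k / 2 * (d : ℝ) ^ ((2 : ℝ) / k) := by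
        field_simp
      rw [h10] at h9
      linarith
    have h9 : (3 : ℝ) ^ N * (d : ℝ) ^ 2 ≤ Real.exp ((d : ℝ) ^ η) := by
      rw [← Real.log_le_iff_le_exp (by positivity), Real.log_mul (by positivity) (by positivity),
        Real.log_pow, Real.log_pow]
      have h10 : (N : ℝ) * Real.log 3 ≤ (121 + 16 * k) * (d : ℝ) ^ ((2 : ℝ) / k) * 1.1 := by
        have : 0 ≤ Real.log 3 := Real.log_nonneg (by norm_num)
        gcongr
      push_cast
      linarith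
    have h10 : |β| ≤ Real.exp (-(d : ℝ) ^ η) := by
      refine hβr.trans ?_
      rw [hr]
      have : (0 : ℝ) < Real.exp (-(d : ℝ) ^ η) := Real.exp_pos _
      nlinarith
    calc (3 : ℝ) ^ N * (d : ℝ) ^ 2 * |β| ≤ Real.exp ((d : ℝ) ^ η) * Real.exp (-(d : ℝ) ^ η) := by
          gcongr
      _ = 1 := by rw [← Real.exp_add]; simp

end Helper58.FH
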