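import Mathlib
import Pool.Agent.Helper58.FH.SmoothU
import Pool.Agent.Helper58.FH.Kor

set_option autoImplicit false
open MeasureTheory Filter Topology Metric Finset
open scoped ENNReal ComplexConjugate

/-! Sums of points and denominators modulo which two or three has large order. -/

namespace Helper58.FH

open Helper58.FX (act UU ev ft Erg T sc PE)

lemma coreK (P N : ℕ) (hP : 1 ≤ P) (u : ℕ → ℤ) (D : ℕ → Tor) (A : Finset Tor) (k : ℕ)
    (c : Fin k → ℤ)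
    (hu : ∀ t < N, ∀ t' < N, (P : ℤ) ∣ u t - u t' → t = t')
    (hD : ∀ t < N, ‖D t - ((u t / P : ℝ) : Tor)‖ ≤ 1 / P) (S : Finset ℕ)
    (hS : S ⊆ range N)
    (hSA : ∀ t ∈ S, ∃ a : Fin k → Tor, (∀ i, a i ∈ A) ∧ ‖D t - ∑ i, c i • a i‖ ≤ 2 / P) :
    S.card ≤ 13 * A.card ^ k := by
  classical
  have hsub : S ⊆ (Fintype.piFinset fun _ : Fin k => A).biUnion
      (fun p => S.filter (fun t => ‖D t - ∑ i, c i • p i‖ ≤ 2 / P)) := by
    intro t ht
    obtain ⟨a, ha, h⟩ := hSA t ht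
    rw [mem_biUnion]
    exact ⟨a, Fintype.mem_piFinset.2 ha, mem_filter.2 ⟨ht, h⟩⟩
  refine (Finset.card_le_card hsub).trans (Finset.card_biUnion_le.trans ?_)
  refine (Finset.sum_le_card_nsmul _ _ 13 ?_).trans (le_of_eq ?_)
  · intro p _
    exact core1 P N hP u D hu hD (∑ i, c i • p i) _ ((Finset.filter_subset _ _).trans hS)
      fun t ht => (mem_filter.1 ht).2
  · rw [Fintype.card_piFinset_const, smul_eq_mul]
    ring

lemma sideS (P g D1 N : ℕ) (hP : 1 ≤ P) (hg : 1 ≤ g) (w : ℤ) (hw : IsCoprime (P : ℤ) w)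
    (hD1 : D1 ∣ P) (hcop : Nat.Coprime D1 g)
    (hord : ∀ j, 0 < j → j < N → ¬ D1 ∣ g ^ j - 1) (γ : ℝ)
    (hγ : (g : ℝ) ^ N * |γ| * P ≤ 1) (A : Finset Tor) (k : ℕ) (c : Fin k → ℤ)
    (hc : ∀ i, |c i| ≤ 1) (y : Fin k → Tor)
    (hD : ∑ i, c i • y i = ((w / P + γ : ℝ) : Tor)) (ρ : ℝ) (hρ : k * ρ * P ≤ 2)
    (hy : 2 * ∑ i, bad g 0 N (⋃ a ∈ A, closedBall a ρ) (y i) ≤ N)
    (hN : 26 * A.card ^ k < N) : False := by
  classical
  have hPr : (0 : ℝ) < P := by exact_mod_cast hP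
  have hgr : (1 : ℝ) ≤ g := by exact_mod_cast hg
  set U : Set Tor := ⋃ a ∈ A, closedBall a ρ with hU
  set S : Finset ℕ := (range N).filter (fun t => ∀ i, g ^ (0 + t) • y i ∈ U) with hS
  have h1 : range N ⊆ S ∪ (Finset.univ : Finset (Fin k)).biUnion
      fun i => (range N).filter (fun t => g ^ (0 + t) • y i ∉ U) := by
    intro t ht
    simp only [hS, mem_union, mem_filter, ht, true_and, mem_biUnion, Finset.mem_univ]
    by_contra hcon
    push Not at hcon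
    obtain ⟨⟨i, hi⟩, h⟩ := hcon
    exact hi (h i)
  have h2 : N ≤ S.card + ∑ i, bad g 0 N U (y i) := by
    have h3 := Finset.card_le_card h1
    rw [card_range] at h3
    refine h3.trans ((Finset.card_union_le _ _).trans ?_)
    gcongr
    exact Finset.card_biUnion_le
  have hwD : IsCoprime (D1 : ℤ) w :=
    IsCoprime.of_isCoprime_of_dvd_left hw (Int.natCast_dvd_natCast.2 hD1)
  have h3 : S.card ≤ 13 * A.card ^ k := by
    refine coreK P N hP (fun t => w * g ^ (t + 0)) (fun t => g ^ (0 + t) • ∑ i, c i • y i) A k c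
      (fun t ht t' ht' hd => distinct D1 g hg w hwD hcop N 0 hord t ht t' ht'
        ((Int.natCast_dvd_natCast.2 hD1).trans hd)) ?_ S (Finset.filter_subset _ _) ?_
    · intro t ht
      have e : g ^ (0 + t) • (∑ i, c i • y i) - (((w * g ^ (t + 0) : ℤ) / P : ℝ) : Tor) =
          (((g : ℝ) ^ t * γ : ℝ) : Tor) := by
        rw [hD, ← AddCircle.coe_nsmul, ← AddCircle.coe_sub]
        congr 1
        rw [nsmul_eq_mul, zero_add, add_zero]
        push_cast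
        field_simp
        ring
      rw [e]
      refine (norm_coe_le _).trans ?_
      rw [abs_mul, abs_of_pos (by positivity), le_div_iff₀ hPr]
      refine le_trans ?_ hγ
      gcongr
    · intro t ht
      rw [hS, mem_filter] at ht
      have h4 : ∀ i, ∃ a ∈ A, ‖g ^ (0 + t) • y i - a‖ ≤ ρ := by
        intro i
        have := ht.2 i
        rw [hU, Set.mem_iUnion₂] at this
        obtain ⟨a, ha, h⟩ := this
        rw [mem_closedBall, dist_eq_norm] at h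
        exact ⟨a, ha, h⟩
      choose a ha hya using h4
      refine ⟨a, ha, ?_⟩
      have e : g ^ (0 + t) • (∑ i, c i • y i) - ∑ i, c i • a i =
          ∑ i, c i • (g ^ (0 + t) • y i - a i) := by
        rw [Finset.smul_sum, ← Finset.sum_sub_distrib]
        refine Finset.sum_congr rfl fun i _ => ?_
        rw [smul_sub, smul_comm]
      rw [e]
      refine (norm_sum_le _ _).trans ?_
      have h5 : ∀ i, ‖c i • (g ^ (0 + t) • y i - a i)‖ ≤ ρ := by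
        intro i
        refine (norm_zsmul_le _ _).trans ?_
        have h6 : ‖(c i : ℤ)‖ ≤ 1 := by
          rw [Int.norm_eq_abs]
          exact_mod_cast hc i
        calc _ ≤ 1 * ρ := mul_le_mul h6 (hya i) (norm_nonneg _) zero_le_one
          _ = ρ := one_mul ρ
      refine (Finset.sum_le_sum fun i _ => h5 i).trans ?_
      rw [Finset.sum_const, Finset.card_univ, Fintype.card_fin, nsmul_eq_mul, le_div_iff₀ hPr]
      exact hρ
  omega

/-- the bad times of multiples -/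
lemma sum_bad (k g e N : ℕ) (U : Set Tor) (x : Fin k → Tor)
    (hb : ∀ j, 4 * (k + 1) * bad g 0 N U (x j) ≤ N) (he : (k + 1) * e * 4 ≤ N) :
    2 * ∑ j, bad g 0 N U (g ^ e • x j) ≤ N := by
  have h5 : ∀ j, 4 * (k + 1) * bad g 0 N U (g ^ e • x j) ≤ N + 4 * (k + 1) * e := by
    intro j
    have h6 := bad_shift g e N U (x j)
    have h7 := hb j
    calc 4 * (k + 1) * bad g 0 N U (g ^ e • x j) ≤ 4 * (k + 1) * (bad g 0 N U (x j) + e) :=
          Nat.mul_le_mul_left _ h6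
      _ = 4 * (k + 1) * bad g 0 N U (x j) + 4 * (k + 1) * e := by ring
      _ ≤ _ := by omega
  have h6 : 4 * (k + 1) * ∑ j, bad g 0 N U (g ^ e • x j) ≤ k * (N + 4 * (k + 1) * e) := by
    rw [Finset.mul_sum]
    refine (Finset.sum_le_sum fun j _ => h5 j).trans (le_of_eq ?_)
    rw [Finset.sum_const, Finset.card_univ, Fintype.card_fin, smul_eq_mul]
  have h7 : k * (N + 4 * (k + 1) * e) ≤ (k + 1) * (2 * N) := by
    have h8 : 4 * (k + 1) * e ≤ N := by linarith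
    exact Nat.mul_le_mul (by omega) (by omega)
  have h8 : (k + 1) * (4 * ∑ j, bad g 0 N U (g ^ e • x j)) ≤ (k + 1) * (2 * N) := by
    refine le_trans (le_of_eq ?_) (h6.trans h7)
    ring
  have h9 := Nat.le_of_mul_le_mul_left h8 (by omega)
  omega

lemma ord_key (g P e D1 N d : ℕ) (hg : 1 ≤ g) (hg3 : g ≤ 3) (hd : 0 < d)
    (hdP : d = g ^ e * P) (w : ℤ) (hw : IsCoprime (d : ℤ) w) (hD1 : D1 ∣ P)
    (hcop : Nat.Coprime D1 g) (hord : ∀ j, 0 < j → j < N → ¬ D1 ∣ g ^ j - 1) (β : ℝ)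
    (hβ : (3 : ℝ) ^ N * (d : ℝ) ^ 2 * |β| ≤ 1) (K0 : Set Tor) (A : Finset Tor) (ρ : ℝ)
    (hρ0 : 0 ≤ ρ) (hK : K0 ⊆ ⋃ a ∈ A, closedBall a ρ) (k : ℕ) (hρ : k * ρ * d ≤ 2)
    (c : Fin k → ℤ) (hc : ∀ i, |c i| ≤ 1) (x : Fin k → Tor)
    (hD : ∑ i, c i • x i = ((w / d + β : ℝ) : Tor))
    (hx : ∀ j, 4 * (k + 1) * bad g 0 N K0 (x j) ≤ N) (he : (k + 1) * e * 4 ≤ N)
    (hN : 26 * A.card ^ k < N) : False := by
  have hP : 1 ≤ P := by
    rcases Nat.eq_zero_or_pos P with h | h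
    · rw [h, mul_zero] at hdP
      omega
    · exact h
  have hdr : (0 : ℝ) < d := by exact_mod_cast hd
  have hPr : (0 : ℝ) < P := by exact_mod_cast hP
  have hgr : (1 : ℝ) ≤ g := by exact_mod_cast hg
  have hdP' : (d : ℝ) = (g : ℝ) ^ e * P := by exact_mod_cast hdP
  have hPd : (P : ℝ) ≤ d := by
    rw [hdP']
    have : (1 : ℝ) ≤ (g : ℝ) ^ e := one_le_pow₀ hgr
    nlinarith
  have hwP : IsCoprime (P : ℤ) w := by
    refine IsCoprime.of_isCoprime_of_dvd_left hw ?_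
    rw [hdP]
    exact_mod_cast Dvd.intro_left _ rfl
  refine sideS P g D1 N hP hg w hwP hD1 hcop hord ((g : ℝ) ^ e * β) ?_ A k c hc
    (fun j => g ^ e • x j) ?_ ρ ?_ ?_ hN
  · rw [abs_mul, abs_of_pos (by positivity)]
    refine le_trans ?_ hβ
    have h1 : (g : ℝ) ^ N ≤ 3 ^ N := pow_le_pow_left₀ (by positivity) (by exact_mod_cast hg3) N
    calc (g : ℝ) ^ N * ((g : ℝ) ^ e * |β|) * P = (g : ℝ) ^ N * d * |β| := by rw [hdP']; ring
      _ ≤ 3 ^ N * (d : ℝ) ^ 2 * |β| := by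
        gcongr
        have h2 : (1 : ℝ) ≤ d := by exact_mod_cast hd
        nlinarith
  · have e1 : ∑ j, c j • (g ^ e • x j) = g ^ e • ∑ j, c j • x j := by
      rw [Finset.smul_sum]
      exact Finset.sum_congr rfl fun j _ => smul_comm _ _ _
    rw [e1, hD, ← AddCircle.coe_nsmul, nsmul_eq_mul]
    congr 1
    push_cast
    rw [hdP']
    have : (g : ℝ) ^ e ≠ 0 := by positivity
    field_simp
  · calc (k : ℝ) * ρ * P ≤ k * ρ * d := by gcongr
      _ ≤ 2 := hρ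
  · refine le_trans (Nat.mul_le_mul_left _ (Finset.sum_le_sum fun j _ => ?_))
      (sum_bad k g e N K0 x hx he)
    exact bad_mono g 0 N hK (g ^ e • x j)

lemma ord_num (k m a L n d : ℕ) (hm : 1 ≤ m) (hkm : k ≤ m) (hd : 1 ≤ d) (ha : a ^ m ≤ 6 ^ n)
    (hn : 6 ^ n ≤ 6 * ((k + 1) * d)) (hL : 2 ^ L ≤ d) (α : ℝ) (hα : 0 < α)
    (hkα : (k : ℝ) / m ≤ α) :
    ((26 * a ^ k + 4 * (k + 1) * L + 1 : ℕ) : ℝ) ≤
      (156 * (k + 1) + 8 * (k + 1) / α + 1) * (d : ℝ) ^ α := by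
  have hmr : (0 : ℝ) < m := by exact_mod_cast hm
  have hdr : (1 : ℝ) ≤ d := by exact_mod_cast hd
  have hk0 : (0 : ℝ) ≤ k := Nat.cast_nonneg k
  have h1 : (1 : ℝ) ≤ (d : ℝ) ^ α := Real.one_le_rpow hdr hα.le
  have h2 : (a : ℝ) ^ k ≤ 6 * (k + 1) * (d : ℝ) ^ α := by
    have h3 : (a : ℝ) ^ m ≤ 6 * ((k + 1) * d) := by exact_mod_cast ha.trans hn
    have h4 : (a : ℝ) ^ k ≤ (6 * ((k + 1) * d) : ℝ) ^ ((k : ℝ) / m) := by
      have h5 := Real.rpow_le_rpow (by positivity) h3 (by positivity : (0 : ℝ) ≤ (k : ℝ) / m)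
      rwa [← Real.rpow_natCast (a : ℝ) m, ← Real.rpow_mul (by positivity),
        mul_div_cancel₀ _ hmr.ne', Real.rpow_natCast] at h5
    refine h4.trans ?_
    have hkm1 : (k : ℝ) / m ≤ 1 := by
      rw [div_le_one hmr]
      exact_mod_cast hkm
    have e : (6 * ((k + 1) * d) : ℝ) = 6 * (k + 1) * d := by ring
    rw [e, Real.mul_rpow (by positivity) (by positivity)]
    have h6 : (6 * ((k : ℝ) + 1)) ^ ((k : ℝ) / m) ≤ 6 * (k + 1) := by
      calc (6 * ((k : ℝ) + 1)) ^ ((k : ℝ) / m) ≤ (6 * ((k : ℝ) + 1)) ^ (1 : ℝ) := by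
            apply Real.rpow_le_rpow_of_exponent_le _ hkm1
            nlinarith
        _ = 6 * (k + 1) := Real.rpow_one _
    have h7 : (d : ℝ) ^ ((k : ℝ) / m) ≤ (d : ℝ) ^ α :=
      Real.rpow_le_rpow_of_exponent_le hdr hkα
    gcongr
  have h3 : (L : ℝ) ≤ 2 / α * (d : ℝ) ^ α := by
    have h4 : (2 : ℝ) ^ L ≤ d := by exact_mod_cast hL
    have h5 := Real.log_le_log (by positivity) h4
    rw [Real.log_pow] at h5
    have h6 := Real.log_two_gt_d9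
    have h7 := Real.log_le_rpow_div (by positivity : (0 : ℝ) ≤ d) hα
    have h9 : (0 : ℝ) ≤ L := Nat.cast_nonneg L
    have h10 : (L : ℝ) * (1 / 2) ≤ L * Real.log 2 := by gcongr; linarith
    have h11 : 2 / α * (d : ℝ) ^ α = 2 * ((d : ℝ) ^ α / α) := by ring
    rw [h11]
    linarith
  push_cast
  have h4 : 4 * ((k : ℝ) + 1) * L ≤ 4 * (k + 1) * (2 / α * (d : ℝ) ^ α) := by gcongr
  have h5 : 4 * ((k : ℝ) + 1) * (2 / α * (d : ℝ) ^ α) = 8 * (k + 1) / α * (d : ℝ) ^ α := by ring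
  nlinarith

/-- divisibility and orders -/
lemma not_dvd_of_order (g d' N : ℕ) (hg : 1 ≤ g) (h : N ≤ orderOf (g : ZMod d')) :
    ∀ j, 0 < j → j < N → ¬ d' ∣ g ^ j - 1 := by
  intro j hj0 hjN hdj
  have h1 : ((g ^ j - 1 : ℕ) : ZMod d') = 0 := (ZMod.natCast_eq_zero_iff _ _).2 hdj
  rw [Nat.cast_sub (Nat.one_le_pow _ _ hg), Nat.cast_pow, Nat.cast_one, sub_eq_zero] at h1
  have h2 := Nat.le_of_dvd hj0 (orderOf_dvd_of_pow_eq_one h1)
  omega

/-- a denominator is large modulo its order -/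
def LargeOrder (κ : ℝ) (f : ℕ) : Prop :=
  (f : ℝ) ^ κ ≤ orderOf (2 : ZMod f) ∨ (f : ℝ) ^ κ ≤ orderOf (3 : ZMod f)

/-- the case of large denominators -/
theorem ord_k (k : ℕ) (K0 : Set Tor)
    (hcov : ∀ m : ℕ, 1 ≤ m → ∃ n0 : ℕ, ∀ n, n0 ≤ n → ∃ A : Finset Tor, A.card ^ m ≤ 6 ^ n ∧
        K0 ⊆ ⋃ a ∈ A, closedBall a (1 / (6 ^ n : ℕ))) (κ α : ℝ) (hκ : 0 < κ) (hα : 0 < α)
    (hακ : α * (2 + 1 / κ) ≤ 1 / 2) :
    ∃ (C : ℝ) (D0 : ℕ), 1 ≤ C ∧ 1 ≤ D0 ∧ ∀ i l f : ℕ, D0 ≤ 2 ^ i * 3 ^ l * f →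
      Nat.Coprime f 6 → LargeOrder κ f →
      ∃ N : ℕ, (N : ℝ) ≤ C * ((2 ^ i * 3 ^ l * f : ℕ) : ℝ) ^ α ∧
        ∀ x : Fin k → Tor, (∀ j N, 4 * (k + 1) * bad 3 0 N K0 (x j) ≤ N) →
          (∀ j N, 4 * (k + 1) * bad 2 0 N K0 (x j) ≤ N) →
          ∀ c : Fin k → ℤ, (∀ j, |c j| ≤ 1) → ∀ w : ℤ,
          IsCoprime ((2 ^ i * 3 ^ l * f : ℕ) : ℤ) w → ∀ β : ℝ,
          (3 : ℝ) ^ N * ((2 ^ i * 3 ^ l * f : ℕ) : ℝ) ^ 2 * |β| ≤ 1 →
            ∑ j, c j • x j = ((w / ((2 ^ i * 3 ^ l * f : ℕ) : ℝ) + β : ℝ) : Tor) → False := by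
  have hk0 : (0 : ℝ) ≤ k := Nat.cast_nonneg k
  obtain ⟨m0, hm0⟩ := exists_nat_gt ((k : ℝ) / α)
  obtain ⟨m, hm⟩ : ∃ m, m = m0 + k + 1 := ⟨_, rfl⟩
  have hkα : (k : ℝ) / m ≤ α := by
    rw [div_lt_iff₀ hα] at hm0
    have h1 : (m : ℝ) = m0 + k + 1 := by rw [hm]; push_cast; ring
    rw [div_le_iff₀ (by rw [h1]; positivity), h1]
    nlinarith
  obtain ⟨n0, hn0⟩ := hcov m (by omega)
  obtain ⟨C, hC⟩ : ∃ C : ℝ, C = 156 * (k + 1) + 8 * (k + 1) / α + 1 := ⟨_, rfl⟩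
  have hC1 : 1 ≤ C := by
    rw [hC]
    have : 0 ≤ 156 * ((k : ℝ) + 1) + 8 * (k + 1) / α := by positivity
    linarith
  obtain ⟨D1, hD1⟩ := exists_nat_gt ((24 * C ^ (2 + 1 / κ)) ^ 2)
  have h6pos : 1 ≤ 6 ^ n0 := Nat.one_le_pow _ _ (by norm_num)
  refine ⟨C, 6 ^ n0 + D1, hC1, h6pos.trans (Nat.le_add_right _ _), fun i l f hd hf6 hord => ?_⟩
  obtain ⟨d, hdef⟩ : ∃ d, d = 2 ^ i * 3 ^ l * f := ⟨_, rfl⟩
  rw [← hdef] at hd ⊢
  have hd6 : 6 ^ n0 ≤ d := (Nat.le_add_right _ _).trans hd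
  have hd1 : 1 ≤ d := h6pos.trans hd6
  have hdD1 : D1 ≤ d := (Nat.le_add_left _ _).trans hd
  have hf0 : 0 < f := by
    rcases Nat.eq_zero_or_pos f with h | h
    · rw [h, mul_zero] at hdef
      omega
    · exact h
  set n := Nat.log 6 ((k + 1) * d) + 1 with hn
  have hkd : (k + 1) * d ≠ 0 := by positivity
  have hn1 : (k + 1) * d ≤ 6 ^ n := (Nat.lt_pow_succ_log_self (by norm_num) _).le
  have hn2 : 6 ^ n ≤ 6 * ((k + 1) * d) := by
    rw [hn, pow_succ, mul_comm]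
    exact Nat.mul_le_mul_left _ (Nat.pow_log_le_self 6 hkd)
  have hn0n : n0 ≤ n := by
    refine (Nat.pow_le_pow_iff_right (by norm_num : 1 < 6)).1 (hd6.trans (le_trans ?_ hn1))
    exact Nat.le_mul_of_pos_left _ (by omega)
  obtain ⟨A, hA, hKA⟩ := hn0 n hn0n
  set L := Nat.log 2 d with hL
  have hL2 : 2 ^ L ≤ d := Nat.pow_log_le_self 2 (by omega)
  set N := 26 * A.card ^ k + 4 * (k + 1) * L + 1 with hN
  have hNC : (N : ℝ) ≤ C * (d : ℝ) ^ α := by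
    rw [hC]
    exact ord_num k m A.card L n d (by omega) (by omega) hd1 hA hn2 hL2 α hα hkα
  refine ⟨N, hNC, fun x hx3 hx2 c hc w hw β hβ hD => ?_⟩
  have hρ0 : (0 : ℝ) ≤ 1 / ((6 ^ n : ℕ) : ℝ) := by positivity
  have hρ : (k : ℝ) * (1 / ((6 ^ n : ℕ) : ℝ)) * d ≤ 2 := by
    have h1 : ((k : ℝ) + 1) * d ≤ ((6 ^ n : ℕ) : ℝ) := by exact_mod_cast hn1
    have h2 : (0 : ℝ) < ((6 ^ n : ℕ) : ℝ) := by positivity
    have h3 : (k : ℝ) * (1 / ((6 ^ n : ℕ) : ℝ)) * d = k * d / ((6 ^ n : ℕ) : ℝ) := by ring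
    rw [h3, div_le_iff₀ h2]
    have h4 : (0 : ℝ) ≤ d := Nat.cast_nonneg d
    nlinarith
  have h26 : 26 * A.card ^ k < N := by
    have : 0 ≤ 4 * (k + 1) * L := Nat.zero_le _
    omega
  have hd2 : d = 2 ^ i * (3 ^ l * f) := by rw [hdef]; ring
  have hd3 : d = 3 ^ l * (2 ^ i * f) := by rw [hdef]; ring
  have hiL : i ≤ L := by
    rw [hL]
    apply Nat.le_log_of_pow_le (by norm_num)
    rw [hd2]
    exact Nat.le_mul_of_pos_right _ (by positivity)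
  have hlL : l ≤ L := by
    rw [hL]
    apply Nat.le_log_of_pow_le (by norm_num)
    rw [hd3]
    exact (Nat.pow_le_pow_left (by norm_num) l).trans (Nat.le_mul_of_pos_right _ (by positivity))
  have hLN : ∀ e, e ≤ L → (k + 1) * e * 4 ≤ N := by
    intro e he
    have h1 : (k + 1) * e * 4 ≤ 4 * (k + 1) * L := by
      calc (k + 1) * e * 4 ≤ (k + 1) * L * 4 :=
            Nat.mul_le_mul_right _ (Nat.mul_le_mul_left _ he)
        _ = 4 * (k + 1) * L := by ring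
    omega
  have hf2 : Nat.Coprime f 2 := Nat.Coprime.coprime_dvd_right (by norm_num) hf6
  have hf3 : Nat.Coprime f 3 := Nat.Coprime.coprime_dvd_right (by norm_num) hf6
  -- the three parts are small
  have h8 : 2 ^ i < 8 * N := by
    by_contra hcon
    push Not at hcon
    refine ord_key 3 (2 ^ i * f) l (2 ^ i) N d (by norm_num) le_rfl (by omega) hd3 w hw
      (Dvd.intro _ rfl) (Nat.Coprime.pow_left _ (by norm_num)) ?_ β hβ K0 A _ hρ0 hKA k hρ c hc x hD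
      (fun j => hx3 j N) (hLN l hlL) h26
    intro j hj0 hjN hdj
    have h5 := n2 1 le_rfl i j (by rwa [one_mul])
    have h6 := Nat.le_of_dvd (by positivity) h5
    omega
  have h3 : 3 ^ l < 3 * N := by
    by_contra hcon
    push Not at hcon
    refine ord_key 2 (3 ^ l * f) i (3 ^ l) N d (by norm_num) (by norm_num) (by omega) hd2 w hw
      (Dvd.intro _ rfl) (Nat.Coprime.pow_left _ (by norm_num)) ?_ β hβ K0 A _ hρ0 hKA k hρ c hc x hD
      (fun j => hx2 j N) (hLN i hiL) h26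
    intro j hj0 hjN hdj
    have h5 := n3 l j hdj
    have h6 := Nat.le_of_dvd (by positivity) h5
    omega
  have hfN : (f : ℝ) ^ κ ≤ N := by
    rcases hord with hord | hord
    · refine hord.trans ?_
      by_contra hcon
      push Not at hcon
      have hcon' : N ≤ orderOf ((2 : ℕ) : ZMod f) := by
        have : (N : ℝ) ≤ (orderOf ((2 : ℕ) : ZMod f) : ℕ) := by
          rw [Nat.cast_ofNat]
          exact hcon.le
        exact_mod_cast this
      exact ord_key 2 (3 ^ l * f) i f N d (by norm_num) (by norm_num) (by omega) hd2 w hw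
        (Dvd.intro_left _ rfl) hf2 (not_dvd_of_order 2 f N (by norm_num) hcon') β hβ K0 A _ hρ0 hKA
        k hρ c hc x hD (fun j => hx2 j N) (hLN i hiL) h26
    · refine hord.trans ?_
      by_contra hcon
      push Not at hcon
      have hcon' : N ≤ orderOf ((3 : ℕ) : ZMod f) := by
        have : (N : ℝ) ≤ (orderOf ((3 : ℕ) : ZMod f) : ℕ) := by
          rw [Nat.cast_ofNat]
          exact hcon.le
        exact_mod_cast this
      exact ord_key 3 (2 ^ i * f) l f N d (by norm_num) le_rfl (by omega) hd3 w hw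
        (Dvd.intro_left _ rfl) hf3 (not_dvd_of_order 3 f N (by norm_num) hcon') β hβ K0 A _ hρ0 hKA
        k hρ c hc x hD (fun j => hx3 j N) (hLN l hlL) h26
  -- the numerical contradiction
  have hdr : (1 : ℝ) ≤ d := by exact_mod_cast hd1
  have hN1 : (1 : ℝ) ≤ N := by exact_mod_cast (by omega : 1 ≤ N)
  have hfr : (0 : ℝ) ≤ f := Nat.cast_nonneg f
  have hf1 : (f : ℝ) ≤ (N : ℝ) ^ (1 / κ) := by
    have h5 := Real.rpow_le_rpow (by positivity) hfN (by positivity : (0 : ℝ) ≤ 1 / κ)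
    rwa [← Real.rpow_mul hfr, mul_one_div_cancel hκ.ne', Real.rpow_one] at h5
  have h9 : (d : ℝ) ≤ 24 * (N : ℝ) ^ (2 + 1 / κ) := by
    have h10 : (d : ℝ) = 2 ^ i * (3 ^ l * f) := by
      rw [hd2]
      push_cast
      ring
    have h11 : (2 : ℝ) ^ i ≤ 8 * N := by exact_mod_cast h8.le
    have h12 : (3 : ℝ) ^ l ≤ 3 * N := by exact_mod_cast h3.le
    calc (d : ℝ) = 2 ^ i * (3 ^ l * f) := h10
      _ ≤ 8 * N * (3 * N * (N : ℝ) ^ (1 / κ)) := by gcongr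
      _ = 24 * ((N : ℝ) ^ (2 : ℝ) * (N : ℝ) ^ (1 / κ)) := by
        rw [Real.rpow_ofNat]
        ring
      _ = 24 * (N : ℝ) ^ (2 + 1 / κ) := by rw [← Real.rpow_add (by linarith)]
  have hN3 : (N : ℝ) ^ (2 + 1 / κ) ≤ C ^ (2 + 1 / κ) * (d : ℝ) ^ ((1 : ℝ) / 2) := by
    calc (N : ℝ) ^ (2 + 1 / κ) ≤ (C * (d : ℝ) ^ α) ^ (2 + 1 / κ) := by
          apply Real.rpow_le_rpow (by positivity) hNC (by positivity)
      _ = C ^ (2 + 1 / κ) * (d : ℝ) ^ (α * (2 + 1 / κ)) := by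
        rw [Real.mul_rpow (by positivity) (by positivity), ← Real.rpow_mul (by positivity)]
      _ ≤ C ^ (2 + 1 / κ) * (d : ℝ) ^ ((1 : ℝ) / 2) := by
        gcongr
  have h12 : (d : ℝ) = (d : ℝ) ^ ((1 : ℝ) / 2) * (d : ℝ) ^ ((1 : ℝ) / 2) := by
    rw [← Real.rpow_add (by positivity)]
    norm_num
  have h13 : (0 : ℝ) < (d : ℝ) ^ ((1 : ℝ) / 2) := by positivity
  have h14 : (d : ℝ) ^ ((1 : ℝ) / 2) ≤ 24 * C ^ (2 + 1 / κ) := by
    have h15 : (d : ℝ) ^ ((1 : ℝ) / 2) * (d : ℝ) ^ ((1 : ℝ) / 2) ≤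
        24 * C ^ (2 + 1 / κ) * (d : ℝ) ^ ((1 : ℝ) / 2) := by
      rw [← h12]
      refine h9.trans ?_
      calc 24 * (N : ℝ) ^ (2 + 1 / κ) ≤ 24 * (C ^ (2 + 1 / κ) * (d : ℝ) ^ ((1 : ℝ) / 2)) := by
            gcongr
        _ = _ := by ring
    exact le_of_mul_le_mul_right h15 h13
  have h15 : (d : ℝ) ≤ (24 * C ^ (2 + 1 / κ)) ^ 2 := by
    rw [h12, sq]
    gcongr
  have h16 : (D1 : ℝ) ≤ d := by exact_mod_cast hdD1
  linarith

end Helper58.FH
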