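import Mathlib
import Pool.Agent.Helper58.FH.Ord
import Pool.Agent.Helper58.FH.Hor
import Pool.Agent.Helper58.FH.Maj
import Pool.Agent.Helper58.FH.Thin

set_option autoImplicit false
open MeasureTheory Filter Topology Metric Finset
open scoped ENNReal ComplexConjugate

/-! The finite horizon for smooth multipliers. -/

namespace Helper58.FH

open Helper58.FX (act UU ev ft Erg T sc PE)

lemma lowest (z : ℤ) (n : ℕ) (hn : 0 < n) :
    ∃ (w : ℤ) (P g : ℕ), 0 < g ∧ 0 < P ∧ z = w * g ∧ n = P * g ∧ IsCoprime (P : ℤ) w := by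
  have hg : 0 < Int.gcd z n := Int.gcd_pos_of_ne_zero_right _ (by exact_mod_cast hn.ne')
  obtain ⟨w, P', hcop, hz, hP⟩ := Int.exists_gcd_one hg
  have hgz : (0 : ℤ) < (Int.gcd z n : ℤ) := by exact_mod_cast hg
  have hP0 : 0 < P' := by
    by_contra hcon
    push Not at hcon
    have : (n : ℤ) ≤ 0 := by
      rw [hP]
      exact mul_nonpos_of_nonpos_of_nonneg hcon hgz.le
    omega
  refine ⟨w, P'.toNat, Int.gcd z n, hg, by omega, hz, ?_, ?_⟩
  · have : ((P'.toNat * Int.gcd z n : ℕ) : ℤ) = (n : ℤ) := by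
      push_cast
      rw [Int.toNat_of_nonneg hP0.le]
      exact hP.symm
    exact_mod_cast this.symm
  · rw [Int.toNat_of_nonneg hP0.le]
    exact (Int.isCoprime_iff_gcd_eq_one.2 hcop).symm

lemma side2 (P g D1 N : ℕ) (hP : 1 ≤ P) (hg : 1 ≤ g) (w : ℤ) (hw : IsCoprime (P : ℤ) w)
    (hD1 : D1 ∣ P) (hcop : Nat.Coprime D1 g)
    (hord : ∀ j, 0 < j → j < N → ¬ D1 ∣ g ^ j - 1) (γ : ℝ)
    (hγ : (g : ℝ) ^ N * |γ| * P ≤ 1) (A : Finset Tor) (y y' : Tor)
    (hD : y - y' = ((w / P + γ : ℝ) : Tor)) (ρ : ℝ) (hρ : ρ * P ≤ 1)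
    (hy : 8 * bad g 0 N (⋃ a ∈ A, closedBall a ρ) y ≤ N)
    (hy' : 8 * bad g 0 N (⋃ a ∈ A, closedBall a ρ) y' ≤ N)
    (hN : 52 * A.card ^ 2 < 3 * N) : False := by
  classical
  have hPr : (0 : ℝ) < P := by exact_mod_cast hP
  have hgr : (1 : ℝ) ≤ g := by exact_mod_cast hg
  set U : Set Tor := ⋃ a ∈ A, closedBall a ρ with hU
  set S : Finset ℕ := (range N).filter
    (fun t => g ^ (0 + t) • y ∈ U ∧ g ^ (0 + t) • y' ∈ U) with hS
  have h1 : range N ⊆ S ∪ (range N).filter (fun t => g ^ (0 + t) • y ∉ U) ∪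
      (range N).filter (fun t => g ^ (0 + t) • y' ∉ U) := by
    intro t ht
    simp only [hS, mem_union, mem_filter, ht, true_and]
    tauto
  have h2 : N ≤ S.card + bad g 0 N U y + bad g 0 N U y' := by
    have h3 := Finset.card_le_card h1
    rw [card_range] at h3
    refine h3.trans ((Finset.card_union_le _ _).trans ?_)
    gcongr
    · exact Finset.card_union_le _ _
    · exact le_rfl
  have hwD : IsCoprime (D1 : ℤ) w :=
    IsCoprime.of_isCoprime_of_dvd_left hw (Int.natCast_dvd_natCast.2 hD1)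
  have h3 : S.card ≤ 13 * A.card ^ 2 := by
    refine core P N hP (fun t => w * g ^ (t + 0)) (fun t => g ^ (0 + t) • (y - y')) A
      (fun t ht t' ht' hd => distinct D1 g hg w hwD hcop N 0 hord t ht t' ht'
        ((Int.natCast_dvd_natCast.2 hD1).trans hd)) ?_ S (Finset.filter_subset _ _) ?_
    · intro t ht
      have e : g ^ (0 + t) • (y - y') - (((w * g ^ (t + 0) : ℤ) / P : ℝ) : Tor) =
          (((g : ℝ) ^ t * γ : ℝ) : Tor) := by
        rw [hD, ← AddCircle.coe_nsmul, ← AddCircle.coe_sub]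
        congr 1
        rw [nsmul_eq_mul, zero_add, add_zero]
        push_cast
        field_simp
        ring
      rw [e]
      refine (norm_coe_le _).trans ?_
      rw [abs_mul, abs_of_pos (by positivity), le_div_iff₀ hPr]
      refine le_trans ?_ hγ
      gcongr
    · intro t ht
      rw [hS, mem_filter] at ht
      obtain ⟨_, ha, ha'⟩ := ht
      rw [hU, Set.mem_iUnion₂] at ha ha'
      obtain ⟨a, haA, ha⟩ := ha
      obtain ⟨a', haA', ha'⟩ := ha'
      rw [mem_closedBall, dist_eq_norm] at ha ha'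
      refine ⟨a, haA, a', haA', ?_⟩
      have e : g ^ (0 + t) • (y - y') - (a - a') =
          (g ^ (0 + t) • y - a) - (g ^ (0 + t) • y' - a') := by
        rw [smul_sub]
        abel
      rw [e]
      refine (norm_sub_le _ _).trans ?_
      rw [le_div_iff₀ hPr]
      nlinarith only [hρ, ha, ha']
  omega

lemma side3 (A : Finset Tor) (ρ : ℝ) (hρ : 0 ≤ ρ) (m0 : ℕ) (c : ℤ → ℂ) (δ : ℝ)
    (hmaj : ∀ x : Tor, (VV A ρ 2 1).indicator (fun _ => (1 : ℝ)) x ≤
        (∑ m ∈ Finset.Icc (-(m0 : ℤ)) m0, c m * fourier m x).re)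
    (hno : ∀ z : ℤ → ℂ, z 0 = 1 → (∀ m, z (-m) = conj (z m)) →
        (∀ m : ℕ, 1 ≤ m → m ≤ m0 → ‖z m‖ < δ) →
        (∑ m ∈ Finset.Icc (-(m0 : ℤ)) m0, c m * z m).re < 1 / 2)
    (M : ℕ) (hM : 1 ≤ M) (x x' : Tor) (q : Tor) (θ : ℝ)
    (hav : ∀ m : ℕ, 1 ≤ m → m ≤ m0 → ‖av m M q‖ < δ / 2)
    (hq : x - x' = q + ((θ : ℝ) : Tor)) (hθ : 2 * Real.pi * m0 * (2 ^ M * |θ|) ≤ δ / 2)
    (hx : 8 * bad 2 0 M (⋃ a ∈ A, closedBall a ρ) x ≤ M)
    (hx' : 8 * bad 2 0 M (⋃ a ∈ A, closedBall a ρ) x' ≤ M) : False := by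
  classical
  have hMr : (0 : ℝ) < M := by exact_mod_cast hM
  set U : Set Tor := ⋃ a ∈ A, closedBall a ρ with hU
  set z : ℤ → ℂ := fun m => (1 / M : ℂ) * ∑ t ∈ range M, (fourier m (2 ^ t • (x - x')) : ℂ) with hz
  have hlt := hno z ?_ ?_ ?_
  · set S : Finset ℕ := (range M).filter
      (fun t => 2 ^ (0 + t) • x ∈ U ∧ 2 ^ (0 + t) • x' ∈ U) with hS
    have h1 : range M ⊆ S ∪ (range M).filter (fun t => 2 ^ (0 + t) • x ∉ U) ∪
        (range M).filter (fun t => 2 ^ (0 + t) • x' ∉ U) := by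
      intro t ht
      simp only [hS, mem_union, mem_filter, ht, true_and]
      tauto
    have h2 : M ≤ S.card + bad 2 0 M U x + bad 2 0 M U x' := by
      have h3 := Finset.card_le_card h1
      rw [card_range] at h3
      refine h3.trans ((Finset.card_union_le _ _).trans ?_)
      gcongr
      · exact Finset.card_union_le _ _
      · exact le_rfl
    have h3 : 3 * M ≤ 4 * S.card := by omega
    have h4 : (S.card : ℝ) ≤ ∑ t ∈ range M,
        (VV A ρ 2 1).indicator (fun _ => (1 : ℝ)) (2 ^ t • (x - x')) := by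
      have h5 : ∀ t ∈ range M, (if t ∈ S then (1 : ℝ) else 0) ≤
          (VV A ρ 2 1).indicator (fun _ => (1 : ℝ)) (2 ^ t • (x - x')) := by
        intro t _
        by_cases htS : t ∈ S
        · rw [if_pos htS]
          have hm := (mem_filter.1 htS).2
          rw [zero_add] at hm
          have hV : 2 ^ t • (x - x') ∈ VV A ρ 2 1 := by
            have h5 := mem_VV A ρ hρ 2 1 ![1, -1] ?_ ![2 ^ t • x, 2 ^ t • x'] ?_
            · rw [Fin.sum_univ_two] at h5
              simp only [Matrix.cons_val_zero, Matrix.cons_val_one, one_smul, neg_smul] at h5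
              rw [← sub_eq_add_neg, ← smul_sub] at h5
              exact h5
            · intro i
              fin_cases i <;> simp
            · intro i
              fin_cases i
              · exact hm.1
              · exact hm.2
          rw [Set.indicator_of_mem hV]
        · rw [if_neg htS]
          exact Set.indicator_nonneg (fun _ _ => zero_le_one) _
      refine le_trans (le_of_eq ?_) (Finset.sum_le_sum h5)
      rw [← Finset.sum_filter, Finset.sum_const, nsmul_eq_mul, mul_one]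
      congr 2
      ext t
      simp only [hS, mem_filter]
      tauto
    have h5 : (∑ m ∈ Finset.Icc (-(m0 : ℤ)) m0, c m * z m).re = (1 / M : ℝ) * ∑ t ∈ range M,
        (∑ m ∈ Finset.Icc (-(m0 : ℤ)) m0, c m * fourier m (2 ^ t • (x - x'))).re := by
      have h6 : ∑ m ∈ Finset.Icc (-(m0 : ℤ)) m0, c m * z m = ((1 / M : ℝ) : ℂ) *
          ∑ t ∈ range M, ∑ m ∈ Finset.Icc (-(m0 : ℤ)) m0, c m * fourier m (2 ^ t • (x - x')) := by
        simp only [hz, Finset.mul_sum]
        rw [Finset.sum_comm]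
        refine Finset.sum_congr rfl fun s _ => Finset.sum_congr rfl fun m _ => ?_
        push_cast
        ring
      rw [h6, Complex.re_ofReal_mul, Complex.re_sum]
    have h6 : (1 / M : ℝ) * S.card ≤ (∑ m ∈ Finset.Icc (-(m0 : ℤ)) m0, c m * z m).re := by
      rw [h5]
      gcongr
      exact h4.trans (Finset.sum_le_sum fun t _ => hmaj _)
    have h7 : (3 : ℝ) * M ≤ 4 * S.card := by exact_mod_cast h3
    have h8 : (3 : ℝ) / 4 ≤ 1 / M * S.card := by
      rw [one_div, ← div_eq_inv_mul, le_div_iff₀ hMr]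
      linarith only [h7]
    linarith only [hlt, h6, h8]
  · rw [hz]
    simp only [fourier_zero, Finset.sum_const, card_range, nsmul_eq_mul, mul_one]
    have : (M : ℂ) ≠ 0 := by exact_mod_cast hMr.ne'
    field_simp
  · intro m
    rw [hz]
    simp only
    rw [map_mul, map_sum]
    congr 1
    · simp
    · exact Finset.sum_congr rfl fun t _ => fourier_neg
  · intro m hm1 hm2
    have e : z m = av m M (x - x') := rfl
    rw [e]
    have h1 : ‖av m M (x - x') - av m M q‖ ≤ δ / 2 := by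
      have e2 : av m M (x - x') - av m M q = (1 / M : ℂ) * ∑ t ∈ range M,
          ((fourier (m : ℤ) (2 ^ t • (x - x')) : ℂ) - fourier (m : ℤ) (2 ^ t • q)) := by
        unfold av
        rw [← mul_sub, Finset.sum_sub_distrib]
      rw [e2, norm_mul]
      have h2 : ‖(1 / M : ℂ)‖ = 1 / M := by
        rw [norm_div, norm_one, Complex.norm_natCast]
      have h3 : ∀ t ∈ range M, ‖(fourier (m : ℤ) (2 ^ t • (x - x')) : ℂ) -
          fourier (m : ℤ) (2 ^ t • q)‖ ≤ δ / 2 := by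
        intro t ht
        refine (fourier_lip _ _ _).trans (le_trans ?_ hθ)
        have e3 : 2 ^ t • (x - x') - 2 ^ t • q = ((2 ^ t * θ : ℝ) : Tor) := by
          rw [hq, smul_add, add_sub_cancel_left, ← AddCircle.coe_nsmul, nsmul_eq_mul]
          push_cast
          rfl
        have h4 : ‖2 ^ t • (x - x') - 2 ^ t • q‖ ≤ 2 ^ M * |θ| := by
          rw [e3]
          refine (norm_coe_le _).trans ?_
          rw [abs_mul, abs_of_pos (by positivity)]
          gcongr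
          · norm_num
          · exact (mem_range.1 ht).le
        have h5 : ((|(m : ℤ)| : ℤ) : ℝ) ≤ m0 := by
          have : |(m : ℤ)| ≤ m0 := by rw [abs_of_nonneg (by omega)]; exact_mod_cast hm2
          exact_mod_cast this
        gcongr
      have h4 := (norm_sum_le _ _).trans (Finset.sum_le_sum h3)
      rw [Finset.sum_const, card_range, nsmul_eq_mul] at h4
      rw [h2]
      calc 1 / (M : ℝ) * _ ≤ 1 / (M : ℝ) * (M * (δ / 2)) := by gcongr
        _ = δ / 2 := by field_simp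
    have h2 := hav m hm1 hm2
    have h3 : ‖av m M (x - x')‖ ≤ ‖av m M (x - x') - av m M q‖ + ‖av m M q‖ := by
      have := norm_add_le (av m M (x - x') - av m M q) (av m M q)
      rwa [sub_add_cancel] at this
    linarith only [h1, h2, h3]

/-- the product of the odd numbers up to `P` -/
lemma odd_prod (P : ℕ) : ∃ b : ℕ, Odd b ∧ ∀ p : ℕ, p.Prime → p ≤ P → Nat.Coprime p 2 → p ∣ b := by
  classical
  refine ⟨∏ k ∈ (range (P + 1)).filter Odd, k, ?_, ?_⟩
  · rw [← Nat.coprime_two_left]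
    refine Nat.Coprime.prod_right fun k hk => ?_
    exact Nat.coprime_two_left.2 (mem_filter.1 hk).2
  · intro p hp hpP hp2
    refine Finset.dvd_prod_of_mem (fun k => k) ?_
    rw [mem_filter, mem_range]
    exact ⟨by omega, Nat.coprime_two_right.1 hp2⟩

variable {μ : Measure Tor}

/-- **The finite horizon for smooth multipliers.** -/
theorem smooth [IsProbabilityMeasure μ] (h2 : MeasurePreserving (T 2) μ μ)
    (h3 : MeasurePreserving (T 3) μ μ) (hE : Erg (ft μ)) (hne : ∃ n : ℤ, n ≠ 0 ∧ ft μ n ≠ 0)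
    (P0 : ℕ) (ε : ℝ) (hε : 0 < ε) :
    ∃ q0 : ℕ, ∀ B : ℕ, ∃ S0 : ℕ, ∀ S, S0 ≤ S → ∃ K : Set Tor, IsClosed K ∧ 1 - ε ≤ μ.real K ∧
      ∀ x ∈ K, ∀ y ∈ K, ∀ r : ℝ, 0 < r → (S : ℝ) ≤ (Real.log (1 / r)) ^ B →
        ∀ s : ℕ, 0 < s → s ≤ S → (∀ p : ℕ, p.Prime → p ∣ s → p ≤ P0) →
          ‖s • (x - y)‖ ≤ s * r →
          ∃ q : ℕ, 0 < q ∧ q ≤ q0 ∧ Nat.Coprime q 6 ∧ q ∣ s ∧ ‖q • (x - y)‖ ≤ q * r := by
  classical
  -- the fixed thin set
  obtain ⟨A1, ρ1, hρ1, hsmall, hmass1⟩ := thin h2 h3 hE hne 2 1000 (min (ε / 64) 1) (by norm_num)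
    (by positivity)
  have hvol : (volume : Measure Tor) (VV A1 ρ1 2 1) < ENNReal.ofReal (1 / 4) := by
    refine (volume_VV A1 ρ1 hρ1.le 2 1).trans_lt ?_
    rw [ENNReal.ofReal_lt_ofReal_iff (by norm_num)]
    have h1 := min_le_right (ε / 64) (1 : ℝ)
    push_cast
    norm_num
    norm_num at hsmall
    nlinarith only [hsmall]
  have hmass1' : 1 - ε / 64 ≤ μ.real (⋃ a ∈ A1, closedBall a ρ1) := by
    have := min_le_left (ε / 64) (1 : ℝ)
    linarith
  obtain ⟨m0, cc, δ, hδ, hmaj, hno⟩ := majorant' _ (isClosed_VV A1 ρ1 2 1) hvol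
  -- orders
  obtain ⟨b, hb, hbp⟩ := odd_prod P0
  obtain ⟨c1, hc1, hord1⟩ := ordb b hb 1 le_rfl
  have hav : ∀ m : ℕ, ∃ q0 M0 : ℕ, 1 ≤ m → ∀ M : ℕ, M0 ≤ M → ∀ d : ℕ, q0 < d → d ≤ M →
      (∀ p : ℕ, p.Prime → p ∣ d → p ∣ b) → Nat.Coprime d 2 → ∀ w : ℤ, IsCoprime (d : ℤ) w →
        ‖av m M (((w / d : ℝ)) : Tor)‖ < δ / 2 := by
    intro m
    rcases Nat.eq_zero_or_pos m with rfl | hm
    · exact ⟨0, 0, fun h => by omega⟩
    · obtain ⟨q0, M0, h⟩ := av_small b hb m hm (δ / 2) (by positivity)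
      exact ⟨q0, M0, fun _ => h⟩
  choose q0f M0f hav using hav
  set q0 : ℕ := (range (m0 + 1)).sup q0f + 1 with hq0
  set M0 : ℕ := (range (m0 + 1)).sup M0f + 1 with hM0
  have hq0f : ∀ m ≤ m0, q0f m ≤ q0 := fun m hm =>
    Nat.le_succ_of_le (Finset.le_sup (f := q0f) (mem_range.2 (Nat.lt_succ_of_le hm)))
  have hM0f : ∀ m ≤ m0, M0f m ≤ M0 := fun m hm =>
    Nat.le_succ_of_le (Finset.le_sup (f := M0f) (mem_range.2 (Nat.lt_succ_of_le hm)))
  refine ⟨q0, fun B => ?_⟩
  rcases Nat.eq_zero_or_pos B with rfl | hB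
  · refine ⟨2, fun S hS => ⟨Set.univ, isClosed_univ, ?_, ?_⟩⟩
    · have h6 : μ.real Set.univ = 1 := probReal_univ
      rw [h6]; linarith only [hε]
    · intro x _ y _ r _ hS'
      have : (2 : ℝ) ≤ S := by exact_mod_cast hS
      rw [pow_zero] at hS'
      linarith only [hS', this]
  -- the fine covering
  obtain ⟨n0, hn0⟩ := covering h2 h3 hE hne (12 * B) (by omega) (ε / 64) (by positivity)
  obtain ⟨W1, hW1⟩ := exists_nat_gt (20 * ((m0 : ℝ) + 1) / δ)
  have h6n : 0 < 6 ^ n0 := by positivity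
  set W0 : ℕ := (62 + 6 * B) ^ 2 + (1000 * (c1 + 1)) ^ 2 + 4 * (M0 + 1) + 6 ^ n0 + W1 with hW0
  refine ⟨(W0 + 1) ^ B, fun S hS => ?_⟩
  have hS1 : 1 ≤ S := le_trans (Nat.one_le_pow _ _ (by omega)) hS
  have hSr : (1 : ℝ) ≤ S := by exact_mod_cast hS1
  -- the root of `S`
  obtain ⟨W, hWS, hSW, hWW0⟩ : ∃ W : ℕ, W ^ B ≤ S ∧ S < (W + 1) ^ B ∧ W0 ≤ W := by
    set W := Nat.findGreatest (fun w => w ^ B ≤ S) S with hW
    have hself : ∀ w : ℕ, w ≤ w ^ B := fun w => Nat.le_self_pow (by omega) w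
    have h1 : W ^ B ≤ S :=
      Nat.findGreatest_spec (P := fun w => w ^ B ≤ S) (m := 1) hS1 (by simpa using hS1)
    refine ⟨W, h1, ?_, ?_⟩
    · by_contra hcon
      push Not at hcon
      have h4 : W + 1 ≤ S := (hself _).trans hcon
      have h5 := Nat.le_findGreatest (P := fun w => w ^ B ≤ S) h4 hcon
      omega
    · have h4 : W0 ^ B ≤ S := (Nat.pow_le_pow_left (by omega) B).trans hS
      exact Nat.le_findGreatest (P := fun w => w ^ B ≤ S) ((hself _).trans h4) h4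
  have hWleS : W ≤ S := (Nat.le_self_pow (by omega) W).trans hWS
  set R := Real.sqrt ((W : ℝ) + 1) with hR
  have hRR : R ^ 2 = W + 1 := Real.sq_sqrt (by positivity)
  have hR0 : 0 ≤ R := Real.sqrt_nonneg _
  have hRB : (62 : ℝ) + 6 * B ≤ R := by
    apply Real.le_sqrt_of_sq_le
    have : (62 + 6 * B) ^ 2 ≤ W + 1 := by omega
    exact_mod_cast this
  have hRc : 1000 * ((c1 : ℝ) + 1) ≤ R := by
    apply Real.le_sqrt_of_sq_le
    have : (1000 * (c1 + 1)) ^ 2 ≤ W + 1 := by omega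
    exact_mod_cast this
  have hc1r : (1 : ℝ) ≤ c1 := by exact_mod_cast hc1
  have hR2 : (2000 : ℝ) ≤ R := by linarith only [hRc, hc1r]
  -- the scale
  obtain ⟨n, hn1, hn2⟩ : ∃ n, S ^ 3 ≤ 6 ^ n ∧ 6 ^ n ≤ 6 * S ^ 3 := by
    refine ⟨Nat.log 6 (S ^ 3) + 1, (Nat.lt_pow_succ_log_self (by norm_num) _).le, ?_⟩
    rw [pow_succ, mul_comm]
    exact Nat.mul_le_mul_left _ (Nat.pow_log_le_self 6 (by positivity))
  have hn0n : n0 ≤ n := by
    have h4 : 6 ^ n0 ≤ 6 ^ n := by
      calc 6 ^ n0 ≤ W := by omega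
        _ ≤ S := hWleS
        _ ≤ S ^ 3 := Nat.le_self_pow (by norm_num) S
        _ ≤ 6 ^ n := hn1
    exact (Nat.pow_le_pow_iff_right (by norm_num)).1 h4
  obtain ⟨A2, hA2, hmass2⟩ := hn0 n hn0n
  set a := A2.card ^ 2 with ha
  have haW : a ^ 2 ≤ 6 * (W + 1) := by
    by_contra hcon
    push Not at hcon
    have h4 : (a ^ 2) ^ (3 * B) ≤ 6 * ((W + 1) ^ B) ^ 3 := by
      rw [ha, ← pow_mul, ← pow_mul, show 2 * (2 * (3 * B)) = 12 * B by ring]
      refine (hA2.trans hn2).trans (Nat.mul_le_mul_left _ (Nat.pow_le_pow_left hSW.le 3))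
    have h5 : (6 * (W + 1)) ^ (3 * B) < (a ^ 2) ^ (3 * B) :=
      Nat.pow_lt_pow_left hcon (by omega)
    have h6 : 6 * ((W + 1) ^ B) ^ 3 ≤ (6 * (W + 1)) ^ (3 * B) := by
      rw [mul_pow, ← pow_mul, mul_comm B 3]
      exact Nat.mul_le_mul_right _ (Nat.le_self_pow (by omega) 6)
    omega
  have haR : (a : ℝ) ≤ 2.5 * R := by
    have h4 : (a : ℝ) ^ 2 ≤ (2.5 * R) ^ 2 := by
      rw [mul_pow, hRR]
      have : (a : ℝ) ^ 2 ≤ 6 * (W + 1) := by exact_mod_cast haW
      linarith only [this, (Nat.cast_nonneg W : (0 : ℝ) ≤ W)]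
    exact le_of_pow_le_pow_left₀ (by norm_num) (by positivity) h4
  set N := 20 * a + 1 with hN
  have hN1 : 1 ≤ N := by omega
  have hNR : (N : ℝ) ≤ 51 * R := by
    rw [hN]
    push_cast
    linarith only [haR, hR2]
  have hWR : (W : ℝ) = R ^ 2 - 1 := by linarith only [hRR]
  have hNS : 8 * N ≤ S := by
    have h4 : (8 : ℝ) * N ≤ W := by
      rw [hWR]
      nlinarith only [hNR, hR2, mul_nonneg (sub_nonneg.2 hR2) hR0]
    have h5 : 8 * N ≤ W := by exact_mod_cast h4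
    omega
  set M := W / 4 with hM
  have hM4 : (W : ℝ) ≤ 4 * M + 3 := by
    have : W ≤ 4 * M + 3 := by omega
    exact_mod_cast this
  have hMW : 4 * (M : ℝ) ≤ W := by
    have : 4 * M ≤ W := by omega
    exact_mod_cast this
  have hMM0 : M0 + 1 ≤ M := by omega
  have hM1 : 1 ≤ M := by omega
  have hNM : c1 * N ≤ M := by
    have h4 : (c1 : ℝ) * N ≤ M := by
      have h5 : (c1 : ℝ) * N ≤ c1 * (51 * R) := by gcongr
      have h6 := mul_le_mul_of_nonneg_right hRc hR0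
      nlinarith only [h5, h6, hM4, hWR, hR2, hR0, sq_nonneg R]
    exact_mod_cast h4
  set p := Nat.log 2 S with hp
  set q := Nat.log 3 S with hq
  have hp1 : 2 ^ p ≤ S := Nat.pow_log_le_self 2 (by omega)
  have hp2 : S < 2 ^ (p + 1) := Nat.lt_pow_succ_log_self (by norm_num) S
  have hq1 : 3 ^ q ≤ S := Nat.pow_log_le_self 3 (by omega)
  have hq2 : S < 3 ^ (q + 1) := Nat.lt_pow_succ_log_self (by norm_num) S
  set ρ : ℝ := 1 / (6 ^ n : ℕ) with hρ
  set U : Set Tor := ⋃ a ∈ A2, closedBall a ρ with hU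
  have hUc : IsClosed U := isClosed_biUnion_finset fun _ _ => isClosed_closedBall
  set U1 : Set Tor := ⋃ a ∈ A1, closedBall a ρ1 with hU1
  have hU1c : IsClosed U1 := isClosed_biUnion_finset fun _ _ => isClosed_closedBall
  have hm2 : ∀ n, MeasurePreserving (fun x : Tor => 2 ^ n • x) μ μ := by
    intro n
    have := mp_pow h2 h3 n 0
    simpa using this
  have hm3 : ∀ n, MeasurePreserving (fun x : Tor => 3 ^ n • x) μ μ := by
    intro n
    have := mp_pow h2 h3 0 n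
    simpa using this
  set T3 : Set Tor := {y | 8 * bad 3 0 N U y ≤ N} with hT3
  set T2 : Set Tor := {y | 8 * bad 2 0 N U y ≤ N} with hT2
  set T1 : Set Tor := {y | 8 * bad 2 0 M U1 y ≤ M} with hT1
  have hT3c : IsClosed T3 := bad_closed _ _ _ _ hUc
  have hT2c : IsClosed T2 := bad_closed _ _ _ _ hUc
  have hT1c : IsClosed T1 := bad_closed _ _ _ _ hU1c
  have hT3m : μ.real T3ᶜ ≤ 8 * (1 - μ.real U) := bad_mass 3 0 N hN1 hm3 U hUc
  have hT2m : μ.real T2ᶜ ≤ 8 * (1 - μ.real U) := bad_mass 2 0 N hN1 hm2 U hUc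
  have hT1m : μ.real T1ᶜ ≤ 8 * (1 - μ.real U1) := bad_mass 2 0 M hM1 hm2 U1 hU1c
  have hTc : IsClosed (T3 ∩ T2) := hT3c.inter hT2c
  have hTm : 1 - 16 * (1 - μ.real U) ≤ μ.real (T3 ∩ T2) := by
    have h4 : μ.real (T3 ∩ T2)ᶜ ≤ μ.real T3ᶜ + μ.real T2ᶜ := by
      rw [Set.compl_inter]
      exact measureReal_union_le _ _
    rw [probReal_compl_eq_one_sub hTc.measurableSet] at h4
    linarith only [h4, hT3m, hT2m]
  set Q := 2 ^ p * 3 ^ q with hQ
  have hQ1 : 1 ≤ Q := Nat.mul_pos (by positivity) (by positivity)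
  have hQr : (1 : ℝ) ≤ Q := by exact_mod_cast hQ1
  have hQS : Q ≤ S * S := Nat.mul_le_mul hp1 hq1
  have hQmp : MeasurePreserving (fun x : Tor => Q • x) μ μ := mp_pow h2 h3 p q
  have hGc : IsClosed ((fun x : Tor => Q • x) '' (T3 ∩ T2)) :=
    (hTc.isCompact.image (by fun_prop)).isClosed
  have hGm : 1 - 16 * (1 - μ.real U) ≤ μ.real ((fun x : Tor => Q • x) '' (T3 ∩ T2)) := by
    refine hTm.trans ?_
    have h4 : μ.real ((fun x : Tor => Q • x) ⁻¹' ((fun x : Tor => Q • x) '' (T3 ∩ T2))) =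
        μ.real ((fun x : Tor => Q • x) '' (T3 ∩ T2)) := by
      unfold Measure.real
      rw [hQmp.measure_preimage hGc.measurableSet.nullMeasurableSet]
    rw [← h4]
    exact measureReal_mono (Set.subset_preimage_image _ _) (measure_ne_top _ _)
  refine ⟨(fun x : Tor => Q • x) '' (T3 ∩ T2) ∩ T1, hGc.inter hT1c, ?_, ?_⟩
  · have h4 : μ.real ((fun x : Tor => Q • x) '' (T3 ∩ T2) ∩ T1)ᶜ ≤
        μ.real ((fun x : Tor => Q • x) '' (T3 ∩ T2))ᶜ + μ.real T1ᶜ := by
      rw [Set.compl_inter]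
      exact measureReal_union_le _ _
    rw [probReal_compl_eq_one_sub (hGc.inter hT1c).measurableSet,
      probReal_compl_eq_one_sub hGc.measurableSet] at h4
    linarith only [h4, hGm, hT1m, hmass1', hmass2, hε]
  rintro x ⟨⟨y, hy, rfl⟩, hx1⟩ x' ⟨⟨y', hy', rfl⟩, hx1'⟩ r hr hrS s hs0 hsS hsm hnorm
  simp only at hnorm hx1 hx1' ⊢
  rcases le_or_gt (1 / 2) r with hr2 | hr2
  · refine ⟨1, one_pos, by omega, by norm_num, one_dvd _, ?_⟩
    rw [one_smul, Nat.cast_one, one_mul]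
    refine le_trans ?_ hr2
    have := AddCircle.norm_le_half_period (1 : ℝ) one_ne_zero (x := Q • y - Q • y')
    simpa using this
  set Y := Real.log (1 / r) with hY
  have hY0 : 0 < Y := Real.log_pos (by rw [lt_div_iff₀ hr]; linarith only [hr2])
  have hYr : r = Real.exp (-Y) := by
    rw [hY, Real.log_div one_ne_zero hr.ne', Real.log_one, zero_sub, neg_neg, Real.exp_log hr]
  have hWY : (W : ℝ) ≤ Y := by
    have h4 : (W : ℝ) ^ B ≤ Y ^ B := le_trans (by exact_mod_cast hWS) hrS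
    exact le_of_pow_le_pow_left₀ (by omega) hY0.le h4
  have hrW : r ≤ Real.exp (-(W : ℝ)) := by
    rw [hYr]
    exact Real.exp_le_exp.2 (by linarith only [hWY])
  have hsr : (0 : ℝ) < s := by exact_mod_cast hs0
  have hQs : (0 : ℝ) < s * Q := by positivity
  obtain ⟨β, hβ, hβn⟩ := exists_rep (s • (Q • y - Q • y'))
  rw [← hβn] at hnorm
  set τ := rep (y - y') with hτ
  have hτc : ((τ : ℝ) : Tor) = y - y' := coe_rep _
  obtain ⟨z, hz⟩ : ∃ z : ℤ, (s : ℝ) * Q * τ - β = z := by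
    have h4 : (((s : ℝ) * Q * τ - β : ℝ) : Tor) = 0 := by
      rw [AddCircle.coe_sub, hβ, ← smul_sub Q, ← hτc, ← AddCircle.coe_nsmul,
        ← AddCircle.coe_nsmul, nsmul_eq_mul, nsmul_eq_mul, ← mul_assoc, sub_self]
    rw [AddCircle.coe_eq_zero_iff] at h4
    obtain ⟨z, hz⟩ := h4
    simp only [zsmul_eq_mul, mul_one] at hz
    exact ⟨z, hz.symm⟩
  have hγ : |β / (s * Q)| ≤ r := by
    rw [abs_div, abs_of_pos hQs, div_le_iff₀ hQs]
    calc |β| ≤ s * r := hnorm
      _ ≤ r * (s * Q) := by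
        nlinarith only [mul_nonneg (mul_nonneg hr.le hsr.le) (sub_nonneg.2 hQr)]
  obtain ⟨c, d, g1, hg1, hd0, hzc, hsd, hcop⟩ := lowest z s hs0
  obtain ⟨w, P, g0, hg0, hP0, hzw, hsQ, hcopP⟩ := lowest z (s * Q) (Nat.mul_pos hs0 hQ1)
  have hcross : w * (d * Q : ℕ) = c * P := by
    have h4 : (g1 : ℤ) * (w * (d * Q : ℕ)) * g0 = (g1 : ℤ) * (c * P) * g0 := by
      have e1 : ((s * Q : ℕ) : ℤ) = P * g0 := by rw [hsQ]; push_cast; ring
      have e2 : ((s : ℕ) : ℤ) = d * g1 := by rw [hsd]; push_cast; ring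
      calc (g1 : ℤ) * (w * (d * Q : ℕ)) * g0 = (w * g0) * ((d * g1) * Q) := by push_cast; ring
        _ = z * (s * Q : ℕ) := by rw [← hzw, ← e2]; push_cast; ring
        _ = (c * g1) * (P * g0) := by rw [hzc, e1]
        _ = _ := by ring
    have hg0' : (g0 : ℤ) ≠ 0 := by exact_mod_cast hg0.ne'
    have hg1' : (g1 : ℤ) ≠ 0 := by exact_mod_cast hg1.ne'
    exact mul_left_cancel₀ hg1' (mul_right_cancel₀ hg0' h4)
  have hPS : P ≤ S ^ 3 := by
    have h4 : P ≤ s * Q := by rw [hsQ]; exact Nat.le_mul_of_pos_right _ hg0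
    calc P ≤ s * Q := h4
      _ ≤ S * (S * S) := Nat.mul_le_mul hsS hQS
      _ = S ^ 3 := by ring
  have hρP : ρ * P ≤ 1 := by
    rw [hρ, one_div, inv_mul_le_iff₀ (by positivity), mul_one]
    exact_mod_cast hPS.trans hn1
  have hDy : y - y' = ((w / P + β / (s * Q) : ℝ) : Tor) := by
    rw [← hτc]
    congr 1
    have hPr : (P : ℝ) ≠ 0 := by exact_mod_cast hP0.ne'
    have hgr : (g0 : ℝ) ≠ 0 := by exact_mod_cast hg0.ne'
    have e1 : (s : ℝ) * Q = P * g0 := by exact_mod_cast hsQ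
    have e2 : (z : ℝ) = w * g0 := by exact_mod_cast hzw
    have e3 : τ = (z + β) / (s * Q) := by
      rw [eq_div_iff hQs.ne']
      linarith only [hz]
    rw [e3, add_div, e2]
    congr 1
    rw [e1, mul_div_mul_right _ _ hgr]
  -- the bound for the error
  have hlog3 : Real.log 3 ≤ 1.1 := by
    have h4 : Real.log 3 < 1.1 := by
      rw [Real.log_lt_iff_lt_exp (by norm_num)]
      have h5 : (1.1 : ℝ) = 1 + 0.1 := by norm_num
      rw [h5, Real.exp_add]
      have h6 := Real.exp_one_gt_d9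
      have h9 := Real.quadratic_le_exp_of_nonneg (show (0 : ℝ) ≤ 1 / 10 by norm_num)
      norm_num at h6 h9 ⊢
      nlinarith only [h6, h9]
    exact h4.le
  have herr : (3 : ℝ) ^ N * |β / (s * Q)| * P ≤ 1 := by
    have h4 : (3 : ℝ) ^ N * (((W : ℝ) + 1) ^ B) ^ 3 ≤ Real.exp W := by
      rw [← Real.log_le_iff_le_exp (by positivity), Real.log_mul (by positivity) (by positivity),
        Real.log_pow, Real.log_pow, Real.log_pow, ← hRR, Real.log_pow]
      have h5 : Real.log R ≤ R := (Real.log_le_sub_one_of_pos (by linarith only [hR2])).trans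
        (by linarith only [hR2])
      have h6 : (N : ℝ) * Real.log 3 ≤ 51 * R * 1.1 := by
        have : 0 ≤ Real.log 3 := Real.log_nonneg (by norm_num)
        gcongr
      have h7 : (B : ℝ) * Real.log R ≤ B * R := by gcongr
      push_cast
      rw [hWR]
      have h8 : ((62 : ℝ) + 6 * B) * R ≤ R ^ 2 := by
        rw [sq]; gcongr
      nlinarith only [h6, h7, h8, hR2]
    have h5 : (P : ℝ) ≤ (((W : ℝ) + 1) ^ B) ^ 3 := by
      have h6 : P ≤ ((W + 1) ^ B) ^ 3 := hPS.trans (Nat.pow_le_pow_left hSW.le 3)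
      exact_mod_cast h6
    calc (3 : ℝ) ^ N * |β / (s * Q)| * P ≤
          3 ^ N * Real.exp (-(W : ℝ)) * (((W : ℝ) + 1) ^ B) ^ 3 := by
          gcongr
          exact hγ.trans hrW
      _ = (3 ^ N * (((W : ℝ) + 1) ^ B) ^ 3) * Real.exp (-(W : ℝ)) := by ring
      _ ≤ Real.exp W * Real.exp (-(W : ℝ)) := by gcongr
      _ = 1 := by rw [← Real.exp_add]; simp
  have herr2 : ((2 : ℕ) : ℝ) ^ N * |β / (s * Q)| * P ≤ 1 := by
    refine le_trans ?_ herr
    gcongr
    norm_num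
  have h52 : 52 * A2.card ^ 2 < 3 * N := by omega
  have hd2 : Nat.Coprime d 2 := by
    rw [Nat.coprime_two_right, ← Nat.not_even_iff_odd, even_iff_two_dvd]
    intro h2d
    have hc2 : IsCoprime ((2 ^ (p + 1) : ℕ) : ℤ) c := by
      push_cast
      apply IsCoprime.pow_left
      exact IsCoprime.of_isCoprime_of_dvd_left hcop (by exact_mod_cast Int.natCast_dvd_natCast.2 h2d)
    have hdP : 2 ^ (p + 1) ∣ P := by
      have h4 : 2 ^ (p + 1) ∣ d * Q := by
        rw [pow_succ, mul_comm d, hQ]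
        exact Nat.mul_dvd_mul (Dvd.intro _ rfl) h2d
      have h5 : ((2 ^ (p + 1) : ℕ) : ℤ) ∣ c * P := by
        rw [← hcross]
        exact (Int.natCast_dvd_natCast.2 h4).mul_left _
      exact Int.natCast_dvd_natCast.1 (hc2.dvd_of_dvd_mul_left h5)
    refine side2 P 3 (2 ^ (p + 1)) N hP0 (by norm_num) w hcopP hdP
      (Nat.Coprime.pow_left _ (by norm_num)) ?_ (β / (s * Q)) (by exact_mod_cast herr) A2 y y' hDy ρ
      hρP hy.1 hy'.1 h52
    intro j hj0 hjN hdj
    have h5 := n2 1 le_rfl (p + 1) j (by rwa [one_mul])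
    have h6 := Nat.le_of_dvd (by positivity) h5
    omega
  have hd3 : Nat.Coprime d 3 := by
    rw [Nat.coprime_comm, Nat.Prime.coprime_iff_not_dvd Nat.prime_three]
    intro h3d
    have hc3 : IsCoprime ((3 ^ (q + 1) : ℕ) : ℤ) c := by
      push_cast
      apply IsCoprime.pow_left
      exact IsCoprime.of_isCoprime_of_dvd_left hcop (by exact_mod_cast Int.natCast_dvd_natCast.2 h3d)
    have hdP : 3 ^ (q + 1) ∣ P := by
      have h4 : 3 ^ (q + 1) ∣ d * Q := by
        rw [pow_succ, mul_comm d, hQ]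
        exact Nat.mul_dvd_mul (Dvd.intro_left _ rfl) h3d
      have h5 : ((3 ^ (q + 1) : ℕ) : ℤ) ∣ c * P := by
        rw [← hcross]
        exact (Int.natCast_dvd_natCast.2 h4).mul_left _
      exact Int.natCast_dvd_natCast.1 (hc3.dvd_of_dvd_mul_left h5)
    refine side2 P 2 (3 ^ (q + 1)) N hP0 (by norm_num) w hcopP hdP
      (Nat.Coprime.pow_left _ (by norm_num)) ?_ (β / (s * Q)) herr2 A2 y y' hDy ρ
      hρP hy.2 hy'.2 h52
    intro j hj0 hjN hdj
    have h5 := n3 (q + 1) j hdj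
    have h6 := Nat.le_of_dvd (by positivity) h5
    omega
  have hdpr : ∀ p : ℕ, p.Prime → p ∣ d → p ∣ b := by
    intro p hp hpd
    refine hbp p hp (hsm p hp (hpd.trans ?_)) (Nat.Coprime.coprime_dvd_left hpd hd2)
    rw [hsd]
    exact Dvd.intro _ rfl
  have hdM : d ≤ M := by
    by_contra hcon
    push Not at hcon
    have hdP : d ∣ P := by
      have h5 : ((d : ℕ) : ℤ) ∣ c * P := by
        rw [← hcross]
        push_cast
        exact (Dvd.intro _ rfl : (d : ℤ) ∣ d * (Q : ℤ)).mul_left _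
      exact Int.natCast_dvd_natCast.1 (hcop.dvd_of_dvd_mul_left h5)
    refine side2 P 2 d N hP0 (by norm_num) w hcopP hdP hd2 ?_ (β / (s * Q)) herr2 A2 y y' hDy ρ
      hρP hy.2 hy'.2 h52
    intro j hj0 hjN hdj
    have h5 := hord1 d j hd0 hdpr (by rwa [one_mul])
    have h6 := Nat.le_of_dvd (Nat.mul_pos hc1 hj0) h5
    have h7 : c1 * j ≤ c1 * N := Nat.mul_le_mul_left _ hjN.le
    omega
  -- the difference of the points
  have hdr : (0 : ℝ) < d := by exact_mod_cast hd0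
  have hDx : Q • y - Q • y' = ((c / d : ℝ) : Tor) + ((β / s : ℝ) : Tor) := by
    rw [← smul_sub, ← hτc, ← AddCircle.coe_nsmul, nsmul_eq_mul, ← AddCircle.coe_add]
    congr 1
    have hgr : (g1 : ℝ) ≠ 0 := by exact_mod_cast hg1.ne'
    have e1 : (s : ℝ) = d * g1 := by exact_mod_cast hsd
    have e2 : (z : ℝ) = c * g1 := by exact_mod_cast hzc
    have e3 : (Q : ℝ) * τ = (z + β) / s := by
      rw [eq_div_iff hsr.ne']
      linarith only [hz]
    rw [e3, add_div, e2]
    congr 1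
    rw [e1, mul_div_mul_right _ _ hgr]
  have hβs : |β / s| ≤ r := by
    rw [abs_div, abs_of_pos hsr, div_le_iff₀ hsr]
    linarith only [hnorm]
  have hdq : d ≤ q0 := by
    by_contra hcon
    push Not at hcon
    refine side3 A1 ρ1 hρ1.le m0 cc δ hmaj hno M hM1 (Q • y) (Q • y') ((c / d : ℝ) : Tor) (β / s)
      ?_ hDx ?_ hx1 hx1'
    · intro m hm1 hm2
      have hM0M : M0 ≤ M := by omega
      exact hav m hm1 M ((hM0f m hm2).trans hM0M) d (lt_of_le_of_lt (hq0f m hm2) hcon) hdM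
        hdpr hd2 c hcop
    · have h4 : (2 : ℝ) ^ M ≤ Real.exp M := by
        have h5 : (2 : ℝ) ≤ Real.exp 1 := by
          have := Real.add_one_le_exp (1 : ℝ)
          linarith only [this]
        calc (2 : ℝ) ^ M ≤ (Real.exp 1) ^ M := by gcongr
          _ = Real.exp M := by rw [← Real.exp_nat_mul, mul_one]
      have h5 : (2 : ℝ) ^ M * |β / s| ≤ Real.exp (-(3 * W / 4)) := by
        calc (2 : ℝ) ^ M * |β / s| ≤ Real.exp M * Real.exp (-(W : ℝ)) := by
              gcongr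
              exact hβs.trans hrW
          _ = Real.exp (M + -(W : ℝ)) := (Real.exp_add _ _).symm
          _ ≤ Real.exp (-(3 * W / 4)) := Real.exp_le_exp.2 (by linarith only [hMW])
      have h6 : Real.exp (-(3 * (W : ℝ) / 4)) ≤ 1 / (3 * W / 4 + 1) := by
        rw [Real.exp_neg, ← one_div]
        exact one_div_le_one_div_of_le (by (clear * -; positivity)) (Real.add_one_le_exp _)
      have h7 : 20 * ((m0 : ℝ) + 1) ≤ δ * W := by
        have h8 : (W1 : ℝ) ≤ W := by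
          have : W1 ≤ W := by omega
          exact_mod_cast this
        rw [div_lt_iff₀ hδ] at hW1
        calc 20 * ((m0 : ℝ) + 1) ≤ W1 * δ := hW1.le
          _ ≤ W * δ := mul_le_mul_of_nonneg_right h8 hδ.le
          _ = δ * W := mul_comm _ _
      have h8 : 2 * Real.pi * m0 * (1 / (3 * (W : ℝ) / 4 + 1)) ≤ δ / 2 := by
        rw [mul_one_div, div_le_iff₀ (by (clear * -; positivity))]
        have h9 := Real.pi_lt_d2
        have h10 : (0 : ℝ) ≤ m0 := Nat.cast_nonneg _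
        have h11 := mul_le_mul_of_nonneg_right h9.le h10
        nlinarith only [h7, h11, h10, hδ]
      calc 2 * Real.pi * m0 * (2 ^ M * |β / s|) ≤
            2 * Real.pi * m0 * (1 / (3 * (W : ℝ) / 4 + 1)) := by
            gcongr
            exact h5.trans h6
        _ ≤ δ / 2 := h8
  refine ⟨d, hd0, hdq, ?_, ?_, ?_⟩
  · rw [show 6 = 2 * 3 by norm_num]
    exact Nat.Coprime.mul_right hd2 hd3
  · rw [hsd]
    exact Dvd.intro _ rfl
  · rw [hDx, ← AddCircle.coe_add, ← AddCircle.coe_nsmul, nsmul_eq_mul]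
    have e1 : (d : ℝ) * (c / d + β / s) = c + d * (β / s) := by
      field_simp
    rw [e1, AddCircle.coe_add, coe_int, zero_add]
    refine (norm_coe_le _).trans ?_
    rw [abs_mul, abs_of_pos hdr]
    gcongr

end Helper58.FH
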